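import Pool.Agent.Lib.MP_e87d84_an.SpecB

/-!
MP_e87d84_an : BETA (text II.2).
-/

set_option autoImplicit false

open Filter Topology

namespace Pool.Agent.MP_e87d84

open Dat

namespace BetaM

variable (P : Dat)

theorem ez_zr (i : ℕ) (j : Fin (P.M (i + 1))) (x : P.G (i + 1)) :
    P.ez i j (P.zr (i + 1) x) = P.τ (i + 1) j x := by
  rw [zr, ez_π]
  unfold ee
  rw [iot_apply_self, iot_apply_ne _ _ _ _ (show i ≠ i + 1 by omega), bc_put,
    if_pos ⟨rfl, le_rfl⟩, bc_zero]
  simp [dl, Pi.single_apply]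

theorem kg_apply (i : ℕ) (x : P.G (i + 1)) (z : P.Zt) :
    P.kg i x z = (1 / (P.M (i + 1) : ℝ)) * ∑ j, P.τ (i + 1) j x * P.ez i j z := by
  unfold kg
  rw [LinearMap.smul_apply, LinearMap.sum_apply, smul_eq_mul]
  rfl

theorem kg_zr (i : ℕ) (x : P.G (i + 1)) : P.kg i x (P.zr (i + 1) x) = 1 := by
  rw [kg_apply]
  simp only [ez_zr]
  have h : ∀ j, P.τ (i + 1) j x * P.τ (i + 1) j x = 1 := by
    intro j
    rw [← sq]
    exact P.τsq (i + 1) j x
  simp only [h]
  rw [Finset.sum_const, Finset.card_univ, Fintype.card_fin, nsmul_eq_mul, mul_one]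
  have hM : (P.M (i + 1) : ℝ) ≠ 0 := by
    have := P.hM (i + 1)
    positivity
  exact one_div_mul_cancel hM

theorem D_pos (i : ℕ) : 0 < P.D i := by
  unfold D
  have h1 := P.hd i
  have h2 := P.hd' i
  have h3 : (0 : ℝ) < P.d i := by exact_mod_cast h1
  have h4 : (0 : ℝ) < P.d' i := by exact_mod_cast h2
  positivity

theorem beta_incl (i : ℕ) : P.beta i P.Zp.subtypeL = 1 := by
  unfold beta
  have h : ∀ x : P.G (i + 1), P.kg i x (P.Zp.subtypeL (P.zrp (i + 1) x)) = 1 := fun x =>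
    kg_zr P i x
  simp only [h]
  rw [Finset.sum_const, Finset.card_univ, nsmul_eq_mul, mul_one]
  have hc : (Fintype.card (P.G (i + 1)) : ℝ) = P.D (i + 1) := by
    unfold D
    rw [Fintype.card_prod, Fintype.card_fin, Fintype.card_fin]
    push_cast
    rfl
  rw [hc]
  exact one_div_mul_cancel (D_pos P _).ne'

theorem beta_sub (i : ℕ) (S T : P.Zp →L[ℝ] P.Zt) : P.beta i (S - T) = P.beta i S - P.beta i T := by
  unfold beta
  rw [← mul_sub, ← Finset.sum_sub_distrib]
  congr 1
  refine Finset.sum_congr rfl fun x _ => ?_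
  rw [← map_sub]
  rfl

/-- the `i`-th step -/
noncomputable def a (i : ℕ) : ℝ := √(2 * (P.L (i + 1) : ℝ) + 1) * (P.θ i + P.ψ i)

theorem a_nonneg (i : ℕ) : 0 ≤ a P i := by
  have hω : ∀ i, 0 ≤ P.ω i := by
    intro i
    unfold ω
    have := (D_pos P i).le
    positivity
  unfold a θ ψ
  have h1 := P.hk (i + 1)
  have h2 := P.hk (i + 2)
  have h3 := hω (i + 1)
  have h4 := hω i
  have h5 := hω (i + 2)
  positivity

theorem tail_bound (htel : SpecTEL) (hfin : SpecFIN0) (hP : P.Good) (T : P.Zp →L[ℝ] P.Zt)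
    (hT : FiniteDimensional ℝ (LinearMap.range (T : P.Zp →ₗ[ℝ] P.Zt))) (i : ℕ) :
    |P.beta i T| ≤ ‖T‖ * ∑' k, a P (k + i) := by
  have hsum : Summable fun k => a P (k + i) := (summable_nat_add_iff i).2 hP.sum
  have h1 : ∀ m : ℕ, |P.beta i T - P.beta (m + i) T| ≤
      ‖T‖ * ∑ k ∈ Finset.range m, a P (k + i) := by
    intro m
    induction m with
    | zero => simp
    | succ m ih =>
      rw [Finset.sum_range_succ, mul_add]
      have h2 := htel P (m + i) T
      have e : m + 1 + i = m + i + 1 := by omega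
      rw [e]
      have h3 : |P.beta i T - P.beta (m + i + 1) T| ≤
          |P.beta i T - P.beta (m + i) T| + |P.beta (m + i + 1) T - P.beta (m + i) T| := by
        rw [abs_sub_comm (P.beta (m + i + 1) T)]
        exact abs_sub_le _ _ _
      refine h3.trans (add_le_add ih (h2.trans (le_of_eq ?_)))
      unfold a
      ring
  have h2 : ∀ m : ℕ, |P.beta i T - P.beta (m + i) T| ≤ ‖T‖ * ∑' k, a P (k + i) := fun m =>
    (h1 m).trans (mul_le_mul_of_nonneg_left
      (hsum.sum_le_tsum _ fun k _ => a_nonneg P _) (ContinuousLinearMap.opNorm_nonneg T))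
  have h3 : Tendsto (fun m : ℕ => |P.beta i T - P.beta (m + i) T|) atTop
      (𝓝 |P.beta i T - 0|) :=
    (((hfin P hP T hT).comp (tendsto_add_atTop_nat i)).const_sub _).abs
  rw [sub_zero] at h3
  exact le_of_tendsto' h3 h2

end BetaM

open BetaM

theorem specBETA (hkapg : SpecKAPG) (htel : SpecTEL) (hfin : SpecFIN0) : SpecBETA := by
  intro P hP A b' 𝓕 C hrank hC hlim
  set T : P.Zp →L[ℝ] P.Zt := P.Zp.subtypeL - A.comp P.Zp.subtypeL with hT
  -- `beta` of the weak limit
  have h1 : ∀ i, Tendsto (fun k => P.beta i (b' k)) 𝓕 (𝓝 (P.beta i T)) := by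
    intro i
    unfold beta
    refine Tendsto.const_mul _ (tendsto_finsetSum _ fun x _ => ?_)
    let φ : P.Zt →L[ℝ] ℝ := LinearMap.mkContinuous (P.kg i x) (2 + P.θ i) (fun z => by
      rw [Real.norm_eq_abs]
      exact (hkapg P i x).2 z)
    have h2 := hlim (P.zrp (i + 1) x) φ
    exact h2
  have h2 : ∀ i, |P.beta i T| ≤ C * ∑' k, a P (k + i) := by
    intro i
    refine le_of_tendsto (h1 i).abs (Filter.Eventually.of_forall fun k => ?_)
    refine (tail_bound P htel hfin hP (b' k) (hrank k) i).trans ?_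
    exact mul_le_mul_of_nonneg_right (hC k) (tsum_nonneg fun k => a_nonneg P _)
  have h3 : Tendsto (fun i => P.beta i T) atTop (𝓝 0) := by
    have h4 : Tendsto (fun i => C * ∑' k, a P (k + i)) atTop (𝓝 (C * 0)) :=
      (tendsto_sum_nat_add (fun k => a P k)).const_mul C
    rw [mul_zero] at h4
    exact squeeze_zero_norm (fun i => by rw [Real.norm_eq_abs]; exact h2 i) h4
  have h5 : ∀ i, P.beta i (A.comp P.Zp.subtypeL) = 1 - P.beta i T := by
    intro i
    rw [hT, beta_sub, beta_incl]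
    ring
  simp only [h5]
  have h6 := h3.const_sub 1
  rwa [sub_zero] at h6

end Pool.Agent.MP_e87d84
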