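import Pool.Agent.Lib.MP_e87d84_an.SpecB

/-!
MP_e87d84_an [TEL]: telescoping of Davie's trace functionals (text II.2).
-/

set_option autoImplicit false

open Filter Topology

namespace Pool.Agent.MP_e87d84

open Dat

namespace TelM

variable (P : Dat)

theorem D_pos (i : ℕ) : 0 < P.D i := by
  have h1 : (1 : ℝ) ≤ P.d i := by exact_mod_cast P.hd i
  have h2 : (1 : ℝ) ≤ P.d' i := by exact_mod_cast P.hd' i
  unfold Dat.D
  positivity

theorem card_G (i : ℕ) : (Fintype.card (P.G i) : ℝ) = P.D i := by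
  rw [Fintype.card_prod, Fintype.card_fin, Fintype.card_fin]
  push_cast
  rfl

theorem M_pos (i : ℕ) : (0 : ℝ) < P.M i := by
  have h1 : (1 : ℝ) ≤ P.M i := by exact_mod_cast P.hM i
  linarith

theorem ee_self (i : ℕ) (j : Fin (P.M (i + 1))) (x : P.G i → ℝ) :
    P.ee i j (P.iot i (P.L i) x) = ∑ y, P.σ i j y * x y := by
  unfold Dat.ee
  rw [iot_apply_self, iot_apply_ne _ _ _ _ (by omega : i + 1 ≠ i), bc_zero, bc_put,
    if_pos ⟨rfl, le_rfl⟩]
  simp

theorem ee_succ (i : ℕ) (j : Fin (P.M (i + 1))) (x : P.G (i + 1) → ℝ) :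
    P.ee i j (P.iot (i + 1) (P.L (i + 1)) x) = ∑ y, P.τ (i + 1) j y * x y := by
  unfold Dat.ee
  rw [iot_apply_self, iot_apply_ne _ _ _ _ (by omega : i ≠ i + 1), bc_zero, bc_put,
    if_pos ⟨rfl, le_rfl⟩]
  simp

theorem ee_ne (k i m : ℕ) (h1 : k ≠ i) (h2 : k + 1 ≠ i) (j : Fin (P.M (k + 1)))
    (x : P.G i → ℝ) : P.ee k j (P.iot i m x) = 0 := by
  unfold Dat.ee
  rw [iot_apply_ne _ _ _ _ h1, iot_apply_ne _ _ _ _ h2, bc_zero, bc_zero]
  simp

theorem bc_iot (i k m : ℕ) (x : P.G i → ℝ) (hm : m < P.L k) :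
    bc ((P.iot i (P.L i) x : P.K) k) m = 0 := by
  by_cases h : k = i
  · subst h
    rw [iot_apply_self, bc_put, if_neg (by omega)]
  · rw [iot_apply_ne _ _ _ _ h, bc_zero]

/-- the relation `w^{i+1}_j` -/
noncomputable def w (i : ℕ) (j : Fin (P.M (i + 1))) : P.K :=
  P.iot (i + 1) (P.L (i + 1)) ((1 / P.D (i + 1)) • P.τ (i + 1) j) -
    P.iot i (P.L i) ((1 / P.D i) • P.σ i j)

theorem sum_sq (i : ℕ) (c : P.G i → ℝ) (hc : ∀ x, c x ^ 2 = 1) :
    ∑ y, c y * ((1 / P.D i) • c) y = 1 := by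
  have h : ∀ y, c y * ((1 / P.D i) • c) y = 1 / P.D i := by
    intro y
    rw [Pi.smul_apply, smul_eq_mul]
    calc c y * (1 / P.D i * c y) = 1 / P.D i * c y ^ 2 := by ring
      _ = 1 / P.D i := by rw [hc, mul_one]
  rw [Finset.sum_congr rfl fun y _ => h y, Finset.sum_const, nsmul_eq_mul, Finset.card_univ,
    card_G, mul_one_div_cancel (D_pos P i).ne']

theorem sum_zero {i : ℕ} (a b : P.G i → ℝ) (s : ℝ) (h : ∑ y, b y * a y = 0) :
    ∑ y, a y * (s • b) y = 0 := by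
  have h1 : ∀ y, a y * (s • b) y = s * (b y * a y) := by
    intro y
    rw [Pi.smul_apply, smul_eq_mul]
    ring
  rw [Finset.sum_congr rfl fun y _ => h1 y, ← Finset.mul_sum, h, mul_zero]

theorem w_mem (i : ℕ) (j : Fin (P.M (i + 1))) : w P i j ∈ P.W0 := by
  refine ⟨fun k m hm => ?_, fun k j' => ?_⟩
  · show bc ((P.iot (i + 1) (P.L (i + 1)) ((1 / P.D (i + 1)) • P.τ (i + 1) j) -
      P.iot i (P.L i) ((1 / P.D i) • P.σ i j) : P.K) k) m = 0
    rw [lp.coeFn_sub, Pi.sub_apply, bc_sub, bc_iot P _ _ _ _ hm, bc_iot P _ _ _ _ hm, sub_zero]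
  · have h0 : P.ee k j' (w P i j) =
        P.ee k j' (P.iot (i + 1) (P.L (i + 1)) ((1 / P.D (i + 1)) • P.τ (i + 1) j)) -
        P.ee k j' (P.iot i (P.L i) ((1 / P.D i) • P.σ i j)) := by
      rw [← eeL_apply, ← eeL_apply, ← eeL_apply, w, map_sub]
    rw [h0]
    by_cases h1 : k = i
    · subst h1
      rw [ee_succ, ee_self]
      by_cases hj : j' = j
      · subst hj
        rw [sum_sq P _ _ (P.τsq (k + 1) j'), sum_sq P _ _ (P.σsq k j'), sub_self]
      · rw [sum_zero P _ _ _ (P.ττ (k + 1) j j' (fun h => hj h.symm)),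
          sum_zero P _ _ _ (P.σσ k j j' (fun h => hj h.symm)), sub_self]
    · by_cases h2 : k = i + 1
      · subst h2
        rw [ee_self, ee_ne P _ _ _ (by omega) (by omega), sub_zero]
        exact sum_zero P _ _ _ (P.τσ (i + 1) j j')
      · by_cases h3 : k + 1 = i
        · subst h3
          rw [ee_succ, ee_ne P _ _ _ (by omega) (by omega), zero_sub, neg_eq_zero]
          have h4 := P.τσ (k + 1) j' j
          refine sum_zero P _ _ _ ?_
          rw [← h4]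
          exact Finset.sum_congr rfl fun y _ => mul_comm _ _
        · rw [ee_ne P _ _ _ (by omega) (by omega), ee_ne P _ _ _ (by omega) (by omega), sub_self]

/-- combinations of the right end vectors -/
noncomputable def u (i : ℕ) (c : P.G i → ℝ) : P.Zp := ∑ x, c x • P.zrp i x

theorem sum_dl {ι : Type*} [Fintype ι] [DecidableEq ι] (c : ι → ℝ) :
    ∑ x, c x • (dl x : ι → ℝ) = c := by
  funext y
  rw [Finset.sum_apply, Finset.sum_eq_single y]
  · simp [dl]
  · intro x _ hx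
    simp [dl, hx.symm]
  · intro h
    exact absurd (Finset.mem_univ y) h

theorem coe_u (i : ℕ) (c : P.G i → ℝ) : (u P i c : P.Zt) = P.π (P.iot i (P.L i) c) := by
  have h : P.π (P.iot i (P.L i) (∑ x, c x • (dl x : P.G i → ℝ))) =
      ∑ x, c x • P.zr i x := by
    rw [map_sum, map_sum]
    refine Finset.sum_congr rfl fun x _ => ?_
    rw [map_smul, map_smul]
    rfl
  rw [sum_dl] at h
  rw [h, u]
  push_cast
  rfl

theorem u_rel (i : ℕ) (j : Fin (P.M (i + 1))) :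
    u P (i + 1) ((1 / P.D (i + 1)) • P.τ (i + 1) j) = u P i ((1 / P.D i) • P.σ i j) := by
  apply Subtype.ext
  rw [coe_u, coe_u, π_eq_iff]
  exact w_mem P i j

theorem T_u (i k : ℕ) (j : Fin (P.M (i + 1))) (c : P.G k → ℝ) (T : P.Zp →L[ℝ] P.Zt) :
    P.ez i j (T (u P k c)) = ∑ x, c x * P.ez i j (T (P.zrp k x)) := by
  rw [u, map_sum, map_sum]
  refine Finset.sum_congr rfl fun x _ => ?_
  rw [map_smul, map_smul, smul_eq_mul]

/-- the functional `Ψ_x` -/
noncomputable def Psi (i : ℕ) (x : P.G i) : P.Zt →ₗ[ℝ] ℝ :=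
  (1 / (P.M (i + 1) : ℝ)) • ∑ j, P.σ i j x • P.ez i j

theorem Psi_apply (i : ℕ) (x : P.G i) (z : P.Zt) :
    Psi P i x z = 1 / (P.M (i + 1) : ℝ) * ∑ j, P.σ i j x * P.ez i j z := by
  rw [Psi, LinearMap.smul_apply, LinearMap.sum_apply, smul_eq_mul]
  rfl

theorem kg_apply (i : ℕ) (x : P.G (i + 1)) (z : P.Zt) :
    P.kg i x z = 1 / (P.M (i + 1) : ℝ) * ∑ j, P.τ (i + 1) j x * P.ez i j z := by
  rw [Dat.kg, LinearMap.smul_apply, LinearMap.sum_apply, smul_eq_mul]
  rfl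

theorem beta_eq (i : ℕ) (T : P.Zp →L[ℝ] P.Zt) :
    P.beta i T = 1 / (P.M (i + 1) : ℝ) *
      ∑ j, P.ez i j (T (u P (i + 1) ((1 / P.D (i + 1)) • P.τ (i + 1) j))) := by
  rw [Dat.beta]
  simp_rw [kg_apply, T_u, Pi.smul_apply, smul_eq_mul]
  rw [← Finset.mul_sum, Finset.sum_comm, ← mul_assoc, mul_comm (1 / P.D (i + 1)), mul_assoc,
    Finset.mul_sum]
  congr 1
  refine Finset.sum_congr rfl fun j _ => ?_
  rw [Finset.mul_sum]
  refine Finset.sum_congr rfl fun x _ => ?_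
  ring

theorem swap {J X : Type*} [Fintype J] [Fintype X] (a b : ℝ) (s E : J → X → ℝ) :
    a * ∑ j, ∑ x, b * s j x * E j x = b * ∑ x, a * ∑ j, s j x * E j x := by
  simp_rw [Finset.mul_sum]
  rw [Finset.sum_comm]
  refine Finset.sum_congr rfl fun x _ => Finset.sum_congr rfl fun j _ => ?_
  ring

theorem beta_succ (i : ℕ) (T : P.Zp →L[ℝ] P.Zt) :
    P.beta (i + 1) T = 1 / P.D (i + 1) * ∑ x, Psi P (i + 1) x (T (P.zrp (i + 1) x)) := by
  rw [beta_eq]
  simp_rw [u_rel, Psi_apply, T_u, Pi.smul_apply, smul_eq_mul]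
  exact swap _ _ (fun j x => P.σ (i + 1) j x) (fun j x => P.ez (i + 1) j (T (P.zrp (i + 1) x)))

/-- kernel estimate -/
theorem ker_est {J X : Type*} [Fintype J] [Fintype X] (M κ : ℝ) (hM : 0 < M)
    (a : J → ℝ) (b : J → X → ℝ) (c : X → ℝ)
    (h : ∀ y, |∑ j, a j * b j y| ≤ κ * M ∨ c y = 0) :
    |1 / M * ∑ j, a j * ∑ y, b j y * c y| ≤ κ * ∑ y, |c y| := by
  have h1 : ∑ j, a j * ∑ y, b j y * c y = ∑ y, c y * ∑ j, a j * b j y := by
    simp_rw [Finset.mul_sum]
    rw [Finset.sum_comm]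
    refine Finset.sum_congr rfl fun y _ => Finset.sum_congr rfl fun j _ => ?_
    ring
  rw [h1, abs_mul, abs_of_pos (one_div_pos.2 hM)]
  have h2 : |∑ y, c y * ∑ j, a j * b j y| ≤ ∑ y, |c y| * (κ * M) := by
    refine (Finset.abs_sum_le_sum_abs _ _).trans (Finset.sum_le_sum fun y _ => ?_)
    rw [abs_mul]
    rcases h y with h3 | h3
    · exact mul_le_mul_of_nonneg_left h3 (abs_nonneg _)
    · rw [h3]
      simp
  calc 1 / M * |∑ y, c y * ∑ j, a j * b j y| ≤ 1 / M * ∑ y, |c y| * (κ * M) :=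
        mul_le_mul_of_nonneg_left h2 (one_div_pos.2 hM).le
    _ = κ * ∑ y, |c y| := by
        rw [← Finset.sum_mul]
        field_simp

theorem Psi_est (hK : SpecKB) (i : ℕ) (x : P.G i) (f : P.K) :
    |Psi P i x (P.π f) - bc (f i) (P.L i) x| ≤
      (P.k (i + 1) * P.ω (i + 1) + P.k i * P.ω i) * ‖f‖ := by
  classical
  have hM := M_pos P (i + 1)
  rw [Psi_apply]
  have h1 : ∀ j, P.σ i j x * P.ez i j (P.π f) =
      P.σ i j x * ∑ y, P.τ (i + 1) j y * bc (f (i + 1)) (P.L (i + 1)) y +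
      (P.σ i j x * ∑ y, P.σ i j y * (Function.update (bc (f i) (P.L i)) x 0) y +
        bc (f i) (P.L i) x) := by
    intro j
    rw [ez_π, Dat.ee, mul_add]
    congr 1
    have h2 : ∑ y, P.σ i j y * bc (f i) (P.L i) y =
        ∑ y, P.σ i j y * (Function.update (bc (f i) (P.L i)) x 0) y +
          P.σ i j x * bc (f i) (P.L i) x := by
      rw [← Finset.add_sum_erase _ (fun y => P.σ i j y * bc (f i) (P.L i) y) (Finset.mem_univ x),
        ← Finset.add_sum_erase _ (fun y => P.σ i j y *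
          (Function.update (bc (f i) (P.L i)) x 0) y) (Finset.mem_univ x),
        Function.update_self, mul_zero, zero_add, add_comm]
      congr 1
      refine Finset.sum_congr rfl fun y hy => ?_
      rw [Function.update_of_ne (Finset.ne_of_mem_erase hy)]
    rw [h2, mul_add]
    congr 1
    rw [← mul_assoc, ← sq, P.σsq, one_mul]
  simp_rw [h1, Finset.sum_add_distrib, mul_add]
  have h3 : 1 / (P.M (i + 1) : ℝ) * ∑ _j : Fin (P.M (i + 1)), bc (f i) (P.L i) x =
      bc (f i) (P.L i) x := by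
    rw [Finset.sum_const, Finset.card_univ, Fintype.card_fin, nsmul_eq_mul]
    field_simp
  rw [h3]
  have h4 := ker_est (P.M (i + 1) : ℝ) (P.k (i + 1)) hM (fun j => P.σ i j x)
    (fun j y => P.τ (i + 1) j y) (fun y => bc (f (i + 1)) (P.L (i + 1)) y)
    (fun y => Or.inl (P.kc i x y))
  have h5 := ker_est (P.M (i + 1) : ℝ) (P.k i) hM (fun j => P.σ i j x)
    (fun j y => P.σ i j y) (fun y => (Function.update (bc (f i) (P.L i)) x 0) y)
    (fun y => by
      by_cases hy : y = x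
      · right
        rw [hy, Function.update_self]
      · left
        exact P.kσ i x y (fun h => hy h.symm))
  have h6 : ∑ y, |(Function.update (bc (f i) (P.L i)) x 0) y| ≤ ∑ y, |bc (f i) (P.L i) y| := by
    refine Finset.sum_le_sum fun y _ => ?_
    by_cases hy : y = x
    · rw [hy, Function.update_self, abs_zero]
      exact abs_nonneg _
    · rw [Function.update_of_ne hy]
  have h7 := (hK P (i + 1)).2.2.2.2.1 f
  have h8 := (hK P i).2.2.2.2.1 f
  have h9 : P.k (i + 1) * ∑ y, |bc (f (i + 1)) (P.L (i + 1)) y| ≤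
      P.k (i + 1) * (P.ω (i + 1) * ‖f‖) := mul_le_mul_of_nonneg_left h7 (P.hk _)
  have h10 : P.k i * ∑ y, |(Function.update (bc (f i) (P.L i)) x 0) y| ≤
      P.k i * (P.ω i * ‖f‖) := mul_le_mul_of_nonneg_left (h6.trans h8) (P.hk _)
  have h11 : ∀ a b c : ℝ, a + (b + c) - c = a + b := fun a b c => by ring
  rw [h11]
  refine (abs_add_le _ _).trans ?_
  calc _ ≤ P.k (i + 1) * (P.ω (i + 1) * ‖f‖) + P.k i * (P.ω i * ‖f‖) :=
        add_le_add (h4.trans h9) (h5.trans h10)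
    _ = _ := by ring

theorem diff_est (hK : SpecKB) (hG : SpecKAPG) (i : ℕ) (x : P.G (i + 1)) (z : P.Zt) :
    |Psi P (i + 1) x z - P.kg i x z| ≤ (P.θ i + P.ψ i) * ‖z‖ := by
  apply le_of_forall_pos_le_add
  intro ε hε
  have hc : 0 ≤ P.θ i + P.ψ i := by
    have h1 : ∀ j, 0 ≤ P.ω j := fun j =>
      mul_nonneg (Real.rpow_nonneg (D_pos P j).le _) (Real.sqrt_nonneg _)
    have h2 := P.hk
    unfold Dat.θ Dat.ψ
    have := mul_nonneg (h2 (i + 1)) (add_nonneg (h1 (i + 1)) (h1 i))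
    have := mul_nonneg (h2 (i + 2)) (h1 (i + 2))
    have := mul_nonneg (h2 (i + 1)) (h1 (i + 1))
    linarith
  set c := P.θ i + P.ψ i with hcd
  obtain ⟨f, hf, hn⟩ := P.π_lift z (ε := ε / (c + 1)) (by positivity)
  have h1 := Psi_est P hK (i + 1) x f
  have h2 := (hG P i x).1 f
  rw [hf] at h1 h2
  have h3 : |Psi P (i + 1) x z - P.kg i x z| ≤ c * ‖f‖ := by
    have e : Psi P (i + 1) x z - P.kg i x z =
        (Psi P (i + 1) x z - bc (f (i + 1)) (P.L (i + 1)) x) -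
        (P.kg i x z - bc (f (i + 1)) (P.L (i + 1)) x) := by ring
    rw [e]
    refine (abs_sub _ _).trans ?_
    calc _ ≤ (P.k (i + 1 + 1) * P.ω (i + 1 + 1) + P.k (i + 1) * P.ω (i + 1)) * ‖f‖ +
          P.θ i * ‖f‖ := add_le_add h1 h2
      _ = c * ‖f‖ := by
          rw [hcd, Dat.ψ]
          ring
  refine h3.trans ?_
  calc c * ‖f‖ ≤ c * (‖z‖ + ε / (c + 1)) := mul_le_mul_of_nonneg_left hn.le hc
    _ = c * ‖z‖ + ε * (c / (c + 1)) := by ring
    _ ≤ c * ‖z‖ + ε * 1 := by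
        apply add_le_add_right
        apply mul_le_mul_of_nonneg_left _ hε.le
        rw [div_le_one (by positivity)]
        linarith
    _ = c * ‖z‖ + ε := by rw [mul_one]

theorem zrp_norm (hN : SpecNF) (hK : SpecKB) (i : ℕ) (x : P.G i) :
    ‖P.zrp i x‖ ≤ √(2 * (P.L i : ℝ) + 1) := by
  have h1 : ‖P.zrp i x‖ = ‖P.zr i x‖ := rfl
  rw [h1]
  refine (P.π_norm_le _).trans (((hK P i).1 (P.L i) le_rfl (dl x)).trans (le_of_eq ?_))
  rw [hN.2.2 (Fin (P.d i)) (Fin (P.d' i)) _ _ x (by linarith [one_le_p (P := P) i (P.L i)])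
    (by linarith [one_le_q (P := P) i (P.L i)]), mul_one]

end TelM

open TelM in
theorem specTEL (hN : SpecNF) (hK : SpecKB) (hG : SpecKAPG) : SpecTEL := by
  intro P i T
  have hD := D_pos P (i + 1)
  rw [beta_succ, Dat.beta, ← mul_sub, ← Finset.sum_sub_distrib, abs_mul,
    abs_of_pos (one_div_pos.2 hD)]
  have h1 : ∀ x, |Psi P (i + 1) x (T (P.zrp (i + 1) x)) - P.kg i x (T (P.zrp (i + 1) x))| ≤
      ‖T‖ * √(2 * (P.L (i + 1) : ℝ) + 1) * (P.θ i + P.ψ i) := by
    intro x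
    have hc : 0 ≤ P.θ i + P.ψ i := by
      have h1 : ∀ j, 0 ≤ P.ω j := fun j =>
        mul_nonneg (Real.rpow_nonneg (D_pos P j).le _) (Real.sqrt_nonneg _)
      have h2 := P.hk
      unfold Dat.θ Dat.ψ
      have := mul_nonneg (h2 (i + 1)) (add_nonneg (h1 (i + 1)) (h1 i))
      have := mul_nonneg (h2 (i + 2)) (h1 (i + 2))
      have := mul_nonneg (h2 (i + 1)) (h1 (i + 1))
      linarith
    refine (diff_est P hK hG i x _).trans ?_
    calc (P.θ i + P.ψ i) * ‖T (P.zrp (i + 1) x)‖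
        ≤ (P.θ i + P.ψ i) * (‖T‖ * √(2 * (P.L (i + 1) : ℝ) + 1)) := by
          apply mul_le_mul_of_nonneg_left _ hc
          exact (T.le_opNorm _).trans
            (mul_le_mul_of_nonneg_left (zrp_norm P hN hK (i + 1) x) (norm_nonneg _))
      _ = _ := by ring
  calc 1 / P.D (i + 1) * |∑ x, (Psi P (i + 1) x (T (P.zrp (i + 1) x)) -
        P.kg i x (T (P.zrp (i + 1) x)))|
      ≤ 1 / P.D (i + 1) * ∑ _x : P.G (i + 1),
        ‖T‖ * √(2 * (P.L (i + 1) : ℝ) + 1) * (P.θ i + P.ψ i) := by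
        apply mul_le_mul_of_nonneg_left _ (one_div_pos.2 hD).le
        exact (Finset.abs_sum_le_sum_abs _ _).trans (Finset.sum_le_sum fun x _ => h1 x)
    _ = _ := by
        rw [Finset.sum_const, nsmul_eq_mul, Finset.card_univ, card_G, ← mul_assoc,
          one_div_mul_cancel hD.ne', one_mul]

end Pool.Agent.MP_e87d84
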