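import Pool.Agent.Lib.MP_e87d84_an.SpecA

section
/-!
MP_e87d84_an, Part I: assembly.
-/
set_option autoImplicit false

open Filter Topology

namespace Pool.Agent.MP_e87d84

theorem specI (hcomp : SpecVCOMP) (hqr : SpecQRX) (hkap : SpecVKAP) (hvt : SpecVT)
    (hpb : SpecPB) (hwlp : SpecWLP) (hlim : SpecLIM2) : SpecI := by
  intro H Z _ _ _ D
  obtain ⟨Q⟩ := hqr Z D.Zn
  haveI : CompleteSpace (Vs D.Zn) := hcomp Z D.Zn D.fin
  haveI hUc : CompleteSpace (USub D Q) := by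
    have : IsClosed ((USub D Q : Submodule ℝ (Vs D.Zn)) : Set (Vs D.Zn)) :=
      D.closed.preimage Q.q.continuous
    exact this.completeSpace_coe
  obtain ⟨T, Hn, hmono, hfin, hTH, hid, ⟨C, hC⟩, hlimT, hZ'⟩ := hvt Z D Q
  set T' : ℕ → USub D Q →L[ℝ] USub D Q := fun n =>
    ((T n).comp (USub D Q).subtypeL).codRestrict (USub D Q) (fun u => hZ' n u u.2) with hT'
  have hT'v : ∀ n (u : USub D Q), ((T' n u : USub D Q) : Vs D.Zn) = T n u := fun n u => rfl
  set H' : ℕ → Submodule ℝ (USub D Q) := fun n => (Hn n).comap (USub D Q).subtype with hH'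
  have hfin' : ∀ n, FiniteDimensional ℝ (H' n) := by
    intro n
    haveI := hfin n
    let F : H' n →ₗ[ℝ] Hn n := ((USub D Q).subtype.comp (H' n).subtype).codRestrict (Hn n)
      (fun u => u.2)
    refine FiniteDimensional.of_injective F ?_
    intro u v huv
    have h1 : ((F u : Hn n) : Vs D.Zn) = ((F v : Hn n) : Vs D.Zn) := by rw [huv]
    exact Subtype.ext (Subtype.ext h1)
  have hpi : HasPi (USub D Q × lp (fun n => H' n) 2) := by
    refine hpb (USub D Q) T' H' ?_ hfin' ?_ ?_ ⟨C, fun n => ?_⟩ ?_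
    · intro a b hab u hu
      exact hmono hab hu
    · intro n u
      exact hTH n u
    · intro n m hnm u hu
      exact Subtype.ext (hid n m hnm u hu)
    · refine ContinuousLinearMap.opNorm_le_bound _ ((norm_nonneg _).trans (hC n)) fun u => ?_
      have h1 : ‖T' n u‖ = ‖T n (u : Vs D.Zn)‖ := rfl
      rw [h1]
      exact ((T n).le_opNorm _).trans (mul_le_mul_of_nonneg_right (hC n) (norm_nonneg _))
    · intro u
      rw [tendsto_subtype_rng]
      exact hlimT u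
  have hcpi := H _ hpi
  haveI : ∀ n, CompleteSpace (H' n) := fun n => by
    haveI := hfin' n
    exact FiniteDimensional.complete ℝ _
  obtain ⟨A, ξ, b', 𝓕, C', hA, hidem, hbf, hbb, hbl⟩ :=
    hlim Z D Q (lp (fun n => H' n) 2) (hwlp (fun n => H' n) hfin') hcpi
  exact ⟨⟨A, Q.q.comp ξ, b', 𝓕, C', hA, hidem, hbf, hbb, hbl,
    fun f C'' hf => hkap Z D.Zn Q D.fin ξ f C'' hf⟩⟩

end Pool.Agent.MP_e87d84
end

section
/-!
MP_e87d84_an, module LIM1: the limit of one finite rank operator.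
-/
set_option autoImplicit false

open Filter Topology

namespace Pool.Agent.MP_e87d84

namespace Lim1M

/-- in a finite dimensional space weak convergence is norm convergence -/
theorem tendsto_of_weak {W : Type*} [NormedAddCommGroup W] [NormedSpace ℝ W]
    [FiniteDimensional ℝ W] {ι : Type*} {F : Filter ι} {x : ι → W} {y : W}
    (h : ∀ φ : W →L[ℝ] ℝ, Tendsto (fun n => φ (x n)) F (𝓝 (φ y))) : Tendsto x F (𝓝 y) := by
  let e := (Module.finBasis ℝ W).equivFunL
  have h1 : Tendsto (fun n => e (x n)) F (𝓝 (e y)) := by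
    rw [tendsto_pi_nhds]
    intro i
    exact h ((ContinuousLinearMap.proj (R := ℝ) (φ := fun _ : Fin (Module.finrank ℝ W) => ℝ) i).comp
      (e : W →L[ℝ] (Fin (Module.finrank ℝ W) → ℝ)))
  have h2 := (e.symm.continuous.tendsto (e y)).comp h1
  simpa [Function.comp_def] using h2

section

variable {Z : Type} [NormedAddCommGroup Z] [NormedSpace ℝ Z]
  {Zn : ℕ → Submodule ℝ Z} (Q : QR Zn)

theorem q_R (l : ℕ) (v : Vs Zn) : Q.q (Q.R l v) = 0 := by
  have h1 := Q.hq (Q.R l v)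
  have h2 : Tendsto (Q.R l v).val atTop (𝓝 0) := by
    refine tendsto_atTop_of_eventually_const (i₀ := l + 1) ?_
    intro n hn
    rw [Q.hR, if_neg (by omega)]
  exact tendsto_nhds_unique h1 h2

theorem R_R {l m : ℕ} (h : l ≤ m) (v : Vs Zn) : Q.R l (Q.R m v) = Q.R l v := by
  apply Vs.ext'
  intro n
  rw [Q.hR, Q.hR, Q.hR]
  by_cases h1 : n ≤ l
  · rw [if_pos h1, if_pos h1, if_pos (by omega)]
  · rw [if_neg h1, if_neg h1]

theorem R_zero_of_le {l m : ℕ} (h : l ≤ m) {v : Vs Zn} (hv : Q.R m v = 0) : Q.R l v = 0 := by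
  rw [← R_R Q h, hv, map_zero]

end


section core

variable {Z : Type} [NormedAddCommGroup Z] [NormedSpace ℝ Z] [CompleteSpace Z]
  (D : ZD Z) (Q : QR D.Zn) {G : Type} [NormedAddCommGroup G] [NormedSpace ℝ G]
  {W : Type} [NormedAddCommGroup W] [NormedSpace ℝ W] [FiniteDimensional ℝ W]

theorem R_mem (l : ℕ) (v : Vs D.Zn) : Q.R l v ∈ USub D Q := by
  show Q.q (Q.R l v) ∈ D.Z'
  rw [q_R]
  exact D.Z'.zero_mem

theorem ker_mem (v : LinearMap.ker (Q.q : Vs D.Zn →ₗ[ℝ] Z)) : (v : Vs D.Zn) ∈ USub D Q := by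
  show Q.q v ∈ D.Z'
  have : Q.q v = 0 := v.2
  rw [this]
  exact D.Z'.zero_mem

/-- truncation into `U` -/
noncomputable def rU (l : ℕ) : Vs D.Zn →L[ℝ] USub D Q :=
  (Q.R l).codRestrict (USub D Q) (R_mem D Q l)

theorem rU_coe (l : ℕ) (v : Vs D.Zn) : ((rU D Q l v : USub D Q) : Vs D.Zn) = Q.R l v := rfl

/-- the kernel of `q` in `U` -/
noncomputable def kU : (LinearMap.ker (Q.q : Vs D.Zn →ₗ[ℝ] Z)) →L[ℝ] USub D Q :=
  (LinearMap.ker (Q.q : Vs D.Zn →ₗ[ℝ] Z)).subtypeL.codRestrict (USub D Q) (ker_mem D Q)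

theorem kU_coe (v) : ((kU D Q v : USub D Q) : Vs D.Zn) = v := rfl

theorem cauchy (hVTR : SpecVTR) (hVSHR : SpecVSHR) (p : USub D Q →L[ℝ] W) :
    ∀ ε > 0, ∃ N, ∀ m ≥ N, ∀ l ≥ N, ∀ v, ‖p (rU D Q m v) - p (rU D Q l v)‖ ≤ ε * ‖v‖ := by
  obtain ⟨hR2, -⟩ := hVTR Z D.Zn Q
  let e := (Module.finBasis ℝ W).equivFunL
  intro ε hε
  set c : ℝ := ‖(e.symm : (Fin (Module.finrank ℝ W) → ℝ) →L[ℝ] W)‖ + 1 with hc
  have hc0 : 0 < c := by positivity
  have hφ := fun i : Fin (Module.finrank ℝ W) => hVSHR Z D.Zn Q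
    (((ContinuousLinearMap.proj (R := ℝ) (φ := fun _ : Fin (Module.finrank ℝ W) => ℝ) i).comp
      (e : W →L[ℝ] (Fin (Module.finrank ℝ W) → ℝ))).comp
      (p.comp (kU D Q))) (ε / (8 * c)) (by positivity)
  choose l₀ hl₀ using hφ
  refine ⟨∑ i, l₀ i, ?_⟩
  have key : ∀ l ≥ ∑ i, l₀ i, ∀ m ≥ l, ∀ v,
      ‖p (rU D Q m v) - p (rU D Q l v)‖ ≤ ε / 2 * ‖v‖ := by
    intro l hl m hm v
    have hx : Q.R m v - Q.R l v ∈ LinearMap.ker (Q.q : Vs D.Zn →ₗ[ℝ] Z) := by
      rw [LinearMap.mem_ker]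
      show Q.q (Q.R m v - Q.R l v) = 0
      rw [map_sub, q_R, q_R, sub_zero]
    have h1 : p (rU D Q m v) - p (rU D Q l v) = p (kU D Q ⟨Q.R m v - Q.R l v, hx⟩) := by
      rw [← map_sub]
      rfl
    have h2 : ∀ i, |e (p (rU D Q m v) - p (rU D Q l v)) i| ≤ ε / (8 * c) * (4 * ‖v‖) := by
      intro i
      rw [h1]
      refine (hl₀ i ⟨Q.R m v - Q.R l v, hx⟩ ?_).trans ?_
      · have hli : l₀ i ≤ l :=
          (Finset.single_le_sum (fun _ _ => Nat.zero_le _) (Finset.mem_univ i)).trans hl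
        show Q.R (l₀ i) (Q.R m v - Q.R l v) = 0
        rw [map_sub, R_R Q (hli.trans hm), R_R Q hli, sub_self]
      · apply mul_le_mul_of_nonneg_left _ (by positivity)
        show ‖Q.R m v - Q.R l v‖ ≤ _
        calc ‖Q.R m v - Q.R l v‖ ≤ ‖Q.R m v‖ + ‖Q.R l v‖ := norm_sub_le _ _
          _ ≤ 2 * ‖v‖ + 2 * ‖v‖ := add_le_add (hR2 m v) (hR2 l v)
          _ = 4 * ‖v‖ := by ring
    have h3 : ‖e (p (rU D Q m v) - p (rU D Q l v))‖ ≤ ε / (8 * c) * (4 * ‖v‖) := by
      rw [pi_norm_le_iff_of_nonneg (by positivity)]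
      intro i
      exact h2 i
    calc ‖p (rU D Q m v) - p (rU D Q l v)‖
        = ‖e.symm (e (p (rU D Q m v) - p (rU D Q l v)))‖ := by rw [e.symm_apply_apply]
      _ ≤ ‖(e.symm : (Fin (Module.finrank ℝ W) → ℝ) →L[ℝ] W)‖ *
          ‖e (p (rU D Q m v) - p (rU D Q l v))‖ :=
          (e.symm : (Fin (Module.finrank ℝ W) → ℝ) →L[ℝ] W).le_opNorm _
      _ ≤ c * (ε / (8 * c) * (4 * ‖v‖)) := by
          apply mul_le_mul _ h3 (norm_nonneg _) hc0.le
          rw [hc]; linarith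
      _ = ε / 2 * ‖v‖ := by field_simp; ring
  intro m hm l hl v
  have h1 := key _ le_rfl m hm v
  have h2 := key _ le_rfl l hl v
  set a := p (rU D Q m v)
  set b := p (rU D Q l v)
  set c' := p (rU D Q (∑ i, l₀ i) v)
  calc ‖a - b‖ = ‖(a - c') - (b - c')‖ := by congr 1; abel
    _ ≤ ‖a - c'‖ + ‖b - c'‖ := norm_sub_le _ _
    _ ≤ ε / 2 * ‖v‖ + ε / 2 * ‖v‖ := add_le_add h1 h2
    _ = ε * ‖v‖ := by ring

/-- the limit `T'` of `p (R_l v)` -/
theorem exists_lim (hVTR : SpecVTR) (hVSHR : SpecVSHR) (p : USub D Q →L[ℝ] W) :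
    ∃ T' : Vs D.Zn →L[ℝ] W, (∀ v, Tendsto (fun l => p (rU D Q l v)) atTop (𝓝 (T' v))) ∧
      (∀ ε > 0, ∃ N, ∀ v, ‖T' v - p (rU D Q N v)‖ ≤ ε * ‖v‖) ∧
      (∀ v, ‖T' v‖ ≤ 2 * ‖p‖ * ‖v‖) ∧
      (∀ u : USub D Q, Q.q u = 0 → T' u = p u) ∧
      (∀ (v : ℕ → Vs D.Zn) (w : Vs D.Zn) (B : ℝ) (𝓕 : Ultrafilter ℕ), (∀ n, ‖v n‖ ≤ B) →
        (∀ m, Tendsto (fun n => (v n).val m) 𝓕 (𝓝 (w.val m))) →
        Tendsto (fun n => T' (v n)) 𝓕 (𝓝 (T' w))) := by
  have hcauchy := cauchy D Q hVTR hVSHR p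
  obtain ⟨hR2, hRsum, hq1, hRlim, -⟩ := hVTR Z D.Zn Q
  have hTn : ∀ l v, ‖p (rU D Q l v)‖ ≤ 2 * ‖p‖ * ‖v‖ := by
    intro l v
    refine (p.le_opNorm _).trans ?_
    have h1 : ‖rU D Q l v‖ ≤ 2 * ‖v‖ := hR2 l v
    calc ‖p‖ * ‖rU D Q l v‖ ≤ ‖p‖ * (2 * ‖v‖) := mul_le_mul_of_nonneg_left h1 (norm_nonneg p)
      _ = 2 * ‖p‖ * ‖v‖ := by ring
  have hCS : CauchySeq (fun l => p.comp (rU D Q l)) := by
    rw [Metric.cauchySeq_iff]
    intro ε hε
    obtain ⟨N, hN⟩ := hcauchy (ε / 2) (by positivity)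
    refine ⟨N, fun m hm l hl => ?_⟩
    rw [dist_eq_norm]
    have : ‖p.comp (rU D Q m) - p.comp (rU D Q l)‖ ≤ ε / 2 := by
      refine ContinuousLinearMap.opNorm_le_bound _ (by positivity) fun v => ?_
      exact hN m hm l hl v
    linarith
  have hWc : CompleteSpace W := FiniteDimensional.complete ℝ W
  obtain ⟨T', hT'⟩ := cauchySeq_tendsto_of_complete hCS
  have hT'v : ∀ v, Tendsto (fun l => p (rU D Q l v)) atTop (𝓝 (T' v)) := fun v =>
    ((ContinuousLinearMap.apply ℝ W v).continuous.tendsto T').comp hT'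
  have hT'u : ∀ ε > 0, ∃ N, ∀ v, ‖T' v - p (rU D Q N v)‖ ≤ ε * ‖v‖ := by
    intro ε hε
    obtain ⟨N, hN⟩ := hcauchy ε hε
    refine ⟨N, fun v => ?_⟩
    have h1 : Tendsto (fun m => ‖p (rU D Q m v) - p (rU D Q N v)‖) atTop
        (𝓝 ‖T' v - p (rU D Q N v)‖) := ((hT'v v).sub_const _).norm
    refine le_of_tendsto h1 ?_
    filter_upwards [eventually_ge_atTop N] with m hm
    exact hN m hm N le_rfl v
  refine ⟨T', hT'v, hT'u, fun v =>
    le_of_tendsto (hT'v v).norm (Eventually.of_forall fun l => hTn l v), ?_, ?_⟩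
  · intro u hu
    have h2 : Tendsto (fun l => p (rU D Q l u)) atTop (𝓝 (p u)) := by
      refine (p.continuous.tendsto _).comp ?_
      rw [tendsto_subtype_rng]
      exact hRlim u hu
    exact tendsto_nhds_unique (hT'v u) h2
  · intro v w B 𝓕 hv hvw
    have hTl : ∀ l, Tendsto (fun n => p (rU D Q l (v n))) 𝓕 (𝓝 (p (rU D Q l w))) := by
      intro l
      have h2 : Tendsto (fun n => Q.R l (v n)) 𝓕 (𝓝 (Q.R l w)) := by
        rw [tendsto_iff_norm_sub_tendsto_zero]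
        have h3 : Tendsto (fun n => 2 * ∑ m ∈ Finset.range (l + 1), ‖(v n - w).val m‖) 𝓕
            (𝓝 0) := by
          have h4 : Tendsto (fun n => 2 * ∑ m ∈ Finset.range (l + 1), ‖(v n - w).val m‖) 𝓕
              (𝓝 (2 * ∑ m ∈ Finset.range (l + 1), 0)) := by
            refine Tendsto.const_mul _ (tendsto_finsetSum _ fun m _ => ?_)
            have h5 := tendsto_iff_norm_sub_tendsto_zero.mp (hvw m)
            exact h5
          simpa using h4
        refine squeeze_zero (fun _ => norm_nonneg _) (fun n => ?_) h3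
        rw [← map_sub]
        exact hRsum l _
      have h3 : Tendsto (fun n => (rU D Q l (v n) : USub D Q)) 𝓕 (𝓝 (rU D Q l w)) := by
        rw [tendsto_subtype_rng]
        exact h2
      exact (p.continuous.tendsto _).comp h3
    rw [Metric.tendsto_nhds]
    intro ε hε
    have hB : 0 ≤ B := (norm_nonneg _).trans (hv 0)
    obtain ⟨N, hN⟩ := hT'u (ε / (4 * (B + ‖w‖ + 1))) (by positivity)
    have h3 := Metric.tendsto_nhds.mp (hTl N) (ε / 2) (by positivity)
    filter_upwards [h3] with n hn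
    rw [dist_eq_norm] at hn ⊢
    have e1 := hN (v n)
    have e2 := hN w
    have e3 : ε / (4 * (B + ‖w‖ + 1)) * ‖v n‖ ≤ ε / 4 := by
      calc ε / (4 * (B + ‖w‖ + 1)) * ‖v n‖ ≤ ε / (4 * (B + ‖w‖ + 1)) * (B + ‖w‖ + 1) := by
            apply mul_le_mul_of_nonneg_left _ (by positivity)
            have hw0 : 0 ≤ ‖w‖ := norm_nonneg w
            exact (hv n).trans (by linarith)
        _ = ε / 4 := by field_simp
    have e4 : ε / (4 * (B + ‖w‖ + 1)) * ‖w‖ < ε / 4 := by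
      calc ε / (4 * (B + ‖w‖ + 1)) * ‖w‖ < ε / (4 * (B + ‖w‖ + 1)) * (B + ‖w‖ + 1) := by
            apply mul_lt_mul_of_pos_left _ (by positivity)
            linarith
        _ = ε / 4 := by field_simp
    set x1 := T' (v n)
    set x2 := T' w
    set x3 := p (rU D Q N (v n))
    set x4 := p (rU D Q N w)
    calc ‖x1 - x2‖ = ‖(x1 - x3) + (x3 - x4) - (x2 - x4)‖ := by congr 1; abel
      _ ≤ ‖x1 - x3‖ + ‖x3 - x4‖ + ‖x2 - x4‖ :=
          (norm_sub_le _ _).trans (by gcongr; exact norm_add_le _ _)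
      _ < ε := by linarith

/-- the operator `τ'` -/
theorem exists_tau (hVTR : SpecVTR) (hVLIFT : SpecVLIFT) (p : USub D Q →L[ℝ] W)
    (T' : Vs D.Zn →L[ℝ] W) (hn : ∀ v, ‖T' v‖ ≤ 2 * ‖p‖ * ‖v‖)
    (h0 : ∀ u : USub D Q, Q.q u = 0 → T' u = p u) :
    ∃ τ' : D.Z' →L[ℝ] W, ‖τ'‖ ≤ 12 * ‖p‖ ∧
      ∀ u : USub D Q, p u = T' u + τ' ⟨Q.q u, u.2⟩ := by
  have hlift := hVLIFT Z D.Zn Q D.mono D.fin D.dense
  choose s hs hsn using hlift
  have hsU : ∀ z : D.Z', s z ∈ USub D Q := by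
    intro z
    show Q.q (s z) ∈ D.Z'
    rw [hs]
    exact z.2
  let Δ : USub D Q →L[ℝ] W := p - T'.comp (USub D Q).subtypeL
  have hΔ : ∀ u : USub D Q, Δ u = p u - T' (u : Vs D.Zn) := fun u => rfl
  have hΔq : ∀ u u' : USub D Q, Q.q u = Q.q u' → Δ u = Δ u' := by
    intro u u' h
    have h1 : Δ (u - u') = 0 := by
      rw [hΔ, h0 (u - u') (by
        show Q.q ((u : Vs D.Zn) - (u' : Vs D.Zn)) = 0
        rw [map_sub, h, sub_self]), sub_self]
    rw [map_sub] at h1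
    exact sub_eq_zero.mp h1
  have hΔn : ∀ u : USub D Q, ‖Δ u‖ ≤ 3 * ‖p‖ * ‖u‖ := by
    intro u
    rw [hΔ]
    calc ‖p u - T' (u : Vs D.Zn)‖ ≤ ‖p u‖ + ‖T' (u : Vs D.Zn)‖ := norm_sub_le _ _
      _ ≤ ‖p‖ * ‖u‖ + 2 * ‖p‖ * ‖u‖ := add_le_add (p.le_opNorm u) (hn _)
      _ = 3 * ‖p‖ * ‖u‖ := by ring
  let τl : D.Z' →ₗ[ℝ] W :=
    { toFun := fun z => Δ ⟨s z, hsU z⟩
      map_add' := by
        intro z z'
        rw [← map_add]
        apply hΔq
        show Q.q (s ((z + z' : D.Z') : Z)) = Q.q (s z + s z')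
        rw [map_add, hs, hs, hs]
        rfl
      map_smul' := by
        intro c z
        rw [RingHom.id_apply, ← map_smul]
        apply hΔq
        show Q.q (s ((c • z : D.Z') : Z)) = Q.q (c • s z)
        rw [map_smul, hs, hs]
        rfl }
  have hτl : ∀ z, ‖τl z‖ ≤ 12 * ‖p‖ * ‖z‖ := by
    intro z
    show ‖Δ ⟨s z, hsU z⟩‖ ≤ _
    refine (hΔn _).trans ?_
    have h1 : ‖(⟨s z, hsU z⟩ : USub D Q)‖ ≤ 4 * ‖z‖ := hsn z
    calc 3 * ‖p‖ * ‖(⟨s z, hsU z⟩ : USub D Q)‖ ≤ 3 * ‖p‖ * (4 * ‖z‖) :=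
          mul_le_mul_of_nonneg_left h1 (by positivity)
      _ = 12 * ‖p‖ * ‖z‖ := by ring
  refine ⟨LinearMap.mkContinuous τl (12 * ‖p‖) hτl,
    ContinuousLinearMap.opNorm_le_bound _ (by positivity) hτl, fun u => ?_⟩
  have h1 : LinearMap.mkContinuous τl (12 * ‖p‖) hτl ⟨Q.q u, u.2⟩ = Δ u := by
    show Δ ⟨s (Q.q u), _⟩ = Δ u
    apply hΔq
    show Q.q (s (Q.q u)) = Q.q u
    rw [hs]
  rw [h1, hΔ]
  abel

/-- the `W`-valued version -/
theorem core (hVTR : SpecVTR) (hVLIFT : SpecVLIFT) (hVSHR : SpecVSHR)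
    (P : (USub D Q × G) →L[ℝ] W) :
    ∃ (Ph : (Vs D.Zn × G) →L[ℝ] W) (τ : D.Z' →L[ℝ] W),
      (∀ (u : USub D Q) (g : G), Q.q u = 0 → Ph ((u : Vs D.Zn), g) = P (u, g)) ∧
      (∀ (u : USub D Q) (g : G), P (u, g) = Ph ((u : Vs D.Zn), g) + τ ⟨Q.q u, u.2⟩) ∧
      ‖Ph‖ ≤ 2 * ‖P‖ ∧ ‖τ‖ ≤ 12 * ‖P‖ ∧
      (∀ (v : Vs D.Zn) (g : G) (w : ℕ → USub D Q),
        (∀ l, ((w l : USub D Q) : Vs D.Zn) = Q.R l v) →
        Tendsto (fun l => P (w l, g)) atTop (𝓝 (Ph (v, g)))) ∧
      (∀ (v : ℕ → Vs D.Zn) (g : ℕ → G) (w : Vs D.Zn) (g₀ : G) (B : ℝ) (𝓕 : Ultrafilter ℕ),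
        (∀ n, ‖v n‖ ≤ B) → (∀ n, ‖g n‖ ≤ B) →
        (∀ m, Tendsto (fun n => (v n).val m) 𝓕 (𝓝 (w.val m))) →
        (∀ ψ : G →L[ℝ] ℝ, Tendsto (fun n => ψ (g n)) 𝓕 (𝓝 (ψ g₀))) →
        Tendsto (fun n => Ph (v n, g n)) 𝓕 (𝓝 (Ph (w, g₀)))) ∧
      (∀ (z : ℕ → D.Z') (z₀ : D.Z') (𝓕 : Ultrafilter ℕ),
        (∀ φ : Z →L[ℝ] ℝ, Tendsto (fun n => φ (z n)) 𝓕 (𝓝 (φ z₀))) →
        Tendsto (fun n => τ (z n)) 𝓕 (𝓝 (τ z₀))) := by
  let p : USub D Q →L[ℝ] W := P.comp (ContinuousLinearMap.inl ℝ (USub D Q) G)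
  let r : G →L[ℝ] W := P.comp (ContinuousLinearMap.inr ℝ (USub D Q) G)
  have hP : ∀ u g, P (u, g) = p u + r g := by
    intro u g
    show P (u, g) = P (u, 0) + P (0, g)
    rw [← map_add]
    congr 1
    simp
  have hpn : ‖p‖ ≤ ‖P‖ := by
    refine ContinuousLinearMap.opNorm_le_bound _ (norm_nonneg P) fun u => ?_
    refine (P.le_opNorm _).trans (mul_le_mul_of_nonneg_left ?_ (norm_nonneg P))
    show ‖((u, 0) : USub D Q × G)‖ ≤ ‖u‖
    rw [Prod.norm_def, norm_zero]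
    exact max_le le_rfl (norm_nonneg _)
  obtain ⟨T', hT1, hT2, hT3, hT4, hT5⟩ := exists_lim D Q hVTR hVSHR p
  obtain ⟨τ, hτ1, hτ2⟩ := exists_tau D Q hVTR hVLIFT p T' hT3 hT4
  obtain ⟨hR2, -⟩ := hVTR Z D.Zn Q
  let Ph : (Vs D.Zn × G) →L[ℝ] W :=
    T'.comp (ContinuousLinearMap.fst ℝ (Vs D.Zn) G) +
      r.comp (ContinuousLinearMap.snd ℝ (Vs D.Zn) G)
  have hPh : ∀ v g, Ph (v, g) = T' v + r g := fun v g => rfl
  have hlim : ∀ (v : Vs D.Zn) (g : G) (w : ℕ → USub D Q),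
      (∀ l, ((w l : USub D Q) : Vs D.Zn) = Q.R l v) →
      Tendsto (fun l => P (w l, g)) atTop (𝓝 (Ph (v, g))) := by
    intro v g w hw
    have h1 : ∀ l, P (w l, g) = p (rU D Q l v) + r g := by
      intro l
      have : w l = rU D Q l v := Subtype.ext (hw l)
      rw [hP, this]
    simp only [h1, hPh]
    exact (hT1 v).add_const _
  refine ⟨Ph, τ, ?_, ?_, ?_, ?_, hlim, ?_, ?_⟩
  · intro u g hu
    rw [hPh, hP, hT4 u hu]
  · intro u g
    rw [hPh, hP, hτ2 u]
    abel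
  · refine ContinuousLinearMap.opNorm_le_bound _ (by positivity) ?_
    rintro ⟨v, g⟩
    have h1 := hlim v g (fun l => rU D Q l v) (fun l => rfl)
    refine le_of_tendsto h1.norm (Eventually.of_forall fun l => ?_)
    refine (P.le_opNorm _).trans ?_
    have h2 : ‖((rU D Q l v : USub D Q), g)‖ ≤ 2 * ‖(v, g)‖ := by
      rw [Prod.norm_def, Prod.norm_def]
      have h3 : ‖(rU D Q l v : USub D Q)‖ ≤ 2 * ‖v‖ := hR2 l v
      have h4 := le_max_left ‖v‖ ‖g‖
      have h5 := le_max_right ‖v‖ ‖g‖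
      have h6 := norm_nonneg g
      refine max_le ?_ ?_
      · show ‖(rU D Q l v : USub D Q)‖ ≤ 2 * max ‖v‖ ‖g‖
        linarith
      · show ‖g‖ ≤ 2 * max ‖v‖ ‖g‖
        linarith
    calc ‖P‖ * ‖((rU D Q l v : USub D Q), g)‖ ≤ ‖P‖ * (2 * ‖(v, g)‖) :=
          mul_le_mul_of_nonneg_left h2 (norm_nonneg P)
      _ = 2 * ‖P‖ * ‖(v, g)‖ := by ring
  · exact hτ1.trans (mul_le_mul_of_nonneg_left hpn (by norm_num))
  · intro v g w g₀ B 𝓕 hv hg hvw hgg
    have h1 : Tendsto (fun n => r (g n)) 𝓕 (𝓝 (r g₀)) :=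
      tendsto_of_weak fun φ => hgg (φ.comp r)
    simp only [hPh]
    exact (hT5 v w B 𝓕 hv hvw).add h1
  · intro z z₀ 𝓕 hz
    refine tendsto_of_weak fun φ => ?_
    obtain ⟨ψ, hψ, -⟩ := exists_extension_norm_eq D.Z' (φ.comp τ)
    have h2 := hz ψ
    have h3 : ∀ x : D.Z', ψ x = φ (τ x) := fun x => hψ x
    simpa only [h3] using h2

theorem final {X : Type} [NormedAddCommGroup X] [NormedSpace ℝ X] (hVTR : SpecVTR) (hVLIFT : SpecVLIFT) (hVSHR : SpecVSHR)
    (P : (USub D Q × G) →L[ℝ] X) (W : Submodule ℝ X)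
    [FiniteDimensional ℝ W] (hPW : ∀ x, P x ∈ W) :
    ∃ (Ph : (Vs D.Zn × G) →L[ℝ] X) (τ : D.Z' →L[ℝ] X),
      (∀ (u : USub D Q) (g : G), Q.q u = 0 → Ph ((u : Vs D.Zn), g) = P (u, g)) ∧
      (∀ (u : USub D Q) (g : G), P (u, g) = Ph ((u : Vs D.Zn), g) + τ ⟨Q.q u, u.2⟩) ∧
      ‖Ph‖ ≤ 2 * ‖P‖ ∧ ‖τ‖ ≤ 12 * ‖P‖ ∧
      FiniteDimensional ℝ (LinearMap.range (Ph : (Vs D.Zn × G) →ₗ[ℝ] X)) ∧
      FiniteDimensional ℝ (LinearMap.range (τ : D.Z' →ₗ[ℝ] X)) ∧
      (∀ (v : Vs D.Zn) (g : G) (w : ℕ → USub D Q),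
        (∀ l, ((w l : USub D Q) : Vs D.Zn) = Q.R l v) →
        Tendsto (fun l => P (w l, g)) atTop (𝓝 (Ph (v, g)))) ∧
      (∀ (v : ℕ → Vs D.Zn) (g : ℕ → G) (w : Vs D.Zn) (g₀ : G) (B : ℝ) (𝓕 : Ultrafilter ℕ),
        (∀ n, ‖v n‖ ≤ B) → (∀ n, ‖g n‖ ≤ B) →
        (∀ m, Tendsto (fun n => (v n).val m) 𝓕 (𝓝 (w.val m))) →
        (∀ ψ : G →L[ℝ] ℝ, Tendsto (fun n => ψ (g n)) 𝓕 (𝓝 (ψ g₀))) →
        Tendsto (fun n => Ph (v n, g n)) 𝓕 (𝓝 (Ph (w, g₀)))) ∧
      (∀ (z : ℕ → D.Z') (z₀ : D.Z') (𝓕 : Ultrafilter ℕ),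
        (∀ φ : Z →L[ℝ] ℝ, Tendsto (fun n => φ (z n)) 𝓕 (𝓝 (φ z₀))) →
        Tendsto (fun n => τ (z n)) 𝓕 (𝓝 (τ z₀))) := by
  let P' : (USub D Q × G) →L[ℝ] W := P.codRestrict W hPW
  have hP'n : ‖P'‖ ≤ ‖P‖ :=
    ContinuousLinearMap.opNorm_le_bound _ (norm_nonneg P) fun x => P.le_opNorm x
  obtain ⟨Ph, τ, h1, h2, h3, h4, h5, h6, h7⟩ := core D Q hVTR hVLIFT hVSHR P'
  let ι : W →L[ℝ] X := W.subtypeL
  refine ⟨ι.comp Ph, ι.comp τ, ?_, ?_, ?_, ?_, ?_, ?_, ?_, ?_, ?_⟩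
  · intro u g hu
    exact congrArg Subtype.val (h1 u g hu)
  · intro u g
    exact congrArg Subtype.val (h2 u g)
  · refine ContinuousLinearMap.opNorm_le_bound _ (mul_nonneg zero_le_two (norm_nonneg P))
      fun x => ?_
    have := Ph.le_opNorm x
    calc ‖ι (Ph x)‖ = ‖Ph x‖ := rfl
      _ ≤ ‖Ph‖ * ‖x‖ := this
      _ ≤ 2 * ‖P‖ * ‖x‖ := mul_le_mul_of_nonneg_right
          (h3.trans (mul_le_mul_of_nonneg_left hP'n (by norm_num))) (norm_nonneg x)
  · refine ContinuousLinearMap.opNorm_le_bound _ (mul_nonneg (by norm_num) (norm_nonneg P))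
      fun x => ?_
    have := τ.le_opNorm x
    calc ‖ι (τ x)‖ = ‖τ x‖ := rfl
      _ ≤ ‖τ‖ * ‖x‖ := this
      _ ≤ 12 * ‖P‖ * ‖x‖ := mul_le_mul_of_nonneg_right
          (h4.trans (mul_le_mul_of_nonneg_left hP'n (by norm_num))) (norm_nonneg x)
  · refine Submodule.finiteDimensional_of_le (S₂ := W) ?_
    rintro _ ⟨x, rfl⟩
    exact (Ph x).2
  · refine Submodule.finiteDimensional_of_le (S₂ := W) ?_
    rintro _ ⟨x, rfl⟩
    exact (τ x).2
  · intro v g w hw
    exact (continuous_subtype_val.tendsto _).comp (h5 v g w hw)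
  · intro v g w g₀ B 𝓕 a1 a2 a3 a4
    exact (continuous_subtype_val.tendsto _).comp (h6 v g w g₀ B 𝓕 a1 a2 a3 a4)
  · intro z z₀ 𝓕 hz
    exact (continuous_subtype_val.tendsto _).comp (h7 z z₀ 𝓕 hz)

end core

end Lim1M

open Lim1M

theorem specLIM1 (hVTR : SpecVTR) (hVLIFT : SpecVLIFT) (hVSHR : SpecVSHR) : SpecLIM1 := by
  intro Z _ _ _ D Q G _ _ _ P hP
  generalize hW : LinearMap.range (P : (USub D Q × G) →ₗ[ℝ] (USub D Q × G)) = W at hP
  have hPW : ∀ x, P x ∈ W := by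
    intro x
    rw [← hW]
    exact ⟨x, rfl⟩
  clear hW
  exact final D Q hVTR hVLIFT hVSHR P W hPW

end Pool.Agent.MP_e87d84
end

section
/-!
MP_e87d84_an, module LIM2: the limits along an ultrafilter, text I.4 (3), (4), (5).
-/
set_option autoImplicit false

open Filter Topology

namespace Pool.Agent.MP_e87d84

namespace Lim2M

section gen

variable {X Y : Type} [NormedAddCommGroup X] [NormedSpace ℝ X] [NormedAddCommGroup Y]
  [NormedSpace ℝ Y]

theorem eq_of_dual {y y' : Y} (h : ∀ φ : Y →L[ℝ] ℝ, φ y = φ y') : y = y' :=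
  (SeparatingDual.eq_iff_forall_dual_eq (R := ℝ)).mpr h

/-- weak limits of operators -/
theorem wlimOp (hY : WLim Y) (S : ℕ → X →L[ℝ] Y) {C : ℝ} (hS : ∀ k, ‖S k‖ ≤ C)
    (𝓕 : Ultrafilter ℕ) :
    ∃ T : X →L[ℝ] Y, ∀ x (φ : Y →L[ℝ] ℝ), Tendsto (fun k => φ (S k x)) 𝓕 (𝓝 (φ (T x))) := by
  have hC : 0 ≤ C := (norm_nonneg (S 0)).trans (hS 0)
  have hSx : ∀ x k, ‖S k x‖ ≤ C * ‖x‖ := fun x k => (S k).le_of_opNorm_le (hS k) x
  have h := fun x => hY (fun k => S k x) (C * ‖x‖) (hSx x) 𝓕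
  choose t ht using h
  let T : X →ₗ[ℝ] Y :=
    { toFun := t
      map_add' := by
        intro x x'
        apply eq_of_dual
        intro φ
        have h1 := ht (x + x') φ
        have h2 := (ht x φ).add (ht x' φ)
        simp only [map_add] at h1 ⊢
        exact tendsto_nhds_unique h1 h2
      map_smul' := by
        intro c x
        apply eq_of_dual
        intro φ
        have h1 := ht (c • x) φ
        have h2 := (ht x φ).const_smul c
        simp only [map_smul, RingHom.id_apply] at h1 ⊢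
        exact tendsto_nhds_unique h1 h2 }
  refine ⟨T.mkContinuous C ?_, fun x φ => ht x φ⟩
  intro x
  apply NormedSpace.norm_le_dual_bound ℝ _ (by positivity)
  intro φ
  have h1 : Tendsto (fun k => ‖φ (S k x)‖) 𝓕 (𝓝 ‖φ (t x)‖) := (ht x φ).norm
  refine le_of_tendsto h1 (Eventually.of_forall fun k => ?_)
  calc ‖φ (S k x)‖ ≤ ‖φ‖ * ‖S k x‖ := φ.le_opNorm _
    _ ≤ ‖φ‖ * (C * ‖x‖) := mul_le_mul_of_nonneg_left (hSx x k) (norm_nonneg φ)
    _ = C * ‖x‖ * ‖φ‖ := by ring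

/-- closed subspaces are weakly closed -/
theorem mem_of_weak {S : Submodule ℝ Y} (hS : IsClosed (S : Set Y)) (y : ℕ → Y) (y₀ : Y)
    (𝓕 : Ultrafilter ℕ) (hy : ∀ k, y k ∈ S)
    (h : ∀ φ : Y →L[ℝ] ℝ, Tendsto (fun k => φ (y k)) 𝓕 (𝓝 (φ y₀))) : y₀ ∈ S := by
  by_contra hn
  obtain ⟨f, u, h1, h2⟩ := geometric_hahn_banach_closed_point S.convex hS hn
  have h3 : f y₀ ≤ u := le_of_tendsto (h f) (Eventually.of_forall fun k => (h1 _ (hy k)).le)
  linarith

end gen

section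

variable {Z : Type} [NormedAddCommGroup Z] [NormedSpace ℝ Z] {Zn : ℕ → Submodule ℝ Z}

theorem coord_tendsto {ι : Type*} {F : Filter ι} {x : ι → Vs Zn} {y : Vs Zn}
    (h : Tendsto x F (𝓝 y)) (n : ℕ) : Tendsto (fun k => (x k).val n) F (𝓝 (y.val n)) := by
  rw [tendsto_iff_norm_sub_tendsto_zero] at h ⊢
  refine squeeze_zero (fun _ => norm_nonneg _) (fun k => ?_) h
  exact Vs.coord_le (x k - y) n

variable {X : Type} [NormedAddCommGroup X] [NormedSpace ℝ X]

/-- coordinatewise limits of operators into the variation space -/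
theorem climOp (hVCPT : SpecVCPT) (hfin : ∀ n, FiniteDimensional ℝ (Zn n))
    (S : ℕ → X →L[ℝ] Vs Zn) {C : ℝ} (hS : ∀ k, ‖S k‖ ≤ C) (𝓕 : Ultrafilter ℕ) :
    ∃ T : X →L[ℝ] Vs Zn, ∀ x n, Tendsto (fun k => (S k x).val n) 𝓕 (𝓝 ((T x).val n)) := by
  have hSx : ∀ x k, ‖S k x‖ ≤ C * ‖x‖ := fun x k => (S k).le_of_opNorm_le (hS k) x
  have h := fun x => hVCPT Z Zn hfin (fun k => S k x) (C * ‖x‖) (hSx x) 𝓕
  choose t htn ht using h
  let T : X →ₗ[ℝ] Vs Zn :=
    { toFun := t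
      map_add' := by
        intro x x'
        apply Vs.ext'
        intro n
        have h1 := ht (x + x') n
        have h2 := (ht x n).add (ht x' n)
        simp only [map_add, Vs.val_add, Pi.add_apply] at h1 ⊢
        exact tendsto_nhds_unique h1 h2
      map_smul' := by
        intro c x
        apply Vs.ext'
        intro n
        have h1 := ht (c • x) n
        have h2 := (ht x n).const_smul c
        simp only [map_smul, RingHom.id_apply, Vs.val_smul, Pi.smul_apply] at h1 ⊢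
        exact tendsto_nhds_unique h1 h2 }
  exact ⟨T.mkContinuous C (fun x => htn x), fun x n => ht x n⟩

end

section

variable {Z : Type} [NormedAddCommGroup Z] [NormedSpace ℝ Z] [CompleteSpace Z]
  (D : ZD Z) (Q : QR D.Zn) {G : Type} [NormedAddCommGroup G] [NormedSpace ℝ G]
  {Y : Type} [NormedAddCommGroup Y] [NormedSpace ℝ Y]

/-- operators vanishing on `ker q × G` factor through `q` -/
theorem fac (hVLIFT : SpecVLIFT) (L : (Vs D.Zn × G) →L[ℝ] Y)
    (h : ∀ v g, Q.q v = 0 → L (v, g) = 0) : ∃ l : Z →L[ℝ] Y, ∀ v g, L (v, g) = l (Q.q v) := by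
  have hlift := hVLIFT Z D.Zn Q D.mono D.fin D.dense
  choose s hs hsn using hlift
  have key : ∀ v g v' g', Q.q v = Q.q v' → L (v, g) = L (v', g') := by
    intro v g v' g' hv
    have h1 : L (v - v', g - g') = 0 := h _ _ (by rw [map_sub, hv, sub_self])
    have h2 : (v - v', g - g') = (v, g) - (v', g') := rfl
    rw [h2, map_sub] at h1
    exact sub_eq_zero.mp h1
  let l : Z →ₗ[ℝ] Y :=
    { toFun := fun z => L (s z, 0)
      map_add' := by
        intro z z'
        rw [← map_add]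
        exact key _ _ (s z + s z') (0 + 0) (by rw [map_add, hs, hs, hs])
      map_smul' := by
        intro c z
        rw [RingHom.id_apply, ← map_smul]
        exact key _ _ (c • s z) (c • 0) (by rw [map_smul, hs, hs]) }
  have hl : ∀ z, ‖l z‖ ≤ 4 * ‖L‖ * ‖z‖ := by
    intro z
    show ‖L (s z, 0)‖ ≤ _
    refine (L.le_opNorm _).trans ?_
    have h1 : ‖((s z, 0) : Vs D.Zn × G)‖ ≤ 4 * ‖z‖ := by
      rw [Prod.norm_def]
      refine max_le (hsn z) ?_
      rw [norm_zero]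
      positivity
    calc ‖L‖ * ‖((s z, 0) : Vs D.Zn × G)‖ ≤ ‖L‖ * (4 * ‖z‖) :=
          mul_le_mul_of_nonneg_left h1 (norm_nonneg L)
      _ = 4 * ‖L‖ * ‖z‖ := by ring
  exact ⟨l.mkContinuous _ hl, fun v g => key _ _ _ _ (hs _).symm⟩

end

end Lim2M

open Lim2M

theorem specLIM2 (hLIM1 : SpecLIM1) (hVTR : SpecVTR) (hVLIFT : SpecVLIFT) (hVCPT : SpecVCPT) :
    SpecLIM2 := by
  intro Z _ _ _ D Q G _ _ _ hG hC
  obtain ⟨P, C, hcomp, hfin, hbd, hlim, -⟩ := hC
  obtain ⟨hR2, -, hq1, -⟩ := hVTR Z D.Zn Q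
  have hsurj := fun z => hVLIFT Z D.Zn Q D.mono D.fin D.dense z
  have hRq : ∀ l v, Q.q (Q.R l v) = 0 := by
    intro l v
    refine tendsto_nhds_unique (Q.hq (Q.R l v)) ?_
    refine tendsto_atTop_of_eventually_const (i₀ := l + 1) ?_
    intro n hn
    rw [Q.hR, if_neg (by omega)]
  choose Ph τ p1 p2 p3 p4 p5 p6 p7 p8 p9 using fun k => hLIM1 Z D Q G (P k) (hfin k)
  let 𝓕 : Ultrafilter ℕ := Filter.hyperfilter ℕ
  have h𝓕 : (𝓕 : Filter ℕ) ≤ atTop := Nat.hyperfilter_le_atTop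
  have hC0 : 0 ≤ C := (norm_nonneg (P 0)).trans (hbd 0)
  have hPhn : ∀ k x, ‖Ph k x‖ ≤ 2 * C * ‖x‖ := by
    intro k x
    exact (Ph k).le_of_opNorm_le ((p3 k).trans (mul_le_mul_of_nonneg_left (hbd k) (by norm_num))) x
  have hτn : ∀ k x, ‖τ k x‖ ≤ 12 * C * ‖x‖ := by
    intro k x
    exact (τ k).le_of_opNorm_le ((p4 k).trans (mul_le_mul_of_nonneg_left (hbd k) (by norm_num))) x
  -- the three limit operators
  let cV : (USub D Q × G) →L[ℝ] Vs D.Zn :=
    (USub D Q).subtypeL.comp (ContinuousLinearMap.fst ℝ (USub D Q) G)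
  let cG : (USub D Q × G) →L[ℝ] G := ContinuousLinearMap.snd ℝ (USub D Q) G
  have hcV : ∀ x, ‖cV x‖ ≤ ‖x‖ := fun x => norm_fst_le x
  have hcG : ∀ x, ‖cG x‖ ≤ ‖x‖ := fun x => norm_snd_le x
  have hcVm : ∀ x, Q.q (cV x) ∈ D.Z' := fun x => x.1.2
  obtain ⟨TV, hTV⟩ := climOp hVCPT D.fin (fun k => cV.comp (Ph k)) (C := 2 * C)
    (fun k => ContinuousLinearMap.opNorm_le_bound _ (by positivity)
      fun x => (hcV _).trans (hPhn k x)) 𝓕
  obtain ⟨TZ, hTZ⟩ := wlimOp D.wl (fun k => Q.q.comp (cV.comp (Ph k))) (C := 2 * C)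
    (fun k => ContinuousLinearMap.opNorm_le_bound _ (by positivity)
      fun x => (hq1 _).trans ((hcV _).trans (hPhn k x))) 𝓕
  obtain ⟨TG, hTG⟩ := wlimOp hG (fun k => cG.comp (Ph k)) (C := 2 * C)
    (fun k => ContinuousLinearMap.opNorm_le_bound _ (by positivity)
      fun x => (hcG _).trans (hPhn k x)) 𝓕
  have hTZm : ∀ x, TZ x ∈ D.Z' := fun x =>
    mem_of_weak D.closed (fun k => Q.q (cV (Ph k x))) (TZ x) 𝓕 (fun k => hcVm _) (hTZ x)
  -- on the kernel of `q`
  have hker : ∀ (v : Vs D.Zn) (g : G) (hv : Q.q v = 0),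
      Tendsto (fun k => Ph k (v, g)) 𝓕
        (𝓝 ((⟨v, by show Q.q v ∈ D.Z'; rw [hv]; exact D.Z'.zero_mem⟩ : USub D Q), g)) := by
    intro v g hv
    have h1 := (hlim ((⟨v, by show Q.q v ∈ D.Z'; rw [hv]; exact D.Z'.zero_mem⟩ :
      USub D Q), g)).mono_left h𝓕
    refine h1.congr fun k => ?_
    exact (p1 k _ g hv).symm
  have hTVker : ∀ (v : Vs D.Zn) (g : G), Q.q v = 0 → TV (v, g) = v := by
    intro v g hv
    apply Vs.ext'
    intro n
    have h1 := (cV.continuous.tendsto _).comp (hker v g hv)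
    exact tendsto_nhds_unique (hTV (v, g) n) (coord_tendsto h1 n)
  have hTZker : ∀ (v : Vs D.Zn) (g : G), Q.q v = 0 → TZ (v, g) = 0 := by
    intro v g hv
    apply eq_of_dual
    intro φ
    have h1 := ((φ.comp (Q.q.comp cV)).continuous.tendsto _).comp (hker v g hv)
    have h2 := tendsto_nhds_unique (hTZ (v, g) φ) h1
    rw [h2]
    show φ (Q.q v) = φ 0
    rw [hv]
  have hTGker : ∀ (v : Vs D.Zn) (g : G), Q.q v = 0 → TG (v, g) = g := by
    intro v g hv
    apply eq_of_dual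
    intro φ
    have h1 := ((φ.comp cG).continuous.tendsto _).comp (hker v g hv)
    exact tendsto_nhds_unique (hTG (v, g) φ) h1
  -- the operators `ξ`, `A`, `ζ`
  obtain ⟨ξ, hξ⟩ := fac D Q hVLIFT (TV - ContinuousLinearMap.fst ℝ (Vs D.Zn) G)
    (fun v g hv => by
      show TV (v, g) - v = 0
      rw [hTVker v g hv, sub_self])
  obtain ⟨A, hA⟩ := fac D Q hVLIFT TZ hTZker
  obtain ⟨ζ, hζ⟩ := fac D Q hVLIFT (TG - ContinuousLinearMap.snd ℝ (Vs D.Zn) G)
    (fun v g hv => by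
      show TG (v, g) - g = 0
      rw [hTGker v g hv, sub_self])
  have hξ' : ∀ v g, TV (v, g) = v + ξ (Q.q v) := by
    intro v g
    have h1 : TV (v, g) - v = ξ (Q.q v) := hξ v g
    rw [← h1]
    abel
  have hζ' : ∀ v g, TG (v, g) = g + ζ (Q.q v) := by
    intro v g
    have h1 : TG (v, g) - g = ζ (Q.q v) := hζ v g
    rw [← h1]
    abel
  have hAm : ∀ z, A z ∈ D.Z' := by
    intro z
    obtain ⟨v, hv, -⟩ := hsurj z
    rw [← hv, ← hA v 0]
    exact hTZm _
  -- limits of `τ k`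
  have hτe : ∀ k (u : USub D Q), τ k ⟨Q.q u, u.2⟩ = P k (u, 0) - Ph k ((u : Vs D.Zn), 0) := by
    intro k u
    rw [p2 k u 0]
    abel
  have hτV : ∀ (z : D.Z') n, Tendsto (fun k => (cV (τ k z)).val n) 𝓕 (𝓝 (-(ξ z).val n)) := by
    rintro ⟨z, hz⟩ n
    obtain ⟨u, hu, -⟩ := hsurj z
    subst hu
    have h1 : Tendsto (fun k => (cV (P k ((⟨u, hz⟩ : USub D Q), 0))).val n) 𝓕 (𝓝 (u.val n)) := by
      have h2 := (hlim ((⟨u, hz⟩ : USub D Q), 0)).mono_left h𝓕
      exact coord_tendsto ((cV.continuous.tendsto _).comp h2) n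
    have h3 := h1.sub (hTV (u, 0) n)
    rw [hξ', Vs.val_add, Pi.add_apply, sub_add_cancel_left] at h3
    refine h3.congr fun k => ?_
    have h4 := hτe k ⟨u, hz⟩
    show _ = (cV (τ k ⟨Q.q u, hz⟩)).val n
    rw [h4, map_sub]
    rfl
  have hτZ : ∀ (z : D.Z') (φ : Z →L[ℝ] ℝ),
      Tendsto (fun k => φ (Q.q (cV (τ k z)))) 𝓕 (𝓝 (φ ((z : Z) - A z))) := by
    rintro ⟨z, hz⟩ φ
    obtain ⟨u, hu, -⟩ := hsurj z
    subst hu
    have h1 : Tendsto (fun k => φ (Q.q (cV (P k ((⟨u, hz⟩ : USub D Q), 0))))) 𝓕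
        (𝓝 (φ (Q.q u))) := by
      have h2 := (hlim ((⟨u, hz⟩ : USub D Q), 0)).mono_left h𝓕
      exact ((φ.comp (Q.q.comp cV)).continuous.tendsto _).comp h2
    have h3 := h1.sub (hTZ (u, 0) φ)
    rw [hA, ← map_sub] at h3
    refine h3.congr fun k => ?_
    have h4 := hτe k ⟨u, hz⟩
    show _ = φ (Q.q (cV (τ k ⟨Q.q u, hz⟩)))
    rw [h4, map_sub, map_sub, map_sub]
    rfl
  -- the main identity
  have hmain : ∀ j (z : Z), Ph j (ξ z, ζ z) + τ j ⟨A z, hAm z⟩ = 0 := by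
    intro j z
    obtain ⟨v, hv, -⟩ := hsurj z
    have hPP : ∀ k, j ≤ k → P j (Ph k (v, 0)) = Ph j (v, 0) := by
      intro k hk
      have e1 := p7 k v 0 (fun l => ⟨Q.R l v, by
        show Q.q (Q.R l v) ∈ D.Z'; rw [hRq]; exact D.Z'.zero_mem⟩) (fun l => rfl)
      have e2 := ((P j).continuous.tendsto _).comp e1
      have e3 := p7 j v 0 (fun l => ⟨Q.R l v, by
        show Q.q (Q.R l v) ∈ D.Z'; rw [hRq]; exact D.Z'.zero_mem⟩) (fun l => rfl)
      refine tendsto_nhds_unique e2 (e3.congr fun l => ?_)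
      have e4 := congrArg (fun T => T ((⟨Q.R l v, by
        show Q.q (Q.R l v) ∈ D.Z'; rw [hRq]; exact D.Z'.zero_mem⟩ : USub D Q), (0 : G)))
        (hcomp j k)
      rw [min_eq_left hk] at e4
      exact e4.symm
    have e5 : ∀ k, j ≤ k → Ph j (cV (Ph k (v, 0)), cG (Ph k (v, 0))) +
        τ j ⟨Q.q (cV (Ph k (v, 0))), hcVm _⟩ = Ph j (v, 0) := by
      intro k hk
      rw [← hPP k hk]
      exact (p2 j (Ph k (v, 0)).1 (Ph k (v, 0)).2).symm
    have e6 := p8 j (fun k => cV (Ph k (v, 0))) (fun k => cG (Ph k (v, 0))) (TV (v, 0))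
      (TG (v, 0)) (2 * C * ‖((v, 0) : Vs D.Zn × G)‖) 𝓕
      (fun k => (hcV _).trans (hPhn k _)) (fun k => (hcG _).trans (hPhn k _))
      (hTV (v, 0)) (hTG (v, 0))
    have e7 := p9 j (fun k => ⟨Q.q (cV (Ph k (v, 0))), hcVm _⟩) ⟨TZ (v, 0), hTZm _⟩ 𝓕
      (hTZ (v, 0))
    have e8 : Ph j (TV (v, 0), TG (v, 0)) + τ j ⟨TZ (v, 0), hTZm _⟩ = Ph j (v, 0) := by
      refine tendsto_nhds_unique (e6.add e7) ?_
      refine Tendsto.congr' ?_ tendsto_const_nhds
      filter_upwards [h𝓕 (eventually_ge_atTop j)] with k hk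
      exact (e5 k hk).symm
    have e9 : (TV (v, 0), TG (v, 0)) = ((v, 0) : Vs D.Zn × G) + (ξ z, ζ z) := by
      rw [hξ', hζ', hv]
      rfl
    have e10 : (⟨TZ (v, 0), hTZm _⟩ : D.Z') = ⟨A z, hAm z⟩ := by
      apply Subtype.ext
      show TZ (v, 0) = A z
      rw [hA, hv]
    rw [e9, e10, map_add, add_assoc] at e8
    exact add_eq_left.mp e8
  -- limits of the main identity
  have hξA : ∀ z, ξ z + ξ (Q.q (ξ z)) = ξ (A z) := by
    intro z
    rw [← hξ' (ξ z) (ζ z)]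
    apply Vs.ext'
    intro n
    have h1 := (hTV (ξ z, ζ z) n).add (hτV ⟨A z, hAm z⟩ n)
    have h2 : (fun k => ((cV.comp (Ph k)) (ξ z, ζ z)).val n +
        (cV (τ k ⟨A z, hAm z⟩)).val n) = fun _ => 0 := by
      funext k
      have h3 := congrArg (fun x => (cV x).val n) (hmain k z)
      simp only [map_add, Vs.val_add, Pi.add_apply, map_zero, Vs.val_zero, Pi.zero_apply] at h3
      exact h3
    rw [h2] at h1
    have h4 := tendsto_nhds_unique h1 tendsto_const_nhds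
    exact add_neg_eq_zero.mp h4
  have hAA : ∀ z, A (Q.q (ξ z)) + (A z - A (A z)) = 0 := by
    intro z
    apply eq_of_dual
    intro φ
    have h1 := (hTZ (ξ z, ζ z) φ).add (hτZ ⟨A z, hAm z⟩ φ)
    have h2 : (fun k => φ ((Q.q.comp (cV.comp (Ph k))) (ξ z, ζ z)) +
        φ (Q.q (cV (τ k ⟨A z, hAm z⟩)))) = fun _ => 0 := by
      funext k
      have h3 := congrArg (fun x => φ (Q.q (cV x))) (hmain k z)
      simp only [map_add, map_zero] at h3
      exact h3
    rw [h2] at h1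
    have h4 := tendsto_nhds_unique h1 tendsto_const_nhds
    rw [hA, ← map_add] at h4
    rw [h4, map_zero]
  have he : ∀ z, ξ ((A - Q.q.comp ξ) z) = ξ z := by
    intro z
    show ξ (A z - Q.q (ξ z)) = ξ z
    rw [map_sub, ← hξA z]
    abel
  have hAe : ∀ z, A ((A - Q.q.comp ξ) z) = A z := by
    intro z
    show A (A z - Q.q (ξ z)) = A z
    rw [map_sub]
    have h1 := hAA z
    have h2 : A z = (A (A z) - A (Q.q (ξ z))) + (A (Q.q (ξ z)) + (A z - A (A z))) := by abel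
    rw [h1, add_zero] at h2
    exact h2.symm
  refine ⟨A, ξ, fun k => (Q.q.comp cV).comp (τ k), 𝓕, 12 * C, hAm, ?_, ?_, ?_, ?_⟩
  · intro z
    show A ((A - Q.q.comp ξ) z) - Q.q (ξ ((A - Q.q.comp ξ) z)) = A z - Q.q (ξ z)
    rw [he, hAe]
  · intro k
    have := p6 k
    have h1 : LinearMap.range (((Q.q.comp cV).comp (τ k) : D.Z' →L[ℝ] Z) : D.Z' →ₗ[ℝ] Z) =
        (LinearMap.range (τ k : D.Z' →ₗ[ℝ] (USub D Q × G))).map
          ((Q.q.comp cV : (USub D Q × G) →L[ℝ] Z) : (USub D Q × G) →ₗ[ℝ] Z) := by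
      rw [← LinearMap.range_comp]
      rfl
    rw [h1]
    infer_instance
  · intro k
    refine ContinuousLinearMap.opNorm_le_bound _ (by positivity) fun x => ?_
    exact (hq1 _).trans ((hcV _).trans (hτn k x))
  · intro z φ
    exact hτZ z φ

end Pool.Agent.MP_e87d84
end

section
/-!
MP_e87d84_an, module PB: from the BAP to a π-basis of `U × l_2(H_n)`.
-/
set_option autoImplicit false

open Filter Topology

namespace Pool.Agent.MP_e87d84

namespace PbM

variable {U : Type} [NormedAddCommGroup U] [NormedSpace ℝ U]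
  (T : ℕ → U →L[ℝ] U) (H : ℕ → Submodule ℝ U) (hT : ∀ n u, T n u ∈ H n)

/-- `T n` with values in `H n` -/
noncomputable def ii (n : ℕ) : U →L[ℝ] H n := (T n).codRestrict (H n) (hT n)

/-- `T n` restricted to `H n` -/
noncomputable def SS (n : ℕ) : H n →L[ℝ] H n := (ii T H hT n).comp (H n).subtypeL

/-- coordinate -/
noncomputable def ev (n : ℕ) : lp (fun n => H n) 2 →L[ℝ] H n :=
  lp.evalCLM ℝ (fun n => H n) 2 n

/-- unit vectors -/
noncomputable def sgl (n : ℕ) : H n →L[ℝ] lp (fun n => H n) 2 :=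
  lp.singleContinuousLinearMap ℝ (fun n => H n) 2 n

/-- the new coordinate number `n` -/
noncomputable def newc (n : ℕ) : (U × lp (fun n => H n) 2) →L[ℝ] H n :=
  ((SS T H hT n).comp (ii T H hT n) - ii T H hT n).comp (ContinuousLinearMap.fst ℝ _ _) +
  ((ContinuousLinearMap.id ℝ (H n) - (2 : ℝ) • SS T H hT n
      + (SS T H hT n).comp (SS T H hT n)).comp
    ((ev H n).comp (ContinuousLinearMap.snd ℝ _ _)))

/-- the new first component -/
noncomputable def newu (n : ℕ) : (U × lp (fun n => H n) 2) →L[ℝ] U :=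
  ((2 : ℝ) • T n - (T n).comp (T n)).comp (ContinuousLinearMap.fst ℝ _ _) -
  (((H n).subtypeL).comp ((2 : ℝ) • ContinuousLinearMap.id ℝ (H n) - (3 : ℝ) • SS T H hT n
      + (SS T H hT n).comp (SS T H hT n))).comp
    ((ev H n).comp (ContinuousLinearMap.snd ℝ _ _))

/-- the projections -/
noncomputable def PP (n : ℕ) :
    (U × lp (fun n => H n) 2) →L[ℝ] (U × lp (fun n => H n) 2) :=
  (newu T H hT n).prod
    ((∑ m ∈ Finset.range n, (sgl H m).comp ((ev H m).comp (ContinuousLinearMap.snd ℝ _ _)))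
      + (sgl H n).comp (newc T H hT n))

theorem ev_apply (n : ℕ) (f : lp (fun n => H n) 2) : ev H n f = f n := rfl

theorem sgl_apply (n : ℕ) (a : H n) : sgl H n a = lp.single 2 n a := rfl

theorem coe_ii (n : ℕ) (u : U) : ((ii T H hT n u : H n) : U) = T n u := rfl

theorem coe_SS (n : ℕ) (a : H n) : ((SS T H hT n a : H n) : U) = T n a := rfl

theorem coe_newc (n : ℕ) (x : U × lp (fun n => H n) 2) :
    ((newc T H hT n x : H n) : U) = T n (T n x.1) - T n x.1
      + ((x.2 n : U) - (2 : ℝ) • T n (x.2 n) + T n (T n (x.2 n))) := rfl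

theorem PP_fst (n : ℕ) (x : U × lp (fun n => H n) 2) :
    (PP T H hT n x).1 = (2 : ℝ) • T n x.1 - T n (T n x.1)
      - ((2 : ℝ) • (x.2 n : U) - (3 : ℝ) • T n (x.2 n) + T n (T n (x.2 n))) := rfl

theorem PP_snd (n : ℕ) (x : U × lp (fun n => H n) 2) :
    (PP T H hT n x).2 = (∑ m ∈ Finset.range n, lp.single 2 m (x.2 m))
      + lp.single 2 n (newc T H hT n x) := by
  simp only [PP, ContinuousLinearMap.prod_apply, add_apply, sum_apply,
    ContinuousLinearMap.comp_apply]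
  rfl

theorem PP_snd_lt {n m : ℕ} (h : m < n) (x : U × lp (fun n => H n) 2) :
    (PP T H hT n x).2 m = x.2 m := by
  rw [PP_snd, lp.coeFn_add, Pi.add_apply, lp.coeFn_sum, Finset.sum_apply,
    lp.single_apply_ne _ _ _ h.ne, add_zero, Finset.sum_eq_single m]
  · exact lp.single_apply_self _ _ _
  · intro b _ hb
    exact lp.single_apply_ne _ _ _ hb.symm
  · intro hm
    exact absurd (Finset.mem_range.2 h) hm

theorem PP_snd_eq (n : ℕ) (x : U × lp (fun n => H n) 2) :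
    (PP T H hT n x).2 n = newc T H hT n x := by
  rw [PP_snd, lp.coeFn_add, Pi.add_apply, lp.coeFn_sum, Finset.sum_apply,
    lp.single_apply_self, Finset.sum_eq_zero, zero_add]
  intro b hb
  exact lp.single_apply_ne _ _ _ (Finset.mem_range.1 hb).ne'

theorem PP_snd_gt {n m : ℕ} (h : n < m) (x : U × lp (fun n => H n) 2) :
    (PP T H hT n x).2 m = 0 := by
  rw [PP_snd, lp.coeFn_add, Pi.add_apply, lp.coeFn_sum, Finset.sum_apply,
    lp.single_apply_ne _ _ _ h.ne', add_zero, Finset.sum_eq_zero]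
  intro b hb
  exact lp.single_apply_ne _ _ _ ((Finset.mem_range.1 hb).trans h).ne'

theorem ext_of {x y : U × lp (fun n => H n) 2} (h1 : x.1 = y.1)
    (h2 : ∀ m, (x.2 m : U) = (y.2 m : U)) : x = y := by
  refine Prod.ext h1 ?_
  apply lp.ext
  funext m
  exact Subtype.ext (h2 m)

theorem PP_idem (n : ℕ) (x : U × lp (fun n => H n) 2) :
    PP T H hT n (PP T H hT n x) = PP T H hT n x := by
  apply ext_of
  · rw [PP_fst, PP_snd_eq, coe_newc, PP_fst]
    simp only [map_add, map_sub, map_smul]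
    module
  · intro m
    rcases lt_trichotomy m n with h | h | h
    · rw [PP_snd_lt T H hT h]
    · subst h
      rw [PP_snd_eq, PP_snd_eq, coe_newc, PP_fst, PP_snd_eq, coe_newc]
      simp only [map_add, map_sub, map_smul]
      module
    · rw [PP_snd_gt T H hT h, PP_snd_gt T H hT h]

/-- The finite dimensional space that contains the range. -/
def KK (n : ℕ) : Submodule ℝ (U × lp (fun n => H n) 2) where
  carrier := {x | x.1 ∈ H n ∧ ∀ m, n < m → x.2 m = 0}
  add_mem' := by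
    rintro x y ⟨hx, hx'⟩ ⟨hy, hy'⟩
    refine ⟨(H n).add_mem hx hy, fun m hm => ?_⟩
    change x.2 m + y.2 m = 0
    rw [hx' m hm, hy' m hm, add_zero]
  zero_mem' := ⟨(H n).zero_mem, fun m _ => rfl⟩
  smul_mem' := by
    rintro c x ⟨hx, hx'⟩
    refine ⟨(H n).smul_mem c hx, fun m hm => ?_⟩
    change c • x.2 m = 0
    rw [hx' m hm, smul_zero]

theorem KK_fin (hfin : ∀ n, FiniteDimensional ℝ (H n)) (n : ℕ) :
    FiniteDimensional ℝ (KK H n) := by
  have := hfin
  let L : KK H n →ₗ[ℝ] (H n × ((m : Fin (n + 1)) → H m)) :=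
    { toFun := fun x => (⟨x.1.1, x.2.1⟩, fun m => x.1.2 m)
      map_add' := fun x y => rfl
      map_smul' := fun c x => rfl }
  apply FiniteDimensional.of_injective L
  intro x y hxy
  have h1 : (x.1.1 : U) = y.1.1 := congrArg Subtype.val (congrArg Prod.fst hxy)
  have h2 : ∀ m : Fin (n + 1), x.1.2 m = y.1.2 m := fun m =>
    congrFun (congrArg Prod.snd hxy) m
  apply Subtype.ext
  apply ext_of H h1
  intro m
  rcases Nat.lt_or_ge n m with h | h
  · rw [x.2.2 m h, y.2.2 m h]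
  · exact congrArg Subtype.val (h2 ⟨m, by omega⟩)

theorem PP_mem (n : ℕ) (x : U × lp (fun n => H n) 2) : PP T H hT n x ∈ KK H n := by
  refine ⟨?_, fun m hm => PP_snd_gt T H hT hm x⟩
  rw [PP_fst]
  refine (H n).sub_mem ((H n).sub_mem ((H n).smul_mem _ (hT n _)) (hT n _)) ?_
  refine (H n).add_mem ((H n).sub_mem ((H n).smul_mem _ (x.2 n).2) ((H n).smul_mem _ (hT n _)))
    (hT n _)

theorem PP_fix (hid : ∀ n m, n < m → ∀ u ∈ H n, T m u = u) (n : ℕ)
    {x : U × lp (fun n => H n) 2} (hx : x ∈ KK H n) : PP T H hT (n + 1) x = x := by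
  obtain ⟨h1, h2⟩ := hx
  have hT1 : T (n + 1) x.1 = x.1 := hid n (n + 1) (Nat.lt_succ_self n) _ h1
  have h0 : x.2 (n + 1) = 0 := h2 (n + 1) (Nat.lt_succ_self n)
  apply ext_of
  · rw [PP_fst, h0, hT1, hT1]
    simp only [Submodule.coe_zero, map_zero, smul_zero]
    module
  · intro m
    rcases lt_trichotomy m (n + 1) with h | h | h
    · rw [PP_snd_lt T H hT h]
    · subst h
      rw [PP_snd_eq, coe_newc, h0, hT1, hT1]
      simp
    · rw [PP_snd_gt T H hT h, h2 m (by omega)]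

theorem TT_lim {C : ℝ} (hC : ∀ n, ‖T n‖ ≤ C) (hlim : ∀ u, Tendsto (fun n => T n u) atTop (𝓝 u))
    (u : U) : Tendsto (fun n => T n (T n u)) atTop (𝓝 u) := by
  have h1 : Tendsto (fun n => T n u - u) atTop (𝓝 0) := by
    have := (hlim u).sub_const u
    rwa [sub_self] at this
  have h2 : Tendsto (fun n => T n (T n u - u)) atTop (𝓝 0) := by
    apply squeeze_zero_norm (a := fun n => C * ‖T n u - u‖)
    · intro n
      exact (T n).le_of_opNorm_le (hC n) _
    · have := (h1.norm).const_mul C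
      simpa using this
  have h3 := h2.add (hlim u)
  rw [zero_add] at h3
  refine h3.congr fun n => ?_
  rw [map_sub]
  abel

theorem T_zero_lim {C : ℝ} (hC : ∀ n, ‖T n‖ ≤ C) {v : ℕ → U} (hv : Tendsto v atTop (𝓝 0)) :
    Tendsto (fun n => T n (v n)) atTop (𝓝 0) := by
  apply squeeze_zero_norm (a := fun n => C * ‖v n‖)
  · intro n
    exact (T n).le_of_opNorm_le (hC n) _
  · have := (hv.norm).const_mul C
    simpa using this

theorem coord_zero (f : lp (fun n => H n) 2) : Tendsto (fun n => (f n : U)) atTop (𝓝 0) := by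
  have h1 := (lp.hasSum_single (p := 2) (by norm_num) f).summable.tendsto_atTop_zero
  rw [tendsto_zero_iff_norm_tendsto_zero] at h1 ⊢
  refine h1.congr fun n => ?_
  rw [lp.norm_single (by norm_num)]
  rfl

theorem PP_lim {C : ℝ} (hC : ∀ n, ‖T n‖ ≤ C) (hlim : ∀ u, Tendsto (fun n => T n u) atTop (𝓝 u))
    (x : U × lp (fun n => H n) 2) : Tendsto (fun n => PP T H hT n x) atTop (𝓝 x) := by
  have hc := coord_zero H x.2
  have hTc := T_zero_lim T hC hc
  have hTTc := T_zero_lim T hC hTc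
  have hu := hlim x.1
  have hTu := TT_lim T hC hlim x.1
  rw [Prod.tendsto_iff]
  constructor
  · have h1 := ((hu.const_smul (2 : ℝ)).sub hTu).sub
      (((hc.const_smul (2 : ℝ)).sub (hTc.const_smul (3 : ℝ))).add hTTc)
    have h2 : (2 : ℝ) • x.1 - x.1 - ((2 : ℝ) • (0 : U) - (3 : ℝ) • (0 : U) + 0) = x.1 := by
      module
    rw [h2] at h1
    exact h1
  · have h1 := (lp.hasSum_single (p := 2) (by norm_num) x.2).tendsto_sum_nat
    have h2 : Tendsto (fun n => lp.single (E := fun n => H n) 2 n (newc T H hT n x)) atTop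
        (𝓝 0) := by
      rw [tendsto_zero_iff_norm_tendsto_zero]
      have h3 := ((hTu.sub hu).add ((hc.sub (hTc.const_smul (2 : ℝ))).add hTTc)).norm
      have h4 : ‖x.1 - x.1 + (0 - (2 : ℝ) • (0 : U) + 0)‖ = 0 := by simp
      rw [h4] at h3
      refine h3.congr fun n => ?_
      rw [lp.norm_single (by norm_num)]
      rfl
    have h5 := h1.add h2
    rw [add_zero] at h5
    refine h5.congr fun n => ?_
    rw [PP_snd]

end PbM

open PbM in
theorem specPB : SpecPB := by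
  intro U _ _ _ T H hmono hfin hT hid hbd hlim
  obtain ⟨C, hC⟩ := hbd
  have := hfin
  have hcomp : ∀ n, CompleteSpace (H n) := fun n => FiniteDimensional.complete ℝ (H n)
  have hconv := PP_lim T H hT hC hlim
  obtain ⟨lam, hlam⟩ := banach_steinhaus (g := fun n => PP T H hT n) (by
    intro x
    obtain ⟨B, hB⟩ := (hconv x).norm.bddAbove_range
    exact ⟨B, fun n => hB ⟨n, rfl⟩⟩)
  refine ⟨fun n => PP T H hT n, lam, ?_, ?_, hlam, hconv, ?_⟩
  · intro n
    exact ContinuousLinearMap.ext fun x => PP_idem T H hT n x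
  · intro n
    have h1 : LinearMap.range ((PP T H hT n : (U × lp (fun n => H n) 2) →L[ℝ] _) :
        (U × lp (fun n => H n) 2) →ₗ[ℝ] (U × lp (fun n => H n) 2)) ≤ KK H n := by
      rintro _ ⟨x, rfl⟩
      exact PP_mem T H hT n x
    have := KK_fin H hfin n
    exact Submodule.finiteDimensional_of_le h1
  · apply monotone_nat_of_le_succ
    rintro n _ ⟨x, rfl⟩
    exact ⟨_, PP_fix T H hT hid n (PP_mem T H hT n x)⟩

end Pool.Agent.MP_e87d84
end

section
/-!
MP_e87d84_an, module VTAIL: the tails of a sequence of finite variation.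
-/
set_option autoImplicit false

open Filter Topology

namespace Pool.Agent.MP_e87d84

namespace VtailM

variable {Z : Type} [NormedAddCommGroup Z]

theorem chain_eq_chn (z : ℕ → Z) (s : ℕ → ℕ) (N : ℕ) :
    chain z s N = chn z s N ^ (3 / 2 : ℝ) := by
  unfold chn
  rw [← Real.rpow_mul (chain_nonneg _ _ _)]
  norm_num

theorem chain_le_of_chn {z : ℕ → Z} {s : ℕ → ℕ} {N : ℕ} {C : ℝ} (h : chn z s N ≤ C) :
    chain z s N ≤ C ^ (3 / 2 : ℝ) := by
  rw [chain_eq_chn]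
  exact Real.rpow_le_rpow (chn_nonneg _ _ _) h (by norm_num)

theorem chn_le_of_chain {z : ℕ → Z} {s : ℕ → ℕ} {N : ℕ} {C : ℝ} (hC : 0 ≤ C)
    (h : chain z s N ≤ C ^ (3 / 2 : ℝ)) : chn z s N ≤ C := by
  unfold chn
  calc chain z s N ^ (1 / (3 / 2) : ℝ) ≤ (C ^ (3 / 2 : ℝ)) ^ (1 / (3 / 2) : ℝ) :=
        Real.rpow_le_rpow (chain_nonneg _ _ _) h (by norm_num)
    _ = C := by
        rw [← Real.rpow_mul hC]
        norm_num

/-- glue two chains -/
def glue (s t : ℕ → ℕ) (k : ℕ) (i : ℕ) : ℕ := if i ≤ k then s i else t (i - (k + 1))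

theorem glue_mono {s t : ℕ → ℕ} {k : ℕ} (hs : Monotone s) (ht : Monotone t) (h : s k ≤ t 0) :
    Monotone (glue s t k) := by
  intro i j hij
  unfold glue
  split_ifs with h1 h2 h2
  · exact hs hij
  · exact (hs h1).trans (h.trans (ht (Nat.zero_le _)))
  · omega
  · exact ht (by omega)

theorem glue_low (s t : ℕ → ℕ) {k i : ℕ} (h : i ≤ k) : glue s t k i = s i := by
  unfold glue; rw [if_pos h]

theorem glue_high (s t : ℕ → ℕ) (k i : ℕ) : glue s t k (k + 1 + i) = t i := by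
  unfold glue
  rw [if_neg (by omega)]
  congr 1
  omega

theorem chain_glue (z : ℕ → Z) (s t : ℕ → ℕ) (k k' : ℕ) :
    chain z (glue s t k) (k + 1 + k') = chain z s k + ‖z (t 0) - z (s k)‖ ^ (3 / 2 : ℝ) +
      ∑ i ∈ Finset.range k', ‖z (t (i + 1)) - z (t i)‖ ^ (3 / 2 : ℝ) := by
  unfold chain
  rw [Finset.sum_range_add, Finset.sum_range_succ, glue_low s t (Nat.zero_le k)]
  have h1 : ∑ i ∈ Finset.range k, ‖z (glue s t k (i + 1)) - z (glue s t k i)‖ ^ (3 / 2 : ℝ) =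
      ∑ i ∈ Finset.range k, ‖z (s (i + 1)) - z (s i)‖ ^ (3 / 2 : ℝ) := by
    refine Finset.sum_congr rfl fun i hi => ?_
    have hi := Finset.mem_range.1 hi
    rw [glue_low s t (show i + 1 ≤ k by omega), glue_low s t (show i ≤ k by omega)]
  have h2 : ∑ i ∈ Finset.range k',
      ‖z (glue s t k (k + 1 + i + 1)) - z (glue s t k (k + 1 + i))‖ ^ (3 / 2 : ℝ) =
      ∑ i ∈ Finset.range k', ‖z (t (i + 1)) - z (t i)‖ ^ (3 / 2 : ℝ) := by
    refine Finset.sum_congr rfl fun i _ => ?_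
    rw [glue_high s t k i, show k + 1 + i + 1 = k + 1 + (i + 1) by omega, glue_high s t k (i + 1)]
  have h3 : glue s t k (k + 1) = t 0 := by
    have := glue_high s t k 0
    simpa using this
  rw [h1, h2, h3, glue_low s t le_rfl]
  ring

end VtailM

open VtailM in
theorem specVTAIL : SpecVTAIL := by
  intro Z _ _ Zn v ε hε
  set f : Vs.Ch → ℝ := fun c => chain v.val c.1.1 c.2 with hf
  have hbd : BddAbove (Set.range f) := by
    refine ⟨‖v‖ ^ (3 / 2 : ℝ), ?_⟩
    rintro _ ⟨c, rfl⟩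
    exact chain_le_of_chn (v.chn_le_norm c.1.2 c.2)
  obtain ⟨c, hc⟩ := exists_lt_of_lt_ciSup (show (⨆ c, f c) - ε < ⨆ c, f c by linarith)
  refine ⟨c.1.1 c.2, fun t ht h0 k' => ?_⟩
  have hm := glue_mono (s := c.1.1) (k := c.2) c.1.2 ht h0
  have h1 : chain v.val (glue c.1.1 t c.2) (c.2 + 1 + k') ≤ ⨆ c, f c :=
    le_ciSup hbd (⟨⟨glue c.1.1 t c.2, hm⟩, c.2 + 1 + k'⟩ : Vs.Ch)
  rw [chain_glue] at h1
  have h2 : (0 : ℝ) ≤ ‖v.val (t 0) - v.val (c.1.1 c.2)‖ ^ (3 / 2 : ℝ) :=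
    Real.rpow_nonneg (norm_nonneg _) _
  simp only [hf] at hc
  linarith

end Pool.Agent.MP_e87d84
end

section
/-!
MP_e87d84_an, module QRX: the limit map `q` and the truncations `R l`.
-/
set_option autoImplicit false

open Filter Topology

namespace Pool.Agent.MP_e87d84

namespace QrxM

open VtailM

section

variable {Z : Type} [NormedAddCommGroup Z]

/-- truncation of a sequence -/
def tr (l : ℕ) (z : ℕ → Z) (n : ℕ) : Z := if n ≤ l then z n else 0

theorem chain_succ (z : ℕ → Z) (s : ℕ → ℕ) (N : ℕ) :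
    chain z s (N + 1) = chain z s N + ‖z (s (N + 1)) - z (s N)‖ ^ (3 / 2 : ℝ) := by
  unfold chain
  rw [Finset.sum_range_succ, add_assoc]

theorem chain_congr {z w : ℕ → Z} {s : ℕ → ℕ} {N : ℕ} (h : ∀ i ≤ N, z (s i) = w (s i)) :
    chain z s N = chain w s N := by
  unfold chain
  rw [h 0 (Nat.zero_le _)]
  congr 1
  refine Finset.sum_congr rfl fun i hi => ?_
  have hi := Finset.mem_range.1 hi
  rw [h (i + 1) (by omega), h i (by omega)]

theorem chain_zero_of {w : ℕ → Z} {s : ℕ → ℕ} {N : ℕ} (h : ∀ i ≤ N, w (s i) = 0) :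
    chain w s N = 0 := by
  rw [chain_congr (w := (0 : ℕ → Z)) (fun i hi => by rw [h i hi]; rfl), chain_zero]

theorem rr : (0 : ℝ) ^ (3 / 2 : ℝ) = 0 := Real.zero_rpow (by norm_num)

theorem chain_tr {z : ℕ → Z} {s : ℕ → ℕ} (hs : Monotone s) (l : ℕ) {C : ℝ} (hC : 0 ≤ C)
    (h1 : ∀ N, chain z s N ≤ C) (h2 : ∀ n, ‖z n‖ ^ (3 / 2 : ℝ) ≤ C) (N : ℕ) :
    chain (tr l z) s N ≤ 2 * C := by
  by_cases hN : s N ≤ l
  · have : chain (tr l z) s N = chain z s N := by
      apply chain_congr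
      intro i hi
      have := hs hi
      unfold tr
      rw [if_pos (by omega)]
    rw [this]
    linarith [h1 N]
  · induction N with
    | zero =>
      have : chain (tr l z) s 0 = 0 := by
        apply chain_zero_of
        intro i hi
        have : i = 0 := by omega
        subst this
        unfold tr
        rw [if_neg hN]
      rw [this]
      linarith
    | succ N ih =>
      rw [chain_succ]
      by_cases hN' : s N ≤ l
      · have e1 : chain (tr l z) s N = chain z s N := by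
          apply chain_congr
          intro i hi
          have := hs hi
          unfold tr
          rw [if_pos (by omega)]
        have e2 : tr l z (s (N + 1)) = 0 := by unfold tr; rw [if_neg hN]
        have e3 : tr l z (s N) = z (s N) := by unfold tr; rw [if_pos hN']
        rw [e1, e2, e3, zero_sub, norm_neg]
        linarith [h1 N, h2 (s N)]
      · have e2 : tr l z (s (N + 1)) = 0 := by unfold tr; rw [if_neg hN]
        have e3 : tr l z (s N) = 0 := by unfold tr; rw [if_neg hN']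
        rw [e2, e3, sub_zero, norm_zero, rr, add_zero]
        exact ih hN'

theorem two_le : (2 : ℝ) ≤ 2 ^ (3 / 2 : ℝ) := by
  calc (2 : ℝ) = 2 ^ (1 : ℝ) := (Real.rpow_one _).symm
    _ ≤ 2 ^ (3 / 2 : ℝ) := Real.rpow_le_rpow_of_exponent_le (by norm_num) (by norm_num)

theorem two_mul_rpow {C : ℝ} (hC : 0 ≤ C) :
    2 * C ^ (3 / 2 : ℝ) ≤ (2 * C) ^ (3 / 2 : ℝ) := by
  rw [Real.mul_rpow (by norm_num) hC]
  exact mul_le_mul_of_nonneg_right two_le (Real.rpow_nonneg hC _)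

theorem chn_tr {z : ℕ → Z} {s : ℕ → ℕ} (hs : Monotone s) (l : ℕ) {C : ℝ} (hC : 0 ≤ C)
    (h1 : ∀ N, chn z s N ≤ C) (h2 : ∀ n, ‖z n‖ ≤ C) (N : ℕ) :
    chn (tr l z) s N ≤ 2 * C := by
  apply chn_le_of_chain (by linarith)
  refine (chain_tr hs l (Real.rpow_nonneg hC _) (fun N => chain_le_of_chn (h1 N))
    (fun n => Real.rpow_le_rpow (norm_nonneg _) (h2 n) (by norm_num)) N).trans ?_
  exact two_mul_rpow hC

variable [NormedSpace ℝ Z] {Zn : ℕ → Submodule ℝ Z}

theorem tr_mem (l : ℕ) (v : Vs Zn) : tr l v.val ∈ VV Zn := by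
  refine ⟨fun n => ?_, 2 * ‖v‖, fun s N hs => ?_⟩
  · unfold tr
    split_ifs
    · exact v.val_mem n
    · exact (Zn n).zero_mem
  · exact chn_tr hs l (norm_nonneg _) (fun N => v.chn_le_norm hs N) v.coord_le N

/-- truncation on `Vs` -/
def trV (l : ℕ) (v : Vs Zn) : Vs Zn := ⟨tr l v.val, tr_mem l v⟩

theorem trV_norm (l : ℕ) (v : Vs Zn) : ‖trV l v‖ ≤ 2 * ‖v‖ :=
  Vs.norm_le fun _ N hs => chn_tr hs l (norm_nonneg _) (fun N => v.chn_le_norm hs N) v.coord_le N

/-- truncation, linear -/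
def trL (l : ℕ) : Vs Zn →ₗ[ℝ] Vs Zn where
  toFun := trV l
  map_add' v w := Vs.ext' fun n => by
    show tr l (v + w).val n = tr l v.val n + tr l w.val n
    unfold tr
    split_ifs
    · rfl
    · rw [add_zero]
  map_smul' c v := Vs.ext' fun n => by
    show tr l (c • v).val n = c • tr l v.val n
    unfold tr
    split_ifs
    · rfl
    · rw [smul_zero]

theorem cauchy (hT : SpecVTAIL) (v : Vs Zn) : CauchySeq v.val := by
  rw [Metric.cauchySeq_iff']
  intro ε hε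
  obtain ⟨N, hN⟩ := hT Z Zn v ((ε / 2) ^ (3 / 2 : ℝ)) (Real.rpow_pos_of_pos (by linarith) _)
  refine ⟨N, fun n hn => ?_⟩
  have h := hN (fun i => if i = 0 then N else n) (by
    intro i j hij
    dsimp only
    split_ifs with h1 h2 h2
    · exact le_rfl
    · exact hn
    · omega
    · exact le_rfl) (by simp) 1
  rw [Finset.sum_range_one] at h
  simp only [zero_add, one_ne_zero, if_false, if_true] at h
  have h3 : ‖v.val n - v.val N‖ ≤ ε / 2 := by
    by_contra hcon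
    push Not at hcon
    have := Real.rpow_lt_rpow (by linarith) hcon (show (0 : ℝ) < 3 / 2 by norm_num)
    linarith
  rw [dist_eq_norm]
  linarith

end

end QrxM

open QrxM in
theorem specQRX (hT : SpecVTAIL) : SpecQRX := by
  intro Z _ _ _ Zn
  have hlim : ∀ v : Vs Zn, ∃ y, Tendsto v.val atTop (𝓝 y) := fun v =>
    cauchySeq_tendsto_of_complete (cauchy hT v)
  choose q hq using hlim
  let ql : Vs Zn →ₗ[ℝ] Z :=
    { toFun := q
      map_add' := fun v w => tendsto_nhds_unique (hq (v + w)) ((hq v).add (hq w))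
      map_smul' := fun c v => tendsto_nhds_unique (hq (c • v)) ((hq v).const_smul c) }
  refine ⟨⟨ql.mkContinuous 1 (fun v => ?_), fun l => (trL l).mkContinuous 2 (fun v => trV_norm l v),
    fun v => hq v, fun l v n => rfl⟩⟩
  rw [one_mul]
  exact le_of_tendsto (hq v).norm (Eventually.of_forall fun n => v.coord_le n)

end Pool.Agent.MP_e87d84
end

section
/-!
MP_e87d84_an: modules VCPT, VCOMP, VLIFT (compactness, completeness, lifts in the variation space).
-/
set_option autoImplicit false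

open Filter Topology

namespace Pool.Agent.MP_e87d84

namespace VcptM

variable {Z : Type} [NormedAddCommGroup Z]

theorem tendsto_chain {κ : Type*} {l : Filter κ} {z : κ → ℕ → Z} {w : ℕ → Z}
    (h : ∀ n, Tendsto (fun k => z k n) l (𝓝 (w n))) (s : ℕ → ℕ) (N : ℕ) :
    Tendsto (fun k => chain (z k) s N) l (𝓝 (chain w s N)) := by
  unfold chain
  refine Tendsto.add ?_ (tendsto_finsetSum _ fun i _ => ?_)
  · exact (h (s 0)).norm.rpow_const (Or.inr (by norm_num))
  · exact ((h (s (i + 1))).sub (h (s i))).norm.rpow_const (Or.inr (by norm_num))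

theorem tendsto_chn {κ : Type*} {l : Filter κ} {z : κ → ℕ → Z} {w : ℕ → Z}
    (h : ∀ n, Tendsto (fun k => z k n) l (𝓝 (w n))) (s : ℕ → ℕ) (N : ℕ) :
    Tendsto (fun k => chn (z k) s N) l (𝓝 (chn w s N)) :=
  (tendsto_chain h s N).rpow_const (Or.inr (by norm_num))

variable [NormedSpace ℝ Z]

/-- limits along ultrafilters in finite dimensional subspaces -/
theorem exists_lim (S : Submodule ℝ Z) [FiniteDimensional ℝ S] {κ : Type*} (x : κ → Z) (B : ℝ)
    (hx : ∀ k, x k ∈ S) (hB : ∀ k, ‖x k‖ ≤ B) (𝓕 : Ultrafilter κ) :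
    ∃ y ∈ S, Tendsto x 𝓕 (𝓝 y) := by
  have : ProperSpace S := FiniteDimensional.proper ℝ S
  have hc : IsCompact (Metric.closedBall (0 : S) B) := isCompact_closedBall _ _
  obtain ⟨y, -, hy⟩ := hc.ultrafilter_le_nhds (𝓕.map fun k => (⟨x k, hx k⟩ : S)) (by
    rw [le_principal_iff, Ultrafilter.mem_coe, Ultrafilter.mem_map]
    exact Filter.Eventually.of_forall fun k => by
      simpa using hB k)
  exact ⟨y, y.2, (continuous_subtype_val.tendsto y).comp hy⟩

end VcptM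

open VcptM in
theorem specVCPT : SpecVCPT := by
  intro Z _ _ Zn hfin v B hB 𝓕
  have h1 : ∀ n, ∃ y ∈ Zn n, Tendsto (fun k => (v k).val n) 𝓕 (𝓝 y) := by
    intro n
    have := hfin n
    exact exists_lim (Zn n) _ B (fun k => (v k).val_mem n)
      (fun k => ((v k).coord_le n).trans (hB k)) 𝓕
  choose w hw hlim using h1
  have h2 : ∀ s N, Monotone s → chn w s N ≤ B := by
    intro s N hs
    refine le_of_tendsto (tendsto_chn hlim s N) (Filter.Eventually.of_forall fun k => ?_)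
    exact ((v k).chn_le_norm hs N).trans (hB k)
  exact ⟨⟨w, hw, B, h2⟩, Vs.norm_le h2, hlim⟩

open VcptM in
theorem specVCOMP : SpecVCOMP := by
  intro Z _ _ _ Zn hfin
  refine Metric.complete_of_cauchySeq_tendsto fun u hu => ?_
  have h1 : ∀ n, ∃ y ∈ Zn n, Tendsto (fun k => (u k).val n) atTop (𝓝 y) := by
    intro n
    have := hfin n
    have hc : CauchySeq fun k => (u k).val n := by
      rw [Metric.cauchySeq_iff'] at hu ⊢
      intro ε hε
      obtain ⟨N, hN⟩ := hu ε hε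
      refine ⟨N, fun m hm => lt_of_le_of_lt ?_ (hN m hm)⟩
      rw [dist_eq_norm, dist_eq_norm]
      exact (u m - u N).coord_le n
    obtain ⟨y, hy⟩ := cauchySeq_tendsto_of_complete hc
    exact ⟨y, (Submodule.closed_of_finiteDimensional (Zn n)).mem_of_tendsto hy
      (Filter.Eventually.of_forall fun k => (u k).val_mem n), hy⟩
  choose w hw hlim using h1
  -- the differences
  have h2 : ∀ ε > 0, ∃ N, ∀ m ≥ N, ∀ s k, Monotone s → chn (w - (u m).val) s k ≤ ε := by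
    intro ε hε
    obtain ⟨N, hN⟩ := Metric.cauchySeq_iff.mp hu ε hε
    refine ⟨N, fun m hm s k hs => ?_⟩
    have h3 : ∀ n, Tendsto (fun j => ((u j).val - (u m).val) n) atTop
        (𝓝 ((w - (u m).val) n)) := fun n => (hlim n).sub tendsto_const_nhds
    refine le_of_tendsto (tendsto_chn h3 s k) ?_
    filter_upwards [eventually_ge_atTop N] with j hj
    have h4 := hN j hj m hm
    rw [dist_eq_norm] at h4
    exact ((u j - u m).chn_le_norm hs k).trans h4.le
  have hwV : w ∈ VV Zn := by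
    obtain ⟨N, hN⟩ := h2 1 one_pos
    have h5 : w - (u N).val ∈ VV Zn :=
      ⟨fun n => (Zn n).sub_mem (hw n) ((u N).val_mem n), 1, fun s k hs => hN N le_rfl s k hs⟩
    have h6 := (VV Zn).add_mem h5 (u N).mem
    rwa [sub_add_cancel] at h6
  refine ⟨⟨w, hwV⟩, ?_⟩
  rw [Metric.tendsto_atTop]
  intro ε hε
  obtain ⟨N, hN⟩ := h2 (ε / 2) (half_pos hε)
  refine ⟨N, fun m hm => ?_⟩
  rw [dist_comm, dist_eq_norm]
  refine lt_of_le_of_lt ?_ (half_lt_self hε)
  exact Vs.norm_le fun s k hs => hN m hm s k hs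

end Pool.Agent.MP_e87d84
end

section
/-!
MP_e87d84_an, module VKAP: property (A4) for `κ = q ∘ ξ`.
-/
set_option autoImplicit false

open Filter Topology

namespace Pool.Agent.MP_e87d84

namespace VkapM

/-- the contradiction `N c ≤ B √N` -/
theorem no_sqrt {c B : ℝ} (hc : 0 < c) (h : ∀ N : ℕ, (N : ℝ) * c ≤ B * √(N : ℝ)) : False := by
  have h2 : ∀ N : ℕ, 0 < N → √(N : ℝ) * c ≤ B := by
    intro N hN
    have hNp : (0 : ℝ) < N := by exact_mod_cast hN
    have hs : 0 < √(N : ℝ) := Real.sqrt_pos.2 hNp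
    have h1 := h N
    have h3 : (N : ℝ) = √(N : ℝ) * √(N : ℝ) := (Real.mul_self_sqrt hNp.le).symm
    have h4 : √(N : ℝ) * (√(N : ℝ) * c) ≤ √(N : ℝ) * B := by
      calc √(N : ℝ) * (√(N : ℝ) * c) = (N : ℝ) * c := by rw [← mul_assoc, ← h3]
        _ ≤ _ := h1
        _ = _ := mul_comm _ _
    exact le_of_mul_le_mul_left h4 hs
  have htend : Tendsto (fun N : ℕ => √(N : ℝ) * c) atTop atTop := by
    apply Tendsto.atTop_mul_const hc
    exact Real.tendsto_sqrt_atTop.comp tendsto_natCast_atTop_atTop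
  obtain ⟨N, hN1, hN2⟩ := ((htend.eventually_gt_atTop B).and (eventually_gt_atTop 0)).exists
  exact absurd (h2 N hN2) (not_le.2 hN1)

/-- in a proper space a sequence with `‖∑_S x‖ ≤ C √|S|` tends to `0` -/
theorem finlim {F : Type} [NormedAddCommGroup F] [NormedSpace ℝ F] [ProperSpace F] (x : ℕ → F) (C : ℝ)
    (h : ∀ S : Finset ℕ, ‖∑ i ∈ S, x i‖ ≤ C * √(S.card : ℝ)) : Tendsto x atTop (𝓝 0) := by
  by_contra hnot
  rw [Metric.tendsto_atTop] at hnot
  push Not at hnot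
  obtain ⟨ε, hε, hx⟩ := hnot
  have hfr : ∃ᶠ n in atTop, ε ≤ ‖x n‖ := by
    rw [frequently_atTop]
    intro N
    obtain ⟨n, hn1, hn2⟩ := hx N
    exact ⟨n, hn1, by simpa using hn2⟩
  obtain ⟨φ, hφ, hφ2⟩ := extraction_of_frequently_atTop hfr
  have hbd : ∀ n, (x ∘ φ) n ∈ Metric.closedBall (0 : F) C := by
    intro n
    have := h {φ n}
    simpa using this
  obtain ⟨a, -, ψ, hψ, hlim⟩ := tendsto_subseq_of_bounded Metric.isBounded_closedBall hbd
  have ha : ε ≤ ‖a‖ := ge_of_tendsto' hlim.norm fun n => hφ2 (ψ n)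
  have hev := (Metric.tendsto_atTop.1 hlim) (ε / 2) (by positivity)
  obtain ⟨n0, hn0⟩ := hev
  apply no_sqrt (c := ε / 2) (B := C) (by positivity)
  intro N
  have hinj : Function.Injective fun n => φ (ψ (n0 + n)) := by
    intro a b hab
    have := (hφ.comp hψ).injective hab
    omega
  have h1 := h ((Finset.range N).image fun n => φ (ψ (n0 + n)))
  rw [Finset.sum_image (fun a _ b _ hab => hinj hab), Finset.card_image_of_injective _ hinj,
    Finset.card_range] at h1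
  refine le_trans ?_ h1
  have h2 : ‖∑ n ∈ Finset.range N, a‖ = (N : ℝ) * ‖a‖ := by
    rw [Finset.sum_const, Finset.card_range, ← Nat.cast_smul_eq_nsmul ℝ N a, norm_smul,
      Real.norm_natCast]
  have h3 : ∑ n ∈ Finset.range N, a = ∑ n ∈ Finset.range N, x (φ (ψ (n0 + n)))
      - ∑ n ∈ Finset.range N, (x (φ (ψ (n0 + n))) - a) := by
    rw [Finset.sum_sub_distrib]
    abel
  have h4 : ‖∑ n ∈ Finset.range N, (x (φ (ψ (n0 + n))) - a)‖ ≤ (N : ℝ) * (ε / 2) := by
    calc ‖∑ n ∈ Finset.range N, (x (φ (ψ (n0 + n))) - a)‖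
        ≤ ∑ n ∈ Finset.range N, ‖x (φ (ψ (n0 + n))) - a‖ := norm_sum_le _ _
      _ ≤ ∑ n ∈ Finset.range N, ε / 2 := by
          refine Finset.sum_le_sum fun n _ => ?_
          have := hn0 (n0 + n) (Nat.le_add_right _ _)
          rw [dist_eq_norm] at this
          exact this.le
      _ = (N : ℝ) * (ε / 2) := by simp
  have h5 : (N : ℝ) * ‖a‖ ≤ ‖∑ n ∈ Finset.range N, x (φ (ψ (n0 + n)))‖ + (N : ℝ) * (ε / 2) := by
    rw [← h2, h3]
    exact (norm_sub_le _ _).trans (add_le_add_right h4 _)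
  have h6 : (N : ℝ) * ε ≤ (N : ℝ) * ‖a‖ := mul_le_mul_of_nonneg_left ha (Nat.cast_nonneg _)
  linarith

variable {Z : Type} [NormedAddCommGroup Z] [NormedSpace ℝ Z]

/-- coordinates as a linear map -/
def vl (Zn : ℕ → Submodule ℝ Z) (n : ℕ) : Vs Zn →ₗ[ℝ] Z where
  toFun v := v.val n
  map_add' _ _ := rfl
  map_smul' _ _ := rfl

theorem val_add' {Zn : ℕ → Submodule ℝ Z} (v w : Vs Zn) (n : ℕ) :
    (v + w).val n = v.val n + w.val n := rfl

theorem val_sum {Zn : ℕ → Submodule ℝ Z} (S : Finset ℕ) (v : ℕ → Vs Zn) (n : ℕ) :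
    (∑ i ∈ S, v i).val n = ∑ i ∈ S, (v i).val n := map_sum (vl Zn n) v S

/-- the main induction -/
theorem claim {Zn : ℕ → Submodule ℝ Z} (Q : QR Zn) (v : ℕ → Vs Zn) (δ : ℝ) (hδ : 0 < δ)
    (h0 : ∀ n, Tendsto (fun i => (v i).val n) atTop (𝓝 0)) (hq : ∀ i, δ < ‖Q.q (v i)‖) (N : ℕ) :
    ∃ (S : Finset ℕ) (s : ℕ → ℕ), S.card = N ∧ Monotone s ∧
      ∀ j < N, δ / 2 < ‖(∑ i ∈ S, v i).val (s (2 * j + 1)) - (∑ i ∈ S, v i).val (s (2 * j))‖ := by
  induction N with
  | zero => exact ⟨∅, fun _ => 0, rfl, monotone_const, fun j hj => absurd hj (Nat.not_lt_zero j)⟩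
  | succ N ih =>
    obtain ⟨S, s, hS, hs, hj⟩ := ih
    set V : Vs Zn := ∑ i ∈ S, v i with hV
    -- `n`
    have hcau : CauchySeq V.val := (Q.hq V).cauchySeq
    obtain ⟨n1, hn1⟩ := (Metric.cauchySeq_iff.1 hcau) (δ / 8) (by positivity)
    set n : ℕ := max n1 (s (2 * N)) with hn
    -- the new index
    have e1 : ∀ᶠ i in atTop, ‖(v i).val n‖ < δ / 8 := by
      have := (h0 n).norm
      rw [norm_zero] at this
      exact this.eventually_lt_const (by positivity)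
    have e2 : ∀ᶠ i in atTop, ∀ j ∈ Finset.range N,
        δ / 2 < ‖(v i + V).val (s (2 * j + 1)) - (v i + V).val (s (2 * j))‖ := by
      rw [Filter.eventually_all_finset]
      intro j hjN
      have hlim : Tendsto (fun i => ‖(v i + V).val (s (2 * j + 1)) - (v i + V).val (s (2 * j))‖)
          atTop (𝓝 ‖(0 + V.val (s (2 * j + 1))) - (0 + V.val (s (2 * j)))‖) := by
        simp only [val_add']
        exact (((h0 _).add_const _).sub ((h0 _).add_const _)).norm
      apply hlim.eventually_const_lt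
      rw [zero_add, zero_add]
      exact hj j (Finset.mem_range.1 hjN)
    have e3 : ∀ᶠ i in atTop, i ∉ S := by
      filter_upwards [eventually_gt_atTop (S.sup id)] with i hi hmem
      have : i ≤ S.sup id := Finset.le_sup (f := id) hmem
      omega
    obtain ⟨i, hi1, hi2, hi3⟩ := (e1.and (e2.and e3)).exists
    -- `n'`
    have e4 : ∀ᶠ m in atTop, δ < ‖(v i).val m‖ := (Q.hq (v i)).norm.eventually_const_lt (hq i)
    obtain ⟨n', hn'1, hn'2⟩ := (e4.and (eventually_ge_atTop n)).exists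
    refine ⟨insert i S, fun k => if k < 2 * N then s k else if k = 2 * N then n else n', ?_, ?_, ?_⟩
    · rw [Finset.card_insert_of_notMem hi3, hS]
    · apply monotone_nat_of_le_succ
      intro k
      have hsn : s (2 * N) ≤ n := le_max_right _ _
      split_ifs with h1 h2 h3 h4 h5 <;> first | omega | skip
      · exact hs (Nat.le_succ k)
      · exact (hs h1.le).trans hsn
    · intro j hjN
      rw [Finset.sum_insert hi3, ← hV]
      rcases Nat.lt_or_ge j N with h | h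
      · have h1 : 2 * j + 1 < 2 * N := by omega
        have h2 : 2 * j < 2 * N := by omega
        simp only [h1, h2, if_true]
        exact hi2 j (Finset.mem_range.2 h)
      · have hjN' : j = N := by omega
        subst hjN'
        have h1 : ¬ (2 * j + 1 < 2 * j) := by omega
        have h2 : ¬ (2 * j + 1 = 2 * j) := by omega
        simp only [h1, h2, lt_irrefl, if_false, if_true]
        rw [val_add', val_add']
        have h3 : ‖V.val n' - V.val n‖ < δ / 8 := by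
          rw [← dist_eq_norm]
          exact hn1 n' ((le_max_left _ _).trans hn'2) n (le_max_left _ _)
        have h4 : (v i).val n' = ((v i).val n' + V.val n' - ((v i).val n + V.val n))
            + ((v i).val n - (V.val n' - V.val n)) := by abel
        have h5 : ‖(v i).val n'‖ ≤ ‖(v i).val n' + V.val n' - ((v i).val n + V.val n)‖
            + (‖(v i).val n‖ + ‖V.val n' - V.val n‖) := by
          calc ‖(v i).val n'‖ = ‖((v i).val n' + V.val n' - ((v i).val n + V.val n))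
            + ((v i).val n - (V.val n' - V.val n))‖ := by rw [← h4]
            _ ≤ _ := (norm_add_le _ _).trans (add_le_add_right (norm_sub_le _ _) _)
        linarith

omit [NormedSpace ℝ Z] in
theorem chain_ge (z : ℕ → Z) (s : ℕ → ℕ) (δ : ℝ) (hδ : 0 < δ) (N : ℕ)
    (h : ∀ j < N, δ / 2 < ‖z (s (2 * j + 1)) - z (s (2 * j))‖) :
    (N : ℝ) * (δ / 2) ^ (3 / 2 : ℝ) ≤ chain z s (2 * N) := by
  have h1 : (N : ℝ) * (δ / 2) ^ (3 / 2 : ℝ)
      ≤ ∑ i ∈ Finset.range (2 * N), ‖z (s (i + 1)) - z (s i)‖ ^ (3 / 2 : ℝ) := by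
    induction N with
    | zero => simp
    | succ N ih =>
      have h2 := ih fun j hj => h j (by omega)
      rw [show 2 * (N + 1) = 2 * N + 1 + 1 by ring, Finset.sum_range_succ, Finset.sum_range_succ]
      have h3 : (δ / 2) ^ (3 / 2 : ℝ) ≤ ‖z (s (2 * N + 1)) - z (s (2 * N))‖ ^ (3 / 2 : ℝ) :=
        Real.rpow_le_rpow (by positivity) (h N (Nat.lt_succ_self N)).le (by norm_num)
      have h4 : 0 ≤ ‖z (s (2 * N + 1 + 1)) - z (s (2 * N + 1))‖ ^ (3 / 2 : ℝ) :=
        Real.rpow_nonneg (norm_nonneg _) _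
      push_cast
      linarith
  refine h1.trans ?_
  unfold chain
  exact le_add_of_nonneg_left (Real.rpow_nonneg (norm_nonneg _) _)

end VkapM

open VkapM in
theorem specVKAP : SpecVKAP := by
  intro Z _ _ _ Zn Q hfin ξ f C hC
  by_contra hnot
  rw [Metric.tendsto_atTop] at hnot
  push Not at hnot
  obtain ⟨ε, hε, hx⟩ := hnot
  have hfr : ∃ᶠ n in atTop, ε ≤ ‖Q.q (ξ (f n))‖ := by
    rw [frequently_atTop]
    intro N
    obtain ⟨n, hn1, hn2⟩ := hx N
    exact ⟨n, hn1, by simpa using hn2⟩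
  obtain ⟨φ, hφ, hφ2⟩ := extraction_of_frequently_atTop hfr
  -- the subsequence
  set g : ℕ → Z := fun i => f (φ i) with hg
  have hgC : ∀ S : Finset ℕ, ‖∑ i ∈ S, g i‖ ≤ C * √(S.card : ℝ) := by
    intro S
    have h1 := hC (S.image φ)
    rwa [Finset.sum_image (fun a _ b _ hab => hφ.injective hab),
      Finset.card_image_of_injective _ hφ.injective] at h1
  set v : ℕ → Vs Zn := fun i => ξ (g i) with hv
  have hsum : ∀ S : Finset ℕ, ‖∑ i ∈ S, v i‖ ≤ ‖ξ‖ * C * √(S.card : ℝ) := by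
    intro S
    have h1 : ∑ i ∈ S, v i = ξ (∑ i ∈ S, g i) := (map_sum ξ g S).symm
    rw [h1, mul_assoc]
    exact (ξ.le_opNorm _).trans (mul_le_mul_of_nonneg_left (hgC S) ξ.opNorm_nonneg)
  have h0 : ∀ n, Tendsto (fun i => (v i).val n) atTop (𝓝 0) := by
    intro n
    have := hfin n
    have hprop : ProperSpace (Zn n) := FiniteDimensional.proper ℝ (Zn n)
    have h1 := finlim (F := Zn n) (fun i => (⟨(v i).val n, (v i).val_mem n⟩ : Zn n)) (‖ξ‖ * C) (by
      intro S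
      have h2 : ‖∑ i ∈ S, (⟨(v i).val n, (v i).val_mem n⟩ : Zn n)‖
          = ‖(∑ i ∈ S, v i).val n‖ := by
        rw [val_sum, show ∑ i ∈ S, (v i).val n
          = ((∑ i ∈ S, (⟨(v i).val n, (v i).val_mem n⟩ : Zn n) : Zn n) : Z) by
            rw [Submodule.coe_sum]]
        rfl
      rw [h2]
      exact ((∑ i ∈ S, v i).coord_le n).trans (hsum S))
    exact (continuous_subtype_val.tendsto (0 : Zn n)).comp h1
  have hq : ∀ i, ε / 2 < ‖Q.q (v i)‖ := fun i => lt_of_lt_of_le (by linarith) (hφ2 i)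
  -- contradiction
  have hC0 : 0 ≤ C := by
    have := hC {0}
    simp only [Finset.sum_singleton, Finset.card_singleton, Nat.cast_one, Real.sqrt_one,
      mul_one] at this
    exact (norm_nonneg _).trans this
  have hB0 : 0 ≤ ‖ξ‖ * C := mul_nonneg ξ.opNorm_nonneg hC0
  have hmain : ∀ N : ℕ, (N : ℝ) ^ (2 / 3 : ℝ) * (ε / 2 / 2) ≤ ‖ξ‖ * C * √(N : ℝ) := by
    intro N
    obtain ⟨S, s, hS, hs, hj⟩ := claim Q v (ε / 2) (by positivity) h0 hq N
    have h1 := chain_ge (∑ i ∈ S, v i).val s (ε / 2) (by positivity) N hj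
    have h2 : chn (∑ i ∈ S, v i).val s (2 * N) ≤ ‖ξ‖ * C * √(N : ℝ) := by
      refine ((∑ i ∈ S, v i).chn_le_norm hs (2 * N)).trans ?_
      have := hsum S
      rwa [hS] at this
    refine le_trans ?_ h2
    unfold chn
    have h3 : ((N : ℝ) * (ε / 2 / 2) ^ (3 / 2 : ℝ)) ^ (1 / (3 / 2) : ℝ)
        = (N : ℝ) ^ (2 / 3 : ℝ) * (ε / 2 / 2) := by
      rw [Real.mul_rpow (by positivity) (by positivity), ← Real.rpow_mul (by positivity)]
      norm_num
    rw [← h3]
    exact Real.rpow_le_rpow (by positivity) h1 (by norm_num)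
  have h2 : ∀ N : ℕ, 0 < N → (N : ℝ) ^ (1 / 6 : ℝ) * (ε / 2 / 2) ≤ ‖ξ‖ * C := by
    intro N hN
    have hNp : (0 : ℝ) < N := by exact_mod_cast hN
    have h3 : (N : ℝ) ^ (2 / 3 : ℝ) = √(N : ℝ) * (N : ℝ) ^ (1 / 6 : ℝ) := by
      rw [Real.sqrt_eq_rpow, ← Real.rpow_add hNp]
      norm_num
    have hs : 0 < √(N : ℝ) := Real.sqrt_pos.2 hNp
    have h4 := hmain N
    rw [h3, mul_assoc, mul_comm (‖ξ‖ * C)] at h4
    exact le_of_mul_le_mul_left h4 hs
  have htend : Tendsto (fun N : ℕ => (N : ℝ) ^ (1 / 6 : ℝ) * (ε / 2 / 2)) atTop atTop := by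
    apply Tendsto.atTop_mul_const (by positivity)
    exact (tendsto_rpow_atTop (by norm_num)).comp tendsto_natCast_atTop_atTop
  obtain ⟨N, hN1, hN2⟩ :=
    ((htend.eventually_gt_atTop (‖ξ‖ * C)).and (eventually_gt_atTop 0)).exists
  exact absurd (h2 N hN2) (not_le.2 hN1)

end Pool.Agent.MP_e87d84
end

section
/-!
MP_e87d84_an: module VLIFT (`q` is onto with bounded lifts).
-/
set_option autoImplicit false

open Filter Topology

namespace Pool.Agent.MP_e87d84

namespace VliftM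

variable {Z : Type} [NormedAddCommGroup Z]

/-- the step sequence -/
def st (m : ℕ) (w : Z) : ℕ → Z := fun n => if m ≤ n then w else 0

theorem chain_st (m : ℕ) (w : Z) {s : ℕ → ℕ} (hs : Monotone s) (N : ℕ) :
    chain (st m w) s N = ‖st m w (s N)‖ ^ (3 / 2 : ℝ) := by
  induction N with
  | zero => simp [chain]
  | succ N ih =>
    have e1 : chain (st m w) s (N + 1) = chain (st m w) s N +
        ‖st m w (s (N + 1)) - st m w (s N)‖ ^ (3 / 2 : ℝ) := by
      unfold chain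
      rw [Finset.sum_range_succ]
      ring
    rw [e1, ih]
    by_cases h : m ≤ s N
    · have h' : m ≤ s (N + 1) := h.trans (hs (Nat.le_succ N))
      simp only [st, if_pos h, if_pos h', sub_self, norm_zero]
      rw [Real.zero_rpow (by norm_num), add_zero]
    · simp only [st, if_neg h, norm_zero, sub_zero]
      rw [Real.zero_rpow (by norm_num), zero_add]

theorem chn_st_le (m : ℕ) (w : Z) {s : ℕ → ℕ} (hs : Monotone s) (N : ℕ) :
    chn (st m w) s N ≤ ‖w‖ := by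
  unfold chn
  rw [chain_st m w hs, ← Real.rpow_mul (norm_nonneg _)]
  norm_num
  unfold st
  split_ifs
  · exact le_rfl
  · simp

end VliftM

open VliftM in
theorem specVLIFT : SpecVLIFT := by
  intro Z _ _ _ Zn Q hmono hfin hdense z
  have hcs : CompleteSpace (Vs Zn) := specVCOMP Z Zn hfin
  let f : NormedAddGroupHom (Vs Zn) Z :=
    ((Q.q : Vs Zn →ₗ[ℝ] Z).toAddMonoidHom).mkNormedAddGroupHom ‖Q.q‖ (fun v => Q.q.le_opNorm v)
  let K : AddSubgroup Z := (⨆ n, Zn n).toAddSubgroup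
  have hsurj : f.SurjectiveOnWith K 1 := by
    intro w hw
    obtain ⟨m, hm⟩ := (Submodule.mem_iSup_of_directed Zn hmono.directed_le).mp hw
    let v : Vs Zn := ⟨st m w, fun n => by
      unfold st
      split_ifs with h
      · exact hmono h hm
      · exact (Zn n).zero_mem, ‖w‖, fun s N hs => chn_st_le m w hs N⟩
    refine ⟨v, ?_, ?_⟩
    · have h1 : Tendsto v.val atTop (𝓝 w) := by
        refine tendsto_const_nhds.congr' ?_
        filter_upwards [eventually_ge_atTop m] with n hn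
        exact (if_pos hn).symm
      exact tendsto_nhds_unique (Q.hq v) h1
    · rw [one_mul]
      exact Vs.norm_le fun s N hs => chn_st_le m w hs N
  have h4 := controlled_closure_of_complete one_pos (show (0 : ℝ) < 3 by norm_num) hsurj
  have hz : z ∈ K.topologicalClosure := by
    change z ∈ closure (K : Set Z)
    rw [Metric.mem_closure_iff]
    intro ε hε
    obtain ⟨n, w, hw, h⟩ := hdense z (ε / 2) (half_pos hε)
    refine ⟨w, (Submodule.mem_iSup_of_directed Zn hmono.directed_le).mpr ⟨n, hw⟩, ?_⟩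
    rw [dist_eq_norm]
    linarith
  obtain ⟨v, hv, hvn⟩ := h4 z hz
  refine ⟨v, hv, hvn.trans (le_of_eq ?_)⟩
  norm_num

end Pool.Agent.MP_e87d84
end

section
/-!
MP_e87d84_an, module VSHR: functionals on `ker q` are uniformly small far away.
-/
set_option autoImplicit false

open Filter Topology

namespace Pool.Agent.MP_e87d84

namespace VshrM

variable {Z : Type} [NormedAddCommGroup Z]

theorem chn_rpow (z : ℕ → Z) (s : ℕ → ℕ) (N : ℕ) : chn z s N ^ (3 / 2 : ℝ) = chain z s N := by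
  unfold chn
  rw [← Real.rpow_mul (chain_nonneg _ _ _)]
  norm_num

/-- at most two nonzero terms -/
theorem sum_two {ι : Type} [DecidableEq ι] (S : Finset ι) (x : ι → Z) (T : Finset ι)
    (hT : T.card ≤ 2) (hx : ∀ i ∈ S, i ∉ T → x i = 0) :
    ‖∑ i ∈ S, x i‖ ^ (3 / 2 : ℝ) ≤ 2 * ∑ i ∈ S, ‖x i‖ ^ (3 / 2 : ℝ) := by
  have h1 : ∑ i ∈ S, x i = ∑ i ∈ S.filter (· ∈ T), x i := by
    rw [Finset.sum_filter]
    refine Finset.sum_congr rfl fun i hi => ?_
    split_ifs with h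
    · rfl
    · exact hx i hi h
  have hcard : (S.filter (· ∈ T)).card ≤ 2 := by
    refine le_trans (Finset.card_le_card ?_) hT
    intro i hi
    exact (Finset.mem_filter.1 hi).2
  rw [h1]
  calc ‖∑ i ∈ S.filter (· ∈ T), x i‖ ^ (3 / 2 : ℝ)
      ≤ (∑ i ∈ S.filter (· ∈ T), |‖x i‖|) ^ (3 / 2 : ℝ) := by
        apply Real.rpow_le_rpow (norm_nonneg _) _ (by norm_num)
        simp only [abs_norm]
        exact norm_sum_le _ _
    _ ≤ ((S.filter (· ∈ T)).card : ℝ) ^ ((3 / 2 : ℝ) - 1) *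
          ∑ i ∈ S.filter (· ∈ T), |‖x i‖| ^ (3 / 2 : ℝ) :=
        Real.rpow_sum_le_const_mul_sum_rpow _ _ (by norm_num)
    _ ≤ 2 * ∑ i ∈ S.filter (· ∈ T), ‖x i‖ ^ (3 / 2 : ℝ) := by
        simp only [abs_norm]
        apply mul_le_mul_of_nonneg_right _
          (Finset.sum_nonneg fun i _ => Real.rpow_nonneg (norm_nonneg _) _)
        have h2 : ((S.filter (· ∈ T)).card : ℝ) ≤ 2 := by exact_mod_cast hcard
        calc ((S.filter (· ∈ T)).card : ℝ) ^ ((3 / 2 : ℝ) - 1)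
            ≤ (2 : ℝ) ^ ((3 / 2 : ℝ) - 1) :=
              Real.rpow_le_rpow (by positivity) h2 (by norm_num)
          _ ≤ (2 : ℝ) ^ (1 : ℝ) := Real.rpow_le_rpow_of_exponent_le (by norm_num) (by norm_num)
          _ = 2 := Real.rpow_one 2
    _ ≤ 2 * ∑ i ∈ S, ‖x i‖ ^ (3 / 2 : ℝ) := by
        apply mul_le_mul_of_nonneg_left _ (by norm_num)
        exact Finset.sum_le_sum_of_subset_of_nonneg (Finset.filter_subset _ _)
          fun i _ _ => Real.rpow_nonneg (norm_nonneg _) _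

variable [NormedSpace ℝ Z]

theorem norm_smul_vs {Zn : ℕ → Submodule ℝ Z} (c : ℝ) (v : Vs Zn) : ‖c • v‖ = |c| * ‖v‖ :=
  @norm_smul ℝ (Vs Zn) _ SeminormedAddGroup.toNorm _ _ c v

theorem chain_le {Zn : ℕ → Submodule ℝ Z} (v : Vs Zn) {s : ℕ → ℕ} (hs : Monotone s) (N : ℕ) :
    chain v.val s N ≤ ‖v‖ ^ (3 / 2 : ℝ) := by
  rw [← chn_rpow]
  exact Real.rpow_le_rpow (chn_nonneg _ _ _) (v.chn_le_norm hs N) (by norm_num)

theorem norm_le_of_chain {Zn : ℕ → Submodule ℝ Z} {v : Vs Zn} {C : ℝ}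
    (h : ∀ s N, Monotone s → chain v.val s N ≤ C) : ‖v‖ ≤ C ^ (2 / 3 : ℝ) := by
  apply Vs.norm_le
  intro s N hs
  unfold chn
  rw [show (1 / (3 / 2) : ℝ) = 2 / 3 by norm_num]
  exact Real.rpow_le_rpow (chain_nonneg _ _ _) (h s N hs) (by norm_num)

/-- [VUP] upper `3/2`-estimate for disjoint supports -/
theorem vup {Zn : ℕ → Submodule ℝ Z} (S : Finset ℕ) (w : ℕ → Vs Zn)
    (hd : ∀ i ∈ S, ∀ j ∈ S, i ≠ j → ∀ n, (w i).val n = 0 ∨ (w j).val n = 0) :
    ‖∑ i ∈ S, w i‖ ≤ (2 * ∑ i ∈ S, ‖w i‖ ^ (3 / 2 : ℝ)) ^ (2 / 3 : ℝ) := by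
  classical
  have hval : ∀ n, (∑ i ∈ S, w i).val n = ∑ i ∈ S, (w i).val n := by
    intro n
    induction S using Finset.induction_on with
    | empty => simp
    | insert a S ha ih =>
      rw [Finset.sum_insert ha, Finset.sum_insert ha, Vs.val_add, Pi.add_apply, ih]
      intro i hi j hj
      exact hd i (Finset.mem_insert_of_mem hi) j (Finset.mem_insert_of_mem hj)
  -- the nonzero indices at `n`
  have hone : ∀ n, (S.filter fun i => (w i).val n ≠ 0).card ≤ 1 := by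
    intro n
    rw [Finset.card_le_one]
    intro i hi j hj
    obtain ⟨hi1, hi2⟩ := Finset.mem_filter.1 hi
    obtain ⟨hj1, hj2⟩ := Finset.mem_filter.1 hj
    by_contra hij
    rcases hd i hi1 j hj1 hij n with h | h
    · exact hi2 h
    · exact hj2 h
  apply norm_le_of_chain
  intro s N hs
  unfold chain
  have hb : ‖(∑ i ∈ S, w i).val (s 0)‖ ^ (3 / 2 : ℝ)
      ≤ 2 * ∑ i ∈ S, ‖(w i).val (s 0)‖ ^ (3 / 2 : ℝ) := by
    rw [hval]
    apply sum_two S _ (S.filter fun i => (w i).val (s 0) ≠ 0) ((hone _).trans (by norm_num))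
    intro i hi hni
    by_contra hne
    exact hni (Finset.mem_filter.2 ⟨hi, hne⟩)
  have hj : ∀ k, ‖(∑ i ∈ S, w i).val (s (k + 1)) - (∑ i ∈ S, w i).val (s k)‖ ^ (3 / 2 : ℝ)
      ≤ 2 * ∑ i ∈ S, ‖(w i).val (s (k + 1)) - (w i).val (s k)‖ ^ (3 / 2 : ℝ) := by
    intro k
    rw [hval, hval, ← Finset.sum_sub_distrib]
    apply sum_two S _ ((S.filter fun i => (w i).val (s (k + 1)) ≠ 0) ∪
      (S.filter fun i => (w i).val (s k) ≠ 0))
    · refine (Finset.card_union_le _ _).trans ?_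
      have h1 := hone (s (k + 1))
      have h2 := hone (s k)
      omega
    · intro i hi hni
      rw [Finset.mem_union, not_or] at hni
      have h1 : (w i).val (s (k + 1)) = 0 := by
        by_contra hne
        exact hni.1 (Finset.mem_filter.2 ⟨hi, hne⟩)
      have h2 : (w i).val (s k) = 0 := by
        by_contra hne
        exact hni.2 (Finset.mem_filter.2 ⟨hi, hne⟩)
      rw [h1, h2, sub_zero]
  calc ‖(∑ i ∈ S, w i).val (s 0)‖ ^ (3 / 2 : ℝ) +
        ∑ k ∈ Finset.range N,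
          ‖(∑ i ∈ S, w i).val (s (k + 1)) - (∑ i ∈ S, w i).val (s k)‖ ^ (3 / 2 : ℝ)
      ≤ 2 * ∑ i ∈ S, ‖(w i).val (s 0)‖ ^ (3 / 2 : ℝ) +
        ∑ k ∈ Finset.range N,
          2 * ∑ i ∈ S, ‖(w i).val (s (k + 1)) - (w i).val (s k)‖ ^ (3 / 2 : ℝ) :=
        add_le_add hb (Finset.sum_le_sum fun k _ => hj k)
    _ = 2 * ∑ i ∈ S, chain (w i).val s N := by
        unfold chain
        rw [Finset.sum_add_distrib, ← Finset.mul_sum, Finset.sum_comm]
        ring
    _ ≤ 2 * ∑ i ∈ S, ‖w i‖ ^ (3 / 2 : ℝ) := by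
        apply mul_le_mul_of_nonneg_left _ (by norm_num)
        exact Finset.sum_le_sum fun i _ => chain_le _ hs _

theorem q_of_eventually {Zn : ℕ → Submodule ℝ Z} (Q : QR Zn) (v : Vs Zn) (k : ℕ)
    (h : ∀ n, k < n → v.val n = 0) : Q.q v = 0 := by
  apply tendsto_nhds_unique (Q.hq v)
  apply tendsto_const_nhds.congr'
  filter_upwards [eventually_gt_atTop k] with n hn
  exact (h n hn).symm

end VshrM

open VshrM in
theorem specVSHR (hTR : SpecVTR) : SpecVSHR := by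
  intro Z _ _ _ Zn Q φ ε hε
  obtain ⟨hR2, -, -, hRlim, -⟩ := hTR Z Zn Q
  by_contra hcon
  push Not at hcon
  -- finitely supported vectors far away
  have key : ∀ l : ℕ, ∃ k : ℕ, l < k ∧ ∃ w : LinearMap.ker (Q.q : Vs Zn →ₗ[ℝ] Z),
      (∀ n ≤ l, (w : Vs Zn).val n = 0) ∧ (∀ n, k < n → (w : Vs Zn).val n = 0) ∧
      ‖(w : Vs Zn)‖ ≤ 2 ∧ ε / 2 < φ w := by
    intro l
    obtain ⟨v, hv0, hv1⟩ := hcon l
    -- normalise
    have hvn : ‖v‖ ≠ 0 := by
      intro h0
      rw [norm_eq_zero] at h0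
      subst h0
      simp at hv1
    have hvp : 0 < ‖v‖ := lt_of_le_of_ne (norm_nonneg _) (Ne.symm hvn)
    have hvl : ∀ n ≤ l, (v : Vs Zn).val n = 0 := by
      intro n hn
      have h1 := Q.hR l v n
      rw [if_pos hn] at h1
      rw [← h1, hv0]
      rfl
    have hq : Q.q (v : Vs Zn) = 0 := v.2
    have hlim := hRlim v hq
    have hk0 : ∀ k, Q.q (Q.R k (v : Vs Zn)) = 0 := by
      intro k
      apply q_of_eventually Q _ k
      intro n hn
      rw [Q.hR, if_neg (by omega)]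
    let w : ℕ → LinearMap.ker (Q.q : Vs Zn →ₗ[ℝ] Z) := fun k => ⟨Q.R k v, hk0 k⟩
    have hwlim : Tendsto w atTop (𝓝 v) := by
      rw [tendsto_subtype_rng]
      exact hlim
    have hφ : Tendsto (fun k => φ (w k)) atTop (𝓝 (φ v)) := (φ.continuous.tendsto v).comp hwlim
    have hφ2 : Tendsto (fun k => |φ (w k)|) atTop (𝓝 |φ v|) := hφ.abs
    have hev : ∀ᶠ k in atTop, ε / 2 * ‖v‖ < |φ (w k)| := by
      apply hφ2.eventually_const_lt
      nlinarith
    obtain ⟨k, hk1, hk2⟩ := (hev.and (eventually_gt_atTop l)).exists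
    -- choose the sign
    have hsign : ∃ c : ℝ, |c| = 1 ∧ c * φ (w k) = |φ (w k)| := by
      rcases abs_cases (φ (w k)) with ⟨h, -⟩ | ⟨h, -⟩
      · exact ⟨1, by norm_num, by rw [h]; ring⟩
      · exact ⟨-1, by norm_num, by rw [h]; ring⟩
    obtain ⟨c, hc1, hc2⟩ := hsign
    refine ⟨k, hk2, (c / ‖v‖) • w k, ?_, ?_, ?_, ?_⟩
    · intro n hn
      change (c / ‖v‖) • (Q.R k (v : Vs Zn)).val n = 0
      rw [Q.hR, hvl n hn]
      simp
    · intro n hn
      change (c / ‖v‖) • (Q.R k (v : Vs Zn)).val n = 0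
      rw [Q.hR, if_neg (by omega), smul_zero]
    · change ‖(c / ‖v‖) • (Q.R k (v : Vs Zn))‖ ≤ 2
      rw [norm_smul_vs, abs_div, hc1, abs_of_pos hvp]
      have h1 := hR2 k (v : Vs Zn)
      have h2 : ‖(v : Vs Zn)‖ = ‖v‖ := rfl
      rw [h2] at h1
      rw [div_mul_eq_mul_div, one_mul, div_le_iff₀ hvp]
      exact h1
    · rw [map_smul, smul_eq_mul, div_mul_eq_mul_div, hc2, lt_div_iff₀ hvp]
      exact hk1
  choose K hK W hW1 hW2 hW3 hW4 using key
  let L : ℕ → ℕ := fun j => Nat.rec 0 (fun _ a => K a) j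
  have hLs : ∀ j, L (j + 1) = K (L j) := fun j => rfl
  have hLm : StrictMono L := strictMono_nat_of_lt_succ fun j => by rw [hLs]; exact hK _
  -- disjoint supports
  have hdis : ∀ i j, i < j → ∀ n, (W (L i) : Vs Zn).val n = 0 ∨ (W (L j) : Vs Zn).val n = 0 := by
    intro i j hij n
    rcases Nat.lt_or_ge (L j) n with h | h
    · left
      apply hW2
      have : L (i + 1) ≤ L j := hLm.monotone hij
      rw [hLs] at this
      omega
    · right
      exact hW1 _ n h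
  have hbound : ∀ N : ℕ, (N : ℝ) * (ε / 2) ≤ ‖φ‖ * ((2 * ((N : ℝ) * 2 ^ (3 / 2 : ℝ))) ^ (2 / 3 : ℝ)) := by
    intro N
    have h1 : (N : ℝ) * (ε / 2) ≤ φ (∑ j ∈ Finset.range N, W (L j)) := by
      rw [map_sum]
      calc (N : ℝ) * (ε / 2) = ∑ j ∈ Finset.range N, (ε / 2) := by simp
        _ ≤ _ := Finset.sum_le_sum fun j _ => (hW4 _).le
    have h2 : φ (∑ j ∈ Finset.range N, W (L j)) ≤ ‖φ‖ * ‖∑ j ∈ Finset.range N, W (L j)‖ :=
      (le_abs_self _).trans (φ.le_opNorm _)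
    refine h1.trans (h2.trans ?_)
    apply mul_le_mul_of_nonneg_left _ φ.opNorm_nonneg
    have h3 : ‖∑ j ∈ Finset.range N, W (L j)‖ = ‖∑ j ∈ Finset.range N, (W (L j) : Vs Zn)‖ := by
      rw [← Submodule.coe_sum]
      rfl
    rw [h3]
    refine (vup (Finset.range N) (fun j => (W (L j) : Vs Zn)) ?_).trans ?_
    · intro i _ j _ hij n
      rcases lt_or_gt_of_ne hij with h | h
      · exact hdis i j h n
      · exact (hdis j i h n).symm
    · apply Real.rpow_le_rpow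
      · apply mul_nonneg (by norm_num)
        exact Finset.sum_nonneg fun i _ => Real.rpow_nonneg (norm_nonneg _) _
      · apply mul_le_mul_of_nonneg_left _ (by norm_num)
        calc ∑ j ∈ Finset.range N, ‖(W (L j) : Vs Zn)‖ ^ (3 / 2 : ℝ)
            ≤ ∑ j ∈ Finset.range N, (2 : ℝ) ^ (3 / 2 : ℝ) :=
              Finset.sum_le_sum fun j _ => Real.rpow_le_rpow (norm_nonneg _) (hW3 _) (by norm_num)
          _ = (N : ℝ) * 2 ^ (3 / 2 : ℝ) := by simp
      · norm_num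
  -- contradiction for large `N`
  set B : ℝ := ‖φ‖ * (2 * 2 ^ (3 / 2 : ℝ)) ^ (2 / 3 : ℝ) with hB
  have hbound2 : ∀ N : ℕ, 0 < N → (N : ℝ) ^ (1 / 3 : ℝ) * (ε / 2) ≤ B := by
    intro N hN
    have hNp : (0 : ℝ) < N := by exact_mod_cast hN
    have h1 := hbound N
    have h2 : (2 * ((N : ℝ) * 2 ^ (3 / 2 : ℝ))) ^ (2 / 3 : ℝ)
        = (N : ℝ) ^ (2 / 3 : ℝ) * (2 * 2 ^ (3 / 2 : ℝ)) ^ (2 / 3 : ℝ) := by
      rw [← Real.mul_rpow (by positivity) (by positivity)]
      congr 1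
      ring
    have h3 : (N : ℝ) = (N : ℝ) ^ (2 / 3 : ℝ) * (N : ℝ) ^ (1 / 3 : ℝ) := by
      rw [← Real.rpow_add hNp]
      norm_num
    have h4 : 0 < (N : ℝ) ^ (2 / 3 : ℝ) := Real.rpow_pos_of_pos hNp _
    rw [h2] at h1
    have h5 : (N : ℝ) ^ (2 / 3 : ℝ) * ((N : ℝ) ^ (1 / 3 : ℝ) * (ε / 2))
        ≤ (N : ℝ) ^ (2 / 3 : ℝ) * B := by
      calc (N : ℝ) ^ (2 / 3 : ℝ) * ((N : ℝ) ^ (1 / 3 : ℝ) * (ε / 2)) = (N : ℝ) * (ε / 2) := by
            rw [← mul_assoc, ← h3]
        _ ≤ _ := h1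
        _ = (N : ℝ) ^ (2 / 3 : ℝ) * B := by rw [hB]; ring
    exact le_of_mul_le_mul_left h5 h4
  have htend : Tendsto (fun N : ℕ => (N : ℝ) ^ (1 / 3 : ℝ) * (ε / 2)) atTop atTop := by
    apply Tendsto.atTop_mul_const (by positivity)
    exact (tendsto_rpow_atTop (by norm_num)).comp tendsto_natCast_atTop_atTop
  obtain ⟨N, hN1, hN2⟩ := ((htend.eventually_gt_atTop B).and (eventually_gt_atTop 0)).exists
  exact absurd (hbound2 N hN2) (not_le.2 hN1)

end Pool.Agent.MP_e87d84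
end

section
/-!
MP_e87d84_an, module VTR: norms of the truncations; convergence of the truncations on `ker q`.
-/
set_option autoImplicit false

open Filter Topology

namespace Pool.Agent.MP_e87d84

namespace VtrM

open VtailM QrxM

section

variable {Z : Type} [NormedAddCommGroup Z]

/-- the unit vector with value `w` at `m` -/
def un (m : ℕ) (w : Z) (n : ℕ) : Z := if n = m then w else 0

theorem un_self (m : ℕ) (w : Z) : un m w m = w := by unfold un; rw [if_pos rfl]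

theorem un_ne {m n : ℕ} (h : n ≠ m) (w : Z) : un m w n = 0 := by unfold un; rw [if_neg h]

theorem chain_un {s : ℕ → ℕ} (hs : Monotone s) (m : ℕ) (w : Z) (N : ℕ) :
    chain (un m w) s N ≤ 2 * ‖w‖ ^ (3 / 2 : ℝ) ∧
      (s N = m → chain (un m w) s N ≤ ‖w‖ ^ (3 / 2 : ℝ)) ∧
      (s N < m → chain (un m w) s N = 0) := by
  have h0 : 0 ≤ ‖w‖ ^ (3 / 2 : ℝ) := Real.rpow_nonneg (norm_nonneg _) _
  induction N with
  | zero =>
    have e : chain (un m w) s 0 = ‖un m w (s 0)‖ ^ (3 / 2 : ℝ) := by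
      unfold chain; rw [Finset.range_zero, Finset.sum_empty, add_zero]
    rw [e]
    by_cases h : s 0 = m
    · rw [h, un_self]
      exact ⟨by linarith, fun _ => le_rfl, fun hh => absurd hh (by omega)⟩
    · rw [un_ne h, norm_zero, rr]
      exact ⟨by linarith, fun _ => h0, fun _ => rfl⟩
  | succ N ih =>
    obtain ⟨i1, i2, i3⟩ := ih
    have hm : s N ≤ s (N + 1) := hs (Nat.le_succ N)
    rw [chain_succ]
    by_cases h1 : s (N + 1) = m
    · by_cases h2 : s N = m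
      · rw [h1, h2, sub_self, norm_zero, rr, add_zero]
        exact ⟨i1, fun _ => i2 h2, fun hh => absurd hh (by omega)⟩
      · rw [h1, un_self, un_ne h2, sub_zero, i3 (by omega), zero_add]
        exact ⟨by linarith, fun _ => le_rfl, fun hh => absurd hh (by omega)⟩
    · by_cases h2 : s N = m
      · rw [h2, un_self, un_ne h1, zero_sub, norm_neg]
        have := i2 h2
        exact ⟨by linarith, fun hh => absurd hh h1, fun hh => absurd hh (by omega)⟩
      · rw [un_ne h1, un_ne h2, sub_zero, norm_zero, rr, add_zero]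
        exact ⟨i1, fun hh => absurd hh h1, fun hh => i3 (by omega)⟩

theorem chn_un {s : ℕ → ℕ} (hs : Monotone s) (m : ℕ) (w : Z) (N : ℕ) :
    chn (un m w) s N ≤ 2 * ‖w‖ := by
  apply chn_le_of_chain (by positivity)
  exact (chain_un hs m w N).1.trans (two_mul_rpow (norm_nonneg _))

theorem tr_succ (l : ℕ) (z : ℕ → Z) : tr (l + 1) z = tr l z + un (l + 1) (z (l + 1)) := by
  funext n
  rw [Pi.add_apply]
  unfold tr un
  rcases lt_trichotomy n (l + 1) with h | h | h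
  · rw [if_pos (by omega), if_pos (by omega), if_neg (by omega), add_zero]
  · subst h
    rw [if_pos le_rfl, if_neg (by omega), if_pos rfl, zero_add]
  · rw [if_neg (by omega), if_neg (by omega), if_neg (by omega), add_zero]

theorem tr_zero (z : ℕ → Z) : tr 0 z = un 0 (z 0) := by
  funext n
  unfold tr un
  by_cases h : n = 0
  · subst h
    rw [if_pos le_rfl, if_pos rfl]
  · rw [if_neg (by omega), if_neg h]

theorem chn_tr_sum {s : ℕ → ℕ} (hs : Monotone s) (l : ℕ) (z : ℕ → Z) (N : ℕ) :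
    chn (tr l z) s N ≤ 2 * ∑ m ∈ Finset.range (l + 1), ‖z m‖ := by
  induction l with
  | zero =>
    rw [tr_zero, zero_add, Finset.sum_range_one]
    exact chn_un hs 0 (z 0) N
  | succ l ih =>
    rw [tr_succ, Finset.sum_range_succ, mul_add]
    exact (chn_add_le _ _ s N).trans (add_le_add ih (chn_un hs _ _ N))

/-- chains of `z - tr l z` -/
theorem chain_tail {z : ℕ → Z} {s : ℕ → ℕ} (hs : Monotone s) (l : ℕ) {δ : ℝ} (hδ : 0 ≤ δ)
    (h : ∀ n, l < n → ‖z n‖ ^ (3 / 2 : ℝ) ≤ δ) (N : ℕ) :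
    chain (z - tr l z) s N ≤ δ + ∑ i ∈ Finset.range N,
      ‖z (max (s (i + 1)) (l + 1)) - z (max (s i) (l + 1))‖ ^ (3 / 2 : ℝ) ∧
      (s N ≤ l → chain (z - tr l z) s N = 0) := by
  have hlow : ∀ n, n ≤ l → (z - tr l z) n = 0 := by
    intro n hn
    rw [Pi.sub_apply, tr, if_pos hn, sub_self]
  have hhigh : ∀ n, l < n → (z - tr l z) n = z n := by
    intro n hn
    rw [Pi.sub_apply, tr, if_neg (by omega), sub_zero]
  have hnn : ∀ N, 0 ≤ ∑ i ∈ Finset.range N,
      ‖z (max (s (i + 1)) (l + 1)) - z (max (s i) (l + 1))‖ ^ (3 / 2 : ℝ) := fun N =>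
    Finset.sum_nonneg fun _ _ => Real.rpow_nonneg (norm_nonneg _) _
  induction N with
  | zero =>
    have e : chain (z - tr l z) s 0 = ‖(z - tr l z) (s 0)‖ ^ (3 / 2 : ℝ) := by
      unfold chain; rw [Finset.range_zero, Finset.sum_empty, add_zero]
    rw [e, Finset.range_zero, Finset.sum_empty, add_zero]
    by_cases h1 : s 0 ≤ l
    · rw [hlow _ h1, norm_zero, rr]
      exact ⟨hδ, fun _ => rfl⟩
    · rw [hhigh _ (by omega)]
      exact ⟨h _ (by omega), fun hh => absurd hh h1⟩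
  | succ N ih =>
    obtain ⟨i1, i2⟩ := ih
    have hm : s N ≤ s (N + 1) := hs (Nat.le_succ N)
    rw [chain_succ, Finset.sum_range_succ]
    have hnn' : 0 ≤ ‖z (max (s (N + 1)) (l + 1)) - z (max (s N) (l + 1))‖ ^ (3 / 2 : ℝ) :=
      Real.rpow_nonneg (norm_nonneg _) _
    by_cases h1 : s (N + 1) ≤ l
    · rw [hlow _ h1, hlow _ (by omega), sub_zero, norm_zero, rr, add_zero, i2 (by omega)]
      exact ⟨by linarith [hnn N], fun _ => rfl⟩
    · by_cases h2 : s N ≤ l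
      · rw [hhigh _ (by omega), hlow _ h2, sub_zero, i2 h2, zero_add]
        exact ⟨by linarith [hnn N, h (s (N + 1)) (by omega)], fun hh => absurd hh h1⟩
      · rw [hhigh _ (by omega), hhigh _ (by omega),
          max_eq_left (show l + 1 ≤ s (N + 1) by omega), max_eq_left (show l + 1 ≤ s N by omega)]
        exact ⟨by linarith, fun hh => absurd hh h1⟩

end

end VtrM

open VtailM QrxM VtrM in
theorem specVTR (hT : SpecVTAIL) : SpecVTR := by
  intro Z _ _ _ Zn Q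
  have hval : ∀ l (v : Vs Zn), (Q.R l v).val = tr l v.val := by
    intro l v
    funext n
    exact Q.hR l v n
  refine ⟨fun l v => ?_, fun l v => ?_, fun v => ?_, fun v hv => ?_, fun hfin l => ?_⟩
  · apply Vs.norm_le
    intro s N hs
    rw [hval]
    exact chn_tr hs l (norm_nonneg _) (fun N => v.chn_le_norm hs N) v.coord_le N
  · apply Vs.norm_le
    intro s N hs
    rw [hval]
    exact chn_tr_sum hs l _ N
  · exact le_of_tendsto (Q.hq v).norm (Eventually.of_forall fun n => v.coord_le n)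
  · rw [Metric.tendsto_atTop]
    intro ε hε
    have hpos : 0 < (ε / 2) ^ (3 / 2 : ℝ) / 2 :=
      div_pos (Real.rpow_pos_of_pos (by linarith) _) two_pos
    obtain ⟨N, hN⟩ := hT Z Zn v _ hpos
    have hlim : Tendsto (fun n => ‖v.val n‖ ^ (3 / 2 : ℝ)) atTop (𝓝 0) := by
      have h1 := (Q.hq v).norm
      rw [hv, norm_zero] at h1
      have h2 := h1.rpow_const (p := (3 / 2 : ℝ)) (Or.inr (by norm_num))
      rwa [rr] at h2
    obtain ⟨N', hN'⟩ := (Metric.tendsto_atTop.1 hlim) _ hpos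
    refine ⟨max N N', fun l hl => ?_⟩
    have hle : ‖v - Q.R l v‖ ≤ ε / 2 := by
      apply Vs.norm_le
      intro s K hs
      rw [Vs.val_sub, hval]
      apply chn_le_of_chain (by linarith)
      refine (chain_tail hs l hpos.le (fun n hn => ?_) K).1.trans ?_
      · have := hN' n (by omega)
        rw [Real.dist_eq, sub_zero] at this
        exact ((le_abs_self _).trans this.le)
      · have h3 := hN (fun i => max (s i) (l + 1)) (fun i j hij => max_le_max (hs hij) le_rfl)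
          (by
            have : l + 1 ≤ max (s 0) (l + 1) := le_max_right _ _
            show N ≤ max (s 0) (l + 1)
            omega) K
        linarith
    rw [dist_comm, dist_eq_norm]
    exact lt_of_le_of_lt hle (by linarith)
  · let Φ : LinearMap.range ((Q.R l : Vs Zn →L[ℝ] Vs Zn) : Vs Zn →ₗ[ℝ] Vs Zn) →ₗ[ℝ]
        ((m : Fin (l + 1)) → Zn m) :=
      { toFun := fun w m => ⟨(w : Vs Zn).val m, (w : Vs Zn).val_mem m⟩
        map_add' := fun _ _ => rfl
        map_smul' := fun _ _ => rfl }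
    have : ∀ n, FiniteDimensional ℝ (Zn n) := hfin
    refine FiniteDimensional.of_injective Φ ?_
    rw [injective_iff_map_eq_zero]
    rintro ⟨w, hw⟩ h
    obtain ⟨u, hu⟩ := hw
    have hu' : Q.R l u = w := hu
    apply Subtype.ext
    apply Vs.ext'
    intro n
    by_cases hn : n ≤ l
    · have h1 : Φ ⟨w, _⟩ ⟨n, by omega⟩ = 0 := congrFun h ⟨n, by omega⟩
      exact congrArg Subtype.val h1
    · show w.val n = 0
      rw [← hu', Q.hR, if_neg hn]

end Pool.Agent.MP_e87d84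
end

section
/-!
MP_e87d84_an, module VT: the operators `T n` on the variation space.
-/
set_option autoImplicit false

open Filter Topology

namespace Pool.Agent.MP_e87d84

namespace VtM

open VtailM QrxM VtrM VliftM

variable {Z : Type} [NormedAddCommGroup Z] [NormedSpace ℝ Z]

/-- the step element -/
noncomputable def stV (Zn : ℕ → Submodule ℝ Z) (hmono : Monotone Zn) (n : ℕ) : Zn n →ₗ[ℝ] Vs Zn where
  toFun w := ⟨st (n + 1) (w : Z), fun m => by
      unfold st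
      split_ifs with h
      · exact hmono (by omega : n ≤ m) w.2
      · exact (Zn m).zero_mem, ‖(w : Z)‖, fun s N hs => chn_st_le (n + 1) _ hs N⟩
  map_add' w w' := by
    apply Vs.ext'
    intro m
    show st (n + 1) ((w : Z) + w') m = st (n + 1) (w : Z) m + st (n + 1) (w' : Z) m
    unfold st
    split_ifs <;> simp
  map_smul' c w := by
    apply Vs.ext'
    intro m
    show st (n + 1) (c • (w : Z)) m = c • st (n + 1) (w : Z) m
    unfold st
    split_ifs <;> simp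

theorem stV_norm (Zn : ℕ → Submodule ℝ Z) (hmono : Monotone Zn) (n : ℕ) (w : Zn n) :
    ‖stV Zn hmono n w‖ ≤ ‖w‖ := Vs.norm_le fun _ N hs => chn_st_le (n + 1) _ hs N

/-- coordinate functional -/
noncomputable def cV (Zn : ℕ → Submodule ℝ Z) (n : ℕ) : Vs Zn →L[ℝ] Z :=
  LinearMap.mkContinuous
    { toFun := fun v => v.val n
      map_add' := fun _ _ => rfl
      map_smul' := fun _ _ => rfl } 1 (fun v => by rw [one_mul]; exact v.coord_le n)

theorem cV_apply (Zn : ℕ → Submodule ℝ Z) (n : ℕ) (v : Vs Zn) : cV Zn n v = v.val n := rfl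

end VtM

open VtailM QrxM VtrM VliftM VtM

theorem specVT (hT : SpecVTAIL) (hTR : SpecVTR) : SpecVT := by
  intro Z _ _ _ D Q
  obtain ⟨hR2, _, _, _⟩ := hTR Z D.Zn Q
  obtain ⟨hqn⟩ : Nonempty (∀ v, ‖Q.q v‖ ≤ ‖v‖) := ⟨(hTR Z D.Zn Q).2.2.1⟩
  obtain ⟨Cb, hCb⟩ := D.bBd
  have hCb0 : 0 ≤ Cb := (norm_nonneg _).trans (hCb 0)
  -- y n v
  let yl : ℕ → Vs D.Zn →L[ℝ] Z := fun n => D.A0.comp (cV D.Zn n) + (D.b n).comp Q.q
  have hy : ∀ n v, yl n v = D.A0 (v.val n) + D.b n (Q.q v) := fun n v => rfl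
  have hymem : ∀ n v, yl n v ∈ D.Zn n := fun n v =>
    (D.Zn n).add_mem (D.A0Zn n _ (v.val_mem n)) (D.bZn n _)
  have hynorm : ∀ n v, ‖yl n v‖ ≤ (‖D.A0‖ + Cb) * ‖v‖ := by
    intro n v
    rw [hy]
    refine (norm_add_le _ _).trans ?_
    have h1 := (D.A0.le_opNorm (v.val n)).trans
      (mul_le_mul_of_nonneg_left (v.coord_le n) (norm_nonneg _))
    have h2 := ((D.b n).le_opNorm (Q.q v)).trans
      (mul_le_mul (hCb n) (hqn v) (norm_nonneg _) hCb0)
    linarith
  let ym : ∀ n, Vs D.Zn →ₗ[ℝ] D.Zn n := fun n =>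
    ((yl n : Vs D.Zn →ₗ[ℝ] Z)).codRestrict (D.Zn n) (hymem n)
  let Tl : ℕ → Vs D.Zn →ₗ[ℝ] Vs D.Zn := fun n =>
    (Q.R n : Vs D.Zn →ₗ[ℝ] Vs D.Zn) + (stV D.Zn D.mono n).comp (ym n)
  have hTb : ∀ n v, ‖Tl n v‖ ≤ (2 + (‖D.A0‖ + Cb)) * ‖v‖ := by
    intro n v
    have h1 : Tl n v = Q.R n v + stV D.Zn D.mono n (ym n v) := rfl
    rw [h1, add_mul]
    refine (norm_add_le _ _).trans (add_le_add (hR2 n v) ?_)
    exact (stV_norm D.Zn D.mono n _).trans (hynorm n v)
  let T : ℕ → Vs D.Zn →L[ℝ] Vs D.Zn := fun n => (Tl n).mkContinuous _ (hTb n)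
  have hTval : ∀ n v m, (T n v).val m = if m ≤ n then v.val m else yl n v := by
    intro n v m
    have h1 : (T n v).val m = (Q.R n v).val m + st (n + 1) (yl n v) m := rfl
    rw [h1, Q.hR]
    unfold st
    by_cases h : m ≤ n
    · rw [if_pos h, if_neg (by omega), if_pos h, add_zero]
    · rw [if_neg h, if_pos (by omega), if_neg h, zero_add]
  let H : ℕ → Submodule ℝ (Vs D.Zn) := fun n =>
    { carrier := {v | ∀ k, n + 1 ≤ k → v.val k = v.val (n + 1)}
      add_mem' := by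
        intro v w hv hw k hk
        show v.val k + w.val k = v.val (n + 1) + w.val (n + 1)
        rw [hv k hk, hw k hk]
      zero_mem' := fun k hk => rfl
      smul_mem' := by
        intro c v hv k hk
        show c • v.val k = c • v.val (n + 1)
        rw [hv k hk] }
  have hqH : ∀ n, ∀ v ∈ H n, Q.q v = v.val (n + 1) := by
    intro n v hv
    refine tendsto_nhds_unique (Q.hq v) (tendsto_const_nhds.congr' ?_)
    filter_upwards [eventually_ge_atTop (n + 1)] with k hk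
    exact (hv k hk).symm
  have hqT : ∀ n v, Q.q (T n v) = yl n v := by
    intro n v
    refine tendsto_nhds_unique (Q.hq (T n v)) (tendsto_const_nhds.congr' ?_)
    filter_upwards [eventually_ge_atTop (n + 1)] with k hk
    rw [hTval, if_neg (by omega)]
  refine ⟨T, H, ?_, ?_, ?_, ?_, ⟨2 + (‖D.A0‖ + Cb), fun n => ?_⟩, ?_, ?_⟩
  · intro n m hnm v hv k hk
    rw [hv k (by omega), hv (m + 1) (by omega)]
  · intro n
    have hfin : ∀ n, FiniteDimensional ℝ (D.Zn n) := D.fin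
    let Φ : H n →ₗ[ℝ] ((m : Fin (n + 2)) → D.Zn m) :=
      { toFun := fun w m => ⟨(w : Vs D.Zn).val m, (w : Vs D.Zn).val_mem m⟩
        map_add' := fun _ _ => rfl
        map_smul' := fun _ _ => rfl }
    refine FiniteDimensional.of_injective Φ ?_
    rw [injective_iff_map_eq_zero]
    rintro ⟨w, hw⟩ h
    apply Subtype.ext
    apply Vs.ext'
    have h0 : ∀ k < n + 2, w.val k = 0 := by
      intro k hk
      have h1 : Φ ⟨w, hw⟩ ⟨k, hk⟩ = 0 := congrFun h ⟨k, hk⟩
      exact congrArg Subtype.val h1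
    intro k
    show w.val k = 0
    by_cases hk : k < n + 2
    · exact h0 k hk
    · rw [hw k (by omega)]
      exact h0 (n + 1) (by omega)
  · intro n v k hk
    show (T n v).val k = (T n v).val (n + 1)
    rw [hTval, hTval, if_neg (by omega), if_neg (by omega)]
  · intro n m hnm v hv
    apply Vs.ext'
    intro k
    rw [hTval]
    by_cases h : k ≤ m
    · rw [if_pos h]
    · rw [if_neg h, hy, hqH n v hv]
      have h1 : v.val m = v.val (n + 1) := hv m (by omega)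
      have h2 : v.val (n + 1) ∈ D.Zn m := h1 ▸ v.val_mem m
      rw [h1, D.bEq m _ h2, hv k (by omega)]
      abel
  · exact LinearMap.mkContinuous_norm_le _ (by positivity) _
  · intro v
    rw [Metric.tendsto_atTop]
    intro ε hε
    have hpos : 0 < (ε / 2) ^ (3 / 2 : ℝ) / 2 :=
      div_pos (Real.rpow_pos_of_pos (by linarith) _) two_pos
    obtain ⟨N, hN⟩ := hT Z D.Zn v _ hpos
    set δ := (ε / 2) ^ (3 / 2 : ℝ) / 2 with hδ
    set η := δ ^ (2 / 3 : ℝ) with hη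
    have hηpos : 0 < η := Real.rpow_pos_of_pos hpos _
    have hηδ : η ^ (3 / 2 : ℝ) = δ := by
      rw [hη, ← Real.rpow_mul hpos.le]
      norm_num
    -- y n v → q v, v n → q v
    have hylim : Tendsto (fun n => yl n v) atTop (𝓝 (Q.q v)) := by
      have h1 := (D.A0.continuous.tendsto (Q.q v)).comp (Q.hq v)
      have h2 := h1.add (D.bLim (Q.q v))
      have h3 : D.A0 (Q.q v) + (Q.q v - D.A0 (Q.q v)) = Q.q v := by abel
      rw [h3] at h2
      exact h2
    obtain ⟨N1, hN1⟩ := (Metric.tendsto_atTop.1 hylim) (η / 2) (by linarith)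
    obtain ⟨N2, hN2⟩ := (Metric.tendsto_atTop.1 (Q.hq v)) (η / 2) (by linarith)
    refine ⟨max N (max N1 N2), fun n hn => ?_⟩
    have hle : ‖v - T n v‖ ≤ ε / 2 := by
      apply Vs.norm_le
      intro s K hs
      have hval : (v - T n v).val = (fun m => v.val m - yl n v) - tr n (fun m => v.val m - yl n v) := by
        funext m
        rw [Vs.val_sub, Pi.sub_apply, Pi.sub_apply, hTval]
        unfold tr
        by_cases h : m ≤ n
        · rw [if_pos h, if_pos h]; simp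
        · rw [if_neg h, if_neg h]; simp
      rw [hval]
      apply chn_le_of_chain (by linarith)
      refine (chain_tail hs n hpos.le (fun m hm => ?_) K).1.trans ?_
      · rw [← hηδ]
        apply Real.rpow_le_rpow (norm_nonneg _) _ (by norm_num)
        have h1 := hN1 n (by omega)
        have h2 := hN2 m (by omega)
        rw [dist_eq_norm] at h1 h2
        have h3 : v.val m - yl n v = (v.val m - Q.q v) - (yl n v - Q.q v) := by abel
        rw [h3]
        exact (norm_sub_le _ _).trans (by linarith)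
      · have h3 := hN (fun i => max (s i) (n + 1)) (fun i j hij => max_le_max (hs hij) le_rfl)
          (by
            have : n + 1 ≤ max (s 0) (n + 1) := le_max_right _ _
            show N ≤ max (s 0) (n + 1)
            omega) K
        have h4 : ∀ a b : Z, (a - yl n v) - (b - yl n v) = a - b := fun a b => by abel
        simp only [h4]
        linarith
    rw [dist_comm, dist_eq_norm]
    exact lt_of_le_of_lt hle (by linarith)
  · intro n v hv
    rw [hqT, hy]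
    exact D.Z'.add_mem (D.A0Z' _) (D.bZ' n _ hv)

end Pool.Agent.MP_e87d84
end

section
/-!
MP_e87d84_an: module WLP (weak limits in `l_2`-sums of finite dimensional spaces).
-/
set_option autoImplicit false

open Filter Topology
open scoped ENNReal

namespace Pool.Agent.MP_e87d84

namespace WlpM

variable {E : ℕ → Type} [∀ n, NormedAddCommGroup (E n)] [∀ n, NormedSpace ℝ (E n)]

theorem two_pos : (0 : ℝ) < (2 : ℝ≥0∞).toReal := by norm_num

/-- the head of a sequence -/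
noncomputable def hd (m : ℕ) (g : lp E 2) : lp E 2 := ∑ i ∈ Finset.range m, lp.single 2 i (g i)

theorem hd_apply (m : ℕ) (g : lp E 2) (j : ℕ) : (hd m g : lp E 2) j = if j < m then g j else 0 := by
  have h : (hd m g : lp E 2) j = if j ∈ Finset.range m then g j else 0 := by
    unfold hd
    simp only [lp.coeFn_sum, lp.coeFn_single, Finset.sum_apply, Finset.sum_pi_single]
  rw [h]
  simp only [Finset.mem_range]

theorem norm_sq_compl (m : ℕ) (h : lp E 2) :
    ‖h‖ ^ 2 = ‖h - hd m h‖ ^ 2 + ∑ i ∈ Finset.range m, ‖h i‖ ^ 2 := by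
  have := lp.norm_compl_sum_single two_pos h (Finset.range m)
  simp only [ENNReal.toReal_ofNat, Real.rpow_ofNat] at this
  unfold hd
  linarith

theorem sum_sq_le (m : ℕ) (g : lp E 2) : ∑ i ∈ Finset.range m, ‖g i‖ ^ 2 ≤ ‖g‖ ^ 2 := by
  have := lp.sum_rpow_le_norm_rpow two_pos g (Finset.range m)
  simpa only [ENNReal.toReal_ofNat, Real.rpow_ofNat] using this

theorem hd_tendsto (g : lp E 2) : Tendsto (fun m => hd m g) atTop (𝓝 g) :=
  (lp.hasSum_single (by norm_num) g).tendsto_sum_nat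

theorem norm_sub_hd_le (m : ℕ) (h : lp E 2) : ‖h - hd m h‖ ≤ ‖h‖ := by
  have h1 := norm_sq_compl m h
  have h2 : 0 ≤ ∑ i ∈ Finset.range m, ‖h i‖ ^ 2 := Finset.sum_nonneg fun _ _ => sq_nonneg _
  exact le_of_sq_le_sq (by linarith) (norm_nonneg _)

/-- blocks with large values of a functional -/
theorem blocks (φ : lp E 2 →L[ℝ] ℝ) {ε : ℝ} (hε : 0 < ε)
    (hbad : ∀ n : ℕ, ∃ f : lp E 2, (∀ i < n, f i = 0) ∧ ε * ‖f‖ < |φ f|) (N : ℕ) :
    ∀ n : ℕ, ∃ f : lp E 2, (∀ i < n, f i = 0) ∧ ‖f‖ ^ 2 ≤ N ∧ N * (ε / 2) ≤ φ f := by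
  induction N with
  | zero =>
    intro n
    exact ⟨0, fun i _ => rfl, by simp, by simp⟩
  | succ N ih =>
    intro n
    obtain ⟨f0, h0, h0'⟩ := hbad n
    have hf0 : 0 < ‖f0‖ := by
      rw [norm_pos_iff]
      rintro rfl
      simp at h0'
    -- normalise
    obtain ⟨g, hg0, hg1, hg2⟩ : ∃ g : lp E 2, (∀ i < n, g i = 0) ∧ ‖g‖ ≤ 1 ∧ ε < φ g := by
      refine ⟨(SignType.sign (φ f0) * ‖f0‖⁻¹ : ℝ) • f0, fun i hi => ?_, ?_, ?_⟩
      · rw [lp.coeFn_smul, Pi.smul_apply, h0 i hi, smul_zero]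
      · rw [norm_smul, norm_mul, norm_inv, norm_norm, mul_assoc, inv_mul_cancel₀ hf0.ne', mul_one]
        rcases lt_trichotomy (φ f0) 0 with h | h | h
        · simp [h]
        · simp [h]
        · simp [h]
      · rw [map_smul, smul_eq_mul]
        have e1 : (SignType.sign (φ f0) * ‖f0‖⁻¹ : ℝ) * φ f0 = |φ f0| / ‖f0‖ := by
          rw [div_eq_mul_inv, ← sign_mul_self (φ f0)]
          ring
        rw [e1, lt_div_iff₀ hf0]
        exact h0'
    -- truncate
    have hev : ∀ᶠ m in atTop, ε / 2 < φ (hd m g) :=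
      ((φ.continuous.tendsto g).comp (hd_tendsto g)).eventually (lt_mem_nhds (by linarith))
    obtain ⟨m, hm1, hm2⟩ := (hev.and (eventually_ge_atTop n)).exists
    obtain ⟨f, hf0', hf1, hf2⟩ := ih m
    refine ⟨hd m g + f, fun i hi => ?_, ?_, ?_⟩
    · rw [lp.coeFn_add, Pi.add_apply, hd_apply, if_pos (by omega), hg0 i hi,
        hf0' i (by omega), add_zero]
    · have e1 : ∀ i < m, (hd m g + f : lp E 2) i = g i := by
        intro i hi
        rw [lp.coeFn_add, Pi.add_apply, hd_apply, if_pos hi, hf0' i hi, add_zero]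
      have e2 : hd m (hd m g + f) = hd m g := by
        unfold hd
        refine Finset.sum_congr rfl fun i hi => ?_
        congr 1
        exact e1 i (Finset.mem_range.mp hi)
      rw [norm_sq_compl m, e2, add_sub_cancel_left,
        Finset.sum_congr rfl fun i hi => by rw [e1 i (Finset.mem_range.mp hi)]]
      have h5 := sum_sq_le m g
      have h6 : ‖g‖ ^ 2 ≤ 1 := pow_le_one₀ (norm_nonneg _) hg1
      push_cast
      linarith
    · rw [map_add]
      push_cast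
      linarith

/-- functionals are small on tails -/
theorem tail_small (φ : lp E 2 →L[ℝ] ℝ) {ε : ℝ} (hε : 0 < ε) :
    ∃ n : ℕ, ∀ f : lp E 2, (∀ i < n, f i = 0) → |φ f| ≤ ε * ‖f‖ := by
  by_contra hcon
  push Not at hcon
  obtain ⟨N, hN⟩ := exists_nat_gt ((‖φ‖ / (ε / 2)) ^ 2)
  obtain ⟨f, -, h1, h2⟩ := blocks φ hε hcon N 0
  have h3 : φ f ≤ ‖φ‖ * ‖f‖ := (le_abs_self _).trans (φ.le_opNorm f)
  have hN0 : (0 : ℝ) < N := lt_of_le_of_lt (sq_nonneg _) hN
  have h4 : (N * (ε / 2)) ^ 2 ≤ (‖φ‖ * ‖f‖) ^ 2 := by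
    apply pow_le_pow_left₀ (by positivity)
    linarith
  have h5 : (‖φ‖ * ‖f‖) ^ 2 ≤ ‖φ‖ ^ 2 * N := by
    rw [mul_pow]
    exact mul_le_mul_of_nonneg_left h1 (sq_nonneg _)
  have h6 : (N : ℝ) * (ε / 2) ^ 2 ≤ ‖φ‖ ^ 2 := by
    have h7 : (N : ℝ) * ((N : ℝ) * (ε / 2) ^ 2) ≤ N * ‖φ‖ ^ 2 := by nlinarith
    exact le_of_mul_le_mul_left h7 hN0
  rw [div_pow, div_lt_iff₀ (by positivity)] at hN
  linarith

end WlpM

open WlpM in
theorem specWLP : SpecWLP := by
  intro E _ _ hfin x B hB 𝓕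
  have h1 : ∀ n, ∃ y : E n, Tendsto (fun k => (x k : ∀ n, E n) n) 𝓕 (𝓝 y) := by
    intro n
    have := hfin n
    have : ProperSpace (E n) := FiniteDimensional.proper ℝ (E n)
    have hc : IsCompact (Metric.closedBall (0 : E n) B) := isCompact_closedBall _ _
    obtain ⟨y, -, hy⟩ := hc.ultrafilter_le_nhds (𝓕.map fun k => (x k : ∀ n, E n) n) (by
      rw [le_principal_iff, Ultrafilter.mem_coe, Ultrafilter.mem_map]
      exact Filter.Eventually.of_forall fun k => by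
        have := (lp.norm_apply_le_norm (by norm_num) (x k) n).trans (hB k)
        simpa using this)
    exact ⟨y, hy⟩
  choose y hy using h1
  have hpi : Tendsto (id fun k => (x k : ∀ n, E n)) 𝓕 (𝓝 y) := tendsto_pi_nhds.mpr hy
  have hbd : Bornology.IsBounded (Set.range x) := by
    rw [isBounded_iff_forall_norm_le]
    exact ⟨B, by rintro _ ⟨k, rfl⟩; exact hB k⟩
  have hmem : Memℓp y 2 := lp.memℓp_of_tendsto hbd hpi
  let Y : lp E 2 := ⟨y, hmem⟩
  refine ⟨Y, fun φ => ?_⟩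
  rw [Metric.tendsto_nhds]
  intro ε hε
  have hB0 : 0 ≤ B := (norm_nonneg _).trans (hB 0)
  have hC : 0 < B + ‖Y‖ + 1 := by positivity
  obtain ⟨n, hn⟩ := tail_small φ (show 0 < ε / (2 * (B + ‖Y‖ + 1)) by positivity)
  have h2 : Tendsto (fun k => φ (hd n (x k - Y))) 𝓕 (𝓝 0) := by
    have e1 : ∀ k, φ (hd n (x k - Y)) =
        ∑ i ∈ Finset.range n, φ (lp.single 2 i ((x k : ∀ n, E n) i - y i)) := by
      intro k
      unfold hd
      rw [map_sum]
      rfl
    simp only [e1]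
    have e2 : (0 : ℝ) = ∑ i ∈ Finset.range n, φ (lp.single 2 i (y i - y i)) := by
      simp
    rw [e2]
    refine tendsto_finsetSum _ fun i _ => ?_
    have hcont : Continuous fun a : E i => φ (lp.single (E := E) 2 i a) :=
      φ.continuous.comp (lp.isometry_single (E := E) (p := 2) i).continuous
    exact (hcont.tendsto _).comp ((hy i).sub tendsto_const_nhds)
  have h3 : ∀ᶠ k in (𝓕 : Filter ℕ), |φ (hd n (x k - Y))| < ε / 2 := by
    have := Metric.tendsto_nhds.mp h2 (ε / 2) (half_pos hε)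
    simpa [Real.dist_eq] using this
  filter_upwards [h3] with k hk
  rw [Real.dist_eq, ← map_sub]
  have e3 : x k - Y = hd n (x k - Y) + ((x k - Y) - hd n (x k - Y)) := by abel
  rw [e3, map_add]
  have h4 : |φ ((x k - Y) - hd n (x k - Y))| ≤ ε / (2 * (B + ‖Y‖ + 1)) * ‖x k - Y‖ := by
    refine (hn _ fun i hi => ?_).trans (mul_le_mul_of_nonneg_left (norm_sub_hd_le _ _)
      (by positivity))
    rw [lp.coeFn_sub, Pi.sub_apply, hd_apply, if_pos hi, sub_self]
  have h5 : ‖x k - Y‖ ≤ B + ‖Y‖ := (norm_sub_le _ _).trans (add_le_add (hB k) le_rfl)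
  have h6 : ε / (2 * (B + ‖Y‖ + 1)) * ‖x k - Y‖ ≤ ε / 2 := by
    calc ε / (2 * (B + ‖Y‖ + 1)) * ‖x k - Y‖ ≤ ε / (2 * (B + ‖Y‖ + 1)) * (B + ‖Y‖ + 1) :=
          mul_le_mul_of_nonneg_left (by linarith) (by positivity)
      _ = ε / 2 := by field_simp
  calc |φ (hd n (x k - Y)) + φ ((x k - Y) - hd n (x k - Y))|
      ≤ |φ (hd n (x k - Y))| + |φ ((x k - Y) - hd n (x k - Y))| := abs_add_le _ _
    _ < ε / 2 + ε / 2 := by linarith
    _ = ε := by ring

end Pool.Agent.MP_e87d84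
end
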