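import Pool.Agent.Lib.MP_e87d84_an.SpecB

section
/-!
MP_e87d84_an, Part II: PARAM, existence of good parameters.  Text: section II.8.
-/
set_option autoImplicit false

open Filter Topology

namespace Pool.Agent.MP_e87d84

open Dat

namespace ParamM

/-- the exponent scale: all small quantities are at most `C 2^(m i) 2^(-EE i)` -/
noncomputable def EE (i : ℕ) : ℝ := (2 : ℝ) ^ i / (20000 * ((i : ℝ) + 12) ^ 6)

theorem EE_nonneg (i : ℕ) : 0 ≤ EE i := by
  unfold EE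
  positivity

theorem two_pow_big (C : ℝ) : ∀ᶠ i : ℕ in atTop, C * ((i : ℝ) + 12) ^ 7 ≤ (2 : ℝ) ^ i := by
  have h1 := tendsto_pow_const_div_const_pow_of_one_lt 7 (show (1 : ℝ) < 2 by norm_num)
  have h2 : Tendsto (fun n : ℕ => (|C| + 1) * 13 ^ 7 * ((n : ℝ) ^ 7 / 2 ^ n)) atTop
      (𝓝 ((|C| + 1) * 13 ^ 7 * 0)) := h1.const_mul _
  rw [mul_zero] at h2
  have h3 := h2.eventually (gt_mem_nhds (show (0 : ℝ) < 1 by norm_num))
  filter_upwards [h3, eventually_ge_atTop 1] with i hi hi1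
  have h2i : (0 : ℝ) < 2 ^ i := by positivity
  have hi1' : (1 : ℝ) ≤ i := by exact_mod_cast hi1
  have h4 : (|C| + 1) * 13 ^ 7 * ((i : ℝ) ^ 7) < 2 ^ i := by
    have : (|C| + 1) * 13 ^ 7 * ((i : ℝ) ^ 7 / 2 ^ i) = (|C| + 1) * 13 ^ 7 * ((i : ℝ) ^ 7) / 2 ^ i := by
      ring
    rw [this, div_lt_one h2i] at hi
    exact hi
  have h5 : ((i : ℝ) + 12) ^ 7 ≤ 13 ^ 7 * (i : ℝ) ^ 7 := by
    rw [← mul_pow]
    exact pow_le_pow_left₀ (by positivity) (by linarith) 7
  have h6 : C ≤ |C| + 1 := by linarith [le_abs_self C]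
  have h7 : (0 : ℝ) ≤ |C| + 1 := by positivity
  calc C * ((i : ℝ) + 12) ^ 7 ≤ (|C| + 1) * ((i : ℝ) + 12) ^ 7 :=
        mul_le_mul_of_nonneg_right h6 (by positivity)
    _ ≤ (|C| + 1) * (13 ^ 7 * (i : ℝ) ^ 7) := mul_le_mul_of_nonneg_left h5 h7
    _ ≤ 2 ^ i := by linarith

/-- the master estimate -/
theorem master (m : ℕ) : ∀ᶠ i : ℕ in atTop,
    (2 : ℝ) ^ (m * i) * (2 : ℝ) ^ (-EE i) ≤ (1 / 2) ^ i := by
  filter_upwards [two_pow_big (20000 * (m + 1))] with i hi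
  have h1 : ((m : ℝ) + 1) * i ≤ EE i := by
    unfold EE
    rw [le_div_iff₀ (by positivity)]
    have h2 : ((m : ℝ) + 1) * i * (20000 * ((i : ℝ) + 12) ^ 6) ≤
        20000 * (m + 1) * ((i : ℝ) + 12) ^ 7 := by
      have h3 : (i : ℝ) * ((i : ℝ) + 12) ^ 6 ≤ ((i : ℝ) + 12) ^ 7 := by
        rw [pow_succ ((i : ℝ) + 12) 6, mul_comm]
        exact mul_le_mul_of_nonneg_left (by linarith) (by positivity)
      have h4 : (0 : ℝ) ≤ 20000 * ((m : ℝ) + 1) := by positivity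
      calc ((m : ℝ) + 1) * i * (20000 * ((i : ℝ) + 12) ^ 6)
          = 20000 * ((m : ℝ) + 1) * ((i : ℝ) * ((i : ℝ) + 12) ^ 6) := by ring
        _ ≤ _ := mul_le_mul_of_nonneg_left h3 h4
    exact h2.trans hi
  have h2 : (2 : ℝ) ^ (m * i) = (2 : ℝ) ^ ((m : ℝ) * i) := by
    rw [← Real.rpow_natCast]; push_cast; rfl
  have h3 : ((1 : ℝ) / 2) ^ i = (2 : ℝ) ^ (-(i : ℝ)) := by
    rw [Real.rpow_neg (by norm_num), Real.rpow_natCast, one_div, inv_pow]
  rw [h2, h3, ← Real.rpow_add (by norm_num)]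
  apply Real.rpow_le_rpow_of_exponent_le (by norm_num)
  linarith

theorem tend (m : ℕ) : Tendsto (fun i : ℕ => (2 : ℝ) ^ (m * i) * (2 : ℝ) ^ (-EE i)) atTop
    (𝓝 0) := by
  have h1 : Tendsto (fun i : ℕ => ((1 : ℝ) / 2) ^ i) atTop (𝓝 0) :=
    tendsto_pow_atTop_nhds_zero_of_lt_one (by norm_num) (by norm_num)
  refine squeeze_zero' (Eventually.of_forall fun i => by positivity) (master m) h1

theorem summ (m : ℕ) : Summable (fun i : ℕ => (2 : ℝ) ^ (m * i) * (2 : ℝ) ^ (-EE i)) := by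
  have h1 : Summable (fun i : ℕ => ((1 : ℝ) / 2) ^ i) :=
    summable_geometric_of_lt_one (by norm_num) (by norm_num)
  obtain ⟨N, hN⟩ := eventually_atTop.1 (master m)
  rw [← summable_nat_add_iff N]
  rw [← summable_nat_add_iff N] at h1
  refine Summable.of_nonneg_of_le (fun i => by positivity) (fun i => ?_) h1
  exact hN (i + N) (Nat.le_add_left _ _)

/-- criterion for the limit -/
theorem tend_of_le (f : ℕ → ℝ) (C : ℝ) (m : ℕ) (h0 : ∀ i, 0 ≤ f i)
    (h : ∀ i, f i ≤ C * ((2 : ℝ) ^ (m * i) * (2 : ℝ) ^ (-EE i))) : Tendsto f atTop (𝓝 0) := by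
  have h1 := (tend m).const_mul C
  rw [mul_zero] at h1
  exact squeeze_zero h0 h h1

/-! ### the parameters -/

/-- `c_i` -/
def cc (i : ℕ) : ℕ := 2 ^ i + 1

/-- `1 / g_i` -/
def nn (i : ℕ) : ℕ := (i + 10) * (i + 11) * (2 * i + 7)

/-- `a_i` -/
def aa (i : ℕ) : ℕ := cc i / (70 * nn i)

theorem nn_pos (i : ℕ) : 0 < nn i := by unfold nn; positivity

theorem nn_ge (i : ℕ) : 700 ≤ nn i := by
  unfold nn
  have h1 : 10 * 11 ≤ (i + 10) * (i + 11) := Nat.mul_le_mul (by omega) (by omega)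
  calc 700 ≤ 10 * 11 * 7 := by norm_num
    _ ≤ (i + 10) * (i + 11) * (2 * i + 7) := Nat.mul_le_mul h1 (by omega)

/-- `g_i` -/
noncomputable def gg (i : ℕ) : ℝ := 1 / (nn i : ℝ)

theorem gg_pos (i : ℕ) : 0 < gg i := by
  unfold gg
  have : (0 : ℝ) < nn i := by exact_mod_cast nn_pos i
  positivity

theorem gg_le (i : ℕ) : gg i ≤ 1 / 700 := by
  unfold gg
  have : (700 : ℝ) ≤ nn i := by exact_mod_cast nn_ge i
  exact one_div_le_one_div_of_le (by norm_num) this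

theorem nn_le (i : ℕ) : (nn i : ℝ) ≤ 2 * ((i : ℝ) + 12) ^ 3 := by
  unfold nn
  push_cast
  have h0 : (0 : ℝ) ≤ i := Nat.cast_nonneg _
  nlinarith [mul_nonneg h0 h0, mul_nonneg h0 (mul_nonneg h0 h0)]

theorem nn_succ_le (i : ℕ) : (nn (i + 1) : ℝ) ≤ 2 * ((i : ℝ) + 12) ^ 3 := by
  unfold nn
  push_cast
  have h0 : (0 : ℝ) ≤ i := Nat.cast_nonneg _
  nlinarith [mul_nonneg h0 h0, mul_nonneg h0 (mul_nonneg h0 h0)]

theorem aa_le (i : ℕ) : (aa i : ℝ) ≤ gg i * cc i / 70 := by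
  unfold aa gg
  have h1 : ((cc i / (70 * nn i) : ℕ) : ℝ) ≤ (cc i : ℝ) / ((70 * nn i : ℕ) : ℝ) := Nat.cast_div_le
  refine h1.trans (le_of_eq ?_)
  have : (0 : ℝ) < nn i := by exact_mod_cast nn_pos i
  push_cast
  field_simp

theorem aa_ge (i : ℕ) : gg i * cc i / 70 - 1 ≤ (aa i : ℝ) := by
  have h1 : cc i < (aa i + 1) * (70 * nn i) := by
    unfold aa
    rw [mul_comm]
    exact Nat.lt_mul_div_succ _ (by have := nn_pos i; omega)
  have h2 : (cc i : ℝ) < ((aa i : ℝ) + 1) * (70 * nn i) := by exact_mod_cast h1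
  have h3 : (0 : ℝ) < nn i := by exact_mod_cast nn_pos i
  have h4 : gg i * cc i / 70 ≤ (aa i : ℝ) + 1 := by
    unfold gg
    rw [div_le_iff₀ (by norm_num), one_div, inv_mul_le_iff₀ h3]
    linarith
  linarith

theorem aa_le_cc (i : ℕ) : aa i ≤ cc i := Nat.div_le_self _ _

/-! ### the exponents -/

theorem cc_cast (i : ℕ) : (cc i : ℝ) = (2 : ℝ) ^ i + 1 := by unfold cc; push_cast; rfl

theorem two_pow_le_cc (i : ℕ) : (2 : ℝ) ^ i ≤ cc i := by rw [cc_cast]; linarith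

/-- `EE i ≤ c_i g_i^2 / 4760` -/
theorem EE_le_main (i : ℕ) : EE i ≤ gg i ^ 2 * cc i / 4760 := by
  have h3 : (0 : ℝ) < nn i := by exact_mod_cast nn_pos i
  have h1 : gg i ^ 2 * cc i / 4760 = (cc i : ℝ) / (4760 * (nn i : ℝ) ^ 2) := by
    unfold gg
    field_simp
  rw [h1]
  unfold EE
  have h2 : (nn i : ℝ) ^ 2 ≤ 4 * ((i : ℝ) + 12) ^ 6 := by
    have := pow_le_pow_left₀ h3.le (nn_le i) 2
    refine this.trans (le_of_eq ?_)
    ring
  apply div_le_div₀ (by positivity) (two_pow_le_cc i) (by positivity)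
  nlinarith [pow_pos (show (0 : ℝ) < (i : ℝ) + 12 by positivity) 6]

/-- `EE i ≤ c_i g_i / 2` -/
theorem EE_le_cg (i : ℕ) : EE i ≤ cc i * gg i / 2 := by
  refine (EE_le_main i).trans ?_
  have h1 := gg_pos i
  have h2 := gg_le i
  have h3 : (0 : ℝ) ≤ cc i := Nat.cast_nonneg _
  have h4 : gg i ^ 2 * cc i ≤ gg i * cc i := by
    apply mul_le_mul_of_nonneg_right _ h3
    nlinarith
  have h5 : 0 ≤ gg i * cc i := mul_nonneg h1.le h3
  linarith

/-- `EE i ≤ c_(i+1) g_(i+1) / 24` -/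
theorem EE_le_succ (i : ℕ) : EE i ≤ cc (i + 1) * gg (i + 1) / 24 := by
  have h3 : (0 : ℝ) < nn (i + 1) := by exact_mod_cast nn_pos (i + 1)
  have h1 : cc (i + 1) * gg (i + 1) / 24 = (cc (i + 1) : ℝ) / (24 * (nn (i + 1) : ℝ)) := by
    unfold gg
    field_simp
  rw [h1]
  unfold EE
  have hi : (12 : ℝ) ≤ (i : ℝ) + 12 := by
    have : (0 : ℝ) ≤ i := Nat.cast_nonneg _
    linarith
  have h2 : 24 * (nn (i + 1) : ℝ) ≤ 20000 * ((i : ℝ) + 12) ^ 6 := by
    have h4 := nn_succ_le i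
    have h5 : ((i : ℝ) + 12) ^ 3 ≤ ((i : ℝ) + 12) ^ 6 :=
      pow_le_pow_right₀ (by linarith) (by norm_num)
    have h6 : 0 ≤ ((i : ℝ) + 12) ^ 3 := by positivity
    linarith
  apply div_le_div₀ (by positivity) _ (by positivity) h2
  have := two_pow_le_cc (i + 1)
  rw [pow_succ] at this
  have h7 : (0 : ℝ) < 2 ^ i := by positivity
  linarith

theorem EE_le_pow (i : ℕ) : EE i ≤ (2 : ℝ) ^ i / 20000 := by
  unfold EE
  apply div_le_div_of_nonneg_left (by positivity) (by norm_num)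
  have h1 : (1 : ℝ) ≤ ((i : ℝ) + 12) ^ 6 := by
    apply one_le_pow₀
    have : (0 : ℝ) ≤ i := Nat.cast_nonneg _
    linarith
  linarith

theorem add_two_le (i : ℕ) : (i : ℝ) + 2 ≤ 2 * 2 ^ i := by
  have h1 : i + 1 ≤ 2 ^ i := Nat.lt_two_pow_self
  have h2 : (i : ℝ) + 1 ≤ 2 ^ i := by exact_mod_cast h1
  have h3 : (1 : ℝ) ≤ 2 ^ i := one_le_pow₀ (by norm_num)
  linarith

/-! ### the numbers `h_i` -/

/-- `h_i` -/
noncomputable def hh (i : ℕ) : ℝ := 4 * (2 : ℝ) ^ (-(gg i ^ 2 * cc i / 2380))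

theorem cast_two_pow_rpow (n : ℕ) (s : ℝ) : ((2 ^ n : ℕ) : ℝ) ^ s = (2 : ℝ) ^ ((n : ℝ) * s) := by
  push_cast
  rw [← Real.rpow_natCast, ← Real.rpow_mul (by norm_num)]

theorem eta_id (n : ℕ) (g : ℝ) :
    ((2 ^ n : ℕ) : ℝ) ^ (-(g / 2)) * (((2 : ℝ) ^ (-(n * g / 34))) ^ 16)⁻¹ =
      (2 : ℝ) ^ (-(n * g / 34)) := by
  rw [cast_two_pow_rpow, ← Real.rpow_natCast ((2 : ℝ) ^ (-(n * g / 34))) 16,
    ← Real.rpow_mul (by norm_num), ← Real.rpow_neg (by norm_num), ← Real.rpow_add (by norm_num)]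
  congr 1
  push_cast
  ring

theorem eta_le_one (n : ℕ) (g : ℝ) (hg : 0 ≤ g) : (2 : ℝ) ^ (-(n * g / 34)) ≤ 1 := by
  apply Real.rpow_le_one_of_one_le_of_nonpos (by norm_num)
  have : 0 ≤ (n : ℝ) * g / 34 := by positivity
  linarith

theorem hh1 (i : ℕ) : ∃ η : ℝ, 0 < η ∧ η ≤ 1 ∧
    η + ((2 ^ aa i : ℕ) : ℝ) ^ (-(gg i / 2)) * (η ^ 16)⁻¹ ≤ hh i := by
  refine ⟨(2 : ℝ) ^ (-(aa i * gg i / 34)), by positivity, eta_le_one _ _ (gg_pos i).le, ?_⟩
  rw [eta_id]
  unfold hh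
  have h1 : (2 : ℝ) ^ (-(aa i * gg i / 34)) ≤ 2 * (2 : ℝ) ^ (-(gg i ^ 2 * cc i / 2380)) := by
    have h2 : (2 : ℝ) * (2 : ℝ) ^ (-(gg i ^ 2 * cc i / 2380)) =
        (2 : ℝ) ^ (1 + -(gg i ^ 2 * cc i / 2380)) := by
      rw [Real.rpow_add (by norm_num), Real.rpow_one]
    rw [h2]
    apply Real.rpow_le_rpow_of_exponent_le (by norm_num)
    have h3 := aa_ge i
    have h4 := gg_pos i
    have h5 := gg_le i
    have h6 : (gg i * cc i / 70 - 1) * gg i ≤ aa i * gg i := mul_le_mul_of_nonneg_right h3 h4.le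
    have h7 : (gg i * cc i / 70 - 1) * gg i = gg i ^ 2 * cc i / 70 - gg i := by ring
    rw [h7] at h6
    linarith
  linarith

theorem hh2 (i : ℕ) : ∃ η : ℝ, 0 < η ∧ η ≤ 1 ∧
    ((2 ^ aa i : ℕ) : ℝ) * (η + ((2 ^ (2 * cc i - aa i) : ℕ) : ℝ) ^ (-(gg i / 2)) * (η ^ 16)⁻¹) ≤
      hh i := by
  refine ⟨(2 : ℝ) ^ (-((2 * cc i - aa i : ℕ) * gg i / 34)), by positivity,
    eta_le_one _ _ (gg_pos i).le, ?_⟩
  rw [eta_id]
  unfold hh
  have h1 : ((2 ^ aa i : ℕ) : ℝ) * (2 : ℝ) ^ (-((2 * cc i - aa i : ℕ) * gg i / 34)) ≤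
      (2 : ℝ) ^ (-(gg i ^ 2 * cc i / 2380)) := by
    have h2 : ((2 ^ aa i : ℕ) : ℝ) = (2 : ℝ) ^ (aa i : ℝ) := by
      push_cast
      rw [Real.rpow_natCast]
    rw [h2, ← Real.rpow_add (by norm_num)]
    apply Real.rpow_le_rpow_of_exponent_le (by norm_num)
    have h3 := aa_le i
    have h4 := gg_pos i
    have h5 := gg_le i
    have h6 : ((2 * cc i - aa i : ℕ) : ℝ) = 2 * cc i - aa i := by
      rw [Nat.cast_sub (by have := aa_le_cc i; omega)]
      push_cast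
      ring
    have h7 : (aa i : ℝ) ≤ cc i := by exact_mod_cast aa_le_cc i
    rw [h6]
    have h8 : (cc i : ℝ) * gg i ≤ (2 * cc i - aa i) * gg i :=
      mul_le_mul_of_nonneg_right (by linarith) h4.le
    have h9 : (0 : ℝ) ≤ cc i := Nat.cast_nonneg _
    have h10 : gg i ^ 2 * cc i ≤ gg i * cc i := by
      apply mul_le_mul_of_nonneg_right _ h9
      nlinarith
    have h11 : 0 ≤ gg i * cc i := mul_nonneg h4.le h9
    linarith
  have h2 : (0 : ℝ) < (2 : ℝ) ^ (-(gg i ^ 2 * cc i / 2380)) := by positivity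
  have h3 : ((2 ^ aa i : ℕ) : ℝ) * ((2 : ℝ) ^ (-((2 * cc i - aa i : ℕ) * gg i / 34)) +
      (2 : ℝ) ^ (-((2 * cc i - aa i : ℕ) * gg i / 34))) =
      2 * (((2 ^ aa i : ℕ) : ℝ) * (2 : ℝ) ^ (-((2 * cc i - aa i : ℕ) * gg i / 34))) := by ring
  rw [h3]
  linarith

/-! ### the exponents `p`, `q` -/

/-- `u_i` -/
noncomputable def uu (i : ℕ) : ℝ := 6 / 5 - 1 / ((i : ℝ) + 10)

theorem uu_succ (i : ℕ) : uu i + (2 * (i : ℝ) + 7) * gg i = uu (i + 1) := by
  unfold uu gg nn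
  push_cast
  have h0 : (0 : ℝ) ≤ i := Nat.cast_nonneg _
  field_simp
  ring

theorem uu_mono {i j : ℕ} (h : i ≤ j) : uu i ≤ uu j := by
  unfold uu
  have h1 : (i : ℝ) ≤ j := by exact_mod_cast h
  have : 1 / ((j : ℝ) + 10) ≤ 1 / ((i : ℝ) + 10) :=
    one_div_le_one_div_of_le (by positivity) (by linarith)
  linarith

theorem uu_ge (i : ℕ) : 11 / 10 ≤ uu i := by
  have := uu_mono (Nat.zero_le i)
  have h0 : uu 0 = 11 / 10 := by unfold uu; norm_num
  linarith

theorem uu_le (i : ℕ) : uu i ≤ 6 / 5 := by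
  unfold uu
  have : (0 : ℝ) ≤ 1 / ((i : ℝ) + 10) := by positivity
  linarith

/-- `q_(i,m)` -/
noncomputable def qq (i m : ℕ) : ℝ := uu i + ((i : ℝ) + 3 - (min m (i + 2) : ℕ)) * gg i

/-- `p_(i,m)` -/
noncomputable def pp (i m : ℕ) : ℝ := uu i + ((i : ℝ) + 4 + (min m (i + 2) : ℕ)) * gg i

theorem min_cast_le (i m : ℕ) : ((min m (i + 2) : ℕ) : ℝ) ≤ (i : ℝ) + 2 := by
  exact_mod_cast Nat.min_le_right m (i + 2)

theorem uu_le_qq (i m : ℕ) : uu i ≤ qq i m := by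
  unfold qq
  have h1 := min_cast_le i m
  have h2 : 0 ≤ ((i : ℝ) + 3 - (min m (i + 2) : ℕ)) * gg i :=
    mul_nonneg (by linarith) (gg_pos i).le
  linarith

theorem pp_le (i m : ℕ) : pp i m + gg i ≤ uu (i + 1) := by
  rw [← uu_succ]
  unfold pp
  have h1 := min_cast_le i m
  have h2 : ((i : ℝ) + 4 + (min m (i + 2) : ℕ)) * gg i ≤ (2 * (i : ℝ) + 6) * gg i :=
    mul_le_mul_of_nonneg_right (by linarith) (gg_pos i).le
  linarith

/-- `k_i` -/
noncomputable def kk (i : ℕ) : ℝ := (3 * cc i + 4) / √(2 ^ cc i : ℝ)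

theorem dd (i : ℕ) : 2 ^ aa i * 2 ^ (2 * cc i - aa i) = 2 ^ (2 * cc i) := by
  rw [← pow_add]
  congr 1
  have := aa_le_cc i
  omega

/-! ### powers of `D_i` -/

/-- `D_i` -/
noncomputable def DD (i : ℕ) : ℝ := (2 : ℝ) ^ (2 * (cc i : ℝ))

theorem DD_pos (i : ℕ) : 0 < DD i := by unfold DD; positivity

theorem DD_rpow (i : ℕ) (s : ℝ) : DD i ^ s = (2 : ℝ) ^ (2 * (cc i : ℝ) * s) := by
  unfold DD
  rw [← Real.rpow_mul (by norm_num)]

theorem kk_eq (i : ℕ) : kk i = (3 * cc i + 4) * (2 : ℝ) ^ (-(cc i : ℝ) / 2) := by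
  unfold kk
  rw [Real.sqrt_eq_rpow, ← Real.rpow_natCast, ← Real.rpow_mul (by norm_num), div_eq_mul_inv,
    ← Real.rpow_neg (by norm_num)]
  congr 2
  ring

/-- `κ_i = k_i ω_i` -/
noncomputable def kap (i : ℕ) : ℝ := kk i * (DD i ^ (1 / 6 : ℝ) * √((i + 2 : ℕ) : ℝ))

theorem kap_nonneg (i : ℕ) : 0 ≤ kap i := by
  unfold kap kk
  have := DD_pos i
  positivity

theorem kap_le (i : ℕ) : kap i ≤ 20 * 2 ^ (2 * i) * (2 : ℝ) ^ (-(cc i : ℝ) / 6) := by
  have h1 : kap i = (3 * cc i + 4) * √((i + 2 : ℕ) : ℝ) * (2 : ℝ) ^ (-(cc i : ℝ) / 6) := by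
    unfold kap
    rw [kk_eq, DD_rpow]
    have h2 : (2 : ℝ) ^ (-(cc i : ℝ) / 6) =
        (2 : ℝ) ^ (-(cc i : ℝ) / 2) * (2 : ℝ) ^ (2 * (cc i : ℝ) * (1 / 6)) := by
      rw [← Real.rpow_add (by norm_num)]
      congr 1
      ring
    rw [h2]
    ring
  rw [h1]
  apply mul_le_mul_of_nonneg_right _ (by positivity)
  have h2 : 3 * (cc i : ℝ) + 4 ≤ 10 * 2 ^ i := by
    rw [cc_cast]
    have : (1 : ℝ) ≤ 2 ^ i := one_le_pow₀ (by norm_num)
    linarith
  have h3 : √((i + 2 : ℕ) : ℝ) ≤ 2 * 2 ^ i := by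
    refine le_trans ?_ (add_two_le i)
    rw [Real.sqrt_le_left (by positivity)]
    push_cast
    nlinarith [(Nat.cast_nonneg i : (0 : ℝ) ≤ i)]
  calc (3 * (cc i : ℝ) + 4) * √((i + 2 : ℕ) : ℝ) ≤ (10 * 2 ^ i) * (2 * 2 ^ i) :=
        mul_le_mul h2 h3 (Real.sqrt_nonneg _) (by positivity)
    _ = 20 * 2 ^ (2 * i) := by rw [show 2 * i = i + i by ring, pow_add]; ring

/-- `ω_i` -/
noncomputable def WW (i : ℕ) : ℝ := DD i ^ (1 / 6 : ℝ) * √((i + 2 : ℕ) : ℝ)

theorem WW_nonneg (i : ℕ) : 0 ≤ WW i := by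
  unfold WW
  have := DD_pos i
  positivity

theorem kk_nonneg (i : ℕ) : 0 ≤ kk i := by
  unfold kk
  positivity

theorem cc_mono {i j : ℕ} (h : i ≤ j) : cc i ≤ cc j := by
  unfold cc
  have := Nat.pow_le_pow_right (show 0 < 2 by norm_num) h
  omega

theorem WW_mono (i : ℕ) : WW i ≤ WW (i + 1) := by
  unfold WW
  rw [DD_rpow, DD_rpow]
  apply mul_le_mul _ _ (Real.sqrt_nonneg _) (by positivity)
  · apply Real.rpow_le_rpow_of_exponent_le (by norm_num)
    have : (cc i : ℝ) ≤ cc (i + 1) := by exact_mod_cast cc_mono (Nat.le_succ i)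
    linarith
  · apply Real.sqrt_le_sqrt
    push_cast
    linarith

theorem theta_le (i : ℕ) : kk (i + 1) * (WW (i + 1) + WW i) ≤ 2 * kap (i + 1) := by
  have h1 : kap (i + 1) = kk (i + 1) * WW (i + 1) := rfl
  rw [h1]
  have h2 := mul_le_mul_of_nonneg_left (WW_mono i) (kk_nonneg (i + 1))
  linarith

theorem two_rpow_mono {a b : ℝ} (h : a ≤ b) : (2 : ℝ) ^ a ≤ (2 : ℝ) ^ b :=
  Real.rpow_le_rpow_of_exponent_le (by norm_num) h

theorem kap_succ_le (i : ℕ) : kap (i + 1) ≤ 80 * 2 ^ (2 * i) * (2 : ℝ) ^ (-EE i) := by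
  refine (kap_le (i + 1)).trans ?_
  have h1 : (20 : ℝ) * 2 ^ (2 * (i + 1)) = 80 * 2 ^ (2 * i) := by
    rw [mul_add, pow_add]; ring
  rw [h1]
  apply mul_le_mul_of_nonneg_left _ (by positivity)
  apply two_rpow_mono
  have h2 := EE_le_pow i
  have h3 := two_pow_le_cc (i + 1)
  rw [pow_succ] at h3
  have h4 : (0 : ℝ) < 2 ^ i := by positivity
  linarith

theorem kap_succ2_le (i : ℕ) : kap (i + 2) ≤ 320 * 2 ^ (2 * i) * (2 : ℝ) ^ (-EE i) := by
  refine (kap_le (i + 2)).trans ?_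
  have h1 : (20 : ℝ) * 2 ^ (2 * (i + 2)) = 320 * 2 ^ (2 * i) := by
    rw [mul_add, pow_add]; ring
  rw [h1]
  apply mul_le_mul_of_nonneg_left _ (by positivity)
  apply two_rpow_mono
  have h2 := EE_le_pow i
  have h3 := two_pow_le_cc (i + 2)
  rw [pow_add] at h3
  have h4 : (0 : ℝ) < 2 ^ i := by positivity
  linarith

theorem G_sum : Summable fun i : ℕ => √(2 * ((i + 1 + 2 : ℕ) : ℝ) + 1) *
    (kk (i + 1) * (WW (i + 1) + WW i) +
      (kk (i + 2) * WW (i + 2) + kk (i + 1) * WW (i + 1))) := by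
  have h1 := (summ 3).mul_left 3920
  refine Summable.of_nonneg_of_le (fun i => ?_) (fun i => ?_) h1
  · have e1 := kk_nonneg (i + 1)
    have e2 := kk_nonneg (i + 2)
    have e3 := WW_nonneg (i + 1)
    have e4 := WW_nonneg (i + 2)
    have e5 := WW_nonneg i
    positivity
  · have e1 := theta_le i
    have e2 := kap_succ_le i
    have e3 := kap_succ2_le i
    have e4 : kk (i + 2) * WW (i + 2) = kap (i + 2) := rfl
    have e5 : kk (i + 1) * WW (i + 1) = kap (i + 1) := rfl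
    have h2 : √(2 * ((i + 1 + 2 : ℕ) : ℝ) + 1) ≤ 7 * 2 ^ i := by
      have h3 : (1 : ℝ) ≤ 2 ^ i := one_le_pow₀ (by norm_num)
      have h4 := add_two_le i
      have h0 : (0 : ℝ) ≤ i := Nat.cast_nonneg _
      rw [Real.sqrt_le_left (by positivity)]
      push_cast
      nlinarith
    have h3 : kk (i + 1) * (WW (i + 1) + WW i) +
        (kk (i + 2) * WW (i + 2) + kk (i + 1) * WW (i + 1)) ≤
        560 * 2 ^ (2 * i) * (2 : ℝ) ^ (-EE i) := by
      rw [e4, e5]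
      linarith
    calc √(2 * ((i + 1 + 2 : ℕ) : ℝ) + 1) * (kk (i + 1) * (WW (i + 1) + WW i) +
        (kk (i + 2) * WW (i + 2) + kk (i + 1) * WW (i + 1)))
        ≤ (7 * 2 ^ i) * (560 * 2 ^ (2 * i) * (2 : ℝ) ^ (-EE i)) := by
          apply mul_le_mul h2 h3 _ (by positivity)
          have f1 := kk_nonneg (i + 1)
          have f2 := kk_nonneg (i + 2)
          have f3 := WW_nonneg (i + 1)
          have f4 := WW_nonneg (i + 2)
          have f5 := WW_nonneg i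
          positivity
      _ = 3920 * (2 ^ (3 * i) * (2 : ℝ) ^ (-EE i)) := by
          rw [show 3 * i = i + 2 * i by ring, pow_add]
          ring

theorem G_om : Tendsto (fun i : ℕ => ((i + 2 : ℕ) : ℝ) * DD i ^ (-(5 / 6) : ℝ)) atTop (𝓝 0) := by
  refine tend_of_le _ 2 1 (fun i => ?_) (fun i => ?_)
  · have := DD_pos i
    positivity
  · rw [DD_rpow]
    have h1 : ((i + 2 : ℕ) : ℝ) ≤ 2 * 2 ^ i := by push_cast; exact add_two_le i
    have h2 : (2 : ℝ) ^ (2 * (cc i : ℝ) * (-(5 / 6))) ≤ (2 : ℝ) ^ (-EE i) := by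
      apply two_rpow_mono
      have h3 := EE_le_pow i
      have h4 := two_pow_le_cc i
      have h5 : (0 : ℝ) < 2 ^ i := by positivity
      linarith
    calc ((i + 2 : ℕ) : ℝ) * (2 : ℝ) ^ (2 * (cc i : ℝ) * (-(5 / 6))) ≤
        (2 * 2 ^ i) * (2 : ℝ) ^ (-EE i) := mul_le_mul h1 h2 (by positivity) (by positivity)
      _ = 2 * (2 ^ (1 * i) * (2 : ℝ) ^ (-EE i)) := by rw [one_mul]; ring

theorem pow_L_le (i n : ℕ) : ((i + 2 : ℕ) : ℝ) ^ n ≤ 2 ^ n * 2 ^ (n * i) := by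
  have h1 : ((i + 2 : ℕ) : ℝ) ≤ 2 * 2 ^ i := by push_cast; exact add_two_le i
  calc ((i + 2 : ℕ) : ℝ) ^ n ≤ (2 * 2 ^ i) ^ n := pow_le_pow_left₀ (Nat.cast_nonneg _) h1 n
    _ = 2 ^ n * 2 ^ (n * i) := by rw [mul_pow, ← pow_mul, mul_comm i n]

theorem G_h : Tendsto (fun i : ℕ => ((i + 2 : ℕ) : ℝ) ^ 4 * √(hh i)) atTop (𝓝 0) := by
  refine tend_of_le _ 32 4 (fun i => by positivity) (fun i => ?_)
  have h1 := pow_L_le i 4
  have h2 : √(hh i) = 2 * (2 : ℝ) ^ (-(gg i ^ 2 * cc i / 4760)) := by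
    have h3 : hh i = (2 * (2 : ℝ) ^ (-(gg i ^ 2 * cc i / 4760))) ^ 2 := by
      unfold hh
      rw [mul_pow, ← Real.rpow_natCast ((2 : ℝ) ^ (-(gg i ^ 2 * cc i / 4760))) 2,
        ← Real.rpow_mul (by norm_num)]
      norm_num
      congr 1
      ring
    rw [h3]
    exact Real.sqrt_sq (by positivity)
  rw [h2]
  have h3 : (2 : ℝ) ^ (-(gg i ^ 2 * cc i / 4760)) ≤ (2 : ℝ) ^ (-EE i) := by
    apply two_rpow_mono
    have := EE_le_main i
    linarith
  calc ((i + 2 : ℕ) : ℝ) ^ 4 * (2 * (2 : ℝ) ^ (-(gg i ^ 2 * cc i / 4760)))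
      ≤ (2 ^ 4 * 2 ^ (4 * i)) * (2 * (2 : ℝ) ^ (-EE i)) :=
        mul_le_mul h1 (by linarith) (by positivity) (by positivity)
    _ = 32 * (2 ^ (4 * i) * (2 : ℝ) ^ (-EE i)) := by ring

theorem G_g : Tendsto (fun i : ℕ => ((i + 2 : ℕ) : ℝ) ^ 3 * DD i ^ (-(gg i / 2))) atTop
    (𝓝 0) := by
  refine tend_of_le _ 8 3 (fun i => ?_) (fun i => ?_)
  · have := DD_pos i
    positivity
  · rw [DD_rpow]
    have h1 := pow_L_le i 3
    have h2 : (2 : ℝ) ^ (2 * (cc i : ℝ) * (-(gg i / 2))) ≤ (2 : ℝ) ^ (-EE i) := by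
      apply two_rpow_mono
      have h3 := EE_le_cg i
      have h4 : 0 ≤ (cc i : ℝ) * gg i := mul_nonneg (Nat.cast_nonneg _) (gg_pos i).le
      linarith
    calc ((i + 2 : ℕ) : ℝ) ^ 3 * (2 : ℝ) ^ (2 * (cc i : ℝ) * (-(gg i / 2))) ≤
        (2 ^ 3 * 2 ^ (3 * i)) * (2 : ℝ) ^ (-EE i) :=
          mul_le_mul h1 h2 (by positivity) (by positivity)
      _ = 8 * (2 ^ (3 * i) * (2 : ℝ) ^ (-EE i)) := by ring

/-- the dimension of the lower levels -/
theorem Rl_le (i : ℕ) : (∑ j ∈ Finset.range i, (((j + 2 : ℕ) : ℝ) + 1) * DD j) / DD i ≤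
    ((i : ℝ) + 2) ^ 2 * (2 : ℝ) ^ (-(2 : ℝ) ^ i) := by
  rw [div_le_iff₀ (DD_pos i)]
  have h1 : ∀ j ∈ Finset.range i, (((j + 2 : ℕ) : ℝ) + 1) * DD j ≤
      ((i : ℝ) + 2) * ((2 : ℝ) ^ (-(2 : ℝ) ^ i) * DD i) := by
    intro j hj
    have hji : j + 1 ≤ i := Finset.mem_range.1 hj
    have hji' : (j : ℝ) + 1 ≤ i := by exact_mod_cast hji
    have h2 : DD j ≤ (2 : ℝ) ^ (-(2 : ℝ) ^ i) * DD i := by
      unfold DD
      rw [← Real.rpow_add (by norm_num)]
      apply two_rpow_mono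
      rw [cc_cast, cc_cast]
      have h3 : (2 : ℝ) ^ (j + 1) ≤ 2 ^ i := pow_le_pow_right₀ (by norm_num) hji
      rw [pow_succ] at h3
      linarith
    apply mul_le_mul _ h2 (DD_pos j).le (by positivity)
    push_cast
    linarith
  refine (Finset.sum_le_card_nsmul _ _ _ h1).trans ?_
  rw [Finset.card_range, nsmul_eq_mul]
  have h3 := DD_pos i
  have h4 : (i : ℝ) * ((i : ℝ) + 2) ≤ ((i : ℝ) + 2) ^ 2 := by nlinarith [(Nat.cast_nonneg i : (0:ℝ) ≤ i)]
  calc (i : ℝ) * (((i : ℝ) + 2) * ((2 : ℝ) ^ (-(2 : ℝ) ^ i) * DD i))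
      = ((i : ℝ) * ((i : ℝ) + 2)) * ((2 : ℝ) ^ (-(2 : ℝ) ^ i) * DD i) := by ring
    _ ≤ ((i : ℝ) + 2) ^ 2 * ((2 : ℝ) ^ (-(2 : ℝ) ^ i) * DD i) :=
        mul_le_mul_of_nonneg_right h4 (by positivity)
    _ = _ := by ring

theorem G_R : Tendsto (fun i : ℕ => ((i + 2 : ℕ) : ℝ) ^ 3 *
    √((∑ j ∈ Finset.range i, (((j + 2 : ℕ) : ℝ) + 1) * DD j) / DD i)) atTop (𝓝 0) := by
  refine tend_of_le _ 16 4 (fun i => by positivity) (fun i => ?_)
  have h1 := pow_L_le i 3
  have h2 : √((∑ j ∈ Finset.range i, (((j + 2 : ℕ) : ℝ) + 1) * DD j) / DD i) ≤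
      (2 * 2 ^ i) * (2 : ℝ) ^ (-EE i) := by
    have h3 := Real.sqrt_le_sqrt (Rl_le i)
    refine h3.trans ?_
    have h4 : ((i : ℝ) + 2) ^ 2 * (2 : ℝ) ^ (-(2 : ℝ) ^ i) =
        (((i : ℝ) + 2) * (2 : ℝ) ^ (-(2 : ℝ) ^ i / 2)) ^ 2 := by
      rw [mul_pow, ← Real.rpow_natCast ((2 : ℝ) ^ (-(2 : ℝ) ^ i / 2)) 2,
        ← Real.rpow_mul (by norm_num)]
      congr 2
      push_cast
      ring
    rw [h4, Real.sqrt_sq (by positivity)]
    apply mul_le_mul (add_two_le i) _ (by positivity) (by positivity)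
    apply two_rpow_mono
    have h5 := EE_le_pow i
    have h6 : (0 : ℝ) < 2 ^ i := by positivity
    linarith
  calc ((i + 2 : ℕ) : ℝ) ^ 3 * √((∑ j ∈ Finset.range i, (((j + 2 : ℕ) : ℝ) + 1) * DD j) / DD i)
      ≤ (2 ^ 3 * 2 ^ (3 * i)) * ((2 * 2 ^ i) * (2 : ℝ) ^ (-EE i)) :=
        mul_le_mul h1 h2 (Real.sqrt_nonneg _) (by positivity)
    _ = 16 * (2 ^ (4 * i) * (2 : ℝ) ^ (-EE i)) := by
        rw [show 4 * i = 3 * i + i by ring, pow_add]
        ring

/-- the numbers `n_i` -/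
def n0 (i : ℕ) : ℕ := 2 ^ (cc (i + 1) / 12)

theorem n0_dvd (i : ℕ) : n0 i ∣ 2 ^ (2 * cc (i + 1) - aa (i + 1)) := by
  unfold n0
  apply pow_dvd_pow
  have := aa_le_cc (i + 1)
  omega

theorem G_n1 : Tendsto (fun i : ℕ => ((i + 1 + 2 : ℕ) : ℝ) ^ 2 *
    (n0 i : ℝ) ^ (-(gg (i + 1) / 2))) atTop (𝓝 0) := by
  refine tend_of_le _ 32 2 (fun i => by positivity) (fun i => ?_)
  have h1 := pow_L_le (i + 1) 2
  have h2 : (n0 i : ℝ) ^ (-(gg (i + 1) / 2)) ≤ 2 * (2 : ℝ) ^ (-EE i) := by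
    unfold n0
    rw [cast_two_pow_rpow]
    have h3 : (2 : ℝ) * (2 : ℝ) ^ (-EE i) = (2 : ℝ) ^ (1 + -EE i) := by
      rw [Real.rpow_add (by norm_num), Real.rpow_one]
    rw [h3]
    apply two_rpow_mono
    have h4 := EE_le_succ i
    have h5 : (cc (i + 1) : ℝ) / 12 - 1 ≤ ((cc (i + 1) / 12 : ℕ) : ℝ) := by
      have h6 : cc (i + 1) < 12 * (cc (i + 1) / 12 + 1) := Nat.lt_mul_div_succ _ (by norm_num)
      have h7 : (cc (i + 1) : ℝ) < 12 * (((cc (i + 1) / 12 : ℕ) : ℝ) + 1) := by exact_mod_cast h6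
      linarith
    have h6 := gg_pos (i + 1)
    have h7 := gg_le (i + 1)
    have h8 : ((cc (i + 1) : ℝ) / 12 - 1) * gg (i + 1) ≤
        ((cc (i + 1) / 12 : ℕ) : ℝ) * gg (i + 1) := mul_le_mul_of_nonneg_right h5 h6.le
    have h9 : ((cc (i + 1) : ℝ) / 12 - 1) * gg (i + 1) =
        cc (i + 1) * gg (i + 1) / 12 - gg (i + 1) := by ring
    rw [h9] at h8
    linarith
  calc ((i + 1 + 2 : ℕ) : ℝ) ^ 2 * (n0 i : ℝ) ^ (-(gg (i + 1) / 2))
      ≤ (2 ^ 2 * 2 ^ (2 * (i + 1))) * (2 * (2 : ℝ) ^ (-EE i)) :=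
        mul_le_mul h1 h2 (by positivity) (by positivity)
    _ = 32 * (2 ^ (2 * i) * (2 : ℝ) ^ (-EE i)) := by
        rw [mul_add, pow_add]
        ring

theorem G_n2 : Tendsto (fun i : ℕ => ((i + 1 + 2 : ℕ) : ℝ) ^ 2 *
    (kk (i + 1) * (WW (i + 1) + WW i)) * (n0 i : ℝ)) atTop (𝓝 0) := by
  refine tend_of_le _ 2560 4 (fun i => ?_) (fun i => ?_)
  · have f1 := kk_nonneg (i + 1)
    have f3 := WW_nonneg (i + 1)
    have f5 := WW_nonneg i
    positivity
  · have h1 := pow_L_le (i + 1) 2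
    have h2 := theta_le i
    have h3 := kap_le (i + 1)
    have h4 : (n0 i : ℝ) ≤ (2 : ℝ) ^ ((cc (i + 1) : ℝ) / 12) := by
      unfold n0
      push_cast
      rw [← Real.rpow_natCast]
      apply two_rpow_mono
      have : ((cc (i + 1) / 12 : ℕ) : ℝ) ≤ (cc (i + 1) : ℝ) / ((12 : ℕ) : ℝ) := Nat.cast_div_le
      push_cast at this
      exact this
    have f1 := kk_nonneg (i + 1)
    have f3 := WW_nonneg (i + 1)
    have f5 := WW_nonneg i
    have h5 : kk (i + 1) * (WW (i + 1) + WW i) * (n0 i : ℝ) ≤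
        160 * 2 ^ (2 * i) * (2 : ℝ) ^ (-EE i) := by
      have h6 : kk (i + 1) * (WW (i + 1) + WW i) ≤
          2 * (20 * 2 ^ (2 * (i + 1)) * (2 : ℝ) ^ (-(cc (i + 1) : ℝ) / 6)) := by linarith
      have h7 := mul_le_mul h6 h4 (Nat.cast_nonneg _) (by positivity)
      refine h7.trans ?_
      have h8 : (2 : ℝ) ^ (-(cc (i + 1) : ℝ) / 6) * (2 : ℝ) ^ ((cc (i + 1) : ℝ) / 12) ≤
          (2 : ℝ) ^ (-EE i) := by
        rw [← Real.rpow_add (by norm_num)]
        apply two_rpow_mono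
        have e2 := EE_le_pow i
        have e3 := two_pow_le_cc (i + 1)
        rw [pow_succ] at e3
        have e4 : (0 : ℝ) < 2 ^ i := by positivity
        linarith
      calc 2 * (20 * 2 ^ (2 * (i + 1)) * (2 : ℝ) ^ (-(cc (i + 1) : ℝ) / 6)) *
          (2 : ℝ) ^ ((cc (i + 1) : ℝ) / 12) = (160 * 2 ^ (2 * i)) *
            ((2 : ℝ) ^ (-(cc (i + 1) : ℝ) / 6) * (2 : ℝ) ^ ((cc (i + 1) : ℝ) / 12)) := by
            rw [mul_add 2 i 1, pow_add]
            ring
        _ ≤ (160 * 2 ^ (2 * i)) * (2 : ℝ) ^ (-EE i) :=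
            mul_le_mul_of_nonneg_left h8 (by positivity)
    calc ((i + 1 + 2 : ℕ) : ℝ) ^ 2 * (kk (i + 1) * (WW (i + 1) + WW i)) * (n0 i : ℝ)
        = ((i + 1 + 2 : ℕ) : ℝ) ^ 2 * (kk (i + 1) * (WW (i + 1) + WW i) * (n0 i : ℝ)) := by ring
      _ ≤ (2 ^ 2 * 2 ^ (2 * (i + 1))) * (160 * 2 ^ (2 * i) * (2 : ℝ) ^ (-EE i)) :=
          mul_le_mul h1 h5 (by positivity) (by positivity)
      _ = 2560 * (2 ^ (4 * i) * (2 : ℝ) ^ (-EE i)) := by
          rw [show 4 * i = 2 * i + 2 * i by ring, mul_add 2 i 1, pow_add, pow_add]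
          ring

end ParamM

open ParamM in
/-- the parameters exist -/
theorem exists_dat (hD : SpecDAV) : ∃ P : Dat, (∀ i, P.L i = i + 2) ∧ (∀ i, P.d i = 2 ^ aa i) ∧
    (∀ i, P.d' i = 2 ^ (2 * cc i - aa i)) ∧ (∀ i, P.g i = gg i) ∧ (∀ i, P.h i = hh i) ∧
    (∀ i, P.k i = kk i) := by
  obtain ⟨τ, σ, h1, h2, h3, h4, h5, h6, h7, h8⟩ :=
    hD cc (fun i => 2 ^ aa i) (fun i => 2 ^ (2 * cc i - aa i))
      (fun i => Nat.le_add_left 1 _)
      (fun i => by unfold cc; rw [pow_succ]; omega) dd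
  refine ⟨{ L := fun i => i + 2
            d := fun i => 2 ^ aa i
            d' := fun i => 2 ^ (2 * cc i - aa i)
            M := fun i => 2 ^ cc i
            p := pp
            q := qq
            g := gg
            h := hh
            k := kk
            τ := τ
            σ := σ
            hL := fun i => by omega
            hd := fun i => Nat.one_le_two_pow
            hd' := fun i => Nat.one_le_two_pow
            hM := fun i => Nat.one_le_two_pow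
            hq := fun i m => (uu_ge i).trans (uu_le_qq i m)
            hp := fun i m => by
              have e1 := pp_le i m
              have e2 := gg_pos i
              have e3 := uu_le (i + 1)
              linarith
            hqp := fun i m m' => by
              unfold qq pp
              have e1 := gg_pos i
              have e2 : (0 : ℝ) ≤ (min m (i + 2) : ℕ) := Nat.cast_nonneg _
              have e3 : (0 : ℝ) ≤ (min m' (i + 2) : ℕ) := Nat.cast_nonneg _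
              have e4 : ((i : ℝ) + 3 - (min m (i + 2) : ℕ)) * gg i ≤
                ((i : ℝ) + 4 + (min m' (i + 2) : ℕ)) * gg i :=
                mul_le_mul_of_nonneg_right (by linarith) e1.le
              linarith
            hg := gg_pos
            hpg := fun i k m hkm hm => by
              unfold pp
              rw [Nat.min_eq_left (by omega : k ≤ i + 2), Nat.min_eq_left hm]
              have e1 : (k : ℝ) + 1 ≤ m := by exact_mod_cast hkm
              have e2 : ((i : ℝ) + 4 + k + 1) * gg i ≤ ((i : ℝ) + 4 + m) * gg i :=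
                mul_le_mul_of_nonneg_right (by linarith) (gg_pos i).le
              linarith
            hqg := fun i k m hkm hm => by
              unfold qq
              rw [Nat.min_eq_left (by omega : k ≤ i + 2), Nat.min_eq_left hm]
              have e1 : (k : ℝ) + 1 ≤ m := by exact_mod_cast hkm
              have e2 : ((i : ℝ) + 3 - m + 1) * gg i ≤ ((i : ℝ) + 3 - k) * gg i :=
                mul_le_mul_of_nonneg_right (by linarith) (gg_pos i).le
              linarith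
            hpL := fun i m => by
              unfold pp
              rw [Nat.min_self]
              have e1 : ((i : ℝ) + 4 + (min m (i + 2) : ℕ)) * gg i ≤
                ((i : ℝ) + 4 + (i + 2 : ℕ)) * gg i := by
                apply mul_le_mul_of_nonneg_right _ (gg_pos i).le
                have := min_cast_le i m
                push_cast at this ⊢
                linarith
              linarith
            hlev := fun i j m hij =>
              (pp_le i _).trans ((uu_mono (Nat.succ_le_of_lt hij)).trans (uu_le_qq j m))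
            hh0 := fun i => by unfold hh; positivity
            hh1 := hh1
            hh2 := hh2
            hk := fun i => by unfold kk; positivity
            τsq := h1
            σsq := h2
            ττ := h3
            σσ := h4
            τσ := h5
            kτ := fun i x y hxy => by
              have := h6 i x y hxy
              unfold kk
              push_cast
              exact this
            kσ := fun i x y hxy => by
              have := h7 i x y hxy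
              unfold kk
              push_cast
              exact this
            kc := fun i x y => by
              have := h8 i x y
              unfold kk
              push_cast
              exact this },
    fun i => rfl, fun i => rfl, fun i => rfl, fun i => rfl, fun i => rfl, fun i => rfl⟩

open ParamM in
/-- [PARAM] -/
theorem specPARAM (hD : SpecDAV) : SpecPARAM := by
  obtain ⟨P, hL, hd, hd', hg, hh', hk⟩ := exists_dat hD
  have hDD : ∀ i, P.D i = DD i := by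
    intro i
    unfold Dat.D DD
    rw [hd, hd']
    have h1 : ((2 ^ aa i : ℕ) : ℝ) * ((2 ^ (2 * cc i - aa i) : ℕ) : ℝ) =
        ((2 ^ (2 * cc i) : ℕ) : ℝ) := by
      rw [← dd i]
      push_cast
      rfl
    rw [h1]
    push_cast
    rw [← Real.rpow_natCast]
    push_cast
    rfl
  have hω : ∀ i, P.ω i = WW i := by
    intro i
    unfold Dat.ω WW
    rw [hDD, hL]
  have hθ : ∀ i, P.θ i = kk (i + 1) * (WW (i + 1) + WW i) := by
    intro i
    unfold Dat.θ
    rw [hk, hω, hω]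
  have hψ : ∀ i, P.ψ i = kk (i + 2) * WW (i + 2) + kk (i + 1) * WW (i + 1) := by
    intro i
    unfold Dat.ψ
    rw [hk, hk, hω, hω]
  have hRl : ∀ i, P.Rl i = ∑ j ∈ Finset.range i, (((j + 2 : ℕ) : ℝ) + 1) * DD j := by
    intro i
    unfold Dat.Rl
    refine Finset.sum_congr rfl fun j _ => ?_
    rw [hL, hDD]
  refine ⟨P, ?_, ?_, ?_, ?_, ?_, ?_, ?_⟩
  · simp only [hL]
    exact tendsto_natCast_atTop_atTop.comp (tendsto_add_atTop_nat 2)
  · simp only [hL, hθ, hψ]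
    exact G_sum
  · simp only [hL, hDD]
    exact G_om
  · simp only [hL, hh']
    exact G_h
  · simp only [hL, hDD, hRl]
    exact G_R
  · simp only [hL, hDD, hg]
    exact G_g
  · refine ⟨n0, fun i => ⟨Nat.two_pow_pos _, ?_⟩, ?_, ?_⟩
    · rw [hd']
      exact n0_dvd i
    · simp only [hL, hg]
      exact G_n1
    · simp only [hL, hθ]
      exact G_n2

end Pool.Agent.MP_e87d84
end

section
/-!
MP_e87d84_an, module RAND (text II.9): random maps.
-/
set_option autoImplicit false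

open Filter Topology

namespace Pool.Agent.MP_e87d84

namespace RANDM

theorem exp_sign {s z : ℝ} (hz : z ^ 2 = 1) :
    Real.exp (s * z) = Real.cosh s + z * Real.sinh s := by
  have h : z = 1 ∨ z = -1 := sq_eq_one_iff_of_ne_zero_or hz
  rcases h with h | h
  · rw [h, mul_one, one_mul, Real.cosh_add_sinh]
  · rw [h, mul_neg, mul_one, neg_mul, one_mul, ← sub_eq_add_neg, Real.cosh_sub_sinh]
where
  sq_eq_one_iff_of_ne_zero_or {z : ℝ} (hz : z ^ 2 = 1) : z = 1 ∨ z = -1 := by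
    have h : (z - 1) * (z + 1) = 0 := by linear_combination hz
    rcases mul_eq_zero.1 h with h | h
    · left; linarith
    · right; linarith

theorem sum_exp {X : Type} [Fintype X] (χ : X → ℝ) (h1 : ∀ x, χ x ^ 2 = 1)
    (h0 : ∑ x, χ x = 0) (s w : ℝ) (hw : w ^ 2 = 1) :
    ∑ x, Real.exp (s * (w * χ x)) = Fintype.card X * Real.cosh s := by
  have h : ∀ x, Real.exp (s * (w * χ x)) = Real.cosh s + w * Real.sinh s * χ x := by
    intro x
    rw [exp_sign (by rw [mul_pow, hw, h1, one_mul])]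
    ring
  rw [Finset.sum_congr rfl fun x _ => h x, Finset.sum_add_distrib, ← Finset.mul_sum, h0,
    mul_zero, add_zero, Finset.sum_const, Finset.card_univ, nsmul_eq_mul]

theorem sum_psi {Y X : Type} [Fintype Y] [Fintype X] [DecidableEq Y] (w : Y → ℝ) (χ : X → ℝ)
    (hw : ∀ y, w y ^ 2 = 1) (h1 : ∀ x, χ x ^ 2 = 1) (h0 : ∑ x, χ x = 0) (s : ℝ) :
    ∑ ψ : Y → X, Real.exp (s * ∑ y, w y * χ (ψ y)) =
      (Fintype.card X * Real.cosh s) ^ Fintype.card Y := by
  have h : ∀ ψ : Y → X, Real.exp (s * ∑ y, w y * χ (ψ y)) =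
      ∏ y, Real.exp (s * (w y * χ (ψ y))) := by
    intro ψ
    rw [Finset.mul_sum, Real.exp_sum]
  rw [Finset.sum_congr rfl fun ψ _ => h ψ]
  have h2 := (Finset.prod_univ_sum (fun _ : Y => (Finset.univ : Finset X))
    (fun y x => Real.exp (s * (w y * χ x)))).symm
  rw [Fintype.piFinset_univ] at h2
  rw [h2, Finset.prod_congr rfl fun y _ => sum_exp χ h1 h0 s (w y) (hw y), Finset.prod_const,
    Finset.card_univ]

end RANDM

open RANDM in
theorem specRAND : SpecRAND := by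
  intro Y X I _ _ _ _ _ v χ hv hχ hb
  classical
  rcases Nat.eq_zero_or_pos (Fintype.card Y) with hY | hY
  · have : IsEmpty Y := Fintype.card_eq_zero_iff.1 hY
    refine ⟨fun y => isEmptyElim y, fun i => ?_⟩
    simp
  set N : ℝ := (Fintype.card Y : ℝ) with hN
  have hNpos : 0 < N := by rw [hN]; exact_mod_cast hY
  set s : ℝ := 1 / √N with hs
  have hsN : 0 < √N := Real.sqrt_pos.2 hNpos
  have hspos : 0 < s := by positivity
  have hs2 : s ^ 2 * N = 1 := by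
    rw [hs, div_pow, one_pow, Real.sq_sqrt hNpos.le, one_div, inv_mul_cancel₀ hNpos.ne']
  set S : I → (Y → X) → ℝ := fun i ψ => ∑ y, v i y * χ i (ψ y) with hS
  have htot : ∑ ψ : Y → X, ∑ i, (Real.exp (s * S i ψ) + Real.exp (-s * S i ψ)) =
      ∑ ψ : Y → X, 2 * (Fintype.card I : ℝ) * Real.cosh s ^ Fintype.card Y := by
    rw [Finset.sum_comm]
    have h : ∀ i, ∑ ψ : Y → X, (Real.exp (s * S i ψ) + Real.exp (-s * S i ψ)) =
        2 * (Fintype.card X * Real.cosh s) ^ Fintype.card Y := by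
      intro i
      rw [Finset.sum_add_distrib, sum_psi (v i) (χ i) (hv i) (hχ i) (hb i) s,
        sum_psi (v i) (χ i) (hv i) (hχ i) (hb i) (-s), Real.cosh_neg]
      ring
    rw [Finset.sum_congr rfl fun i _ => h i, Finset.sum_const, Finset.sum_const,
      Finset.card_univ, Finset.card_univ, Fintype.card_fun, nsmul_eq_mul, nsmul_eq_mul, mul_pow,
      Nat.cast_pow]
    ring
  obtain ⟨ψ, _, hψ⟩ := Finset.exists_le_of_sum_le (s := (Finset.univ : Finset (Y → X)))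
    Finset.univ_nonempty htot.le
  refine ⟨ψ, fun i => ?_⟩
  have hi : Real.exp (s * |S i ψ|) ≤ ∑ i, (Real.exp (s * S i ψ) + Real.exp (-s * S i ψ)) := by
    refine le_trans ?_ (Finset.single_le_sum (f := fun i => Real.exp (s * S i ψ) +
      Real.exp (-s * S i ψ)) (fun j _ => by positivity) (Finset.mem_univ i))
    show _ ≤ Real.exp (s * S i ψ) + Real.exp (-s * S i ψ)
    rcases abs_cases (S i ψ) with ⟨h, _⟩ | ⟨h, _⟩
    · rw [h]
      linarith [Real.exp_pos (-s * S i ψ)]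
    · rw [h, mul_neg, ← neg_mul]
      linarith [Real.exp_pos (s * S i ψ)]
  have hI : (0 : ℝ) < 2 * Fintype.card I := by
    have : 0 < Fintype.card I := Fintype.card_pos
    positivity
  have hcosh : Real.cosh s ^ Fintype.card Y ≤ Real.exp (1 / 2) := by
    calc Real.cosh s ^ Fintype.card Y ≤ Real.exp (s ^ 2 / 2) ^ Fintype.card Y :=
          pow_le_pow_left₀ (Real.cosh_pos s).le (Real.cosh_le_exp_half_sq s) _
      _ = Real.exp (Fintype.card Y * (s ^ 2 / 2)) := by rw [← Real.exp_nat_mul]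
      _ = Real.exp (1 / 2) := by
          congr 1
          rw [← hN]
          linear_combination (1 / 2) * hs2
  have h3 : Real.exp (s * |S i ψ|) ≤ 2 * Fintype.card I * Real.exp (1 / 2) :=
    (hi.trans hψ).trans (mul_le_mul_of_nonneg_left hcosh hI.le)
  have h4 : s * |S i ψ| ≤ Real.log (2 * Fintype.card I) + 1 / 2 := by
    have := Real.log_le_log (Real.exp_pos _) h3
    rwa [Real.log_exp, Real.log_mul hI.ne' (Real.exp_pos _).ne', Real.log_exp] at this
  have h5 : |S i ψ| = √N * (s * |S i ψ|) := by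
    rw [hs]
    field_simp
  show |S i ψ| ≤ _
  rw [h5]
  apply mul_le_mul_of_nonneg_left _ hsN.le
  linarith

end Pool.Agent.MP_e87d84
end

section
/-!
MP_e87d84_an [TY]: type `r` of the sum of the levels `> i` (text II.5), by Minkowski.
-/
set_option autoImplicit false

open Filter Topology

namespace Pool.Agent.MP_e87d84

namespace TyM

section av

variable {ι : Type*} [Fintype ι] [DecidableEq ι]

theorem av_mono {F G : (ι → Bool) → ℝ} (h : ∀ ε, F ε ≤ G ε) : Av F ≤ Av G := by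
  unfold Av
  exact div_le_div_of_nonneg_right (Finset.sum_le_sum fun ε _ => h ε) (by positivity)

theorem av_nonneg {F : (ι → Bool) → ℝ} (h : ∀ ε, 0 ≤ F ε) : 0 ≤ Av F := by
  unfold Av
  exact div_nonneg (Finset.sum_nonneg fun ε _ => h ε) (by positivity)

theorem av_mul (c : ℝ) (F : (ι → Bool) → ℝ) : Av (fun ε => c * F ε) = c * Av F := by
  unfold Av
  rw [← Finset.mul_sum, mul_div_assoc]

theorem av_sum {Λ : Type*} (S : Finset Λ) (F : Λ → (ι → Bool) → ℝ) :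
    Av (fun ε => ∑ l ∈ S, F l ε) = ∑ l ∈ S, Av (F l) := by
  unfold Av
  rw [Finset.sum_comm, Finset.sum_div]

theorem av_const (c : ℝ) : Av (fun _ : ι → Bool => c) = c := by
  unfold Av
  rw [Finset.sum_const, nsmul_eq_mul, Finset.card_univ, Fintype.card_fun, Fintype.card_bool]
  push_cast
  field_simp

theorem sum_cross {a b : ι} (hab : a ≠ b) : ∑ ε : ι → Bool, sg (ε a) * sg (ε b) = 0 := by
  apply Finset.sum_involution (fun (ε : ι → Bool) _ => Function.update ε a (!ε a))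
  · intro ε _
    rw [Function.update_self, Function.update_of_ne hab.symm]
    unfold sg
    cases ε a <;> cases ε b <;> simp
  · intro ε _ _ h
    have := congrFun h a
    rw [Function.update_self] at this
    cases h1 : ε a <;> rw [h1] at this <;> simp at this
  · intro ε _
    exact Finset.mem_univ _
  · intro ε _
    simp

theorem sg_sq (b : Bool) : sg b ^ 2 = 1 := by
  unfold sg
  cases b <;> simp

theorem av_sq (y : ι → ℝ) :
    Av (fun ε : ι → Bool => (∑ a, sg (ε a) * y a) ^ 2) = ∑ a, y a ^ 2 := by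
  have h1 : ∀ ε : ι → Bool, (∑ a, sg (ε a) * y a) ^ 2 =
      ∑ a, ∑ b, (y a * y b) * (sg (ε a) * sg (ε b)) := by
    intro ε
    rw [sq, Finset.sum_mul_sum]
    refine Finset.sum_congr rfl fun a _ => Finset.sum_congr rfl fun b _ => ?_
    ring
  simp_rw [h1]
  rw [av_sum]
  refine Finset.sum_congr rfl fun a _ => ?_
  rw [av_sum, Finset.sum_eq_single a]
  · rw [av_mul]
    have h2 : (fun ε : ι → Bool => sg (ε a) * sg (ε a)) = fun _ => 1 := by
      funext ε
      rw [← sq, sg_sq]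
    rw [h2, av_const]
    ring
  · intro b _ hb
    rw [av_mul]
    have h3 : Av (fun ε : ι → Bool => sg (ε a) * sg (ε b)) = 0 := by
      unfold Av
      rw [sum_cross hb.symm, zero_div]
    rw [h3, mul_zero]
  · intro h
    exact absurd (Finset.mem_univ a) h

end av

/-- Minkowski for finite sums -/
theorem mink {κ Λ : Type*} (s : Finset κ) (S : Finset Λ) (F : Λ → κ → ℝ)
    (h : ∀ l ∈ S, ∀ k, 0 ≤ F l k) {t : ℝ} (ht : 1 ≤ t) :
    (∑ k ∈ s, (∑ l ∈ S, F l k) ^ t) ^ (1 / t) ≤ ∑ l ∈ S, (∑ k ∈ s, F l k ^ t) ^ (1 / t) := by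
  classical
  have ht0 : t ≠ 0 := by linarith
  induction S using Finset.induction_on with
  | empty =>
    simp only [Finset.sum_empty]
    rw [Finset.sum_eq_zero fun k _ => Real.zero_rpow ht0, Real.zero_rpow]
    exact one_div_ne_zero ht0
  | insert a S ha ih =>
    rw [Finset.sum_insert ha]
    have ih' := ih fun l hl => h l (Finset.mem_insert_of_mem hl)
    refine le_trans ?_ (add_le_add_right ih' _)
    have h1 : ∀ k, ∑ l ∈ insert a S, F l k = F a k + ∑ l ∈ S, F l k := fun k =>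
      Finset.sum_insert ha
    simp_rw [h1]
    exact Real.Lp_add_le_of_nonneg s ht (fun k _ => h a (Finset.mem_insert_self a S) k)
      (fun k _ => Finset.sum_nonneg fun l hl => h l (Finset.mem_insert_of_mem hl) k)

/-- Minkowski for averages -/
theorem mink_av {ι : Type*} [Fintype ι] [DecidableEq ι] {Λ : Type*} (S : Finset Λ)
    (F : Λ → (ι → Bool) → ℝ) (h : ∀ l ∈ S, ∀ ε, 0 ≤ F l ε) {t : ℝ} (ht : 1 ≤ t) :
    (Av fun ε => (∑ l ∈ S, F l ε) ^ t) ^ (1 / t) ≤ ∑ l ∈ S, (Av fun ε => F l ε ^ t) ^ (1 / t) := by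
  unfold Av
  have h2 : (0 : ℝ) ≤ 2 ^ Fintype.card ι := by positivity
  rw [Real.div_rpow (Finset.sum_nonneg fun ε _ => Real.rpow_nonneg
    (Finset.sum_nonneg fun l hl => h l hl ε) _) h2]
  have h3 : ∀ l ∈ S, ((∑ ε : ι → Bool, F l ε ^ t) / 2 ^ Fintype.card ι) ^ (1 / t) =
      (∑ ε : ι → Bool, F l ε ^ t) ^ (1 / t) / (2 ^ Fintype.card ι) ^ (1 / t) := fun l hl =>
    Real.div_rpow (Finset.sum_nonneg fun ε _ => Real.rpow_nonneg (h l hl ε) _) h2 _
  rw [Finset.sum_congr rfl h3, ← Finset.sum_div]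
  exact div_le_div_of_nonneg_right (mink Finset.univ S F h ht) (by positivity)

theorem sum_rpow_le {ι : Type*} (s : Finset ι) (a : ι → ℝ) (ha : ∀ i ∈ s, 0 ≤ a i) {t : ℝ}
    (ht : 1 ≤ t) : ∑ i ∈ s, a i ^ t ≤ (∑ i ∈ s, a i) ^ t := by
  have hS : 0 ≤ ∑ i ∈ s, a i := Finset.sum_nonneg ha
  have h1 : ∀ i ∈ s, a i ^ t ≤ a i * (∑ i ∈ s, a i) ^ (t - 1) := by
    intro i hi
    have h2 : a i ≤ ∑ i ∈ s, a i := Finset.single_le_sum ha hi
    calc a i ^ t = a i ^ (1 + (t - 1)) := by ring_nf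
      _ = a i ^ (1 : ℝ) * a i ^ (t - 1) :=
        Real.rpow_add_of_nonneg (ha i hi) (by norm_num) (by linarith)
      _ ≤ a i * (∑ i ∈ s, a i) ^ (t - 1) := by
        rw [Real.rpow_one]
        exact mul_le_mul_of_nonneg_left (Real.rpow_le_rpow (ha i hi) h2 (by linarith)) (ha i hi)
  refine (Finset.sum_le_sum h1).trans (le_of_eq ?_)
  rw [← Finset.sum_mul]
  calc (∑ i ∈ s, a i) * (∑ i ∈ s, a i) ^ (t - 1)
      = (∑ i ∈ s, a i) ^ (1 : ℝ) * (∑ i ∈ s, a i) ^ (t - 1) := by rw [Real.rpow_one]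
    _ = (∑ i ∈ s, a i) ^ (1 + (t - 1)) :=
        (Real.rpow_add_of_nonneg hS (by norm_num) (by linarith)).symm
    _ = (∑ i ∈ s, a i) ^ t := by ring_nf

/-- type `r` (with constant 1) of the function `N` -/
def Ty (r : ℝ) {X : Type*} [AddCommGroup X] [Module ℝ X] (N : X → ℝ) : Prop :=
  (∀ x, 0 ≤ N x) ∧ ∀ (ι : Type) [Fintype ι] [DecidableEq ι] (y : ι → X),
    Av (fun ε : ι → Bool => N (∑ a, sg (ε a) • y a) ^ 2) ≤ (∑ a, N (y a) ^ r) ^ (2 / r)

theorem Ty.abs {r : ℝ} (hr : 1 ≤ r) (hr2 : r ≤ 2) : Ty r (fun x : ℝ => |x|) := by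
  refine ⟨fun x => abs_nonneg x, fun ι _ _ y => ?_⟩
  have h1 : ∀ ε : ι → Bool, |∑ a, sg (ε a) • y a| ^ 2 = (∑ a, sg (ε a) * y a) ^ 2 := by
    intro ε
    rw [sq_abs]
    rfl
  simp_rw [h1]
  rw [av_sq]
  have h2 : ∀ a, y a ^ 2 = (|y a| ^ r) ^ (2 / r) := by
    intro a
    rw [← Real.rpow_mul (abs_nonneg _), mul_div_cancel₀ _ (by linarith : r ≠ 0), Real.rpow_two,
      sq_abs]
  simp_rw [h2]
  apply sum_rpow_le
  · intro a _
    exact Real.rpow_nonneg (abs_nonneg _) _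
  · rw [le_div_iff₀ (by linarith)]
    linarith

theorem Ty.map {r : ℝ} {X Y : Type*} [AddCommGroup X] [Module ℝ X] [AddCommGroup Y] [Module ℝ Y]
    {N : Y → ℝ} (h : Ty r N) (f : X →ₗ[ℝ] Y) : Ty r (fun x => N (f x)) := by
  refine ⟨fun x => h.1 _, fun ι _ _ y => ?_⟩
  have h1 := h.2 ι (fun a => f (y a))
  refine le_trans (le_of_eq ?_) h1
  congr 1
  funext ε
  show N (f (∑ a, sg (ε a) • y a)) ^ 2 = _
  rw [map_sum]
  simp_rw [map_smul]

theorem Ty.mul {r : ℝ} (hr : 1 ≤ r) {X : Type*} [AddCommGroup X] [Module ℝ X]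
    {N : X → ℝ} (h : Ty r N) {c : ℝ} (hc : 0 ≤ c) : Ty r (fun x => c * N x) := by
  refine ⟨fun x => mul_nonneg hc (h.1 _), fun ι _ _ y => ?_⟩
  have h1 := h.2 ι y
  simp_rw [mul_pow]
  rw [av_mul]
  refine (mul_le_mul_of_nonneg_left h1 (sq_nonneg c)).trans (le_of_eq ?_)
  have h2 : ∀ a, (c * N (y a)) ^ r = c ^ r * N (y a) ^ r := fun a =>
    Real.mul_rpow hc (h.1 _)
  simp_rw [h2]
  rw [← Finset.mul_sum, Real.mul_rpow (Real.rpow_nonneg hc _)
    (Finset.sum_nonneg fun a _ => Real.rpow_nonneg (h.1 _) _), ← Real.rpow_mul hc,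
    mul_div_cancel₀ _ (by linarith : r ≠ 0), Real.rpow_two]

theorem Ty.zero {r : ℝ} {X : Type*} [AddCommGroup X] [Module ℝ X] :
    Ty r (fun _ : X => 0) := by
  refine ⟨fun x => le_rfl, fun ι _ _ y => ?_⟩
  rw [show (fun _ : ι → Bool => (0 : ℝ) ^ 2) = fun _ => 0 by funext; norm_num, av_const]
  exact Real.rpow_nonneg (Finset.sum_nonneg fun a _ => Real.rpow_nonneg le_rfl _) _

theorem Ty.comp {r p : ℝ} (hr : 1 ≤ r) (hrp : r ≤ p) (hp : p ≤ 2) {X : Type*} [AddCommGroup X]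
    [Module ℝ X] {Λ : Type*} (S : Finset Λ) (N : Λ → X → ℝ) (h : ∀ l, Ty r (N l)) :
    Ty r (fun x => (∑ l ∈ S, N l x ^ p) ^ (1 / p)) := by
  have hp0 : 0 < p := by linarith
  have hr0 : 0 < r := by linarith
  have hnn : ∀ x, 0 ≤ ∑ l ∈ S, N l x ^ p := fun x =>
    Finset.sum_nonneg fun l _ => Real.rpow_nonneg ((h l).1 _) _
  refine ⟨fun x => Real.rpow_nonneg (hnn x) _, fun ι _ _ y => ?_⟩
  have hF : ∀ l ∈ S, ∀ ε : ι → Bool, 0 ≤ N l (∑ a, sg (ε a) • y a) ^ p := fun l _ ε =>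
    Real.rpow_nonneg ((h l).1 _) _
  have ht : 1 ≤ 2 / p := by rw [le_div_iff₀ hp0]; linarith
  have h1 := mink_av S (fun l (ε : ι → Bool) => N l (∑ a, sg (ε a) • y a) ^ p) hF ht
  have e1 : ∀ ε : ι → Bool, ((∑ l ∈ S, N l (∑ a, sg (ε a) • y a) ^ p) ^ (1 / p)) ^ 2 =
      (∑ l ∈ S, N l (∑ a, sg (ε a) • y a) ^ p) ^ (2 / p) := by
    intro ε
    rw [← Real.rpow_two, ← Real.rpow_mul (hnn _)]
    congr 1
    ring
  simp_rw [e1]
  -- second step
  have e2 : ∀ l ∈ S, (Av fun ε : ι → Bool => (N l (∑ a, sg (ε a) • y a) ^ p) ^ (2 / p)) ^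
      (1 / (2 / p)) ≤ (∑ a, N l (y a) ^ r) ^ (p / r) := by
    intro l _
    have e3 : (fun ε : ι → Bool => (N l (∑ a, sg (ε a) • y a) ^ p) ^ (2 / p)) =
        fun ε => N l (∑ a, sg (ε a) • y a) ^ 2 := by
      funext ε
      rw [← Real.rpow_mul ((h l).1 _), mul_div_cancel₀ _ hp0.ne', Real.rpow_two]
    rw [e3]
    calc (Av fun ε : ι → Bool => N l (∑ a, sg (ε a) • y a) ^ 2) ^ (1 / (2 / p))
        ≤ ((∑ a, N l (y a) ^ r) ^ (2 / r)) ^ (1 / (2 / p)) :=
          Real.rpow_le_rpow (av_nonneg fun ε => sq_nonneg _) ((h l).2 ι y) (by positivity)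
      _ = (∑ a, N l (y a) ^ r) ^ (p / r) := by
          rw [← Real.rpow_mul (Finset.sum_nonneg fun a _ => Real.rpow_nonneg ((h l).1 _) _)]
          congr 1
          field_simp
  have h2 := h1.trans (Finset.sum_le_sum e2)
  -- third step
  have ht2 : 1 ≤ p / r := by rw [le_div_iff₀ hr0]; linarith
  have h3 := mink S (Finset.univ : Finset ι) (fun a l => N l (y a) ^ r)
    (fun a _ l => Real.rpow_nonneg ((h l).1 _) _) ht2
  have e4 : ∀ a, (∑ l ∈ S, (N l (y a) ^ r) ^ (p / r)) ^ (1 / (p / r)) =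
      ((∑ l ∈ S, N l (y a) ^ p) ^ (1 / p)) ^ r := by
    intro a
    have e5 : ∀ l ∈ S, (N l (y a) ^ r) ^ (p / r) = N l (y a) ^ p := by
      intro l _
      rw [← Real.rpow_mul ((h l).1 _), mul_div_cancel₀ _ hr0.ne']
    rw [Finset.sum_congr rfl e5, ← Real.rpow_mul (hnn _)]
    congr 1
    field_simp
  simp_rw [e4] at h3
  have hA : 0 ≤ Av fun ε : ι → Bool => (∑ l ∈ S, N l (∑ a, sg (ε a) • y a) ^ p) ^ (2 / p) :=
    av_nonneg fun ε => Real.rpow_nonneg (hnn _) _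
  have hB : 0 ≤ ∑ l ∈ S, (∑ a, N l (y a) ^ r) ^ (p / r) :=
    Finset.sum_nonneg fun l _ => Real.rpow_nonneg
      (Finset.sum_nonneg fun a _ => Real.rpow_nonneg ((h l).1 _) _) _
  calc (Av fun ε : ι → Bool => (∑ l ∈ S, N l (∑ a, sg (ε a) • y a) ^ p) ^ (2 / p))
      = ((Av fun ε : ι → Bool => (∑ l ∈ S, N l (∑ a, sg (ε a) • y a) ^ p) ^ (2 / p)) ^
        (1 / (2 / p))) ^ (2 / p) := by
        rw [← Real.rpow_mul hA, one_div_mul_cancel (by positivity), Real.rpow_one]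
    _ ≤ (∑ l ∈ S, (∑ a, N l (y a) ^ r) ^ (p / r)) ^ (2 / p) :=
        Real.rpow_le_rpow (Real.rpow_nonneg hA _) h2 (by positivity)
    _ = ((∑ l ∈ S, (∑ a, N l (y a) ^ r) ^ (p / r)) ^ (1 / (p / r))) ^ (2 / r) := by
        rw [← Real.rpow_mul hB]
        congr 1
        field_simp
    _ ≤ (∑ a, ((∑ l ∈ S, N l (y a) ^ p) ^ (1 / p)) ^ r) ^ (2 / r) :=
        Real.rpow_le_rpow (Real.rpow_nonneg hB _) h3 (by positivity)

theorem Ty.lpn {r p : ℝ} (hr : 1 ≤ r) (hrp : r ≤ p) (hp : p ≤ 2) {ι : Type*} [Fintype ι] :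
    Ty r (fun x : ι → ℝ => lpn p x) := by
  have h := Ty.comp hr hrp hp (Finset.univ : Finset ι) (fun i (x : ι → ℝ) => |x i|)
    (fun i => (Ty.abs hr (hrp.trans hp)).map (LinearMap.proj i : (ι → ℝ) →ₗ[ℝ] ℝ))
  exact h

theorem Ty.nF {r p q : ℝ} (hr : 1 ≤ r) (hrq : r ≤ q) (hq : q ≤ 2) (hrp : r ≤ p) (hp : p ≤ 2)
    {α β : Type*} [Fintype α] [Fintype β] :
    Ty r (fun x : α × β → ℝ => nF p q x) := by
  have h := Ty.comp hr hrp hp (Finset.univ : Finset α)
    (fun a (x : α × β → ℝ) => MP_e87d84.lpn q (fun b => x (a, b)))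
    (fun a => (Ty.lpn hr hrq hq).map
      (LinearMap.funLeft ℝ ℝ (fun b : β => ((a, b) : α × β)) : (α × β → ℝ) →ₗ[ℝ] (β → ℝ)))
  have e : (fun x : α × β → ℝ => MP_e87d84.nF p q x) = fun x =>
      (∑ a, (MP_e87d84.lpn q fun b => x (a, b)) ^ p) ^ (1 / p) := by
    funext x
    unfold MP_e87d84.nF
    conv_lhs => rw [MP_e87d84.lpn]
    congr 1
    refine Finset.sum_congr rfl fun a _ => ?_
    rw [abs_of_nonneg (lpn_nonneg _ _)]
  rw [e]
  exact h

open Dat

variable {P : Dat}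

/-- `bc` as a linear map -/
noncomputable def bcl (P : Dat) (i m : ℕ) : P.Blk i →ₗ[ℝ] (P.G i → ℝ) where
  toFun f := bc f m
  map_add' f f' := bc_add f f' m
  map_smul' c f := bc_smul c f m

theorem ty_pc {r : ℝ} (hr : 1 ≤ r) {i : ℕ} (hri : ∀ m, r ≤ P.q i m) (m : ℕ ⊕ ℕ) :
    Ty r (fun f : P.Blk i => pc f m) := by
  have hq2 : ∀ m, P.q i m ≤ 2 := fun m => by
    have := P.hqp i m m; have := P.hp i m; linarith
  cases m with
  | inl m =>
    have h := ((Ty.nF hr (hri m) (hq2 m) ((hri m).trans (P.hqp i m m))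
      (by have := P.hp i m; linarith : P.p i m ≤ 2) (α := Fin (P.d i))
      (β := Fin (P.d' i))).map (bcl P i m)).mul hr (Real.sqrt_nonneg (1 / (P.L i : ℝ)))
    exact h
  | inr m =>
    have h := ((Ty.lpn hr (by linarith [hri 0, hq2 0] : r ≤ 2) le_rfl
      (ι := P.G i)).map (bcl P i (m + 1) - bcl P i m)).mul hr (Real.sqrt_nonneg (P.L i : ℝ))
    exact h

theorem ty_blk {r : ℝ} (hr : 1 ≤ r) {i : ℕ} (hri : ∀ m, r ≤ P.q i m) :
    Ty r (fun f : P.Blk i => ‖f‖) := by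
  have hr2 : r ≤ 2 := by
    have := P.hqp i 0 0; have := P.hp i 0; linarith [hri 0]
  have h := Ty.comp hr hr2 le_rfl
    ((Finset.range (P.L i + 1)).disjSum (Finset.range (P.L i)))
    (fun m (f : P.Blk i) => pc f m) (fun m => ty_pc hr hri m)
  have e : (fun f : P.Blk i => ‖f‖) = fun f =>
      (∑ l ∈ (Finset.range (P.L i + 1)).disjSum (Finset.range (P.L i)), pc f l ^ (2 : ℝ)) ^
        (1 / 2 : ℝ) := by
    funext f
    rw [norm_blk, blkN_eq]
    congr 1
    refine Finset.sum_congr rfl fun m _ => ?_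
    rw [abs_of_nonneg (pc_nonneg _ _)]
  rw [e]
  exact h

/-- evaluation at a level, as a linear map -/
noncomputable def evl (P : Dat) (j : ℕ) : P.K →ₗ[ℝ] P.Blk j where
  toFun f := f j
  map_add' f f' := by rw [lp.coeFn_add, Pi.add_apply]
  map_smul' c f := by rw [lp.coeFn_smul, Pi.smul_apply]; rfl

end TyM

open TyM Dat in
theorem specTY : SpecTY := by
  intro P i ι _ _ y r hr hri hy
  have hr0 : 0 < r := by linarith
  have hr2 : r ≤ 2 := by
    have := P.hqp (i + 1) 0 0; have := P.hp (i + 1) 0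
    linarith [hri (i + 1) 0 (Nat.lt_succ_self i)]
  set N : ℕ → P.K → ℝ := fun j f => if i < j then ‖(evl P j f)‖ else 0 with hN
  have hTy : ∀ j, Ty r (N j) := by
    intro j
    by_cases h : i < j
    · have : N j = fun f => ‖evl P j f‖ := by
        funext f
        rw [hN]
        exact if_pos h
      rw [this]
      exact (ty_blk hr (fun m => hri j m h)).map (evl P j)
    · have : N j = fun _ => 0 := by
        funext f
        rw [hN]
        exact if_neg h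
      rw [this]
      exact Ty.zero
  have hNv : ∀ f : P.K, (∀ j ≤ i, (f : P.K) j = 0) → ∀ j, N j f = ‖(f : P.K) j‖ := by
    intro f hf j
    by_cases h : i < j
    · exact if_pos h
    · rw [hN]
      show (if i < j then ‖(evl P j f)‖ else 0) = _
      rw [if_neg h, hf j (by omega), norm_zero]
  have hsum : ∀ f : P.K, HasSum (fun j => ‖(f : P.K) j‖ ^ (2 : ℝ)) (‖f‖ ^ (2 : ℝ)) := by
    intro f
    have := lp.hasSum_norm (p := 2) (by norm_num) f
    simpa using this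
  have hlim : ∀ f : P.K, (∀ j ≤ i, (f : P.K) j = 0) →
      Tendsto (fun n => ∑ j ∈ Finset.range n, N j f ^ (2 : ℝ)) atTop (𝓝 (‖f‖ ^ 2)) := by
    intro f hf
    have h1 := (hsum f).tendsto_sum_nat
    rw [Real.rpow_two] at h1
    refine h1.congr fun n => Finset.sum_congr rfl fun j _ => ?_
    rw [hNv f hf j]
  have hle : ∀ f : P.K, (∀ j ≤ i, (f : P.K) j = 0) → ∀ n,
      ∑ j ∈ Finset.range n, N j f ^ (2 : ℝ) ≤ ‖f‖ ^ 2 := by
    intro f hf n
    have h1 := sum_le_hasSum (Finset.range n) (fun j _ => Real.rpow_nonneg (norm_nonneg _) _)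
      (hsum f)
    rw [Real.rpow_two] at h1
    refine le_trans (le_of_eq (Finset.sum_congr rfl fun j _ => ?_)) h1
    rw [hNv f hf j]
  have hS : ∀ ε : ι → Bool, ∀ j ≤ i, ((∑ a, sg (ε a) • y a : P.K)) j = 0 := by
    intro ε j hj
    rw [lp.coeFn_sum, Finset.sum_apply]
    refine Finset.sum_eq_zero fun a _ => ?_
    rw [lp.coeFn_smul, Pi.smul_apply, hy a j hj, smul_zero]
  -- the finite stages
  have hfin : ∀ n, Av (fun ε : ι → Bool =>
      ∑ j ∈ Finset.range n, N j (∑ a, sg (ε a) • y a) ^ (2 : ℝ)) ≤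
      (∑ a, ‖y a‖ ^ r) ^ (2 / r) := by
    intro n
    have h1 := (Ty.comp hr hr2 le_rfl (Finset.range n) N hTy).2 ι y
    have hnn : ∀ x : P.K, 0 ≤ ∑ l ∈ Finset.range n, N l x ^ (2 : ℝ) := fun x =>
      Finset.sum_nonneg fun l _ => Real.rpow_nonneg ((hTy l).1 _) _
    have e1 : ∀ x : P.K, ((∑ l ∈ Finset.range n, N l x ^ (2 : ℝ)) ^ (1 / 2 : ℝ)) ^ 2 =
        ∑ l ∈ Finset.range n, N l x ^ (2 : ℝ) := by
      intro x
      rw [← Real.rpow_two ((∑ l ∈ Finset.range n, N l x ^ (2 : ℝ)) ^ (1 / 2 : ℝ)),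
        ← Real.rpow_mul (hnn x), show (1 / 2 : ℝ) * 2 = 1 by norm_num, Real.rpow_one]
    simp_rw [e1] at h1
    refine h1.trans ?_
    apply Real.rpow_le_rpow (Finset.sum_nonneg fun a _ => Real.rpow_nonneg
      (Real.rpow_nonneg (hnn _) _) _) _ (by positivity)
    refine Finset.sum_le_sum fun a _ => ?_
    apply Real.rpow_le_rpow (Real.rpow_nonneg (hnn _) _) _ hr0.le
    calc (∑ l ∈ Finset.range n, N l (y a) ^ (2 : ℝ)) ^ (1 / 2 : ℝ)
        ≤ (‖y a‖ ^ 2) ^ (1 / 2 : ℝ) :=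
          Real.rpow_le_rpow (hnn _) (hle (y a) (hy a) n) (by norm_num)
      _ = ‖y a‖ := by
          rw [← Real.rpow_two, ← Real.rpow_mul (norm_nonneg _), show (2 : ℝ) * (1 / 2) = 1 by
            norm_num, Real.rpow_one]
  -- the limit
  have hL : Tendsto (fun n => Av (fun ε : ι → Bool =>
      ∑ j ∈ Finset.range n, N j (∑ a, sg (ε a) • y a) ^ (2 : ℝ))) atTop
      (𝓝 (Av (fun ε : ι → Bool => ‖∑ a, sg (ε a) • y a‖ ^ 2))) := by
    unfold Av
    apply Tendsto.div_const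
    apply tendsto_finsetSum
    intro ε _
    exact hlim _ (hS ε)
  exact le_of_tendsto' hL hfin

end Pool.Agent.MP_e87d84
end

section
/-!
MP_e87d84_an, module X0: the left end of the rung.
-/
set_option autoImplicit false

open Filter Topology

namespace Pool.Agent.MP_e87d84

open Dat

namespace X0M

/-- `|∑ u_a| ≤ √card · √(∑ u_a²)` -/
theorem abs_sum_le {ι : Type*} [Fintype ι] (u : ι → ℝ) :
    |∑ a, u a| ≤ √(Fintype.card ι : ℝ) * √(∑ a, u a ^ 2) := by
  rw [← Real.sqrt_mul (by positivity)]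
  apply Real.abs_le_sqrt
  have h := sq_sum_le_card_mul_sum_sq (s := (Finset.univ : Finset ι)) (f := u)
  rw [Finset.card_univ] at h
  exact h

/-- `|tr N| ≤ √card · HS(N)` -/
theorem abs_trace_le {ι : Type*} [Fintype ι] [DecidableEq ι] (N : Matrix ι ι ℝ) :
    |N.trace| ≤ √(Fintype.card ι : ℝ) * √(hs N) := by
  refine (abs_sum_le fun a => N a a).trans ?_
  apply mul_le_mul_of_nonneg_left _ (Real.sqrt_nonneg _)
  apply Real.sqrt_le_sqrt
  unfold hs
  exact Finset.sum_le_sum fun a _ => Finset.single_le_sum (f := fun b => N a b ^ 2)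
    (fun _ _ => sq_nonneg _) (Finset.mem_univ a)

theorem card_G (P : Dat) (i : ℕ) : (Fintype.card (P.G i) : ℝ) = P.D i := by
  simp [Dat.D, Fintype.card_prod]

theorem D_nonneg (P : Dat) (i : ℕ) : 0 ≤ P.D i := by
  unfold Dat.D
  positivity

/-- comparison of the traces of `X_m` and `Q_m` -/
theorem trace_diff (hXQ : SpecXQ) (P : Dat) (e : P.Zt →L[ℝ] P.Zt) (E : ℝ) (hE : ‖e‖ ≤ E)
    (i m : ℕ) (hm : m < P.L i) :
    |(P.xm e i m).trace - (P.em e i m m).trace| ≤ P.D i * (4 * P.L i ^ 2 * E * √(P.h i)) := by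
  have h1 := abs_trace_le (P.xm e i m - P.em e i m m)
  have hE0 : 0 ≤ E := (norm_nonneg e).trans hE
  rw [Matrix.trace_sub] at h1
  refine h1.trans ?_
  have h2 := Real.sqrt_le_sqrt (hXQ P e E hE i m hm)
  rw [card_G]
  refine (mul_le_mul_of_nonneg_left h2 (Real.sqrt_nonneg _)).trans ?_
  have hD := D_nonneg P i
  have hh := (P.hh0 i).le
  rw [Real.sqrt_mul (by positivity), Real.sqrt_mul hD, Real.sqrt_sq (by positivity)]
  have h3 := Real.mul_self_sqrt hD
  calc √(P.D i) * (√(P.D i) * (4 * P.L i ^ 2 * E) * √(P.h i))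
      = (√(P.D i) * √(P.D i)) * (4 * P.L i ^ 2 * E * √(P.h i)) := by ring
    _ = _ := by rw [h3]
    _ ≤ _ := le_rfl

end X0M

open X0M in
theorem specX0 (hKB : SpecKB) (hXQ : SpecXQ) : SpecX0 := by
  intro P A κ E c hE hA i hc
  have hL := P.hL i
  have h1 := trace_diff hXQ P (A - κ) E hE i 0 (by omega)
  have h2 : |(P.xm (A - κ) i 0).trace| ≤ P.D i * (2 * c) := by
    have h3 : ∀ x : P.G i, |P.xm (A - κ) i 0 x x| ≤ 2 * c := by
      intro x
      show |P.co i 0 ((A - κ) (P.π (P.cs i x))) x| ≤ 2 * c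
      have h4 : P.co i 0 (A (P.π (P.cs i x))) = 0 := (P.mem_Zp _).1 (hA _) i
      rw [show (A - κ) (P.π (P.cs i x)) = A (P.π (P.cs i x)) - κ (P.π (P.cs i x)) from rfl, map_sub, h4, zero_sub, Pi.neg_apply, abs_neg]
      obtain ⟨-, -, -, -, -, -, h5⟩ := hKB P i
      have h6 := h5 0 (by omega) (κ (P.π (P.cs i x)))
      have h7 : P.co i 0 (κ (P.π (P.cs i x))) x ^ 2 ≤ (2 * c) ^ 2 := by
        refine (Finset.single_le_sum (f := fun y => P.co i 0 (κ (P.π (P.cs i x))) y ^ 2)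
          (fun _ _ => sq_nonneg _) (Finset.mem_univ x)).trans (h6.trans ?_)
        have h8 := hc x
        have h9 := norm_nonneg (κ (P.π (P.cs i x)))
        gcongr
      have hc0 : 0 ≤ c := (norm_nonneg _).trans (hc x)
      exact abs_le_of_sq_le_sq' h7 (by linarith) |> abs_le.2
    calc |(P.xm (A - κ) i 0).trace| = |∑ x, P.xm (A - κ) i 0 x x| := rfl
      _ ≤ ∑ x, |P.xm (A - κ) i 0 x x| := Finset.abs_sum_le_sum_abs _ _
      _ ≤ ∑ x : P.G i, 2 * c := Finset.sum_le_sum fun x _ => h3 x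
      _ = P.D i * (2 * c) := by
        rw [Finset.sum_const, Finset.card_univ, nsmul_eq_mul, card_G]
  calc |(P.em (A - κ) i 0 0).trace|
      = |(P.xm (A - κ) i 0).trace - ((P.xm (A - κ) i 0).trace - (P.em (A - κ) i 0 0).trace)| := by
        congr 1; ring
    _ ≤ |(P.xm (A - κ) i 0).trace| + |(P.xm (A - κ) i 0).trace - (P.em (A - κ) i 0 0).trace| :=
        abs_sub _ _
    _ ≤ P.D i * (2 * c) + P.D i * (4 * P.L i ^ 2 * E * √(P.h i)) := add_le_add h2 h1
    _ = _ := by ring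

end Pool.Agent.MP_e87d84
end

section
/-!
MP_e87d84_an, module XL: the right end of the rung.
-/
set_option autoImplicit false

open Filter Topology

namespace Pool.Agent.MP_e87d84

open Dat

namespace XlM

theorem θ_nonneg (P : Dat) (i : ℕ) : 0 ≤ P.θ i := by
  unfold Dat.θ Dat.ω
  have h1 := P.hk (i + 1)
  have h2 := X0M.D_nonneg P (i + 1)
  have h3 := X0M.D_nonneg P i
  positivity

end XlM

open X0M XlM in
theorem specXL (hKB : SpecKB) (hCS : SpecCS) (hKG : SpecKAPG) (hXQ : SpecXQ) : SpecXL := by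
  intro P e E hE i
  have hL := P.hL (i + 1)
  have hE0 : 0 ≤ E := (norm_nonneg e).trans hE
  have hθ := θ_nonneg P i
  have hLp : (0 : ℝ) < P.L (i + 1) := by
    have : 0 < P.L (i + 1) := by omega
    exact_mod_cast this
  have hs0 : 0 < √(P.L (i + 1) : ℝ) := Real.sqrt_pos.2 hLp
  have h1 := trace_diff hXQ P e E hE (i + 1) (P.L (i + 1) - 1) (by omega)
  have key : ∀ x : P.G (i + 1), P.kg i x (e (P.π (P.cs (i + 1) x))) ≤
      P.xm e (i + 1) (P.L (i + 1) - 1) x x + 4 * E * (P.θ i + 1 / √(P.L (i + 1) : ℝ)) := by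
    intro x
    have hcs : ‖P.cs (i + 1) x‖ ≤ √2 := by
      classical
      have hG : ∀ j, Nonempty (P.G j) := fun j => ⟨(⟨0, P.hd j⟩, ⟨0, P.hd' j⟩)⟩
      have := hCS P (Function.update (fun j => (hG j).some) (i + 1) x) {i + 1}
      rw [Finset.sum_singleton, Function.update_self, Finset.card_singleton] at this
      simpa using this
    have hz : ‖e (P.π (P.cs (i + 1) x))‖ ≤ E * √2 := by
      refine (e.le_opNorm _).trans ?_
      exact mul_le_mul hE ((P.π_norm_le _).trans hcs) (norm_nonneg _) hE0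
    obtain ⟨f, hf, hfn⟩ := P.π_lift_two (e (P.π (P.cs (i + 1) x)))
    have h2 : √2 ≤ 2 := by
      rw [Real.sqrt_le_left (by norm_num)]
      norm_num
    have hfE : ‖f‖ ≤ 4 * E := by
      have := mul_le_mul_of_nonneg_left h2 hE0
      linarith
    have h3 := (hKG P i x).1 f
    rw [hf] at h3
    obtain ⟨-, -, h4, -⟩ := hKB P (i + 1)
    have h5 : |bc (f (i + 1)) (P.L (i + 1)) x - bc (f (i + 1)) (P.L (i + 1) - 1) x| ≤
        ‖f‖ / √(P.L (i + 1) : ℝ) := by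
      have h6 : (bc (f (i + 1)) (P.L (i + 1)) x - bc (f (i + 1)) (P.L (i + 1) - 1) x) ^ 2 ≤
          (‖f‖ / √(P.L (i + 1) : ℝ)) ^ 2 := by
        rw [div_pow, Real.sq_sqrt hLp.le]
        exact (Finset.single_le_sum (f := fun y => (bc (f (i + 1)) (P.L (i + 1)) y -
          bc (f (i + 1)) (P.L (i + 1) - 1) y) ^ 2) (fun _ _ => sq_nonneg _)
          (Finset.mem_univ x)).trans (h4 f)
      exact abs_le_of_sq_le_sq' h6 (by positivity) |> abs_le.2
    have h7 : P.xm e (i + 1) (P.L (i + 1) - 1) x x = bc (f (i + 1)) (P.L (i + 1) - 1) x := by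
      show P.co (i + 1) (P.L (i + 1) - 1) (e (P.π (P.cs (i + 1) x))) x = _
      rw [← hf, P.co_π (i + 1) (by omega) f]
    rw [h7]
    have h8 : P.θ i * ‖f‖ ≤ P.θ i * (4 * E) := mul_le_mul_of_nonneg_left hfE hθ
    have h9 : ‖f‖ / √(P.L (i + 1) : ℝ) ≤ 4 * E / √(P.L (i + 1) : ℝ) := by gcongr
    have h10 : 4 * E * (P.θ i + 1 / √(P.L (i + 1) : ℝ)) =
        P.θ i * (4 * E) + 4 * E / √(P.L (i + 1) : ℝ) := by
      field_simp
    rw [h10]
    have := le_abs_self (P.kg i x (e (P.π (P.cs (i + 1) x))) - bc (f (i + 1)) (P.L (i + 1)) x)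
    have := le_abs_self (bc (f (i + 1)) (P.L (i + 1)) x - bc (f (i + 1)) (P.L (i + 1) - 1) x)
    linarith
  have hsum : ∑ x : P.G (i + 1), P.kg i x (e (P.π (P.cs (i + 1) x))) ≤
      (P.xm e (i + 1) (P.L (i + 1) - 1)).trace +
        P.D (i + 1) * (4 * E * (P.θ i + 1 / √(P.L (i + 1) : ℝ))) := by
    refine (Finset.sum_le_sum fun x _ => key x).trans ?_
    rw [Finset.sum_add_distrib, Finset.sum_const, Finset.card_univ, nsmul_eq_mul, card_G]
    exact le_rfl
  have h11 := le_abs_self ((P.xm e (i + 1) (P.L (i + 1) - 1)).trace -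
    (P.em e (i + 1) (P.L (i + 1) - 1) (P.L (i + 1) - 1)).trace)
  rw [mul_add]
  linarith

end Pool.Agent.MP_e87d84
end

section
/-!
MP_e87d84_an, module ZDM: the quotient `Zt` is a `ZD`.  Text II.0.
-/
set_option autoImplicit false

open Filter Topology

namespace Pool.Agent.MP_e87d84

open Dat

namespace ZdmM

variable (P : Dat)

theorem L_pos (i : ℕ) : (0 : ℝ) < P.L i := by
  have := P.hL i
  positivity

/-- multiplication by `t m` at position `m` -/
noncomputable def mulB (i : ℕ) (t : ℕ → ℝ) : P.Blk i →ₗ[ℝ] P.Blk i where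
  toFun f := fun m' => t m' • f m'
  map_add' f f' := by
    funext m'
    exact smul_add (t m') (f m') (f' m')
  map_smul' c f := by
    funext m'
    exact smul_comm (t m') c (f m')

theorem bc_mulB (i : ℕ) (t : ℕ → ℝ) (f : P.Blk i) (m : ℕ) :
    bc (mulB P i t f) m = t m • bc f m := by
  unfold bc
  split_ifs
  · rfl
  · rw [smul_zero]

/-- the weights -/
noncomputable def tt (i m : ℕ) : ℝ := (m : ℝ) / P.L i

theorem tt_nonneg (i m : ℕ) : 0 ≤ tt P i m := div_nonneg (Nat.cast_nonneg _) (L_pos P i).le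

theorem tt_le_one (i : ℕ) {m : ℕ} (hm : m ≤ P.L i) : tt P i m ≤ 1 := by
  unfold tt
  rw [div_le_one (L_pos P i)]
  exact_mod_cast hm

theorem tt_succ (i m : ℕ) : tt P i (m + 1) = tt P i m + 1 / P.L i := by
  unfold tt
  rw [Nat.cast_add, add_div, Nat.cast_one]

theorem sq_l2_le (hNF : SpecNF) (i m : ℕ) (x : P.G i → ℝ) :
    ∑ y, x y ^ 2 ≤ nF (P.p i m) (P.q i m) x ^ 2 := by
  rw [← lpn_two_sq]
  apply pow_le_pow_left₀ (lpn_nonneg _ _)
  exact hNF.1 _ _ _ _ _ x (one_le_q i m) (P.hqp i m m) (by linarith [P.hp i m])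

theorem blkSq_mulB (hNF : SpecNF) (i : ℕ) (f : P.Blk i) :
    blkSq (mulB P i (tt P i) f) ≤ 4 * blkSq f := by
  have hL := L_pos P i
  set S1 := ∑ m ∈ Finset.range (P.L i + 1), nF (P.p i m) (P.q i m) (bc f m) ^ 2 with hS1
  set S2 := ∑ m ∈ Finset.range (P.L i), ∑ x, (bc f (m + 1) x - bc f m x) ^ 2 with hS2
  have hS1n : 0 ≤ S1 := Finset.sum_nonneg fun _ _ => sq_nonneg _
  have hS2n : 0 ≤ S2 := Finset.sum_nonneg fun _ _ => Finset.sum_nonneg fun _ _ => sq_nonneg _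
  have h1 : ∑ m ∈ Finset.range (P.L i + 1), nF (P.p i m) (P.q i m)
      (bc (mulB P i (tt P i) f) m) ^ 2 ≤ S1 := by
    apply Finset.sum_le_sum
    intro m hm
    have hm' : m ≤ P.L i := by
      have := Finset.mem_range.1 hm
      omega
    rw [bc_mulB, nF_smul (by linarith [one_le_p (P := P) i m])
      (by linarith [one_le_q (P := P) i m]), abs_of_nonneg (tt_nonneg P i m), mul_pow]
    have h2 : tt P i m ^ 2 ≤ 1 := pow_le_one₀ (tt_nonneg P i m) (tt_le_one P i hm')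
    have h3 : 0 ≤ nF (P.p i m) (P.q i m) (bc f m) ^ 2 := sq_nonneg _
    nlinarith
  have h2 : ∑ m ∈ Finset.range (P.L i), ∑ x, (bc (mulB P i (tt P i) f) (m + 1) x -
      bc (mulB P i (tt P i) f) m x) ^ 2 ≤ 2 * S2 + 2 / (P.L i : ℝ) ^ 2 * S1 := by
    have h3 : ∀ m ∈ Finset.range (P.L i), ∑ x, (bc (mulB P i (tt P i) f) (m + 1) x -
        bc (mulB P i (tt P i) f) m x) ^ 2 ≤
        2 * ∑ x, (bc f (m + 1) x - bc f m x) ^ 2 +
          2 / (P.L i : ℝ) ^ 2 * nF (P.p i m) (P.q i m) (bc f m) ^ 2 := by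
      intro m hm
      have hm' : m + 1 ≤ P.L i := by
        have := Finset.mem_range.1 hm
        omega
      have h4 := sq_l2_le P hNF i m (bc f m)
      have h5 : ∑ x, (bc (mulB P i (tt P i) f) (m + 1) x -
          bc (mulB P i (tt P i) f) m x) ^ 2 ≤
          ∑ x, (2 * (bc f (m + 1) x - bc f m x) ^ 2 + 2 / (P.L i : ℝ) ^ 2 * bc f m x ^ 2) := by
        apply Finset.sum_le_sum
        intro x _
        rw [bc_mulB, bc_mulB, Pi.smul_apply, Pi.smul_apply, smul_eq_mul, smul_eq_mul]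
        have ht1 := tt_le_one P i hm'
        have ht0 := tt_nonneg P i (m + 1)
        have hts := tt_succ P i m
        set a := bc f (m + 1) x
        set b := bc f m x
        set t := tt P i (m + 1)
        have e1 : tt P i m = t - 1 / P.L i := by linarith
        have e2 : t * a - tt P i m * b = t * (a - b) + 1 / P.L i * b := by rw [e1]; ring
        have e3 : 2 / (P.L i : ℝ) ^ 2 * b ^ 2 = 2 * (1 / P.L i * b) ^ 2 := by
          field_simp
        rw [e2, e3]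
        have e4 : t ^ 2 ≤ 1 := pow_le_one₀ ht0 ht1
        have e5 : t ^ 2 * (a - b) ^ 2 ≤ 1 * (a - b) ^ 2 :=
          mul_le_mul_of_nonneg_right e4 (sq_nonneg _)
        nlinarith [sq_nonneg (t * (a - b) - 1 / P.L i * b)]
      refine h5.trans ?_
      rw [Finset.sum_add_distrib, ← Finset.mul_sum, ← Finset.mul_sum]
      have h6 : 2 / (P.L i : ℝ) ^ 2 * ∑ x, bc f m x ^ 2 ≤
          2 / (P.L i : ℝ) ^ 2 * nF (P.p i m) (P.q i m) (bc f m) ^ 2 :=
        mul_le_mul_of_nonneg_left h4 (by positivity)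
      linarith
    refine (Finset.sum_le_sum h3).trans ?_
    rw [Finset.sum_add_distrib, ← Finset.mul_sum, ← Finset.mul_sum]
    have h7 : ∑ m ∈ Finset.range (P.L i), nF (P.p i m) (P.q i m) (bc f m) ^ 2 ≤ S1 := by
      rw [hS1, Finset.sum_range_succ]
      have : 0 ≤ nF (P.p i (P.L i)) (P.q i (P.L i)) (bc f (P.L i)) ^ 2 := sq_nonneg _
      linarith
    have h8 : 2 / (P.L i : ℝ) ^ 2 * ∑ m ∈ Finset.range (P.L i),
        nF (P.p i m) (P.q i m) (bc f m) ^ 2 ≤ 2 / (P.L i : ℝ) ^ 2 * S1 :=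
      mul_le_mul_of_nonneg_left h7 (by positivity)
    linarith
  unfold blkSq
  rw [← hS1, ← hS2]
  have h9 : 1 / (P.L i : ℝ) * ∑ m ∈ Finset.range (P.L i + 1), nF (P.p i m) (P.q i m)
      (bc (mulB P i (tt P i) f) m) ^ 2 ≤ 1 / (P.L i : ℝ) * S1 :=
    mul_le_mul_of_nonneg_left h1 (by positivity)
  have h10 : (P.L i : ℝ) * ∑ m ∈ Finset.range (P.L i), ∑ x,
      (bc (mulB P i (tt P i) f) (m + 1) x - bc (mulB P i (tt P i) f) m x) ^ 2 ≤
      (P.L i : ℝ) * (2 * S2 + 2 / (P.L i : ℝ) ^ 2 * S1) :=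
    mul_le_mul_of_nonneg_left h2 hL.le
  have h11 : (P.L i : ℝ) * (2 * S2 + 2 / (P.L i : ℝ) ^ 2 * S1) =
      2 * (P.L i * S2) + 2 * (1 / (P.L i : ℝ) * S1) := by
    field_simp
  have h12 : 0 ≤ (P.L i : ℝ) * S2 := by positivity
  have h13 : 0 ≤ 1 / (P.L i : ℝ) * S1 := by positivity
  linarith

theorem mulB_norm_le (hNF : SpecNF) (i : ℕ) (f : P.Blk i) :
    ‖mulB P i (tt P i) f‖ ≤ 2 * ‖f‖ := by
  rw [norm_blk, norm_blk]
  unfold blkN
  have h1 : √(4 * blkSq f) = 2 * √(blkSq f) := by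
    rw [Real.sqrt_mul (by norm_num), show (4 : ℝ) = 2 ^ 2 by norm_num,
      Real.sqrt_sq (by norm_num)]
  rw [← h1]
  exact Real.sqrt_le_sqrt (blkSq_mulB P hNF i f)

/-- `A0` on `K` -/
noncomputable def AK (hNF : SpecNF) : P.K →L[ℝ] P.K :=
  P.dg (fun i => mulB P i (tt P i)) 2 zero_le_two (mulB_norm_le P hNF)

theorem bc_AK (hNF : SpecNF) (f : P.K) (i m : ℕ) :
    bc ((AK P hNF f : P.K) i) m = tt P i m • bc (f i) m := by
  rw [AK, dg_apply, bc_mulB]

theorem AK_eq (hNF : SpecNF) {f : P.K} (hf : f ∈ P.W0) : AK P hNF f = f := by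
  apply lp.ext
  funext i
  apply blk_ext
  intro m hm x
  rw [bc_AK]
  rcases Nat.lt_or_ge m (P.L i) with h | h
  · rw [hf.1 i m h, smul_zero]
  · have h1 : m = P.L i := le_antisymm hm h
    have h2 : tt P i m = 1 := by
      rw [h1, tt, div_self (L_pos P i).ne']
    rw [h2, one_smul]

theorem AK_W0 (hNF : SpecNF) : ∀ f ∈ P.W0, AK P hNF f ∈ P.W0 := by
  intro f hf
  rw [AK_eq P hNF hf]
  exact hf

/-- the operators `b_n` on `K` -/
noncomputable def bK (hNF : SpecNF) (n : ℕ) : P.K →L[ℝ] P.K :=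
  (P.restr {j | j < n}).comp (ContinuousLinearMap.id ℝ P.K - AK P hNF)

theorem bK_apply (hNF : SpecNF) (n : ℕ) (f : P.K) :
    bK P hNF n f = P.restr {j | j < n} (f - AK P hNF f) := rfl

theorem bK_W0 (hNF : SpecNF) (n : ℕ) : ∀ f ∈ P.W0, bK P hNF n f ∈ P.W0 := by
  intro f hf
  rw [bK_apply, AK_eq P hNF hf, sub_self, map_zero]
  exact P.W0.zero_mem

/-- operators on `Zt` from operators on `K` -/
noncomputable def lz (F : P.K →L[ℝ] P.K) (h : ∀ f ∈ P.W0, F f ∈ P.W0) : P.Zt →L[ℝ] P.Zt :=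
  LinearMap.mkContinuous (P.lift (P.πl.comp (F : P.K →ₗ[ℝ] P.K)) (by
    intro f hf
    rw [LinearMap.mem_ker]
    exact (P.π_eq_zero_iff _).mpr (h f hf))) (2 * ‖F‖) (by
    intro z
    obtain ⟨f, rfl, hf⟩ := P.π_lift_two z
    rw [P.lift_π]
    calc ‖P.π (F f)‖ ≤ ‖F f‖ := P.π_norm_le _
      _ ≤ ‖F‖ * ‖f‖ := F.le_opNorm f
      _ ≤ ‖F‖ * (2 * ‖P.π f‖) := mul_le_mul_of_nonneg_left hf (norm_nonneg F)
      _ = 2 * ‖F‖ * ‖P.π f‖ := by ring)

theorem lz_π (F : P.K →L[ℝ] P.K) (h : ∀ f ∈ P.W0, F f ∈ P.W0) (f : P.K) :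
    lz P F h (P.π f) = P.π (F f) := P.lift_π _ _ f

theorem lz_norm (F : P.K →L[ℝ] P.K) (h : ∀ f ∈ P.W0, F f ∈ P.W0) : ‖lz P F h‖ ≤ 2 * ‖F‖ :=
  LinearMap.mkContinuous_norm_le _ (by positivity) _

/-- the levels below `n` -/
noncomputable def Kn (n : ℕ) : Submodule ℝ P.K where
  carrier := {f | ∀ j, n ≤ j → f j = 0}
  add_mem' := by
    intro f f' h h' j hj
    rw [lp.coeFn_add, Pi.add_apply, h j hj, h' j hj, add_zero]
  zero_mem' := by
    intro j _
    rw [lp.coeFn_zero, Pi.zero_apply]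
  smul_mem' := by
    intro c f h j hj
    rw [lp.coeFn_smul, Pi.smul_apply, h j hj, smul_zero]

theorem mem_Kn {n : ℕ} {f : P.K} : f ∈ Kn P n ↔ ∀ j, n ≤ j → f j = 0 := Iff.rfl

theorem Kn_mono : Monotone (Kn P) := by
  intro n n' h f hf j hj
  exact hf j (h.trans hj)

theorem restr_ge {n j : ℕ} (h : n ≤ j) (f : P.K) : (P.restr {j | j < n} f : P.K) j = 0 :=
  P.restr_not_mem (S := {j | j < n})
    (fun hh => absurd (show j < n from hh) (by omega)) f

theorem restr_Kn (n : ℕ) (f : P.K) : P.restr {j | j < n} f ∈ Kn P n := by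
  intro j hj
  exact restr_ge P hj f

theorem Kn_fin (n : ℕ) : FiniteDimensional ℝ (Kn P n) := by
  let F : Kn P n →ₗ[ℝ] ((j : Fin n) → P.Blk j) :=
    { toFun := fun f j => (f : P.K) j
      map_add' := fun f f' => rfl
      map_smul' := fun c f => rfl }
  refine FiniteDimensional.of_injective F ?_
  intro f f' h
  apply Subtype.ext
  apply lp.ext
  funext j
  rcases Nat.lt_or_ge j n with hj | hj
  · exact congrFun h ⟨j, hj⟩
  · rw [f.2 j hj, f'.2 j hj]

theorem restr_tendsto (f : P.K) : Tendsto (fun n => P.restr {j | j < n} f) atTop (𝓝 f) := by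
  have h1 := (lp.hasSum_single (E := fun i => P.Blk i) (p := 2) (by norm_num) f).tendsto_sum_nat
  refine h1.congr fun n => ?_
  apply lp.ext
  funext j
  rw [lp.coeFn_sum, Finset.sum_apply]
  rcases Nat.lt_or_ge j n with hj | hj
  · rw [P.restr_mem (show j ∈ {j | j < n} from hj), Finset.sum_eq_single j]
    · exact lp.single_apply_self (E := fun i => P.Blk i) 2 j (f j)
    · intro i _ hi
      exact lp.single_apply_ne (E := fun i => P.Blk i) 2 i (f i) hi.symm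
    · intro h
      exact absurd (Finset.mem_range.2 hj) h
  · rw [restr_ge P hj]
    apply Finset.sum_eq_zero
    intro i hi
    have := Finset.mem_range.1 hi
    exact lp.single_apply_ne (E := fun i => P.Blk i) 2 i (f i) (by omega)

/-- the left coordinate functionals are continuous -/
theorem Zp_closed : IsClosed (P.Zp : Set P.Zt) := by
  have hb : ∀ i (x : P.G i) z, ‖P.co i 0 z x‖ ≤ 2 * √(P.L i : ℝ) * ‖z‖ := by
    intro i x z
    obtain ⟨f, rfl, hf⟩ := P.π_lift_two z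
    have hL := P.hL i
    rw [P.co_π i (by omega), Real.norm_eq_abs]
    refine (P.abs_bc_le i 0 x f).trans ?_
    calc √(P.L i : ℝ) * ‖f‖ ≤ √(P.L i : ℝ) * (2 * ‖P.π f‖) :=
          mul_le_mul_of_nonneg_left hf (Real.sqrt_nonneg _)
      _ = 2 * √(P.L i : ℝ) * ‖P.π f‖ := by ring
  let cf : (i : ℕ) → P.G i → P.Zt →L[ℝ] ℝ := fun i x =>
    LinearMap.mkContinuous ((LinearMap.proj x).comp (P.co i 0)) (2 * √(P.L i : ℝ)) (hb i x)
  have h1 : (P.Zp : Set P.Zt) = ⋂ i, ⋂ x, {z : P.Zt | cf i x z = 0} := by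
    ext z
    simp only [SetLike.mem_coe, Set.mem_iInter, Set.mem_ofPred_eq, P.mem_Zp]
    constructor
    · intro h i x
      exact congrFun (h i) x
    · intro h i
      funext x
      exact h i x
  rw [h1]
  exact isClosed_iInter fun i => isClosed_iInter fun x =>
    isClosed_eq (cf i x).continuous continuous_const

theorem wl_Zt (hW : SpecWLP) : WLim P.Zt := by
  have hK : WLim P.K := hW (fun i => P.Blk i) (fun i => inferInstance)
  intro x B hx 𝓕
  choose f hf hfn using fun n => P.π_lift_two (x n)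
  obtain ⟨y, hy⟩ := hK f (2 * B) (fun n => (hfn n).trans (by linarith [hx n])) 𝓕
  refine ⟨P.π y, fun φ => ?_⟩
  refine (hy (φ.comp P.π)).congr fun n => ?_
  show φ (P.π (f n)) = φ (x n)
  rw [hf]

end ZdmM

open ZdmM

theorem specZDM (hNF : SpecNF) (hW : SpecWLP) : SpecZDM := by
  intro P
  have hA0 : ∀ i, tt P i 0 = 0 := by
    intro i
    rw [tt, Nat.cast_zero, zero_div]
  have hLp : ∀ i, 0 < P.L i := by
    intro i
    have := P.hL i
    omega
  refine ⟨{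
    Zn := fun n => (Kn P n).map P.πl
    Z' := P.Zp
    A0 := lz P (AK P hNF) (AK_W0 P hNF)
    b := fun n => lz P (bK P hNF n) (bK_W0 P hNF n)
    mono := fun n n' h => Submodule.map_mono (Kn_mono P h)
    fin := fun n => by
      have := Kn_fin P n
      infer_instance
    dense := ?_
    closed := Zp_closed P
    A0Z' := ?_
    A0Zn := ?_
    bZn := ?_
    bZ' := ?_
    bEq := ?_
    bLim := ?_
    bBd := ?_
    wl := wl_Zt P hW }, rfl⟩
  · intro z ε hε
    obtain ⟨f, rfl⟩ := P.π_surj z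
    obtain ⟨n, hn⟩ := (Metric.tendsto_atTop.1 (restr_tendsto P f)) ε hε
    refine ⟨n, P.π (P.restr {j | j < n} f), ⟨_, restr_Kn P n f, rfl⟩, ?_⟩
    have h1 := hn n le_rfl
    rw [dist_comm, dist_eq_norm] at h1
    rw [← map_sub]
    exact (P.π_norm_le _).trans h1.le
  · intro z
    obtain ⟨f, rfl⟩ := P.π_surj z
    rw [lz_π, P.mem_Zp]
    intro i
    rw [P.co_π i (hLp i), bc_AK, hA0, zero_smul]
  · rintro n _ ⟨f, hf, rfl⟩
    refine ⟨AK P hNF f, ?_, (lz_π P _ _ f).symm⟩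
    intro j hj
    apply blk_ext
    intro m _ x
    rw [bc_AK, hf j hj, bc_zero, smul_zero]
  · intro n z
    obtain ⟨f, rfl⟩ := P.π_surj z
    refine ⟨bK P hNF n f, ?_, (lz_π P _ _ f).symm⟩
    rw [bK_apply]
    exact restr_Kn P n _
  · intro n z hz
    obtain ⟨f, rfl⟩ := P.π_surj z
    rw [lz_π, P.mem_Zp]
    rw [P.mem_Zp] at hz
    intro i
    have h1 := hz i
    rw [P.co_π i (hLp i)] at h1 ⊢
    rw [bK_apply]
    by_cases hi : i < n
    · rw [P.restr_mem (show i ∈ {j | j < n} from hi), lp.coeFn_sub, Pi.sub_apply, bc_sub, bc_AK,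
        h1, smul_zero, sub_zero]
    · rw [restr_ge P (by omega), bc_zero]
  · rintro n _ ⟨f, hf, rfl⟩
    show lz P _ _ (P.π f) = P.π f - lz P _ _ (P.π f)
    rw [lz_π, lz_π, ← map_sub, bK_apply]
    congr 1
    apply lp.ext
    funext j
    by_cases hj : j < n
    · rw [P.restr_mem (show j ∈ {j | j < n} from hj)]
    · rw [restr_ge P (by omega)]
      apply blk_ext
      intro m _ x
      rw [lp.coeFn_sub, Pi.sub_apply, bc_sub, bc_AK, hf j (by omega), bc_zero, smul_zero, sub_zero]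
  · intro z
    obtain ⟨f, rfl⟩ := P.π_surj z
    have h1 := (P.π.continuous.tendsto _).comp (restr_tendsto P (f - AK P hNF f))
    rw [map_sub] at h1
    rw [lz_π]
    refine h1.congr fun n => ?_
    rw [lz_π, bK_apply]
    rfl
  · refine ⟨2 * (‖ContinuousLinearMap.id ℝ P.K - AK P hNF‖), fun n => ?_⟩
    refine (lz_norm P _ _).trans (mul_le_mul_of_nonneg_left ?_ zero_le_two)
    refine ContinuousLinearMap.opNorm_le_bound _
      (norm_nonneg (ContinuousLinearMap.id ℝ P.K - AK P hNF)) fun f => ?_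
    exact (P.restr_norm_le _ _).trans
      ((ContinuousLinearMap.id ℝ P.K - AK P hNF).le_opNorm f)

end Pool.Agent.MP_e87d84
end
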