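import Pool.Agent.Lib.MP_e87d84_an.S1
import Pool.Agent.Lib.MP_e87d84_an.Wlp
import Pool.Agent.Lib.MP_e87d84_an.Beta
import Pool.Agent.Lib.MP_e87d84_an.Zdm
import Pool.Agent.Lib.MP_e87d84_an.Tel

section
/-!
MP_e87d84_an, module SQ: the diagonal blocks of an idempotent are almost idempotent.
-/
set_option autoImplicit false

namespace Pool.Agent.MP_e87d84

open Dat Finset RunM

namespace SqM

section S1

variable {ι : Type*} [Fintype ι]

lemma S1le_mono {N : Matrix ι ι ℝ} {a b : ℝ} (h : S1le N a) (hab : a ≤ b) : S1le N b :=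
  fun O hO => (h O hO).trans hab

lemma S1le_add {N N' : Matrix ι ι ℝ} {a b : ℝ} (h : S1le N a) (h' : S1le N' b) :
    S1le (N + N') (a + b) := by
  intro O hO
  rw [Matrix.mul_add, Matrix.trace_add]
  exact (abs_add_le _ _).trans (add_le_add (h O hO) (h' O hO))

lemma S1le_neg {N : Matrix ι ι ℝ} {a : ℝ} (h : S1le N a) : S1le (-N) a := by
  intro O hO
  rw [Matrix.mul_neg, Matrix.trace_neg, abs_neg]
  exact h O hO

lemma S1le_sum {κ : Type*} (s : Finset κ) (N : κ → Matrix ι ι ℝ) (a : κ → ℝ)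
    (h : ∀ k ∈ s, S1le (N k) (a k)) : S1le (∑ k ∈ s, N k) (∑ k ∈ s, a k) := by
  intro O hO
  rw [Matrix.mul_sum, Matrix.trace_sum]
  exact (Finset.abs_sum_le_sum_abs _ _).trans (Finset.sum_le_sum fun k hk => h k hk O hO)

end S1

lemma sum_dl {ι : Type*} [Fintype ι] [DecidableEq ι] (x : ι → ℝ) :
    x = ∑ b, x b • dl b := by
  funext a
  simp [dl, Pi.single_apply]

lemma hs_le_of_col {κ ι : Type*} [Fintype κ] [Fintype ι] (N : Matrix κ ι ℝ) {c : ℝ}
    (h : ∀ a, ∑ l, N l a ^ 2 ≤ c) : hs N ≤ Fintype.card ι * c := by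
  unfold hs
  rw [Finset.sum_comm]
  refine (Finset.sum_le_sum fun a _ => h a).trans ?_
  rw [Finset.sum_const, Finset.card_univ, nsmul_eq_mul]

/-- the lower levels are spanned by the unit vectors -/
lemma restr_lt (P : Dat) (i : ℕ) (f : P.K) :
    P.restr {j | j < i} f = ∑ j ∈ range i, ∑ k ∈ range (P.L j + 1), P.iot j k (bc (f j) k) := by
  apply lp.ext
  funext j
  rw [lp.coeFn_sum, Finset.sum_apply]
  have hj : ∀ j' ≠ j, ((∑ k ∈ range (P.L j' + 1), P.iot j' k (bc (f j') k) : P.K)) j = 0 := by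
    intro j' hne
    rw [lp.coeFn_sum, Finset.sum_apply]
    exact Finset.sum_eq_zero fun k _ => P.iot_apply_ne j' k _ (Ne.symm hne)
  by_cases h : j < i
  · rw [restr_mem _ (show j ∈ {j | j < i} from h), Finset.sum_eq_single j]
    · have h1 := congrArg (fun F : P.K => F j) (P.decomp j f)
      have h2 : f j = ((∑ k ∈ range (P.L j + 1), P.iot j k (bc (f j) k) : P.K)) j := by
        conv_lhs => rw [P.decomp j f]
        rw [lp.coeFn_add, lp.coeFn_add, Pi.add_apply, Pi.add_apply,
          restr_not_mem _ (show j ∉ {i | i < j} from fun hh => absurd (show j < j from hh) (by omega)),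
          restr_not_mem _ (show j ∉ {i | j < i} from fun hh => absurd (show j < j from hh) (by omega)),
          add_zero, add_zero]
      exact h2
    · intro j' _ hne
      exact hj j' hne
    · intro hh
      exact absurd (Finset.mem_range.2 h) hh
  · rw [restr_not_mem _ (show j ∉ {j | j < i} from h), Finset.sum_eq_zero]
    intro j' hj'
    apply hj
    intro hh
    subst hh
    exact h (Finset.mem_range.1 hj')

end SqM

open SqM

theorem specSQ (hHSE : SpecHSE) (hKB : SpecKB) (hNF : SpecNF) (hTY : SpecTY) : SpecSQ := by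
  intro P e E he heE hE i m hm
  have hE0 : 0 < E := by linarith
  have hL2 : 2 ≤ P.L i := P.hL i
  have hL : (0 : ℝ) < P.L i := by positivity
  have hL2' : (2 : ℝ) ≤ P.L i := by exact_mod_cast hL2
  have hD := D_pos P i
  have hh := P.hh0 i
  obtain ⟨hKB1, hKB2, -, -, -, hKB6, hKB7⟩ := hKB P i
  set S : ℝ := √(2 * (P.L i : ℝ) + 1) with hS
  have hS0 : 0 < S := Real.sqrt_pos.2 (by positivity)
  have hS3 : 3 * S ≤ 4 * P.L i := by
    have h1 : (3 * S) ^ 2 ≤ (4 * P.L i) ^ 2 := by
      rw [mul_pow, hS, Real.sq_sqrt (by positivity)]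
      nlinarith
    exact le_of_sq_le_sq h1 (by positivity)
  -- the vectors
  have hz : ∀ a : P.G i, ‖e (P.π (P.iot i m (dl a)))‖ ≤ E * S := by
    intro a
    have h1 : ‖P.iot i m (dl a)‖ ≤ S := by
      have h2 := hKB1 m (by omega) (dl a)
      rw [hNF.2.2 _ _ _ _ a (by have := one_le_p (P := P) i m; linarith)
        (by have := one_le_q (P := P) i m; linarith), mul_one] at h2
      exact h2
    calc ‖e (P.π (P.iot i m (dl a)))‖ ≤ ‖e‖ * ‖P.π (P.iot i m (dl a))‖ := e.le_opNorm _
      _ ≤ E * S := by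
        gcongr
        exact (P.π_norm_le _).trans h1
  have hf : ∀ a : P.G i, ∃ f : P.K, P.π f = e (P.π (P.iot i m (dl a))) ∧ ‖f‖ ≤ 3 / 2 * (E * S) := by
    intro a
    obtain ⟨f, h1, h2⟩ := P.π_lift (e (P.π (P.iot i m (dl a)))) (ε := E * S / 2) (by positivity)
    exact ⟨f, h1, by linarith [hz a]⟩
  choose f hf1 hf2 using hf
  -- the matrices
  let X : Matrix (P.G i) (P.G i) ℝ := fun b a => bc (f a i) (P.L i) b
  let Nl : Matrix (P.G i) (P.G i) ℝ := fun l a => P.co i m (e (P.π (P.restr {j | j < i} (f a)))) l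
  let Nh : Matrix (P.G i) (P.G i) ℝ := fun l a => P.co i m (e (P.π (P.restr {j | i < j} (f a)))) l
  -- action of e on a position
  have hact : ∀ (k : ℕ) (x : P.G i → ℝ) (l : P.G i), P.co i m (e (P.π (P.iot i k x))) l =
      ∑ b, P.em e i m k l b * x b := by
    intro k x l
    conv_lhs => rw [sum_dl x]
    simp only [map_sum, map_smul, Finset.sum_apply, Pi.smul_apply, smul_eq_mul]
    exact Finset.sum_congr rfl fun b _ => by rw [mul_comm]; rfl
  have hQ : P.em e i m m = ∑ k ∈ range (P.L i), P.em e i m k * P.em e i k m +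
      P.em e i m (P.L i) * X + Nl + Nh := by
    ext l a
    have e1 : P.em e i m m l a = P.co i m (e (P.π (f a))) l := by
      show P.co i m (e (P.π (P.iot i m (dl a)))) l = _
      rw [hf1, he]
    rw [e1]
    conv_lhs => rw [P.decomp i (f a)]
    rw [Finset.sum_range_succ]
    simp only [map_add, map_sum, Pi.add_apply, Finset.sum_apply, Matrix.add_apply, Matrix.sum_apply,
      Matrix.mul_apply, hact]
    congr 1
    congr 1
    congr 1
    refine Finset.sum_congr rfl fun k hk => Finset.sum_congr rfl fun b _ => ?_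
    congr 1
    rw [← P.co_π i (Finset.mem_range.1 hk), hf1]
    rfl
  have hQ2 : P.em e i m m * P.em e i m m - P.em e i m m =
      -(∑ k ∈ (range (P.L i)).erase m, P.em e i m k * P.em e i k m +
      P.em e i m (P.L i) * X + Nl + Nh) := by
    rw [← Finset.add_sum_erase _ _ (Finset.mem_range.2 hm)] at hQ
    have h := congrArg (fun T => P.em e i m m * P.em e i m m - T) hQ
    rw [h]
    abel
  -- bounds
  have b1 : S1le (∑ k ∈ (range (P.L i)).erase m, P.em e i m k * P.em e i k m)
      (P.L i * (P.D i * (4 * P.L i * E) ^ 2 * P.h i)) := by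
    refine S1le_mono (S1le_sum _ _ (fun _ => P.D i * (4 * P.L i * E) ^ 2 * P.h i) ?_) ?_
    · intro k hk
      have hk1 := Finset.mem_erase.1 hk
      have hk2 := Finset.mem_range.1 hk1.2
      refine S1le_mono (specS1P _ _ _) ?_
      have h1 := hHSE P e E heE i m k hm hk2.le hk1.1
      have h2 := hHSE P e E heE i k m hk2 hm.le (Ne.symm hk1.1)
      calc √(hs (P.em e i m k)) * √(hs (P.em e i k m))
          ≤ √(P.D i * (4 * P.L i * E) ^ 2 * P.h i) * √(P.D i * (4 * P.L i * E) ^ 2 * P.h i) := by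
            gcongr
        _ = _ := Real.mul_self_sqrt (by positivity)
    · rw [Finset.sum_const, nsmul_eq_mul]
      gcongr
      exact_mod_cast (Finset.card_erase_le).trans (Finset.card_range _).le
  have b2 : S1le (P.em e i m (P.L i) * X) (P.D i * (4 * P.L i * E) ^ 2 * √(P.h i)) := by
    refine S1le_mono (specS1P _ _ _) ?_
    have h1 := hHSE P e E heE i m (P.L i) hm le_rfl (by omega)
    have h2 : hs X ≤ P.D i * (3 * E * S) ^ 2 := by
      rw [← card_G]
      apply hs_le_of_col
      intro a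
      refine (hKB2 (P.L i) le_rfl (f a)).trans ?_
      have := hf2 a
      have h0 := norm_nonneg (f a)
      apply pow_le_pow_left₀ (by positivity)
      linarith
    calc √(hs (P.em e i m (P.L i))) * √(hs X)
        ≤ √(P.D i * (4 * P.L i * E) ^ 2 * P.h i) * √(P.D i * (3 * E * S) ^ 2) := by gcongr
      _ = P.D i * (4 * P.L i * E) * (3 * E * S) * √(P.h i) := by
        rw [Real.sqrt_mul (by positivity), Real.sqrt_mul hD.le, Real.sqrt_mul hD.le,
          Real.sqrt_sq (by positivity), Real.sqrt_sq (by positivity)]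
        have := Real.mul_self_sqrt hD.le
        calc √(P.D i) * (4 * P.L i * E) * √(P.h i) * (√(P.D i) * (3 * E * S))
            = (√(P.D i) * √(P.D i)) * (4 * P.L i * E) * (3 * E * S) * √(P.h i) := by ring
          _ = _ := by rw [this]
      _ ≤ P.D i * (4 * P.L i * E) * (4 * P.L i * E) * √(P.h i) := by
        have h3 : 3 * E * S ≤ 4 * P.L i * E := by nlinarith
        gcongr
      _ = _ := by ring
  have hcol : ∀ (T : Set ℕ) (a : P.G i), ∑ l, P.co i m (e (P.π (P.restr T (f a)))) l ^ 2 ≤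
      (3 * E ^ 2 * S) ^ 2 := by
    intro T a
    refine (hKB7 m hm _).trans ?_
    have h1 : ‖e (P.π (P.restr T (f a)))‖ ≤ E * (3 / 2 * (E * S)) := by
      calc ‖e (P.π (P.restr T (f a)))‖ ≤ ‖e‖ * ‖P.π (P.restr T (f a))‖ := e.le_opNorm _
        _ ≤ E * (3 / 2 * (E * S)) := by
          gcongr
          exact (P.π_norm_le _).trans ((P.restr_norm_le T _).trans (hf2 a))
    apply pow_le_pow_left₀ (by positivity)
    nlinarith
  have hRl0 : 0 ≤ P.Rl i := by
    unfold Dat.Rl
    refine Finset.sum_nonneg fun j _ => ?_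
    have := D_pos P j
    positivity
  have b3 : S1le Nl (8 * P.L i * E ^ 2 * √(P.Rl i / P.D i) * P.D i) := by
    have hrank : (Nl.rank : ℝ) ≤ P.Rl i := by
      let κ := Σ j : Fin i, Fin (P.L j + 1) × P.G j
      let A : Matrix (P.G i) κ ℝ := fun l t => P.co i m (e (P.π (P.iot t.1 t.2.1 (dl t.2.2)))) l
      let B : Matrix κ (P.G i) ℝ := fun t a => bc (f a t.1) t.2.1 t.2.2
      have hAB : Nl = A * B := by
        ext l a
        show P.co i m (e (P.π (P.restr {j | j < i} (f a)))) l = _
        rw [restr_lt, Matrix.mul_apply, Fintype.sum_sigma, Finset.sum_range]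
        simp only [map_sum, Finset.sum_apply]
        refine Finset.sum_congr rfl fun j _ => ?_
        rw [Finset.sum_range, Fintype.sum_prod_type]
        refine Finset.sum_congr rfl fun k _ => ?_
        conv_lhs => rw [sum_dl (bc (f a j) k)]
        simp only [map_sum, map_smul, Finset.sum_apply, Pi.smul_apply, smul_eq_mul]
        exact Finset.sum_congr rfl fun b _ => by rw [mul_comm]
      have hcard : ((Fintype.card κ : ℕ) : ℝ) = P.Rl i := by
        rw [Fintype.card_sigma]
        unfold Dat.Rl Dat.D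
        rw [Finset.sum_range]
        push_cast
        refine Finset.sum_congr rfl fun j _ => ?_
        simp
      rw [← hcard, hAB]
      exact_mod_cast (Matrix.rank_mul_le_left A B).trans (Matrix.rank_le_card_width A)
    refine S1le_mono (specS1R _ Nl (P.Rl i) hrank) ?_
    have h2 : hs Nl ≤ P.D i * (3 * E ^ 2 * S) ^ 2 := by
      rw [← card_G]
      exact hs_le_of_col _ fun a => hcol _ a
    calc √(P.Rl i) * √(hs Nl) ≤ √(P.Rl i) * √(P.D i * (3 * E ^ 2 * S) ^ 2) := by gcongr
      _ = √(P.Rl i) * √(P.D i) * (3 * E ^ 2 * S) := by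
        rw [Real.sqrt_mul hD.le, Real.sqrt_sq (by positivity)]
        ring
      _ ≤ √(P.Rl i) * √(P.D i) * (8 * P.L i * E ^ 2) := by
        have h3 : 3 * E ^ 2 * S ≤ 8 * P.L i * E ^ 2 := by
          have : 0 ≤ E ^ 2 := by positivity
          nlinarith
        gcongr
      _ = 8 * P.L i * E ^ 2 * √(P.Rl i / P.D i) * P.D i := by
        rw [Real.sqrt_div hRl0]
        have h4 := Real.mul_self_sqrt hD.le
        have h5 : √(P.D i) ≠ 0 := (Real.sqrt_pos.2 hD).ne'
        field_simp
        rw [sq, h4]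
  have b4 : S1le Nh (8 * P.L i * E ^ 2 * (C0 * P.D i ^ (-(P.g i / 2))) * P.D i) := by
    have hg := P.hg i
    set s : ℝ := P.p i (P.L i) with hs
    set r : ℝ := s + P.g i with hr
    have hs1 : 11 / 10 ≤ s := (P.hq i (P.L i)).trans (P.hqp i _ _)
    have hs2 : s ≤ 6 / 5 := P.hp i _
    have hr2 : r ≤ 6 / 5 := (P.hlev i (i + 1) 0 (by omega)).trans ((P.hqp _ _ 0).trans (P.hp _ _))
    have hD1 : 1 ≤ P.D i := by
      have h1 := P.hd i
      have h2 := P.hd' i
      unfold Dat.D
      have h3 : (1 : ℝ) ≤ P.d i := by exact_mod_cast h1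
      have h4 : (1 : ℝ) ≤ P.d' i := by exact_mod_cast h2
      nlinarith
    have hT := specS1T (P.G i) P.K ((P.co i m).comp ((e : P.Zt →ₗ[ℝ] P.Zt).comp
        (P.π : P.K →ₗ[ℝ] P.Zt))) s r (√(P.L i : ℝ) * E) (3 / 2 * (E * S))
      (fun a => P.restr {j | i < j} (f a)) hs1 hs2 (by linarith) (by positivity) (by positivity)
      (by
        intro z
        show lpn s (P.co i m (e (P.π z))) ≤ _
        refine (hNF.1 _ _ (P.p i m) (P.q i m) s _ (one_le_q i m) (P.hqp i m m) (P.hpL i m)).trans ?_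
        refine (hKB6 m hm _).trans ?_
        rw [mul_assoc]
        gcongr
        refine (e.le_opNorm _).trans ?_
        gcongr
        exact P.π_norm_le z)
      (fun a => (P.restr_norm_le _ _).trans (hf2 a))
      (hTY P i (P.G i) (fun a => P.restr {j | i < j} (f a)) r (by linarith)
        (fun j m' hj => P.hlev i j m' hj)
        (fun a j hj => restr_not_mem _ (show j ∉ {j | i < j} from fun hh =>
          absurd (show i < j from hh) (by omega)) _))
    refine S1le_mono hT ?_
    rw [card_G]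
    have h1 : P.D i ^ (1 - (1 / s - 1 / r)) ≤ P.D i * P.D i ^ (-(P.g i / 2)) := by
      have h2 : P.D i * P.D i ^ (-(P.g i / 2)) = P.D i ^ (1 + -(P.g i / 2)) := by
        rw [Real.rpow_add hD, Real.rpow_one]
      rw [h2]
      apply Real.rpow_le_rpow_of_exponent_le hD1
      have h3 : 1 / s - 1 / r = P.g i / (s * r) := by
        rw [div_sub_div _ _ (by positivity) (by positivity)]
        congr 1
        rw [hr]
        ring
      have h4 : P.g i / 2 ≤ P.g i / (s * r) := by
        gcongr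
        nlinarith
      linarith
    have hsq : √(P.L i : ℝ) * S ≤ 2 * P.L i := by
      rw [hS, ← Real.sqrt_mul hL.le, Real.sqrt_le_iff]
      constructor
      · positivity
      · nlinarith
    have hC0 : (0 : ℝ) < C0 := by unfold C0; norm_num
    calc C0 * (√(P.L i : ℝ) * E) * (3 / 2 * (E * S)) * P.D i ^ (1 - (1 / s - 1 / r))
        = C0 * (3 / 2 * E ^ 2) * (√(P.L i : ℝ) * S) * P.D i ^ (1 - (1 / s - 1 / r)) := by ring
      _ ≤ C0 * (3 / 2 * E ^ 2) * (2 * P.L i) * (P.D i * P.D i ^ (-(P.g i / 2))) := by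
        have h5 : 0 ≤ P.D i ^ (1 - (1 / s - 1 / r)) := Real.rpow_nonneg hD.le _
        gcongr
      _ ≤ 8 * P.L i * E ^ 2 * (C0 * P.D i ^ (-(P.g i / 2))) * P.D i := by
        have h6 : 0 ≤ P.D i ^ (-(P.g i / 2)) := Real.rpow_nonneg hD.le _
        have h7 : 0 ≤ C0 * E ^ 2 * P.L i * P.D i * P.D i ^ (-(P.g i / 2)) := by positivity
        nlinarith
  rw [hQ2]
  refine S1le_mono (S1le_neg (S1le_add (S1le_add (S1le_add b1 b2) b3) b4)) (le_of_eq ?_)
  unfold Dat.nu
  ring

end Pool.Agent.MP_e87d84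
end

section
/-!
MP_e87d84_an : everything together.
-/
set_option autoImplicit false

open Filter Topology

namespace Pool.Agent.MP_e87d84

theorem allI : SpecI := by
  have hVTR := specVTR specVTAIL
  exact specI specVCOMP (specQRX specVTAIL) specVKAP (specVT specVTAIL hVTR) specPB specWLP
    (specLIM2 (specLIM1 hVTR specVLIFT (specVSHR hVTR)) hVTR specVLIFT specVCPT)

theorem allII : SpecII := by
  have hNF := specNF
  have hKB := specKB hNF
  have hCS := specCS hNF
  have hKG := specKAPG hKB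
  have hHSE := specHSE hKB (specHSA specHS0 hNF) (specHSB specHS0)
  have hXQ := specXQ hHSE
  have hDX := specDX hKB hCS
  have hSQ := specSQ hHSE hKB hNF specTY
  exact specII hKB hCS hKG (specBETA hKG (specTEL hNF hKB hKG) (specFIN0 hNF hKB hKG)) (specFO hKG)
    (specRUN hSQ hXQ hDX) (specX0 hKB hXQ) (specXL hKB hCS hKG hXQ)

/-- the negation of the frozen statement -/
theorem allFinal :
    ¬ (∀ (𝕜 : Type) [RCLike 𝕜] (E : Type) [NormedAddCommGroup E] [NormedSpace 𝕜 E] [CompleteSpace E],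
      (∃ (u : ℕ → E →L[𝕜] E) (lam : ℝ),
          (∀ n, (u n).comp (u n) = u n) ∧
          (∀ n, FiniteDimensional 𝕜 (LinearMap.range ((u n : E →L[𝕜] E) : E →ₗ[𝕜] E))) ∧
          (∀ n, ‖u n‖ ≤ lam) ∧
          (∀ x : E, Tendsto (fun n => u n x) atTop (𝓝 x)) ∧
          Monotone (fun n => LinearMap.range ((u n : E →L[𝕜] E) : E →ₗ[𝕜] E))) →
      ∃ (v : ℕ → E →L[𝕜] E) (C : ℝ),
          (∀ k n, (v k).comp (v n) = v (min k n)) ∧
          (∀ n, FiniteDimensional 𝕜 (LinearMap.range ((v n : E →L[𝕜] E) : E →ₗ[𝕜] E))) ∧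
          (∀ n, ‖v n‖ ≤ C) ∧
          (∀ x : E, Tendsto (fun n => v n x) atTop (𝓝 x)) ∧
          Monotone (fun n => LinearMap.range ((v n : E →L[𝕜] E) : E →ₗ[𝕜] E))) :=
  final allI allII (specZDM specNF specWLP) (specPARAM (specDAV specRAND))

end Pool.Agent.MP_e87d84
end
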