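import Mathlib

/-!
MP_e87d84_an : basic finite tools (signs, averages over signs, the norms `lpn`, `nF`,
Hilbert-Schmidt norm, trace norm by duality) and the property `WLim`.
-/

set_option autoImplicit false

open Filter Topology

namespace Pool.Agent.MP_e87d84

/-- the sign of a Boolean -/
def sg (b : Bool) : ℝ := if b then 1 else -1

/-- the average over all choices of signs -/
noncomputable def Av {ι : Type*} [Fintype ι] [DecidableEq ι] (F : (ι → Bool) → ℝ) : ℝ :=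
  (∑ ε : ι → Bool, F ε) / (2 : ℝ) ^ Fintype.card ι

/-- the `l_p` norm of a finite vector -/
noncomputable def lpn (p : ℝ) {ι : Type*} [Fintype ι] (x : ι → ℝ) : ℝ :=
  (∑ i, |x i| ^ p) ^ (1 / p)

/-- the norm of `l_p(l_q)` -/
noncomputable def nF (p q : ℝ) {α β : Type*} [Fintype α] [Fintype β] (x : α × β → ℝ) : ℝ :=
  lpn p (fun a => lpn q (fun b => x (a, b)))

/-- square of the Hilbert-Schmidt norm -/
noncomputable def hs {κ ι : Type*} [Fintype κ] [Fintype ι] (N : Matrix κ ι ℝ) : ℝ :=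
  ∑ l, ∑ a, N l a ^ 2

/-- `O` is a contraction of `l_2` -/
def Contr {ι : Type*} [Fintype ι] (O : Matrix ι ι ℝ) : Prop :=
  ∀ x : ι → ℝ, ∑ l, (O.mulVec x l) ^ 2 ≤ ∑ a, x a ^ 2

/-- the trace norm of `N` is at most `ν` (in dual form) -/
def S1le {ι : Type*} [Fintype ι] (N : Matrix ι ι ℝ) (ν : ℝ) : Prop :=
  ∀ O : Matrix ι ι ℝ, Contr O → |(O * N).trace| ≤ ν

/-- bounded sequences have weak limits along ultrafilters (true in reflexive spaces) -/
def WLim (X : Type*) [NormedAddCommGroup X] [NormedSpace ℝ X] : Prop :=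
  ∀ (x : ℕ → X) (B : ℝ), (∀ n, ‖x n‖ ≤ B) → ∀ 𝓕 : Ultrafilter ℕ,
    ∃ y : X, ∀ φ : X →L[ℝ] ℝ, Tendsto (fun n => φ (x n)) 𝓕 (𝓝 (φ y))

/-! ### elementary facts about `lpn` and `nF` -/

section lpn

variable {ι α β : Type*} [Fintype ι] [Fintype α] [Fintype β]

theorem sum_abs_rpow_nonneg (p : ℝ) (x : ι → ℝ) : 0 ≤ ∑ i, |x i| ^ p :=
  Finset.sum_nonneg fun _ _ => Real.rpow_nonneg (abs_nonneg _) _

theorem lpn_nonneg (p : ℝ) (x : ι → ℝ) : 0 ≤ lpn p x :=
  Real.rpow_nonneg (sum_abs_rpow_nonneg p x) _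

theorem lpn_add_le {p : ℝ} (hp : 1 ≤ p) (x y : ι → ℝ) : lpn p (x + y) ≤ lpn p x + lpn p y := by
  have := Real.Lp_add_le (s := Finset.univ) x y hp
  simpa [lpn] using this

theorem lpn_mono {p : ℝ} (hp : 0 < p) {x y : ι → ℝ} (h : ∀ i, |x i| ≤ |y i|) :
    lpn p x ≤ lpn p y := by
  unfold lpn
  apply Real.rpow_le_rpow (sum_abs_rpow_nonneg p x) _ (by positivity)
  exact Finset.sum_le_sum fun i _ => Real.rpow_le_rpow (abs_nonneg _) (h i) hp.le

theorem lpn_smul {p : ℝ} (hp : 0 < p) (c : ℝ) (x : ι → ℝ) : lpn p (c • x) = |c| * lpn p x := by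
  unfold lpn
  have h1 : ∀ i, |(c • x) i| ^ p = |c| ^ p * |x i| ^ p := by
    intro i
    rw [Pi.smul_apply, smul_eq_mul, abs_mul, Real.mul_rpow (abs_nonneg _) (abs_nonneg _)]
  rw [Finset.sum_congr rfl fun i _ => h1 i, ← Finset.mul_sum,
    Real.mul_rpow (Real.rpow_nonneg (abs_nonneg _) _) (sum_abs_rpow_nonneg p x),
    ← Real.rpow_mul (abs_nonneg _), mul_one_div_cancel hp.ne', Real.rpow_one]

theorem lpn_zero {p : ℝ} (hp : 0 < p) : lpn p (0 : ι → ℝ) = 0 := by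
  have := lpn_smul hp 0 (0 : ι → ℝ)
  simpa using this

theorem abs_le_lpn {p : ℝ} (hp : 0 < p) (x : ι → ℝ) (i : ι) : |x i| ≤ lpn p x := by
  unfold lpn
  have h1 : |x i| ^ p ≤ ∑ i, |x i| ^ p :=
    Finset.single_le_sum (f := fun i => |x i| ^ p)
      (fun j _ => Real.rpow_nonneg (abs_nonneg _) _) (Finset.mem_univ i)
  calc |x i| = (|x i| ^ p) ^ (1 / p) := by
        rw [← Real.rpow_mul (abs_nonneg _), mul_one_div_cancel hp.ne', Real.rpow_one]
    _ ≤ _ := Real.rpow_le_rpow (Real.rpow_nonneg (abs_nonneg _) _) h1 (by positivity)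

theorem lpn_neg (p : ℝ) (x : ι → ℝ) : lpn p (-x) = lpn p x := by
  simp [lpn]

theorem nF_nonneg (p q : ℝ) (x : α × β → ℝ) : 0 ≤ nF p q x := lpn_nonneg _ _

theorem nF_add_le {p q : ℝ} (hp : 1 ≤ p) (hq : 1 ≤ q) (x y : α × β → ℝ) :
    nF p q (x + y) ≤ nF p q x + nF p q y := by
  unfold nF
  refine le_trans (lpn_mono (by linarith) (y := (fun a => lpn q (fun b => x (a, b))) +
    fun a => lpn q (fun b => y (a, b))) fun a => ?_) (lpn_add_le hp _ _)
  rw [abs_of_nonneg (lpn_nonneg _ _), Pi.add_apply,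
    abs_of_nonneg (add_nonneg (lpn_nonneg _ _) (lpn_nonneg _ _))]
  exact lpn_add_le hq (fun b => x (a, b)) (fun b => y (a, b))

theorem nF_smul {p q : ℝ} (hp : 0 < p) (hq : 0 < q) (c : ℝ) (x : α × β → ℝ) :
    nF p q (c • x) = |c| * nF p q x := by
  unfold nF
  have h1 : (fun a => lpn q (fun b => (c • x) (a, b))) =
      |c| • (fun a => lpn q (fun b => x (a, b))) := by
    funext a
    exact lpn_smul hq c (fun b => x (a, b))
  rw [h1, lpn_smul hp, abs_abs]

theorem nF_zero {p q : ℝ} (hp : 0 < p) (hq : 0 < q) : nF p q (0 : α × β → ℝ) = 0 := by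
  have := nF_smul hp hq 0 (0 : α × β → ℝ)
  simpa using this

theorem nF_neg (p q : ℝ) (x : α × β → ℝ) : nF p q (-x) = nF p q x := by
  unfold nF
  congr 1
  funext a
  exact lpn_neg q (fun b => x (a, b))

theorem abs_le_nF {p q : ℝ} (hp : 0 < p) (hq : 0 < q) (x : α × β → ℝ) (g : α × β) :
    |x g| ≤ nF p q x := by
  obtain ⟨a, b⟩ := g
  refine le_trans (abs_le_lpn hq (fun b => x (a, b)) b) ?_
  refine le_trans (le_abs_self _) (abs_le_lpn hp (fun a => lpn q (fun b => x (a, b))) a)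

end lpn

end Pool.Agent.MP_e87d84
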