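import Pool.Agent.Lib.MP_e87d84_an.Base

/-!
MP_e87d84_an, Part I: the data `ZD`, the variation space `Vs`.
-/

set_option autoImplicit false

open Filter Topology

namespace Pool.Agent.MP_e87d84

/-- The data from which the counterexample is built. -/
structure ZD (Z : Type) [NormedAddCommGroup Z] [NormedSpace ℝ Z] where
  /-- increasing finite dimensional subspaces with dense union -/
  Zn : ℕ → Submodule ℝ Z
  /-- a closed subspace -/
  Z' : Submodule ℝ Z
  A0 : Z →L[ℝ] Z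
  b : ℕ → Z →L[ℝ] Z
  mono : Monotone Zn
  fin : ∀ n, FiniteDimensional ℝ (Zn n)
  dense : ∀ z : Z, ∀ ε > 0, ∃ n, ∃ w ∈ Zn n, ‖z - w‖ ≤ ε
  closed : IsClosed (Z' : Set Z)
  A0Z' : ∀ z, A0 z ∈ Z'
  A0Zn : ∀ n, ∀ z ∈ Zn n, A0 z ∈ Zn n
  bZn : ∀ n z, b n z ∈ Zn n
  bZ' : ∀ n, ∀ z ∈ Z', b n z ∈ Z'
  bEq : ∀ n, ∀ z ∈ Zn n, b n z = z - A0 z
  bLim : ∀ z, Tendsto (fun n => b n z) atTop (𝓝 (z - A0 z))
  bBd : ∃ C, ∀ n, ‖b n‖ ≤ C
  wl : WLim Z

section Var

variable {Z : Type} [NormedAddCommGroup Z]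

/-- the sum of the `r`-th powers (`r = 3/2`) of the jumps of `z` along `s 0, ..., s N`
(the first jump is from `0` to `z (s 0)`) -/
noncomputable def chain (z : ℕ → Z) (s : ℕ → ℕ) (N : ℕ) : ℝ :=
  ‖z (s 0)‖ ^ (3 / 2 : ℝ) + ∑ i ∈ Finset.range N, ‖z (s (i + 1)) - z (s i)‖ ^ (3 / 2 : ℝ)

theorem chain_nonneg (z : ℕ → Z) (s : ℕ → ℕ) (N : ℕ) : 0 ≤ chain z s N :=
  add_nonneg (Real.rpow_nonneg (norm_nonneg _) _)
    (Finset.sum_nonneg fun _ _ => Real.rpow_nonneg (norm_nonneg _) _)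

/-- the jumps, as a vector (index `0`: first jump) -/
def jmp (z : ℕ → Z) (s : ℕ → ℕ) (i : ℕ) : Z := if i = 0 then z (s 0) else z (s i) - z (s (i - 1))

theorem chain_eq (z : ℕ → Z) (s : ℕ → ℕ) (N : ℕ) :
    chain z s N = ∑ i ∈ Finset.range (N + 1), ‖jmp z s i‖ ^ (3 / 2 : ℝ) := by
  rw [Finset.sum_range_succ', chain, add_comm]
  simp [jmp]

/-- `(chain)^(2/3)` -/
noncomputable def chn (z : ℕ → Z) (s : ℕ → ℕ) (N : ℕ) : ℝ := chain z s N ^ (1 / (3 / 2) : ℝ)

theorem chn_nonneg (z : ℕ → Z) (s : ℕ → ℕ) (N : ℕ) : 0 ≤ chn z s N :=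
  Real.rpow_nonneg (chain_nonneg _ _ _) _

theorem jmp_add (z w : ℕ → Z) (s : ℕ → ℕ) (i : ℕ) : jmp (z + w) s i = jmp z s i + jmp w s i := by
  unfold jmp
  split_ifs
  · rfl
  · simp only [Pi.add_apply]; abel

theorem chn_add_le (z w : ℕ → Z) (s : ℕ → ℕ) (N : ℕ) :
    chn (z + w) s N ≤ chn z s N + chn w s N := by
  have h := Real.Lp_add_le (s := Finset.range (N + 1)) (fun i => ‖jmp z s i‖)
    (fun i => ‖jmp w s i‖) (p := 3 / 2) (by norm_num)
  simp only [abs_norm] at h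
  unfold chn
  simp only [chain_eq]
  refine le_trans (Real.rpow_le_rpow (Finset.sum_nonneg fun _ _ => Real.rpow_nonneg
    (norm_nonneg _) _) (Finset.sum_le_sum fun i _ => ?_) (by norm_num)) h
  rw [abs_of_nonneg (by positivity)]
  apply Real.rpow_le_rpow (norm_nonneg _) _ (by norm_num)
  rw [jmp_add]
  exact norm_add_le _ _

theorem chain_neg (z : ℕ → Z) (s : ℕ → ℕ) (N : ℕ) : chain (-z) s N = chain z s N := by
  unfold chain
  simp only [Pi.neg_apply, norm_neg]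
  congr 1
  refine Finset.sum_congr rfl fun i _ => ?_
  rw [← norm_neg]
  congr 2
  abel

theorem chain_zero (s : ℕ → ℕ) (N : ℕ) : chain (0 : ℕ → Z) s N = 0 := by
  simp [chain]

theorem chain_smul [NormedSpace ℝ Z] (c : ℝ) (z : ℕ → Z) (s : ℕ → ℕ) (N : ℕ) :
    chain (c • z) s N = |c| ^ (3 / 2 : ℝ) * chain z s N := by
  unfold chain
  simp only [Pi.smul_apply, ← smul_sub, norm_smul, Real.norm_eq_abs]
  rw [mul_add, Finset.mul_sum, Real.mul_rpow (abs_nonneg _) (norm_nonneg _)]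
  congr 1
  refine Finset.sum_congr rfl fun i _ => ?_
  rw [Real.mul_rpow (abs_nonneg _) (norm_nonneg _)]

theorem chn_smul [NormedSpace ℝ Z] (c : ℝ) (z : ℕ → Z) (s : ℕ → ℕ) (N : ℕ) :
    chn (c • z) s N = |c| * chn z s N := by
  unfold chn
  rw [chain_smul, Real.mul_rpow (Real.rpow_nonneg (abs_nonneg _) _) (chain_nonneg _ _ _),
    ← Real.rpow_mul (abs_nonneg _)]
  norm_num

/-- finite variation -/
def FinVar (z : ℕ → Z) : Prop := ∃ C, ∀ s N, Monotone s → chn z s N ≤ C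

variable [NormedSpace ℝ Z]

/-- the sequences `z`, `z n ∈ Zn n`, of finite variation -/
def VV (Zn : ℕ → Submodule ℝ Z) : Submodule ℝ (ℕ → Z) where
  carrier := {z | (∀ n, z n ∈ Zn n) ∧ FinVar z}
  add_mem' := by
    rintro z w ⟨hz, C, hC⟩ ⟨hw, D, hD⟩
    refine ⟨fun n => (Zn n).add_mem (hz n) (hw n), C + D, fun s N hs => ?_⟩
    exact (chn_add_le z w s N).trans (add_le_add (hC s N hs) (hD s N hs))
  zero_mem' := ⟨fun n => (Zn n).zero_mem, 0, fun s N _ => by
    rw [chn, chain_zero, Real.zero_rpow (by norm_num)]⟩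
  smul_mem' := by
    rintro c z ⟨hz, C, hC⟩
    refine ⟨fun n => (Zn n).smul_mem c (hz n), |c| * C, fun s N hs => ?_⟩
    rw [chn_smul]
    exact mul_le_mul_of_nonneg_left (hC s N hs) (abs_nonneg _)

/-- The variation space: a type synonym of `VV Zn` (the product topology must not be inherited). -/
structure Vs (Zn : ℕ → Submodule ℝ Z) where
  /-- the underlying sequence -/
  val : ℕ → Z
  mem : val ∈ VV Zn

namespace Vs

variable {Zn : ℕ → Submodule ℝ Z}

theorem ext' {v w : Vs Zn} (h : ∀ n, v.val n = w.val n) : v = w := by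
  cases v; cases w; congr; exact funext h

/-- the bijection with `VV Zn` -/
def toVV (v : Vs Zn) : VV Zn := ⟨v.val, v.mem⟩

theorem toVV_injective : Function.Injective (toVV (Zn := Zn)) := fun v w h => by
  apply ext'
  intro n
  exact congrFun (congrArg Subtype.val h) n

instance : Zero (Vs Zn) := ⟨⟨0, (VV Zn).zero_mem⟩⟩
instance : Add (Vs Zn) := ⟨fun v w => ⟨v.val + w.val, (VV Zn).add_mem v.mem w.mem⟩⟩
instance : Neg (Vs Zn) := ⟨fun v => ⟨-v.val, (VV Zn).neg_mem v.mem⟩⟩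
instance : Sub (Vs Zn) := ⟨fun v w => ⟨v.val - w.val, (VV Zn).sub_mem v.mem w.mem⟩⟩
instance : SMul ℝ (Vs Zn) := ⟨fun c v => ⟨c • v.val, (VV Zn).smul_mem c v.mem⟩⟩
instance : SMul ℕ (Vs Zn) := ⟨fun c v => ⟨c • v.val, nsmul_mem v.mem c⟩⟩
instance : SMul ℤ (Vs Zn) := ⟨fun c v => ⟨c • v.val, zsmul_mem v.mem c⟩⟩

instance : AddCommGroup (Vs Zn) :=
  toVV_injective.addCommGroup _ rfl (fun _ _ => rfl) (fun _ => rfl) (fun _ _ => rfl)
    (fun _ _ => rfl) (fun _ _ => rfl)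

/-- `toVV` as an additive homomorphism -/
def toVVHom : Vs Zn →+ VV Zn := ⟨⟨toVV, rfl⟩, fun _ _ => rfl⟩

instance : Module ℝ (Vs Zn) :=
  Function.Injective.module ℝ toVVHom toVV_injective (fun _ _ => rfl)

@[simp] theorem val_zero : (0 : Vs Zn).val = 0 := rfl
@[simp] theorem val_add (v w : Vs Zn) : (v + w).val = v.val + w.val := rfl
@[simp] theorem val_sub (v w : Vs Zn) : (v - w).val = v.val - w.val := rfl
@[simp] theorem val_neg (v : Vs Zn) : (-v).val = -v.val := rfl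
@[simp] theorem val_smul (c : ℝ) (v : Vs Zn) : (c • v).val = c • v.val := rfl

theorem val_mem (v : Vs Zn) (n : ℕ) : v.val n ∈ Zn n := v.mem.1 n

/-- the index set of all chains -/
def Ch : Type := {s : ℕ → ℕ // Monotone s} × ℕ

instance : Nonempty Ch := ⟨⟨⟨fun _ => 0, monotone_const⟩, 0⟩⟩

theorem bdd (v : Vs Zn) : BddAbove (Set.range fun c : Ch => chn v.val c.1.1 c.2) := by
  obtain ⟨C, hC⟩ := v.mem.2
  exact ⟨C, by rintro _ ⟨c, rfl⟩; exact hC _ _ c.1.2⟩

noncomputable instance : Norm (Vs Zn) := ⟨fun v => ⨆ c : Ch, chn v.val c.1.1 c.2⟩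

theorem norm_def (v : Vs Zn) : ‖v‖ = ⨆ c : Ch, chn v.val c.1.1 c.2 := rfl

theorem chn_le_norm (v : Vs Zn) {s : ℕ → ℕ} (hs : Monotone s) (N : ℕ) : chn v.val s N ≤ ‖v‖ :=
  le_ciSup (f := fun c : Ch => chn v.val c.1.1 c.2) v.bdd ⟨⟨s, hs⟩, N⟩

theorem norm_le {v : Vs Zn} {C : ℝ} (h : ∀ s N, Monotone s → chn v.val s N ≤ C) : ‖v‖ ≤ C :=
  ciSup_le fun c => h _ _ c.1.2

theorem coord_le (v : Vs Zn) (n : ℕ) : ‖v.val n‖ ≤ ‖v‖ := by
  have h := v.chn_le_norm (s := fun _ => n) monotone_const 0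
  have h2 : chn v.val (fun _ => n) 0 = ‖v.val n‖ := by
    unfold chn chain
    rw [Finset.range_zero, Finset.sum_empty, add_zero, ← Real.rpow_mul (norm_nonneg _)]
    norm_num
  rwa [h2] at h

/-- the norm of the variation space -/
noncomputable def groupNorm : AddGroupNorm (Vs Zn) where
  toFun v := ‖v‖
  map_zero' := by
    apply le_antisymm
    · apply norm_le
      intro s N _
      rw [val_zero, chn, chain_zero, Real.zero_rpow (by norm_num)]
    · exact le_trans (norm_nonneg ((0 : Vs Zn).val 0)) (coord_le 0 0)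
  add_le' v w := by
    apply norm_le
    intro s N hs
    exact (chn_add_le _ _ s N).trans (add_le_add (v.chn_le_norm hs N) (w.chn_le_norm hs N))
  neg' v := by
    rw [norm_def, norm_def]
    congr 1
    funext c
    rw [val_neg, chn, chn, chain_neg]
  eq_zero_of_map_eq_zero' v h := by
    apply ext'
    intro n
    have := coord_le v n
    have h0 : ‖v‖ = 0 := h
    rw [h0] at this
    simpa using norm_le_zero_iff.1 this

noncomputable instance : NormedAddCommGroup (Vs Zn) := (groupNorm (Zn := Zn)).toNormedAddCommGroup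

noncomputable instance : NormedSpace ℝ (Vs Zn) where
  norm_smul_le c v := by
    apply norm_le
    intro s N hs
    rw [val_smul, chn_smul]
    exact mul_le_mul_of_nonneg_left (v.chn_le_norm hs N) (abs_nonneg _)

end Vs

end Var

end Pool.Agent.MP_e87d84
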