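import Pool.Agent.Lib.MP_e87d84_an.DefsA

/-!
MP_e87d84_an, Part II: the parameters `Dat`, the blocks `Blk`, the space `K` (an `l_2`-sum of
blocks), the subspace `W0` and the quotient `Zt`.  Text: sections II.0, II.2.
-/

set_option autoImplicit false

open Filter Topology

namespace Pool.Agent.MP_e87d84

/-- The parameters of the construction (text II.0). -/
structure Dat where
  L : ℕ → ℕ
  d : ℕ → ℕ
  d' : ℕ → ℕ
  M : ℕ → ℕ
  p : ℕ → ℕ → ℝ
  q : ℕ → ℕ → ℝ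
  g : ℕ → ℝ
  h : ℕ → ℝ
  k : ℕ → ℝ
  τ : (i : ℕ) → Fin (M i) → Fin (d i) × Fin (d' i) → ℝ
  σ : (i : ℕ) → Fin (M (i + 1)) → Fin (d i) × Fin (d' i) → ℝ
  hL : ∀ i, 2 ≤ L i
  hd : ∀ i, 1 ≤ d i
  hd' : ∀ i, 1 ≤ d' i
  hM : ∀ i, 1 ≤ M i
  hq : ∀ i m, 11 / 10 ≤ q i m
  hp : ∀ i m, p i m ≤ 6 / 5
  hqp : ∀ i m m', q i m ≤ p i m'
  hg : ∀ i, 0 < g i
  hpg : ∀ i k m, k < m → m ≤ L i → p i k + g i ≤ p i m
  hqg : ∀ i k m, k < m → m ≤ L i → q i m + g i ≤ q i k
  hpL : ∀ i m, p i m ≤ p i (L i)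
  hlev : ∀ i j m, i < j → p i (L i) + g i ≤ q j m
  hh0 : ∀ i, 0 < h i
  hh1 : ∀ i, ∃ η : ℝ, 0 < η ∧ η ≤ 1 ∧ η + (d i : ℝ) ^ (-(g i / 2)) * (η ^ 16)⁻¹ ≤ h i
  hh2 : ∀ i, ∃ η : ℝ, 0 < η ∧ η ≤ 1 ∧
    (d i : ℝ) * (η + (d' i : ℝ) ^ (-(g i / 2)) * (η ^ 16)⁻¹) ≤ h i
  hk : ∀ i, 0 ≤ k i
  τsq : ∀ i j x, τ i j x ^ 2 = 1
  σsq : ∀ i j x, σ i j x ^ 2 = 1
  ττ : ∀ i j j', j ≠ j' → ∑ x, τ i j x * τ i j' x = 0
  σσ : ∀ i j j', j ≠ j' → ∑ x, σ i j x * σ i j' x = 0
  τσ : ∀ i j j', ∑ x, τ i j x * σ i j' x = 0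
  kτ : ∀ i x y, x ≠ y → |∑ j, τ i j x * τ i j y| ≤ k i * M i
  kσ : ∀ i x y, x ≠ y → |∑ j, σ i j x * σ i j y| ≤ k i * M (i + 1)
  kc : ∀ i x y, |∑ j, σ i j x * τ (i + 1) j y| ≤ k (i + 1) * M (i + 1)

namespace Dat

variable (P : Dat)

/-- the atoms of level `i` -/
abbrev G (i : ℕ) : Type := Fin (P.d i) × Fin (P.d' i)

/-- number of atoms of level `i` -/
noncomputable def D (i : ℕ) : ℝ := (P.d i : ℝ) * P.d' i

/-- `ω_i = D_i^(1/6) √L_i` -/
noncomputable def ω (i : ℕ) : ℝ := P.D i ^ (1 / 6 : ℝ) * √(P.L i : ℝ)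

/-- `θ_i` belongs to level `i + 1` -/
noncomputable def θ (i : ℕ) : ℝ := P.k (i + 1) * (P.ω (i + 1) + P.ω i)

/-- `ψ_i` belongs to the levels `i + 1`, `i + 2` -/
noncomputable def ψ (i : ℕ) : ℝ := P.k (i + 2) * P.ω (i + 2) + P.k (i + 1) * P.ω (i + 1)

/-- the dimension of the lower levels -/
noncomputable def Rl (i : ℕ) : ℝ := ∑ j ∈ Finset.range i, ((P.L j : ℝ) + 1) * P.D j

/-- the block of level `i`: sections `f_0, ..., f_L` -/
def Blk (i : ℕ) : Type := Fin (P.L i + 1) → P.G i → ℝ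

instance (i : ℕ) : AddCommGroup (P.Blk i) :=
  inferInstanceAs (AddCommGroup (Fin (P.L i + 1) → P.G i → ℝ))

instance (i : ℕ) : Module ℝ (P.Blk i) :=
  inferInstanceAs (Module ℝ (Fin (P.L i + 1) → P.G i → ℝ))

instance (i : ℕ) : FiniteDimensional ℝ (P.Blk i) :=
  inferInstanceAs (FiniteDimensional ℝ (Fin (P.L i + 1) → P.G i → ℝ))

variable {P}

/-- the `m`-th component of a section (`0` if `m > L`) -/
def bc {i : ℕ} (f : P.Blk i) (m : ℕ) : P.G i → ℝ :=
  if h : m < P.L i + 1 then f ⟨m, h⟩ else 0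

theorem bc_add {i : ℕ} (f f' : P.Blk i) (m : ℕ) : bc (f + f') m = bc f m + bc f' m := by
  unfold bc
  split_ifs
  · rfl
  · simp

theorem bc_smul {i : ℕ} (c : ℝ) (f : P.Blk i) (m : ℕ) : bc (c • f) m = c • bc f m := by
  unfold bc
  split_ifs
  · rfl
  · simp

theorem bc_zero {i : ℕ} (m : ℕ) : bc (0 : P.Blk i) m = 0 := by
  unfold bc
  split_ifs
  · rfl
  · rfl

theorem bc_neg {i : ℕ} (f : P.Blk i) (m : ℕ) : bc (-f) m = -bc f m := by
  unfold bc
  split_ifs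
  · rfl
  · simp

theorem bc_sub {i : ℕ} (f f' : P.Blk i) (m : ℕ) : bc (f - f') m = bc f m - bc f' m := by
  rw [sub_eq_add_neg, bc_add, bc_neg, ← sub_eq_add_neg]

theorem blk_ext {i : ℕ} {f f' : P.Blk i} (h : ∀ m ≤ P.L i, ∀ x, bc f m x = bc f' m x) :
    f = f' := by
  funext m
  funext x
  have := h m.1 (Nat.lt_succ_iff.1 m.2) x
  unfold bc at this
  rw [dif_pos m.2, dif_pos m.2] at this
  exact this

/-- the `l_2`-norm of a finite vector -/
noncomputable def l2 {ι : Type*} [Fintype ι] (x : ι → ℝ) : ℝ := √(∑ i, x i ^ 2)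

/-- the square of the norm of a block -/
noncomputable def blkSq {i : ℕ} (f : P.Blk i) : ℝ :=
  1 / (P.L i : ℝ) * ∑ m ∈ Finset.range (P.L i + 1), nF (P.p i m) (P.q i m) (bc f m) ^ 2 +
    (P.L i : ℝ) * ∑ m ∈ Finset.range (P.L i), ∑ x, (bc f (m + 1) x - bc f m x) ^ 2

theorem blkSq_nonneg {i : ℕ} (f : P.Blk i) : 0 ≤ blkSq f := by
  unfold blkSq
  positivity

/-- the norm of a block -/
noncomputable def blkN {i : ℕ} (f : P.Blk i) : ℝ := √(blkSq f)

/-- all the seminorms of which `blkN` is the `l_2`-sum -/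
noncomputable def pc {i : ℕ} (f : P.Blk i) (m : ℕ ⊕ ℕ) : ℝ :=
  match m with
  | Sum.inl m => √(1 / (P.L i : ℝ)) * nF (P.p i m) (P.q i m) (bc f m)
  | Sum.inr m => √(P.L i : ℝ) * lpn 2 (bc f (m + 1) - bc f m)

theorem lpn_two_sq {ι : Type*} [Fintype ι] (x : ι → ℝ) : lpn 2 x ^ 2 = ∑ i, x i ^ 2 := by
  unfold lpn
  have h : ∑ i, |x i| ^ (2 : ℝ) = ∑ i, x i ^ 2 := by
    refine Finset.sum_congr rfl fun i _ => ?_
    rw [Real.rpow_two, sq_abs]
  rw [h, ← Real.sqrt_eq_rpow, Real.sq_sqrt (Finset.sum_nonneg fun _ _ => sq_nonneg _)]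

theorem one_le_p (i m : ℕ) : 1 ≤ P.p i m := by
  have := P.hq i m; have := P.hqp i m m; linarith

theorem one_le_q (i m : ℕ) : 1 ≤ P.q i m := by
  have := P.hq i m; linarith

theorem pc_nonneg {i : ℕ} (f : P.Blk i) (m : ℕ ⊕ ℕ) : 0 ≤ pc f m := by
  cases m
  · exact mul_nonneg (Real.sqrt_nonneg _) (nF_nonneg _ _ _)
  · exact mul_nonneg (Real.sqrt_nonneg _) (lpn_nonneg _ _)

theorem pc_add {i : ℕ} (f f' : P.Blk i) (m : ℕ ⊕ ℕ) : pc (f + f') m ≤ pc f m + pc f' m := by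
  cases m with
  | inl m =>
    simp only [pc, ← mul_add]
    apply mul_le_mul_of_nonneg_left _ (Real.sqrt_nonneg _)
    rw [bc_add]
    exact nF_add_le (one_le_p i m) (one_le_q i m) _ _
  | inr m =>
    simp only [pc, ← mul_add]
    apply mul_le_mul_of_nonneg_left _ (Real.sqrt_nonneg _)
    rw [bc_add, bc_add]
    have : bc f (m + 1) + bc f' (m + 1) - (bc f m + bc f' m) =
      (bc f (m + 1) - bc f m) + (bc f' (m + 1) - bc f' m) := by abel
    rw [this]
    exact lpn_add_le (by norm_num) _ _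

theorem pc_smul {i : ℕ} (c : ℝ) (f : P.Blk i) (m : ℕ ⊕ ℕ) : pc (c • f) m = |c| * pc f m := by
  cases m with
  | inl m =>
    simp only [pc]
    rw [bc_smul, nF_smul (by linarith [one_le_p (P := P) i m]) (by linarith [one_le_q (P := P) i m])]
    ring
  | inr m =>
    simp only [pc]
    rw [bc_smul, bc_smul, ← smul_sub, lpn_smul (by norm_num)]
    ring

theorem blkSq_eq {i : ℕ} (f : P.Blk i) :
    blkSq f = ∑ m ∈ (Finset.range (P.L i + 1)).disjSum (Finset.range (P.L i)), pc f m ^ 2 := by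
  rw [Finset.sum_disjSum]
  simp only [pc, mul_pow, lpn_two_sq, Pi.sub_apply]
  rw [Real.sq_sqrt (by positivity), Real.sq_sqrt (by positivity), ← Finset.mul_sum,
    ← Finset.mul_sum, blkSq]

theorem blkN_eq {i : ℕ} (f : P.Blk i) :
    blkN f = (∑ m ∈ (Finset.range (P.L i + 1)).disjSum (Finset.range (P.L i)),
      |pc f m| ^ (2 : ℝ)) ^ (1 / 2 : ℝ) := by
  rw [blkN, blkSq_eq, Real.sqrt_eq_rpow]
  congr 1
  refine Finset.sum_congr rfl fun m _ => ?_
  rw [Real.rpow_two, sq_abs]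

theorem blkN_add_le {i : ℕ} (f f' : P.Blk i) : blkN (f + f') ≤ blkN f + blkN f' := by
  rw [blkN_eq, blkN_eq, blkN_eq]
  refine le_trans ?_ (Real.Lp_add_le _ (fun m => pc f m) (fun m => pc f' m) (p := 2)
    (by norm_num))
  apply Real.rpow_le_rpow (Finset.sum_nonneg fun _ _ => Real.rpow_nonneg (abs_nonneg _) _) _
    (by norm_num)
  refine Finset.sum_le_sum fun m _ => ?_
  apply Real.rpow_le_rpow (abs_nonneg _) _ (by norm_num)
  rw [abs_of_nonneg (pc_nonneg _ _), abs_of_nonneg (add_nonneg (pc_nonneg _ _) (pc_nonneg _ _))]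
  exact pc_add f f' m

theorem blkN_smul {i : ℕ} (c : ℝ) (f : P.Blk i) : blkN (c • f) = |c| * blkN f := by
  unfold blkN
  rw [blkSq_eq, blkSq_eq]
  simp only [pc_smul, mul_pow]
  rw [← Finset.mul_sum, sq_abs, Real.sqrt_mul (sq_nonneg _), Real.sqrt_sq_eq_abs]

theorem blkN_nonneg {i : ℕ} (f : P.Blk i) : 0 ≤ blkN f := Real.sqrt_nonneg _

theorem nF_le_blkN {i : ℕ} (f : P.Blk i) {m : ℕ} (hm : m ≤ P.L i) :
    nF (P.p i m) (P.q i m) (bc f m) ≤ √(P.L i : ℝ) * blkN f := by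
  have hL : (0 : ℝ) < P.L i := by have := P.hL i; positivity
  unfold blkN
  rw [← Real.sqrt_mul hL.le]
  apply Real.le_sqrt_of_sq_le
  have h1 : nF (P.p i m) (P.q i m) (bc f m) ^ 2 ≤
      ∑ m ∈ Finset.range (P.L i + 1), nF (P.p i m) (P.q i m) (bc f m) ^ 2 :=
    Finset.single_le_sum (f := fun m => nF (P.p i m) (P.q i m) (bc f m) ^ 2)
      (fun _ _ => sq_nonneg _) (Finset.mem_range.2 (by omega))
  refine h1.trans ?_
  unfold blkSq
  rw [mul_add, ← mul_assoc, mul_one_div_cancel hL.ne', one_mul]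
  have : 0 ≤ (P.L i : ℝ) * ((P.L i : ℝ) *
    ∑ m ∈ Finset.range (P.L i), ∑ x, (bc f (m + 1) x - bc f m x) ^ 2) := by positivity
  linarith

/-- the norm of a block, as an `AddGroupNorm` -/
noncomputable def blkNorm (i : ℕ) : AddGroupNorm (P.Blk i) where
  toFun := blkN
  map_zero' := by
    have := blkN_smul (i := i) (P := P) 0 0
    simpa using this
  add_le' := blkN_add_le
  neg' f := by
    have := blkN_smul (-1) f
    simpa using this
  eq_zero_of_map_eq_zero' f hf := by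
    apply blk_ext
    intro m hm x
    have h1 := nF_le_blkN f hm
    rw [hf, mul_zero] at h1
    have h2 := abs_le_nF (p := P.p i m) (q := P.q i m) (by linarith [one_le_p (P := P) i m])
      (by linarith [one_le_q (P := P) i m]) (bc f m) x
    rw [bc_zero]
    simpa using h2.trans h1

noncomputable instance (i : ℕ) : NormedAddCommGroup (P.Blk i) :=
  (blkNorm (P := P) i).toNormedAddCommGroup

theorem norm_blk {i : ℕ} (f : P.Blk i) : ‖f‖ = blkN f := rfl

noncomputable instance (i : ℕ) : NormedSpace ℝ (P.Blk i) where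
  norm_smul_le c f := by
    rw [norm_blk, norm_blk, blkN_smul, Real.norm_eq_abs]

instance (i : ℕ) : CompleteSpace (P.Blk i) := FiniteDimensional.complete ℝ _

variable (P)

/-- the `l_2`-sum of the blocks -/
abbrev K : Type := lp (fun i => P.Blk i) 2

/-- the section of level `i` which is `x` at position `m` and `0` at the other positions -/
noncomputable def put (i m : ℕ) : (P.G i → ℝ) →ₗ[ℝ] P.Blk i where
  toFun x := fun m' => if (m' : ℕ) = m then x else 0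
  map_add' x y := by
    funext m'
    show (if (m' : ℕ) = m then x + y else 0) =
      (if (m' : ℕ) = m then x else 0) + (if (m' : ℕ) = m then y else 0)
    split_ifs <;> simp
  map_smul' c x := by
    funext m'
    show (if (m' : ℕ) = m then c • x else 0) = c • (if (m' : ℕ) = m then x else 0)
    split_ifs <;> simp

/-- `x` at position `m` of level `i`, as an element of `K` -/
noncomputable def iot (i m : ℕ) : (P.G i → ℝ) →ₗ[ℝ] P.K :=
  (lp.lsingle (E := fun i => P.Blk i) (𝕜 := ℝ) 2 i).comp (P.put i m)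

/-- the value of the functional `e^{i+1}_j` -/
noncomputable def ee (i : ℕ) (j : Fin (P.M (i + 1))) (f : P.K) : ℝ :=
  ∑ y, P.τ (i + 1) j y * bc (f (i + 1)) (P.L (i + 1)) y +
    ∑ x, P.σ i j x * bc (f i) (P.L i) x

/-- the relations -/
noncomputable def W0 : Submodule ℝ P.K where
  carrier := {f | (∀ i m, m < P.L i → bc (f i) m = 0) ∧ ∀ i j, P.ee i j f = 0}
  add_mem' := by
    rintro f f' ⟨h1, h2⟩ ⟨h1', h2'⟩
    refine ⟨fun i m hm => ?_, fun i j => ?_⟩
    · rw [lp.coeFn_add, Pi.add_apply, bc_add, h1 i m hm, h1' i m hm, add_zero]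
    · have e1 := h2 i j
      have e2 := h2' i j
      unfold ee at *
      simp only [lp.coeFn_add, Pi.add_apply, bc_add, mul_add, Finset.sum_add_distrib] at *
      linarith
  zero_mem' := by
    refine ⟨fun i m _ => ?_, fun i j => ?_⟩
    · rw [lp.coeFn_zero, Pi.zero_apply, bc_zero]
    · simp [ee, bc_zero]
  smul_mem' := by
    rintro c f ⟨h1, h2⟩
    refine ⟨fun i m hm => ?_, fun i j => ?_⟩
    · rw [lp.coeFn_smul, Pi.smul_apply, bc_smul, h1 i m hm, smul_zero]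
    · have e1 := h2 i j
      unfold ee at *
      simp only [lp.coeFn_smul, Pi.smul_apply, bc_smul, smul_eq_mul]
      have e3 : ∀ a b : ℝ, c * a + c * b = c * (a + b) := fun a b => by ring
      rw [Finset.sum_congr rfl fun y _ => show P.τ (i + 1) j y * (c * bc (f (i + 1)) (P.L (i + 1)) y)
        = c * (P.τ (i + 1) j y * bc (f (i + 1)) (P.L (i + 1)) y) by ring,
        Finset.sum_congr rfl fun x _ => show P.σ i j x * (c * bc (f i) (P.L i) x)
        = c * (P.σ i j x * bc (f i) (P.L i) x) by ring, ← Finset.mul_sum, ← Finset.mul_sum, e3, e1,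
        mul_zero]

end Dat

end Pool.Agent.MP_e87d84
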