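import Pool.Agent.Lib.MP_e87d84_an.DefsA

/-!
MP_e87d84_an, Part I: the Specs.  Text: /team-store/MP_e87d84_an_PROOF.md, sections I.0 - I.5, II.1.
-/

set_option autoImplicit false

open Filter Topology

namespace Pool.Agent.MP_e87d84

/-- the hypothesis of the frozen statement for a real space -/
def HasPi (E : Type) [NormedAddCommGroup E] [NormedSpace ℝ E] : Prop :=
  ∃ (u : ℕ → E →L[ℝ] E) (lam : ℝ),
    (∀ n, (u n).comp (u n) = u n) ∧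
    (∀ n, FiniteDimensional ℝ (LinearMap.range ((u n : E →L[ℝ] E) : E →ₗ[ℝ] E))) ∧
    (∀ n, ‖u n‖ ≤ lam) ∧
    (∀ x : E, Tendsto (fun n => u n x) atTop (𝓝 x)) ∧
    Monotone (fun n => LinearMap.range ((u n : E →L[ℝ] E) : E →ₗ[ℝ] E))

/-- the conclusion of the frozen statement for a real space -/
def HasCPi (E : Type) [NormedAddCommGroup E] [NormedSpace ℝ E] : Prop :=
  ∃ (v : ℕ → E →L[ℝ] E) (C : ℝ),
    (∀ k n, (v k).comp (v n) = v (min k n)) ∧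
    (∀ n, FiniteDimensional ℝ (LinearMap.range ((v n : E →L[ℝ] E) : E →ₗ[ℝ] E))) ∧
    (∀ n, ‖v n‖ ≤ C) ∧
    (∀ x : E, Tendsto (fun n => v n x) atTop (𝓝 x)) ∧
    Monotone (fun n => LinearMap.range ((v n : E →L[ℝ] E) : E →ₗ[ℝ] E))

/-- what a commuting π-basis would give: section I.4 of the text, (A1) - (A4) -/
structure Obs (Z : Type) [NormedAddCommGroup Z] [NormedSpace ℝ Z] (D : ZD Z) where
  A : Z →L[ℝ] Z
  κ : Z →L[ℝ] Z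
  b' : ℕ → D.Z' →L[ℝ] Z
  𝓕 : Ultrafilter ℕ
  C : ℝ
  AZ' : ∀ z, A z ∈ D.Z'
  idem : ∀ z, (A - κ) ((A - κ) z) = (A - κ) z
  fin : ∀ k, FiniteDimensional ℝ (LinearMap.range ((b' k : D.Z' →L[ℝ] Z) : D.Z' →ₗ[ℝ] Z))
  bd : ∀ k, ‖b' k‖ ≤ C
  lim : ∀ (z : D.Z') (φ : Z →L[ℝ] ℝ), Tendsto (fun k => φ (b' k z)) 𝓕 (𝓝 (φ ((z : Z) - A z)))
  small : ∀ (f : ℕ → Z) (C' : ℝ), (∀ S : Finset ℕ, ‖∑ i ∈ S, f i‖ ≤ C' * √(S.card : ℝ)) →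
    Tendsto (fun i => κ (f i)) atTop (𝓝 0)

/-- The limit map `q` and the truncations `R l` of the variation space. -/
structure QR {Z : Type} [NormedAddCommGroup Z] [NormedSpace ℝ Z] (Zn : ℕ → Submodule ℝ Z) where
  q : Vs Zn →L[ℝ] Z
  R : ℕ → Vs Zn →L[ℝ] Vs Zn
  hq : ∀ v : Vs Zn, Tendsto v.val atTop (𝓝 (q v))
  hR : ∀ l (v : Vs Zn) n, (R l v).val n = if n ≤ l then v.val n else 0

/-- the space `U = q⁻¹(Z')` -/
abbrev USub {Z : Type} [NormedAddCommGroup Z] [NormedSpace ℝ Z] (D : ZD Z) (Q : QR D.Zn) :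
    Submodule ℝ (Vs D.Zn) := D.Z'.comap (Q.q : Vs D.Zn →ₗ[ℝ] Z)

/-- [VTAIL] (80 lines) text I.1 -/
def SpecVTAIL : Prop :=
  ∀ (Z : Type) [NormedAddCommGroup Z] [NormedSpace ℝ Z] (Zn : ℕ → Submodule ℝ Z) (v : Vs Zn)
    (ε : ℝ), 0 < ε → ∃ N : ℕ, ∀ s : ℕ → ℕ, Monotone s → N ≤ s 0 → ∀ k : ℕ,
      ∑ i ∈ Finset.range k, ‖v.val (s (i + 1)) - v.val (s i)‖ ^ (3 / 2 : ℝ) ≤ ε

/-- [VCOMP] (80 lines) the variation space is complete.  (A Cauchy sequence converges in every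
coordinate, the limit is in `Zn n` (finite dimensional, hence closed); chains pass to the limit.) -/
def SpecVCOMP : Prop :=
  ∀ (Z : Type) [NormedAddCommGroup Z] [NormedSpace ℝ Z] [CompleteSpace Z]
    (Zn : ℕ → Submodule ℝ Z), (∀ n, FiniteDimensional ℝ (Zn n)) → CompleteSpace (Vs Zn)

/-- [QRX] (150 lines) existence of `q` (from VTAIL: the sequence is Cauchy; `‖q v‖ ≤ ‖v‖`) and of
the truncations, with `‖R l v‖ ≤ 2 ‖v‖` (a chain of the truncated sequence is a chain of `v` plus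
at most one jump to `0`; or: `chn (trunc) ≤ ‖v‖ + ‖v‖` by cutting the chain at the last index
`≤ l`). -/
def SpecQRX : Prop :=
  ∀ (Z : Type) [NormedAddCommGroup Z] [NormedSpace ℝ Z] [CompleteSpace Z]
    (Zn : ℕ → Submodule ℝ Z), Nonempty (QR Zn)

/-- [VTR] (150 lines; second line: `R l v` is a sum of `l + 1` unit vectors, the unit vector with
value `z` at `m` has norm `≤ 2^(2/3) ‖z‖`) norms of truncations, truncations of elements of `ker q` converge in norm -/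
def SpecVTR : Prop :=
  ∀ (Z : Type) [NormedAddCommGroup Z] [NormedSpace ℝ Z] [CompleteSpace Z]
    (Zn : ℕ → Submodule ℝ Z) (Q : QR Zn),
    (∀ l v, ‖Q.R l v‖ ≤ 2 * ‖v‖) ∧
    (∀ l v, ‖Q.R l v‖ ≤ 2 * ∑ m ∈ Finset.range (l + 1), ‖v.val m‖) ∧
    (∀ v, ‖Q.q v‖ ≤ ‖v‖) ∧
    (∀ v, Q.q v = 0 → Tendsto (fun l => Q.R l v) atTop (𝓝 v)) ∧
    ((∀ n, FiniteDimensional ℝ (Zn n)) → ∀ l, FiniteDimensional ℝ
      (LinearMap.range ((Q.R l : Vs Zn →L[ℝ] Vs Zn) : Vs Zn →ₗ[ℝ] Vs Zn)))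

/-- [VLIFT] (120 lines) `q` is onto with bounded lifts -/
def SpecVLIFT : Prop :=
  ∀ (Z : Type) [NormedAddCommGroup Z] [NormedSpace ℝ Z] [CompleteSpace Z]
    (Zn : ℕ → Submodule ℝ Z) (Q : QR Zn), Monotone Zn → (∀ n, FiniteDimensional ℝ (Zn n)) →
    (∀ z : Z, ∀ ε > 0, ∃ n, ∃ w ∈ Zn n, ‖z - w‖ ≤ ε) →
    ∀ z : Z, ∃ v : Vs Zn, Q.q v = z ∧ ‖v‖ ≤ 4 * ‖z‖

/-- [VSHR] (200 lines; contains VUP) functionals on `ker q` are uniformly small on elements with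
large support index -/
def SpecVSHR : Prop :=
  ∀ (Z : Type) [NormedAddCommGroup Z] [NormedSpace ℝ Z] [CompleteSpace Z]
    (Zn : ℕ → Submodule ℝ Z) (Q : QR Zn)
    (φ : (LinearMap.ker (Q.q : Vs Zn →ₗ[ℝ] Z)) →L[ℝ] ℝ) (ε : ℝ), 0 < ε →
    ∃ l : ℕ, ∀ v : LinearMap.ker (Q.q : Vs Zn →ₗ[ℝ] Z), Q.R l v = 0 → |φ v| ≤ ε * ‖v‖

/-- [VCPT] (100 lines) coordinatewise compactness along ultrafilters -/
def SpecVCPT : Prop :=
  ∀ (Z : Type) [NormedAddCommGroup Z] [NormedSpace ℝ Z]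
    (Zn : ℕ → Submodule ℝ Z), (∀ n, FiniteDimensional ℝ (Zn n)) →
    ∀ (v : ℕ → Vs Zn) (B : ℝ), (∀ k, ‖v k‖ ≤ B) → ∀ 𝓕 : Ultrafilter ℕ,
      ∃ w : Vs Zn, ‖w‖ ≤ B ∧ ∀ n, Tendsto (fun k => (v k).val n) 𝓕 (𝓝 (w.val n))

/-- [VKAP] (250 lines) (A4) for `κ = q ∘ ξ` -/
def SpecVKAP : Prop :=
  ∀ (Z : Type) [NormedAddCommGroup Z] [NormedSpace ℝ Z] [CompleteSpace Z]
    (Zn : ℕ → Submodule ℝ Z) (Q : QR Zn), (∀ n, FiniteDimensional ℝ (Zn n)) →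
    ∀ (ξ : Z →L[ℝ] Vs Zn) (f : ℕ → Z) (C : ℝ),
      (∀ S : Finset ℕ, ‖∑ i ∈ S, f i‖ ≤ C * √(S.card : ℝ)) →
      Tendsto (fun i => Q.q (ξ (f i))) atTop (𝓝 0)

/-- [VT] (200 lines) text I.2: the operators `T n`, in `V` -/
def SpecVT : Prop :=
  ∀ (Z : Type) [NormedAddCommGroup Z] [NormedSpace ℝ Z] [CompleteSpace Z]
    (D : ZD Z) (Q : QR D.Zn),
    ∃ (T : ℕ → Vs D.Zn →L[ℝ] Vs D.Zn) (H : ℕ → Submodule ℝ (Vs D.Zn)),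
      Monotone H ∧ (∀ n, FiniteDimensional ℝ (H n)) ∧
      (∀ n v, T n v ∈ H n) ∧ (∀ n m, n < m → ∀ v ∈ H n, T m v = v) ∧
      (∃ C, ∀ n, ‖T n‖ ≤ C) ∧ (∀ v, Tendsto (fun n => T n v) atTop (𝓝 v)) ∧
      (∀ n v, Q.q v ∈ D.Z' → Q.q (T n v) ∈ D.Z')

/-- [PB] (250 lines) text I.3: from the BAP to a π-basis of `U × l_2(H_n)` -/
def SpecPB : Prop :=
  ∀ (U : Type) [NormedAddCommGroup U] [NormedSpace ℝ U] [CompleteSpace U]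
    (T : ℕ → U →L[ℝ] U) (H : ℕ → Submodule ℝ U), Monotone H →
    (∀ n, FiniteDimensional ℝ (H n)) → (∀ n u, T n u ∈ H n) →
    (∀ n m, n < m → ∀ u ∈ H n, T m u = u) → (∃ C, ∀ n, ‖T n‖ ≤ C) →
    (∀ u, Tendsto (fun n => T n u) atTop (𝓝 u)) →
    HasPi (U × lp (fun n => H n) 2)

/-- [WLP] (200 lines) text II.1: `l_2`-sums of finite dimensional spaces -/
def SpecWLP : Prop :=
  ∀ (E : ℕ → Type) [∀ n, NormedAddCommGroup (E n)] [∀ n, NormedSpace ℝ (E n)],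
    (∀ n, FiniteDimensional ℝ (E n)) → WLim (lp E 2)

/-- [LIM1] (250 lines) text I.4 (1),(2) for one finite rank operator `P` on `U × G`,
`U = q⁻¹(Z')`.  `Ph (v, g) = lim_l P (R_l v, g)`. -/
def SpecLIM1 : Prop :=
  ∀ (Z : Type) [NormedAddCommGroup Z] [NormedSpace ℝ Z] [CompleteSpace Z]
    (D : ZD Z) (Q : QR D.Zn) (G : Type) [NormedAddCommGroup G] [NormedSpace ℝ G]
    [CompleteSpace G]
    (P : (USub D Q × G) →L[ℝ] (USub D Q × G)),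
    FiniteDimensional ℝ (LinearMap.range (P : (USub D Q × G) →ₗ[ℝ] (USub D Q × G))) →
    ∃ (Ph : (Vs D.Zn × G) →L[ℝ] (USub D Q × G)) (τ : D.Z' →L[ℝ] (USub D Q × G)),
      -- on `ker q × G`
      (∀ (u : USub D Q) (g : G), Q.q u = 0 → Ph ((u : Vs D.Zn), g) = P (u, g)) ∧
      (∀ (u : USub D Q) (g : G), P (u, g) = Ph ((u : Vs D.Zn), g) + τ ⟨Q.q u, u.2⟩) ∧
      ‖Ph‖ ≤ 2 * ‖P‖ ∧ ‖τ‖ ≤ 12 * ‖P‖ ∧
      FiniteDimensional ℝ (LinearMap.range (Ph : (Vs D.Zn × G) →ₗ[ℝ] (USub D Q × G))) ∧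
      FiniteDimensional ℝ (LinearMap.range (τ : D.Z' →ₗ[ℝ] (USub D Q × G))) ∧
      -- the defining limit
      (∀ (v : Vs D.Zn) (g : G) (w : ℕ → USub D Q),
        (∀ l, ((w l : USub D Q) : Vs D.Zn) = Q.R l v) →
        Tendsto (fun l => P (w l, g)) atTop (𝓝 (Ph (v, g)))) ∧
      -- continuity (C)
      (∀ (v : ℕ → Vs D.Zn) (g : ℕ → G) (w : Vs D.Zn) (g₀ : G) (B : ℝ) (𝓕 : Ultrafilter ℕ),
        (∀ n, ‖v n‖ ≤ B) → (∀ n, ‖g n‖ ≤ B) →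
        (∀ m, Tendsto (fun n => (v n).val m) 𝓕 (𝓝 (w.val m))) →
        (∀ ψ : G →L[ℝ] ℝ, Tendsto (fun n => ψ (g n)) 𝓕 (𝓝 (ψ g₀))) →
        Tendsto (fun n => Ph (v n, g n)) 𝓕 (𝓝 (Ph (w, g₀)))) ∧
      -- weak continuity of `τ`
      (∀ (z : ℕ → D.Z') (z₀ : D.Z') (𝓕 : Ultrafilter ℕ),
        (∀ φ : Z →L[ℝ] ℝ, Tendsto (fun n => φ (z n)) 𝓕 (𝓝 (φ z₀))) →
        Tendsto (fun n => τ (z n)) 𝓕 (𝓝 (τ z₀)))

/-- [LIM2] (400 lines) text I.4 (3),(4),(5): a commuting π-basis of `U × G` gives (A1),(A2),(A3)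
with `κ = q ∘ ξ` -/
def SpecLIM2 : Prop :=
  ∀ (Z : Type) [NormedAddCommGroup Z] [NormedSpace ℝ Z] [CompleteSpace Z]
    (D : ZD Z) (Q : QR D.Zn) (G : Type) [NormedAddCommGroup G] [NormedSpace ℝ G]
    [CompleteSpace G], WLim G → HasCPi (USub D Q × G) →
    ∃ (A : Z →L[ℝ] Z) (ξ : Z →L[ℝ] Vs D.Zn) (b' : ℕ → D.Z' →L[ℝ] Z) (𝓕 : Ultrafilter ℕ) (C : ℝ),
      (∀ z, A z ∈ D.Z') ∧
      (∀ z, (A - Q.q.comp ξ) ((A - Q.q.comp ξ) z) = (A - Q.q.comp ξ) z) ∧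
      (∀ k, FiniteDimensional ℝ (LinearMap.range ((b' k : D.Z' →L[ℝ] Z) : D.Z' →ₗ[ℝ] Z))) ∧
      (∀ k, ‖b' k‖ ≤ C) ∧
      (∀ (z : D.Z') (φ : Z →L[ℝ] ℝ),
        Tendsto (fun k => φ (b' k z)) 𝓕 (𝓝 (φ ((z : Z) - A z))))

/-- Part I (assembly) -/
def SpecI : Prop :=
  (∀ (E : Type) [NormedAddCommGroup E] [NormedSpace ℝ E] [CompleteSpace E],
    HasPi E → HasCPi E) →
  ∀ (Z : Type) [NormedAddCommGroup Z] [NormedSpace ℝ Z] [CompleteSpace Z] (D : ZD Z),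
    Nonempty (Obs Z D)

end Pool.Agent.MP_e87d84
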