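import Pool.Agent.Lib.MP_e87d84_an.DefsB
import Pool.Agent.Lib.MP_e87d84_an.SpecA

/-!
MP_e87d84_an, Part II: the quotient `Zt = K / W0`, coordinates, Davie functionals, matrices.
-/

set_option autoImplicit false

open Filter Topology

namespace Pool.Agent.MP_e87d84

namespace Dat

variable (P : Dat)

theorem abs_bc_le (i m : ℕ) (x : P.G i) (f : P.K) : |bc (f i) m x| ≤ √(P.L i : ℝ) * ‖f‖ := by
  by_cases hm : m ≤ P.L i
  · have h2 := abs_le_nF (p := P.p i m) (q := P.q i m) (by linarith [one_le_p (P := P) i m])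
      (by linarith [one_le_q (P := P) i m]) (bc (f i) m) x
    refine h2.trans ((nF_le_blkN (f i) hm).trans ?_)
    apply mul_le_mul_of_nonneg_left _ (Real.sqrt_nonneg _)
    rw [← norm_blk]
    exact lp.norm_apply_le_norm (by norm_num) f i
  · have : bc (f i) m = 0 := by
      unfold bc
      rw [dif_neg (by omega)]
    rw [this]
    simp only [Pi.zero_apply, abs_zero]
    positivity

/-- the coordinate functionals -/
noncomputable def bcL (i m : ℕ) (x : P.G i) : P.K →L[ℝ] ℝ :=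
  LinearMap.mkContinuous
    { toFun := fun f => bc (f i) m x
      map_add' := fun f f' => by rw [lp.coeFn_add, Pi.add_apply, bc_add, Pi.add_apply]
      map_smul' := fun c f => by
        rw [lp.coeFn_smul, Pi.smul_apply, bc_smul, Pi.smul_apply, RingHom.id_apply] }
    (√(P.L i : ℝ)) (fun f => by
      show ‖bc (f i) m x‖ ≤ _
      rw [Real.norm_eq_abs]
      exact P.abs_bc_le i m x f)

@[simp] theorem bcL_apply (i m : ℕ) (x : P.G i) (f : P.K) : P.bcL i m x f = bc (f i) m x := rfl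

/-- the Davie functional `e^{i+1}_j` on `K` -/
noncomputable def eeL (i : ℕ) (j : Fin (P.M (i + 1))) : P.K →L[ℝ] ℝ :=
  ∑ y, P.τ (i + 1) j y • P.bcL (i + 1) (P.L (i + 1)) y + ∑ x, P.σ i j x • P.bcL i (P.L i) x

theorem eeL_apply (i : ℕ) (j : Fin (P.M (i + 1))) (f : P.K) : P.eeL i j f = P.ee i j f := by
  simp [eeL, ee]

theorem W0_closed : IsClosed (P.W0 : Set P.K) := by
  have : (P.W0 : Set P.K) =
      (⋂ i, ⋂ m, ⋂ (_ : m < P.L i), ⋂ x, {f : P.K | P.bcL i m x f = 0}) ∩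
      ⋂ i, ⋂ j, {f : P.K | P.eeL i j f = 0} := by
    ext f
    simp only [SetLike.mem_coe, Set.mem_inter_iff, Set.mem_iInter, Set.mem_ofPred_eq, bcL_apply,
      eeL_apply]
    constructor
    · rintro ⟨h1, h2⟩
      exact ⟨fun i m hm x => by rw [h1 i m hm]; rfl, h2⟩
    · rintro ⟨h1, h2⟩
      exact ⟨fun i m hm => funext fun x => h1 i m hm x, h2⟩
  rw [this]
  apply IsClosed.inter
  · exact isClosed_iInter fun i => isClosed_iInter fun m => isClosed_iInter fun _ =>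
      isClosed_iInter fun x => isClosed_eq (P.bcL i m x).continuous continuous_const
  · exact isClosed_iInter fun i => isClosed_iInter fun j =>
      isClosed_eq (P.eeL i j).continuous continuous_const

instance : IsClosed (P.W0 : Set P.K) := P.W0_closed

/-- the space `Z = K / W0` of the text -/
def Zt : Type := P.K ⧸ P.W0

noncomputable instance : NormedAddCommGroup P.Zt :=
  inferInstanceAs (NormedAddCommGroup (P.K ⧸ P.W0))

noncomputable instance : NormedSpace ℝ P.Zt := inferInstanceAs (NormedSpace ℝ (P.K ⧸ P.W0))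

instance : CompleteSpace P.Zt := inferInstanceAs (CompleteSpace (P.K ⧸ P.W0))

/-- the quotient map, linear version -/
noncomputable def πl : P.K →ₗ[ℝ] P.Zt := P.W0.mkQ

theorem πl_norm_le (f : P.K) : ‖P.πl f‖ ≤ ‖f‖ := Submodule.Quotient.norm_mk_le P.W0 f

/-- the quotient map -/
noncomputable def π : P.K →L[ℝ] P.Zt :=
  LinearMap.mkContinuous P.πl 1 (fun f => by
    rw [one_mul]
    exact P.πl_norm_le f)

theorem π_norm_le (f : P.K) : ‖P.π f‖ ≤ ‖f‖ := P.πl_norm_le f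

theorem π_lift (z : P.Zt) {ε : ℝ} (hε : 0 < ε) : ∃ f : P.K, P.π f = z ∧ ‖f‖ < ‖z‖ + ε :=
  Submodule.Quotient.norm_mk_lt z hε

theorem π_surj (z : P.Zt) : ∃ f : P.K, P.π f = z := by
  obtain ⟨f, hf, _⟩ := P.π_lift z one_pos
  exact ⟨f, hf⟩

theorem π_lift_two (z : P.Zt) : ∃ f : P.K, P.π f = z ∧ ‖f‖ ≤ 2 * ‖z‖ := by
  by_cases hz : z = 0
  · exact ⟨0, by rw [hz, map_zero], by rw [hz, norm_zero, norm_zero, mul_zero]⟩
  · obtain ⟨f, hf, h⟩ := P.π_lift z (norm_pos_iff.2 hz)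
    exact ⟨f, hf, by linarith⟩

theorem π_eq_zero_iff (f : P.K) : P.π f = 0 ↔ f ∈ P.W0 := Submodule.Quotient.mk_eq_zero P.W0

theorem π_eq_iff (f f' : P.K) : P.π f = P.π f' ↔ f - f' ∈ P.W0 := by
  rw [← π_eq_zero_iff, map_sub, sub_eq_zero]

/-- linear maps on `Zt` from linear maps on `K` vanishing on `W0` -/
noncomputable def lift {X : Type} [AddCommGroup X] [Module ℝ X] (F : P.K →ₗ[ℝ] X)
    (h : P.W0 ≤ LinearMap.ker F) : P.Zt →ₗ[ℝ] X := P.W0.liftQ F h

theorem lift_π {X : Type} [AddCommGroup X] [Module ℝ X] (F : P.K →ₗ[ℝ] X)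
    (h : P.W0 ≤ LinearMap.ker F) (f : P.K) : P.lift F h (P.π f) = F f :=
  Submodule.liftQ_apply _ _ _

/-- coordinate `m` at level `i`, on `Zt`, for `m < L i` (`0` if `m ≥ L i`) -/
noncomputable def co (i m : ℕ) : P.Zt →ₗ[ℝ] (P.G i → ℝ) :=
  P.lift (if m < P.L i then LinearMap.pi fun x => (P.bcL i m x : P.K →ₗ[ℝ] ℝ) else 0) (by
    intro f hf
    rw [LinearMap.mem_ker]
    split_ifs with hm
    · funext x
      show bc (f i) m x = 0
      rw [hf.1 i m hm]
      rfl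
    · rfl)

theorem co_π (i : ℕ) {m : ℕ} (hm : m < P.L i) (f : P.K) : P.co i m (P.π f) = bc (f i) m := by
  have : P.co i m (P.π f) = (if m < P.L i then LinearMap.pi fun x =>
      (P.bcL i m x : P.K →ₗ[ℝ] ℝ) else 0 : P.K →ₗ[ℝ] (P.G i → ℝ)) f := P.lift_π _ _ _
  rw [this, if_pos hm]
  rfl

theorem co_of_le (i : ℕ) {m : ℕ} (hm : P.L i ≤ m) (z : P.Zt) : P.co i m z = 0 := by
  obtain ⟨f, rfl⟩ := P.π_surj z
  have : P.co i m (P.π f) = (if m < P.L i then LinearMap.pi fun x =>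
      (P.bcL i m x : P.K →ₗ[ℝ] ℝ) else 0 : P.K →ₗ[ℝ] (P.G i → ℝ)) f := P.lift_π _ _ _
  rw [this, if_neg (by omega)]
  rfl

/-- the Davie functional `e^{i+1}_j` on `Zt` -/
noncomputable def ez (i : ℕ) (j : Fin (P.M (i + 1))) : P.Zt →ₗ[ℝ] ℝ :=
  P.lift (P.eeL i j : P.K →ₗ[ℝ] ℝ) (by
    intro f hf
    rw [LinearMap.mem_ker]
    show P.eeL i j f = 0
    rw [eeL_apply]
    exact hf.2 i j)

theorem ez_π (i : ℕ) (j : Fin (P.M (i + 1))) (f : P.K) : P.ez i j (P.π f) = P.ee i j f := by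
  have : P.ez i j (P.π f) = (P.eeL i j : P.K →ₗ[ℝ] ℝ) f := P.lift_π _ _ _
  rw [this]
  exact P.eeL_apply i j f

/-- the functional `κ_x` of level `i + 1` (text II.2) -/
noncomputable def kg (i : ℕ) (x : P.G (i + 1)) : P.Zt →ₗ[ℝ] ℝ :=
  (1 / (P.M (i + 1) : ℝ)) • ∑ j, P.τ (i + 1) j x • P.ez i j

/-- `Z'` : all left end coordinates vanish -/
noncomputable def Zp : Submodule ℝ P.Zt := ⨅ i, LinearMap.ker (P.co i 0)

/-- unit vector at an atom -/
def dl {ι : Type*} [DecidableEq ι] (x : ι) : ι → ℝ := Pi.single x 1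

theorem bc_put (i m m' : ℕ) (x : P.G i → ℝ) :
    bc (P.put i m x) m' = if m' = m ∧ m ≤ P.L i then x else 0 := by
  unfold bc
  by_cases h : m' < P.L i + 1
  · rw [dif_pos h]
    show (if m' = m then x else 0) = _
    by_cases h1 : m' = m
    · rw [if_pos h1, if_pos ⟨h1, by omega⟩]
    · rw [if_neg h1, if_neg (fun hh => h1 hh.1)]
  · rw [dif_neg h, if_neg (by rintro ⟨h1, h2⟩; omega)]

theorem iot_apply_self (i m : ℕ) (x : P.G i → ℝ) : (P.iot i m x : P.K) i = P.put i m x :=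
  lp.single_apply_self (E := fun i => P.Blk i) 2 i (P.put i m x)

theorem iot_apply_ne (i m : ℕ) (x : P.G i → ℝ) {j : ℕ} (h : j ≠ i) :
    (P.iot i m x : P.K) j = 0 :=
  lp.single_apply_ne (E := fun i => P.Blk i) 2 i (P.put i m x) h

/-- the right end unit vector `δ_x` of level `i` -/
noncomputable def zr (i : ℕ) (x : P.G i) : P.Zt := P.π (P.iot i (P.L i) (dl x))

theorem mem_Zp (z : P.Zt) : z ∈ P.Zp ↔ ∀ i, P.co i 0 z = 0 := by
  simp [Zp, Submodule.mem_iInf, LinearMap.mem_ker]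

theorem zr_mem (i : ℕ) (x : P.G i) : P.zr i x ∈ P.Zp := by
  rw [mem_Zp]
  intro j
  have hL := P.hL j
  rw [zr, co_π _ _ (by omega)]
  by_cases h : j = i
  · subst h
    rw [iot_apply_self, bc_put, if_neg (by omega)]
  · rw [iot_apply_ne _ _ _ _ h, bc_zero]

/-- the right end unit vector `δ_x` of level `i`, as an element of `Z'` -/
noncomputable def zrp (i : ℕ) (x : P.G i) : P.Zp := ⟨P.zr i x, P.zr_mem i x⟩

/-- Davie's trace functional of level `i + 1` for `T : Z' → Z` -/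
noncomputable def beta (i : ℕ) (T : P.Zp →L[ℝ] P.Zt) : ℝ :=
  (1 / P.D (i + 1)) * ∑ x : P.G (i + 1), P.kg i x (T (P.zrp (i + 1) x))

theorem dg_le (T : ∀ i, P.Blk i →ₗ[ℝ] P.Blk i) (C : ℝ) (hC : 0 ≤ C)
    (h : ∀ i f, ‖T i f‖ ≤ C * ‖f‖) (f : P.K) (i : ℕ) : ‖T i (f i)‖ ≤ ‖(C • f) i‖ := by
  have h1 : ‖(C • f : P.K) i‖ = C * ‖f i‖ := by
    rw [lp.coeFn_smul, Pi.smul_apply, norm_smul, Real.norm_eq_abs, abs_of_nonneg hC]
  rw [h1]
  exact h i (f i)

theorem dg_mem (T : ∀ i, P.Blk i →ₗ[ℝ] P.Blk i) (C : ℝ) (hC : 0 ≤ C)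
    (h : ∀ i f, ‖T i f‖ ≤ C * ‖f‖) (f : P.K) : Memℓp (fun i => T i (f i)) 2 :=
  Memℓp.mono' (g := fun i => (C • f : P.K) i) (lp.memℓp (C • f)) (P.dg_le T C hC h f)

/-- diagonal operators on `K`, linear version -/
noncomputable def dgl (T : ∀ i, P.Blk i →ₗ[ℝ] P.Blk i) (C : ℝ) (hC : 0 ≤ C)
    (h : ∀ i f, ‖T i f‖ ≤ C * ‖f‖) : P.K →ₗ[ℝ] P.K where
  toFun := fun f => ⟨fun i => T i (f i), P.dg_mem T C hC h f⟩
  map_add' := fun f f' => lp.ext (funext fun i => by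
    show T i ((f + f' : P.K) i) = T i (f i) + T i (f' i)
    rw [lp.coeFn_add, Pi.add_apply, map_add])
  map_smul' := fun c f => lp.ext (funext fun i => by
    show T i ((c • f : P.K) i) = c • T i (f i)
    rw [lp.coeFn_smul, Pi.smul_apply, map_smul])

theorem dgl_norm_le (T : ∀ i, P.Blk i →ₗ[ℝ] P.Blk i) (C : ℝ) (hC : 0 ≤ C)
    (h : ∀ i f, ‖T i f‖ ≤ C * ‖f‖) (f : P.K) : ‖P.dgl T C hC h f‖ ≤ C * ‖f‖ := by
  have h1 : ‖P.dgl T C hC h f‖ ≤ ‖C • f‖ := lp.norm_mono (by norm_num) (P.dg_le T C hC h f)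
  have h2 : ‖C • f‖ = C * ‖f‖ := by rw [norm_smul, Real.norm_eq_abs, abs_of_nonneg hC]
  exact h1.trans h2.le

/-- diagonal operators on `K` -/
noncomputable def dg (T : ∀ i, P.Blk i →ₗ[ℝ] P.Blk i) (C : ℝ) (hC : 0 ≤ C)
    (h : ∀ i f, ‖T i f‖ ≤ C * ‖f‖) : P.K →L[ℝ] P.K :=
  LinearMap.mkContinuous (P.dgl T C hC h) C (P.dgl_norm_le T C hC h)

theorem dg_apply (T : ∀ i, P.Blk i →ₗ[ℝ] P.Blk i) (C : ℝ) (hC : 0 ≤ C)
    (h : ∀ i f, ‖T i f‖ ≤ C * ‖f‖) (f : P.K) (i : ℕ) : (P.dg T C hC h f : P.K) i = T i (f i) := rfl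

theorem dg_norm_le (T : ∀ i, P.Blk i →ₗ[ℝ] P.Blk i) (C : ℝ) (hC : 0 ≤ C)
    (h : ∀ i f, ‖T i f‖ ≤ C * ‖f‖) (f : P.K) : ‖P.dg T C hC h f‖ ≤ C * ‖f‖ :=
  P.dgl_norm_le T C hC h f

open Classical in
/-- restriction to the levels in `S`, level by level -/
noncomputable def restrB (S : Set ℕ) (i : ℕ) : P.Blk i →ₗ[ℝ] P.Blk i :=
  if i ∈ S then LinearMap.id else 0

theorem restrB_norm_le (S : Set ℕ) (i : ℕ) (f : P.Blk i) : ‖P.restrB S i f‖ ≤ 1 * ‖f‖ := by
  unfold restrB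
  split_ifs
  · simp
  · simp

/-- restriction to the levels in `S` -/
noncomputable def restr (S : Set ℕ) : P.K →L[ℝ] P.K :=
  P.dg (P.restrB S) 1 zero_le_one (P.restrB_norm_le S)

theorem restr_mem {S : Set ℕ} {i : ℕ} (h : i ∈ S) (f : P.K) : (P.restr S f : P.K) i = f i := by
  rw [restr, dg_apply, restrB, if_pos h]
  rfl

theorem restr_not_mem {S : Set ℕ} {i : ℕ} (h : i ∉ S) (f : P.K) :
    (P.restr S f : P.K) i = 0 := by
  rw [restr, dg_apply, restrB, if_neg h]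
  rfl

theorem restr_norm_le (S : Set ℕ) (f : P.K) : ‖P.restr S f‖ ≤ ‖f‖ := by
  have := P.dg_norm_le (P.restrB S) 1 zero_le_one (P.restrB_norm_le S) f
  rw [one_mul] at this
  exact this

/-- every element of `K` is the sum of its positions at level `i` and of its restrictions to the
lower and to the higher levels -/
theorem decomp (i : ℕ) (f : P.K) :
    f = ∑ m ∈ Finset.range (P.L i + 1), P.iot i m (bc (f i) m) + P.restr {j | j < i} f +
      P.restr {j | i < j} f := by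
  apply lp.ext
  funext j
  rw [lp.coeFn_add, lp.coeFn_add, Pi.add_apply, Pi.add_apply, lp.coeFn_sum, Finset.sum_apply]
  rcases lt_trichotomy j i with h | h | h
  · rw [restr_mem _ (show j ∈ {j | j < i} from h),
      restr_not_mem _ (show j ∉ {j | i < j} from fun hh => absurd (show i < j from hh) (by omega)),
      Finset.sum_eq_zero fun m _ => P.iot_apply_ne i m _ (by omega)]
    simp
  · subst h
    rw [restr_not_mem _ (show j ∉ {i | i < j} from fun hh => absurd (show j < j from hh) (by omega)),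
      restr_not_mem _ (show j ∉ {i | j < i} from fun hh => absurd (show j < j from hh) (by omega)),
      add_zero, add_zero]
    apply blk_ext
    intro m hm x
    have hb : bc (∑ m ∈ Finset.range (P.L j + 1), (P.iot j m (bc (f j) m) : P.K) j) m =
        ∑ m' ∈ Finset.range (P.L j + 1), bc ((P.iot j m' (bc (f j) m') : P.K) j) m := by
      induction Finset.range (P.L j + 1) using Finset.induction_on with
      | empty => rw [Finset.sum_empty, Finset.sum_empty, bc_zero]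
      | insert a s ha ih => rw [Finset.sum_insert ha, Finset.sum_insert ha, bc_add, ih]
    rw [hb, Finset.sum_eq_single m]
    · rw [iot_apply_self, bc_put, if_pos ⟨rfl, hm⟩]
    · intro m' _ hne
      rw [iot_apply_self, bc_put, if_neg (fun hh => hne hh.1.symm)]
    · intro hh
      exact absurd (Finset.mem_range.2 (by omega)) hh
  · rw [restr_not_mem _ (show j ∉ {j | j < i} from fun hh => absurd (show j < i from hh) (by omega)),
      restr_mem _ (show j ∈ {j | i < j} from h),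
      Finset.sum_eq_zero fun m _ => P.iot_apply_ne i m _ (by omega)]
    simp

/-- the constant section `δ_x` of level `i` -/
noncomputable def cs (i : ℕ) (x : P.G i) : P.K :=
  ∑ m ∈ Finset.range (P.L i + 1), P.iot i m (dl x)

/-- the matrix `e_{mk}` of `e` at level `i` -/
noncomputable def em (e : P.Zt →L[ℝ] P.Zt) (i m k : ℕ) : Matrix (P.G i) (P.G i) ℝ :=
  fun l a => P.co i m (e (P.π (P.iot i k (dl a)))) l

/-- the matrix `X_m` of `e` at level `i` -/
noncomputable def xm (e : P.Zt →L[ℝ] P.Zt) (i m : ℕ) : Matrix (P.G i) (P.G i) ℝ :=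
  fun l a => P.co i m (e (P.π (P.cs i a))) l

/-- absolute constant of [S1T]: at least `1 + 12! e^{1/2}` -/
def C0 : ℝ := 10 ^ 9

/-- the trace norm bound in [SQ] -/
noncomputable def nu (i : ℕ) (E : ℝ) : ℝ :=
  (P.L i : ℝ) * (4 * P.L i * E) ^ 2 * P.h i + (4 * P.L i * E) ^ 2 * √(P.h i) +
    8 * P.L i * E ^ 2 * (√(P.Rl i / P.D i) + C0 * P.D i ^ (-(P.g i / 2)))

/-- the asymptotic conditions on the parameters (text II.8) -/
structure Good : Prop where
  L_top : Tendsto (fun i => (P.L i : ℝ)) atTop atTop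
  sum : Summable fun i => √(2 * (P.L (i + 1) : ℝ) + 1) * (P.θ i + P.ψ i)
  ω0 : Tendsto (fun i => (P.L i : ℝ) * P.D i ^ (-(5 / 6) : ℝ)) atTop (𝓝 0)
  h0 : Tendsto (fun i => (P.L i : ℝ) ^ 4 * √(P.h i)) atTop (𝓝 0)
  R0 : Tendsto (fun i => (P.L i : ℝ) ^ 3 * √(P.Rl i / P.D i)) atTop (𝓝 0)
  g0 : Tendsto (fun i => (P.L i : ℝ) ^ 3 * P.D i ^ (-(P.g i / 2))) atTop (𝓝 0)
  n0 : ∃ n : ℕ → ℕ, (∀ i, 0 < n i ∧ n i ∣ P.d' (i + 1)) ∧
    Tendsto (fun i => (P.L (i + 1) : ℝ) ^ 2 * (n i : ℝ) ^ (-(P.g (i + 1) / 2))) atTop (𝓝 0) ∧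
    Tendsto (fun i => (P.L (i + 1) : ℝ) ^ 2 * P.θ i * (n i : ℝ)) atTop (𝓝 0)

end Dat

end Pool.Agent.MP_e87d84
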