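import Pool.Agent.Lib.MP_e87d84_an.SpecB
import Pool.Agent.Lib.MP_e87d84_an.Tel

section
/-!
MP_e87d84_an : final assembly.
-/
set_option autoImplicit false

open Filter Topology

namespace Pool.Agent.MP_e87d84

theorem final (hI : SpecI) (hII : SpecII) (hZ : SpecZDM) (hP : SpecPARAM) :
    ¬ (∀ (𝕜 : Type) [RCLike 𝕜] (E : Type) [NormedAddCommGroup E] [NormedSpace 𝕜 E] [CompleteSpace E],
      (∃ (u : ℕ → E →L[𝕜] E) (lam : ℝ),
          (∀ n, (u n).comp (u n) = u n) ∧
          (∀ n, FiniteDimensional 𝕜 (LinearMap.range ((u n : E →L[𝕜] E) : E →ₗ[𝕜] E))) ∧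
          (∀ n, ‖u n‖ ≤ lam) ∧
          (∀ x : E, Tendsto (fun n => u n x) atTop (𝓝 x)) ∧
          Monotone (fun n => LinearMap.range ((u n : E →L[𝕜] E) : E →ₗ[𝕜] E))) →
      ∃ (v : ℕ → E →L[𝕜] E) (C : ℝ),
          (∀ k n, (v k).comp (v n) = v (min k n)) ∧
          (∀ n, FiniteDimensional 𝕜 (LinearMap.range ((v n : E →L[𝕜] E) : E →ₗ[𝕜] E))) ∧
          (∀ n, ‖v n‖ ≤ C) ∧
          (∀ x : E, Tendsto (fun n => v n x) atTop (𝓝 x)) ∧
          Monotone (fun n => LinearMap.range ((v n : E →L[𝕜] E) : E →ₗ[𝕜] E))) := by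
  intro H
  obtain ⟨P, hG⟩ := hP
  obtain ⟨D, hD⟩ := hZ P
  refine hII P hG D hD (hI ?_ P.Zt D)
  intro E _ _ _ hE
  exact H ℝ E hE

end Pool.Agent.MP_e87d84
end

section
/-!
MP_e87d84_an, module DAV (text II.9): the sign matrices, from RAND.
-/
set_option autoImplicit false

open Filter Topology

namespace Pool.Agent.MP_e87d84

namespace DAVM

/-- the group `F_2^c` -/
abbrev A (c : ℕ) : Type := Fin c → Bool

/-- the sign `(-1)^b` -/
def sb (b : Bool) : ℝ := if b then -1 else 1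

theorem sb_sq (b : Bool) : sb b ^ 2 = 1 := by cases b <;> simp [sb]

theorem sb_xor (a b : Bool) : sb (xor a b) = sb a * sb b := by cases a <;> cases b <;> simp [sb]

/-- addition in `F_2^c` -/
def xo {c : ℕ} (x y : A c) : A c := fun k => xor (x k) (y k)

/-- the zero of `F_2^c` -/
def ze {c : ℕ} : A c := fun _ => false

theorem xo_ne {c : ℕ} {x y : A c} (h : x ≠ y) : xo x y ≠ ze := by
  intro h0
  apply h
  funext k
  have := congrFun h0 k
  unfold xo ze at this
  revert this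
  cases x k <;> cases y k <;> simp

theorem xo_self_xo {c : ℕ} (z x y : A c) (h : x ≠ y) : xo z x ≠ xo z y := by
  intro h0
  apply h
  funext k
  have := congrFun h0 k
  unfold xo at this
  revert this
  cases x k <;> cases y k <;> cases z k <;> simp

theorem ne_xo {c : ℕ} (z x : A c) (h : x ≠ ze) : z ≠ xo z x := by
  intro h0
  apply h
  funext k
  have := congrFun h0 k
  unfold xo at this
  unfold ze
  revert this
  cases x k <;> cases z k <;> simp

/-- the characters -/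
def ch {c : ℕ} (x h : A c) : ℝ := ∏ k, sb (x k && h k)

theorem ch_sq {c : ℕ} (x h : A c) : ch x h ^ 2 = 1 := by
  unfold ch
  rw [← Finset.prod_pow]
  exact Finset.prod_eq_one fun k _ => sb_sq _

theorem ch_comm {c : ℕ} (x h : A c) : ch x h = ch h x := by
  unfold ch
  exact Finset.prod_congr rfl fun k _ => by rw [Bool.and_comm]

theorem ch_xo {c : ℕ} (x y h : A c) : ch (xo x y) h = ch x h * ch y h := by
  unfold ch
  rw [← Finset.prod_mul_distrib]
  apply Finset.prod_congr rfl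
  intro k _
  unfold xo
  cases x k <;> cases y k <;> cases h k <;> simp [sb]

theorem ch_xo_right {c : ℕ} (x h h' : A c) : ch x (xo h h') = ch x h * ch x h' := by
  rw [ch_comm, ch_xo, ch_comm h, ch_comm h']

theorem ch_ze {c : ℕ} (h : A c) : ch ze h = 1 := by
  unfold ch
  exact Finset.prod_eq_one fun k _ => by simp [ze, sb]

theorem ch_ze_right {c : ℕ} (x : A c) : ch x ze = 1 := by rw [ch_comm, ch_ze]

theorem ch_sum {c : ℕ} {x : A c} (hx : x ≠ ze) : ∑ h, ch x h = 0 := by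
  obtain ⟨k, hk⟩ : ∃ k, x k = true := by
    by_contra hcon
    push Not at hcon
    apply hx
    funext k
    have := hcon k
    unfold ze
    revert this
    cases x k <;> simp
  have h2 := (Finset.prod_univ_sum (fun _ : Fin c => (Finset.univ : Finset Bool))
    (fun k b => sb (x k && b))).symm
  rw [Fintype.piFinset_univ] at h2
  unfold ch
  rw [h2]
  apply Finset.prod_eq_zero (Finset.mem_univ k)
  rw [hk]
  simp [sb]

theorem ch_sum' {c : ℕ} {x : A c} (hx : x ≠ ze) : ∑ h, ch h x = 0 := by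
  rw [← ch_sum hx]
  exact Finset.sum_congr rfl fun h _ => ch_comm _ _

/-- a signed character of `A × A` -/
def cc {c : ℕ} (a : ℝ) (x x' : A c) (h : A c × A c) : ℝ := a * ch x h.1 * ch x' h.2

theorem cc_sq {c : ℕ} {a : ℝ} (ha : a ^ 2 = 1) (x x' : A c) (h : A c × A c) :
    cc a x x' h ^ 2 = 1 := by
  unfold cc
  rw [mul_pow, mul_pow, ha, ch_sq, ch_sq]
  norm_num

theorem cc_orth {c : ℕ} (a b : ℝ) {x x' y y' : A c} (h : x ≠ y ∨ x' ≠ y') :
    ∑ g, cc a x x' g * cc b y y' g = 0 := by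
  have e : ∑ g, cc a x x' g * cc b y y' g =
      a * b * (∑ g1, ch (xo x y) g1) * ∑ g2, ch (xo x' y') g2 := by
    rw [Fintype.sum_prod_type, mul_assoc, Finset.sum_mul_sum, Finset.mul_sum]
    apply Finset.sum_congr rfl
    intro g1 _
    rw [Finset.mul_sum]
    apply Finset.sum_congr rfl
    intro g2 _
    unfold cc
    rw [ch_xo, ch_xo]
    ring
  rw [e]
  rcases h with h | h
  · rw [ch_sum (xo_ne h)]
    ring
  · rw [ch_sum (xo_ne h)]
    ring

/-- the family `τ` of a level -/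
def ta {c : ℕ} (ψ : A c → A c × Bool) (x : A c) (h : A c × A c) : ℝ :=
  cc (sb (ψ x).2) x (ψ x).1 h

/-- the family `σ` of a level -/
def si {c : ℕ} (ψ : A c → A c × Bool) (w : Fin (2 ^ (c - 1)) → A c)
    (x : A c × Fin (2 ^ (c - 1))) (h : A c × A c) : ℝ :=
  cc 1 x.1 (xo (ψ x.1).1 (w x.2)) h

/-- the bound -/
noncomputable def bd (c : ℕ) : ℝ := √(2 ^ c : ℝ) * (3 * c + 4)

theorem bd_nonneg (c : ℕ) : 0 ≤ bd c := by unfold bd; positivity

theorem card_A (c : ℕ) : Fintype.card (A c) = 2 ^ c := by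
  rw [Fintype.card_fun, Fintype.card_bool, Fintype.card_fin]

theorem ta_orth {c : ℕ} (ψ : A c → A c × Bool) {x y : A c} (h : x ≠ y) :
    ∑ g, ta ψ x g * ta ψ y g = 0 := cc_orth _ _ (Or.inl h)

theorem si_orth {c : ℕ} (ψ : A c → A c × Bool) {w : Fin (2 ^ (c - 1)) → A c}
    (hw : Function.Injective w) {x y : A c × Fin (2 ^ (c - 1))} (h : x ≠ y) :
    ∑ g, si ψ w x g * si ψ w y g = 0 := by
  apply cc_orth
  by_cases h1 : x.1 = y.1
  · right
    rw [h1]
    apply xo_self_xo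
    intro h2
    exact h (Prod.ext h1 (hw h2))
  · left
    exact h1

theorem ta_si_orth {c : ℕ} (ψ : A c → A c × Bool) {w : Fin (2 ^ (c - 1)) → A c}
    (hw : ∀ m, w m ≠ ze) (x : A c) (y : A c × Fin (2 ^ (c - 1))) :
    ∑ g, ta ψ x g * si ψ w y g = 0 := by
  apply cc_orth
  by_cases h1 : x = y.1
  · right
    rw [h1]
    exact ne_xo _ _ (hw _)
  · left
    exact h1

/-- the signs in RAND -/
def vI {c : ℕ} {Γ : Type} (s : Γ → A c → ℝ) : (Γ × (A c × A c)) ⊕ (A c × A c) → A c → ℝ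
  | Sum.inl gh => fun x => s gh.1 x * ch x gh.2.1
  | Sum.inr k => fun x => ch x k.1

open Classical in
/-- the balanced functions in RAND -/
noncomputable def xI {c : ℕ} {Γ : Type} : (Γ × (A c × A c)) ⊕ (A c × A c) → A c × Bool → ℝ
  | Sum.inl gh => fun y => sb y.2 * ch y.1 gh.2.2
  | Sum.inr k => fun y => if k.2 = ze then sb y.2 else ch y.1 k.2

theorem xI_inr {c : ℕ} {Γ : Type} {k : A c × A c} (hk : k.2 ≠ ze) (y : A c × Bool) :
    xI (Γ := Γ) (Sum.inr k) y = ch y.1 k.2 := by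
  unfold xI
  simp only [if_neg hk]

/-- the random choice of a level -/
theorem exists_psi (hR : SpecRAND) (c : ℕ) (Γ : Type) [Fintype Γ]
    (hΓ : Fintype.card Γ ≤ 2 ^ (c + 1)) (s : Γ → A c → ℝ) (hs : ∀ g x, s g x ^ 2 = 1) :
    ∃ ψ : A c → A c × Bool, (∀ g h, |∑ x, s g x * ta ψ x h| ≤ bd c) ∧
      ∀ k : A c × A c, k ≠ (ze, ze) → |∑ x, ch x k.1 * ch (ψ x).1 k.2| ≤ bd c := by
  classical
  have : Nonempty ((Γ × (A c × A c)) ⊕ (A c × A c)) := ⟨Sum.inr (ze, ze)⟩
  have : Nonempty (A c × Bool) := ⟨(ze, true)⟩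
  obtain ⟨ψ, hψ⟩ := hR (A c) (A c × Bool) ((Γ × (A c × A c)) ⊕ (A c × A c)) (vI s) xI
    (by
      rintro (gh | k) x
      · show (s gh.1 x * ch x gh.2.1) ^ 2 = 1
        rw [mul_pow, hs, ch_sq, mul_one]
      · exact ch_sq _ _)
    (by
      rintro (gh | k) y
      · show (sb y.2 * ch y.1 gh.2.2) ^ 2 = 1
        rw [mul_pow, sb_sq, ch_sq, mul_one]
      · show (if k.2 = ze then sb y.2 else ch y.1 k.2) ^ 2 = 1
        split_ifs
        · exact sb_sq _
        · exact ch_sq _ _)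
    (by
      rintro (gh | k)
      · show ∑ y : A c × Bool, sb y.2 * ch y.1 gh.2.2 = 0
        rw [Fintype.sum_prod_type]
        apply Finset.sum_eq_zero
        intro y _
        simp [sb]
      · show ∑ y : A c × Bool, (if k.2 = ze then sb y.2 else ch y.1 k.2) = 0
        split_ifs with hk
        · rw [Fintype.sum_prod_type]
          apply Finset.sum_eq_zero
          intro y _
          simp [sb]
        · rw [Fintype.sum_prod_type_right]
          exact Finset.sum_eq_zero fun b _ => ch_sum' hk)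
  have hcard : Fintype.card ((Γ × (A c × A c)) ⊕ (A c × A c)) ≤ 2 ^ (3 * c + 2) := by
    rw [Fintype.card_sum, Fintype.card_prod, Fintype.card_prod, card_A]
    calc Fintype.card Γ * (2 ^ c * 2 ^ c) + 2 ^ c * 2 ^ c
        ≤ 2 ^ (c + 1) * (2 ^ c * 2 ^ c) + 2 ^ (c + 1) * (2 ^ c * 2 ^ c) := by
          apply Nat.add_le_add
          · exact Nat.mul_le_mul_right _ hΓ
          · exact Nat.le_mul_of_pos_left _ (by positivity)
      _ = 2 ^ (3 * c + 2) := by ring
  have hlog : Real.log (2 * Fintype.card ((Γ × (A c × A c)) ⊕ (A c × A c))) + 1 ≤ 3 * c + 4 := by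
    have hpos : 0 < Fintype.card ((Γ × (A c × A c)) ⊕ (A c × A c)) := Fintype.card_pos
    have h1 : (2 : ℝ) * Fintype.card ((Γ × (A c × A c)) ⊕ (A c × A c)) ≤ 2 ^ (3 * c + 3) := by
      have : (Fintype.card ((Γ × (A c × A c)) ⊕ (A c × A c)) : ℝ) ≤ 2 ^ (3 * c + 2) := by
        exact_mod_cast hcard
      calc (2 : ℝ) * Fintype.card ((Γ × (A c × A c)) ⊕ (A c × A c)) ≤ 2 * 2 ^ (3 * c + 2) := by
            linarith
        _ = _ := by ring
    have h2 : Real.log (2 * Fintype.card ((Γ × (A c × A c)) ⊕ (A c × A c))) ≤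
        (3 * c + 3 : ℕ) * Real.log 2 := by
      rw [← Real.log_pow]
      apply Real.log_le_log _ h1
      have : (0 : ℝ) < Fintype.card ((Γ × (A c × A c)) ⊕ (A c × A c)) := by exact_mod_cast hpos
      linarith
    have h3 : Real.log 2 ≤ 1 := by
      have := Real.log_two_lt_d9
      linarith
    have h4 : ((3 * c + 3 : ℕ) : ℝ) * Real.log 2 ≤ ((3 * c + 3 : ℕ) : ℝ) * 1 :=
      mul_le_mul_of_nonneg_left h3 (Nat.cast_nonneg _)
    push_cast at h2 h4 ⊢
    linarith
  have hbd : ∀ i, |∑ x, vI s i x * xI i (ψ x)| ≤ bd c := by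
    intro i
    refine (hψ i).trans ?_
    unfold bd
    rw [card_A]
    push_cast
    exact mul_le_mul_of_nonneg_left hlog (Real.sqrt_nonneg _)
  refine ⟨ψ, fun g h => ?_, fun k hk => ?_⟩
  · have h1 := hbd (Sum.inl (g, h))
    refine le_trans (le_of_eq ?_) h1
    congr 1
    apply Finset.sum_congr rfl
    intro x _
    show s g x * (sb (ψ x).2 * ch x h.1 * ch (ψ x).1 h.2) =
      s g x * ch x h.1 * (sb (ψ x).2 * ch (ψ x).1 h.2)
    ring
  · by_cases h2 : k.2 = ze
    · have h1 : k.1 ≠ ze := fun h1 => hk (Prod.ext h1 h2)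
      have h3 : ∑ x, ch x k.1 * ch (ψ x).1 k.2 = 0 := by
        rw [← ch_sum' h1]
        apply Finset.sum_congr rfl
        intro x _
        rw [h2, ch_ze_right, mul_one]
      rw [h3, abs_zero]
      exact bd_nonneg c
    · have h1 := hbd (Sum.inr k)
      refine le_trans (le_of_eq ?_) h1
      congr 1
      apply Finset.sum_congr rfl
      intro x _
      rw [xI_inr h2]
      rfl

/-- the kernel of `τ` -/
theorem ta_ker {c : ℕ} {ψ : A c → A c × Bool}
    (hψ : ∀ k : A c × A c, k ≠ (ze, ze) → |∑ x, ch x k.1 * ch (ψ x).1 k.2| ≤ bd c)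
    {g h : A c × A c} (hgh : g ≠ h) : |∑ x, ta ψ x g * ta ψ x h| ≤ bd c := by
  have hk : (xo g.1 h.1, xo g.2 h.2) ≠ ((ze, ze) : A c × A c) := by
    intro h0
    apply hgh
    by_contra hne
    rcases Classical.em (g.1 = h.1) with h1 | h1
    · have h2 : g.2 ≠ h.2 := fun h2 => hne (Prod.ext h1 h2)
      exact xo_ne h2 (Prod.ext_iff.1 h0).2
    · exact xo_ne h1 (Prod.ext_iff.1 h0).1
  refine le_trans (le_of_eq ?_) (hψ _ hk)
  congr 1
  apply Finset.sum_congr rfl
  intro x _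
  show sb (ψ x).2 * ch x g.1 * ch (ψ x).1 g.2 * (sb (ψ x).2 * ch x h.1 * ch (ψ x).1 h.2) =
    ch x (xo g.1 h.1) * ch (ψ x).1 (xo g.2 h.2)
  rw [ch_xo_right, ch_xo_right]
  linear_combination (ch x g.1 * ch (ψ x).1 g.2 * ch x h.1 * ch (ψ x).1 h.2) * sb_sq (ψ x).2

theorem cc_mul {c : ℕ} (x y z : A c) (g h : A c × A c) :
    cc 1 x (xo y z) g * cc 1 x (xo y z) h =
      ch x (xo g.1 h.1) * ch y (xo g.2 h.2) * ch z (xo g.2 h.2) := by
  unfold cc
  rw [ch_xo_right, ch_xo_right, ch_xo_right, ch_xo, ch_xo]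
  ring

/-- the kernel of `σ` -/
theorem si_ker {c : ℕ} {ψ : A c → A c × Bool}
    (hψ : ∀ k : A c × A c, k ≠ (ze, ze) → |∑ x, ch x k.1 * ch (ψ x).1 k.2| ≤ bd c)
    (w : Fin (2 ^ (c - 1)) → A c)
    {g h : A c × A c} (hgh : g ≠ h) :
    |∑ x, si ψ w x g * si ψ w x h| ≤ (2 : ℝ) ^ (c - 1) * bd c := by
  have hk : (xo g.1 h.1, xo g.2 h.2) ≠ ((ze, ze) : A c × A c) := by
    intro h0
    apply hgh
    by_contra hne
    rcases Classical.em (g.1 = h.1) with h1 | h1
    · have h2 : g.2 ≠ h.2 := fun h2 => hne (Prod.ext h1 h2)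
      exact xo_ne h2 (Prod.ext_iff.1 h0).2
    · exact xo_ne h1 (Prod.ext_iff.1 h0).1
  have e0 : ∀ (x : A c) (m : Fin (2 ^ (c - 1))), si ψ w (x, m) g * si ψ w (x, m) h =
      ch x (xo g.1 h.1) * ch (ψ x).1 (xo g.2 h.2) * ch (w m) (xo g.2 h.2) :=
    fun x m => cc_mul x (ψ x).1 (w m) g h
  have e : ∑ x, si ψ w x g * si ψ w x h =
      (∑ x, ch x (xo g.1 h.1) * ch (ψ x).1 (xo g.2 h.2)) * ∑ m, ch (w m) (xo g.2 h.2) := by
    rw [Fintype.sum_prod_type, Finset.sum_mul_sum]
    exact Finset.sum_congr rfl fun x _ => Finset.sum_congr rfl fun m _ => e0 x m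
  have h2 : |∑ m, ch (w m) (xo g.2 h.2)| ≤ (2 : ℝ) ^ (c - 1) := by
    refine (Finset.abs_sum_le_sum_abs _ _).trans (le_of_eq ?_)
    have h3 : ∀ m, |ch (w m) (xo g.2 h.2)| = 1 := by
      intro m
      rw [← Real.sqrt_sq_eq_abs, ch_sq, Real.sqrt_one]
    rw [Finset.sum_congr rfl fun m _ => h3 m, Finset.sum_const, Finset.card_univ,
      Fintype.card_fin, nsmul_eq_mul, mul_one, Nat.cast_pow, Nat.cast_ofNat]
  have h4 := hψ _ hk
  rw [e, abs_mul, mul_comm]
  exact mul_le_mul h2 h4 (abs_nonneg _) (by positivity)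

/-- many different nonzero vectors -/
theorem exists_w {c : ℕ} (hc : 1 ≤ c) : ∃ w : Fin (2 ^ (c - 1)) → A c,
    Function.Injective w ∧ ∀ m, w m ≠ ze := by
  classical
  have hcard : Fintype.card (Fin (2 ^ (c - 1))) ≤ Fintype.card {x : A c // x ≠ ze} := by
    rw [Fintype.card_fin, Fintype.card_subtype_compl, Fintype.card_subtype_eq, card_A]
    obtain ⟨c', rfl⟩ : ∃ c', c = c' + 1 := ⟨c - 1, by omega⟩
    have : 1 ≤ 2 ^ c' := Nat.one_le_two_pow
    simp only [Nat.add_sub_cancel]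
    rw [pow_succ]
    omega
  obtain ⟨f⟩ := Function.Embedding.nonempty_of_card_le hcard
  exact ⟨fun m => (f m : A c), fun m m' h => f.injective (Subtype.ext h), fun m => (f m).2⟩

end DAVM

open DAVM in
theorem specDAV (hR : SpecRAND) : SpecDAV := by
  intro c d d' hc hcs hdd
  classical
  -- identifications
  have hB : ∀ i, Nonempty (Fin (2 ^ c i) ≃ A (c i)) := fun i =>
    ⟨Fintype.equivOfCardEq (by rw [Fintype.card_fin, card_A])⟩
  have hH : ∀ i, Nonempty (Fin (d i) × Fin (d' i) ≃ A (c i) × A (c i)) := fun i =>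
    ⟨Fintype.equivOfCardEq (by
      rw [Fintype.card_prod, Fintype.card_prod, card_A, Fintype.card_fin, Fintype.card_fin,
        hdd i]
      ring)⟩
  have hE : ∀ i, Nonempty (A (c (i + 1)) ≃ A (c i) × Fin (2 ^ (c i - 1))) := fun i =>
    ⟨Fintype.equivOfCardEq (by
      rw [Fintype.card_prod, card_A, card_A, Fintype.card_fin, hcs i, ← pow_add]
      congr 1
      have := hc i
      omega)⟩
  have B : ∀ i, Fin (2 ^ c i) ≃ A (c i) := fun i => (hB i).some
  have H : ∀ i, Fin (d i) × Fin (d' i) ≃ A (c i) × A (c i) := fun i => (hH i).some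
  have E : ∀ i, A (c (i + 1)) ≃ A (c i) × Fin (2 ^ (c i - 1)) := fun i => (hE i).some
  have hw : ∀ i, ∃ w : Fin (2 ^ (c i - 1)) → A (c i),
      Function.Injective w ∧ ∀ m, w m ≠ ze := fun i => exists_w (hc i)
  choose w hwi hw0 using hw
  -- the recursion
  obtain ⟨ψ0, -, hψ0⟩ := exists_psi hR (c 0) Empty (by simp) (fun g _ => g.elim)
    (fun g _ => g.elim)
  have hstep : ∀ (i : ℕ) (ψ : A (c i) → A (c i) × Bool),
      ∃ ψ' : A (c (i + 1)) → A (c (i + 1)) × Bool,
      (∀ (g : A (c i) × A (c i)) h, |∑ x, si ψ (w i) (E i x) g * ta ψ' x h| ≤ bd (c (i + 1))) ∧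
      ∀ k : A (c (i + 1)) × A (c (i + 1)), k ≠ (ze, ze) →
        |∑ x, ch x k.1 * ch (ψ' x).1 k.2| ≤ bd (c (i + 1)) := by
    intro i ψ
    refine exists_psi hR (c (i + 1)) (A (c i) × A (c i)) ?_
      (fun g x => si ψ (w i) (E i x) g) (fun g x => cc_sq (by norm_num) _ _ _)
    rw [Fintype.card_prod, card_A, ← pow_add]
    apply Nat.pow_le_pow_right (by norm_num)
    have := hc i
    rw [hcs i]
    omega
  choose F hF1 hF2 using hstep
  let Ψ : ∀ i, A (c i) → A (c i) × Bool := fun i => Nat.rec ψ0 (fun i ψ => F i ψ) i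
  have hΨs : ∀ i, Ψ (i + 1) = F i (Ψ i) := fun i => rfl
  have hself : ∀ i, ∀ k : A (c i) × A (c i), k ≠ (ze, ze) →
      |∑ x, ch x k.1 * ch (Ψ i x).1 k.2| ≤ bd (c i) := by
    intro i
    rcases i with _ | i
    · exact hψ0
    · intro k hk
      rw [hΨs]
      exact hF2 i (Ψ i) k hk
  have hbd : ∀ i, bd (c i) = (3 * c i + 4) / √(2 ^ c i : ℝ) * (2 ^ c i : ℝ) := by
    intro i
    have h1 : (0 : ℝ) < √(2 ^ c i : ℝ) := Real.sqrt_pos.2 (by positivity)
    have h2 : √(2 ^ c i : ℝ) * √(2 ^ c i : ℝ) = 2 ^ c i := Real.mul_self_sqrt (by positivity)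
    unfold bd
    rw [div_mul_eq_mul_div, eq_div_iff h1.ne']
    linear_combination (3 * (c i : ℝ) + 4) * h2
  refine ⟨fun i j x => ta (Ψ i) (B i j) (H i x),
    fun i j x => si (Ψ i) (w i) (E i (B (i + 1) j)) (H i x), ?_, ?_, ?_, ?_, ?_, ?_, ?_, ?_⟩
  · intro i j x
    exact cc_sq (sb_sq _) _ _ _
  · intro i j x
    exact cc_sq (by norm_num) _ _ _
  · intro i j j' hj
    rw [(H i).sum_comp (fun g => ta (Ψ i) (B i j) g * ta (Ψ i) (B i j') g)]
    exact ta_orth _ fun h => hj ((B i).injective h)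
  · intro i j j' hj
    rw [(H i).sum_comp (fun g => si (Ψ i) (w i) (E i (B (i + 1) j)) g *
      si (Ψ i) (w i) (E i (B (i + 1) j')) g)]
    exact si_orth _ (hwi i) fun h => hj ((B (i + 1)).injective ((E i).injective h))
  · intro i j j'
    rw [(H i).sum_comp (fun g => ta (Ψ i) (B i j) g * si (Ψ i) (w i) (E i (B (i + 1) j')) g)]
    exact ta_si_orth _ (hw0 i) _ _
  · intro i x y hxy
    rw [← hbd, (B i).sum_comp (fun a => ta (Ψ i) a (H i x) * ta (Ψ i) a (H i y))]
    exact ta_ker (hself i) fun h => hxy ((H i).injective h)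
  · intro i x y hxy
    rw [(B (i + 1)).sum_comp (fun a => si (Ψ i) (w i) (E i a) (H i x) *
      si (Ψ i) (w i) (E i a) (H i y)),
      (E i).sum_comp (fun a => si (Ψ i) (w i) a (H i x) * si (Ψ i) (w i) a (H i y))]
    refine (si_ker (hself i) (w i) fun h => hxy ((H i).injective h)).trans (le_of_eq ?_)
    rw [hbd, hcs i]
    have h1 : (2 : ℝ) ^ (2 * c i - 1) = 2 ^ (c i - 1) * 2 ^ c i := by
      rw [← pow_add]
      congr 1
      have := hc i
      omega
    rw [h1]
    ring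
  · intro i x y
    rw [← hbd, (B (i + 1)).sum_comp (fun a => si (Ψ i) (w i) (E i a) (H i x) *
      ta (Ψ (i + 1)) a (H (i + 1) y)), hΨs]
    exact hF1 i (Ψ i) (H i x) (H (i + 1) y)

end Pool.Agent.MP_e87d84
end

section
/-!
MP_e87d84_an, module II : the final contradiction of Part II.
-/
set_option autoImplicit false

open Filter Topology

namespace Pool.Agent.MP_e87d84

open Dat

namespace TwoM

variable (P : Dat)

theorem Lpos (i : ℕ) : (0 : ℝ) < P.L i := by
  have := P.hL i; positivity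

theorem one_le_L (i : ℕ) : (1 : ℝ) ≤ P.L i := by
  have := P.hL i
  exact_mod_cast (by omega : 1 ≤ P.L i)

theorem two_le_L (i : ℕ) : (2 : ℝ) ≤ P.L i := by exact_mod_cast P.hL i

theorem Dpos (i : ℕ) : 0 < P.D i := by
  have h1 := P.hd i
  have h2 := P.hd' i
  unfold Dat.D
  positivity

theorem ω_nonneg (i : ℕ) : 0 ≤ P.ω i := by
  have := Dpos P i
  unfold Dat.ω
  positivity

theorem θ_nonneg (i : ℕ) : 0 ≤ P.θ i :=
  mul_nonneg (P.hk _) (add_nonneg (ω_nonneg P _) (ω_nonneg P _))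

theorem ψ_nonneg (i : ℕ) : 0 ≤ P.ψ i :=
  add_nonneg (mul_nonneg (P.hk _) (ω_nonneg P _)) (mul_nonneg (P.hk _) (ω_nonneg P _))

theorem θ_tendsto (hG : P.Good) : Tendsto P.θ atTop (𝓝 0) := by
  refine squeeze_zero (fun i => θ_nonneg P i) (fun i => ?_) hG.sum.tendsto_atTop_zero
  have h1 : (1 : ℝ) ≤ √(2 * (P.L (i + 1) : ℝ) + 1) := by
    rw [Real.one_le_sqrt]
    have := Lpos P (i + 1)
    linarith
  calc P.θ i ≤ 1 * (P.θ i + P.ψ i) := by linarith [ψ_nonneg P i]
    _ ≤ _ := mul_le_mul_of_nonneg_right h1 (add_nonneg (θ_nonneg P i) (ψ_nonneg P i))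

instance (i : ℕ) : Nonempty (P.G i) := by
  have h1 := P.hd i
  have h2 := P.hd' i
  exact ⟨(⟨0, by omega⟩, ⟨0, by omega⟩)⟩

theorem card_G (i : ℕ) : ((Finset.univ : Finset (P.G i)).card : ℝ) = P.D i := by
  simp [Dat.D]

end TwoM

open TwoM

theorem specII (hkb : SpecKB) (hcs : SpecCS) (hkapg : SpecKAPG) (hbeta : SpecBETA)
    (hfo : SpecFO) (hrun : SpecRUN) (hx0 : SpecX0) (hxl : SpecXL) : SpecII := by
  rintro P hG D hD ⟨O⟩
  -- (1) beta → 1
  let j : P.Zp →L[ℝ] D.Z' := P.Zp.subtypeL.codRestrict D.Z' (fun z => by rw [hD]; exact z.2)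
  have hj : ∀ z : P.Zp, ‖j z‖ = ‖z‖ := fun z => rfl
  let b'' : ℕ → P.Zp →L[ℝ] P.Zt := fun k => (O.b' k).comp j
  have hβ : Tendsto (fun i => P.beta i (O.A.comp P.Zp.subtypeL)) atTop (𝓝 1) := by
    refine hbeta P hG O.A b'' O.𝓕 O.C (fun k => ?_) (fun k => ?_) (fun z φ => ?_)
    · have := O.fin k
      refine Submodule.finiteDimensional_of_le (S₂ := LinearMap.range
        ((O.b' k : D.Z' →L[ℝ] P.Zt) : D.Z' →ₗ[ℝ] P.Zt)) ?_
      rintro _ ⟨z, rfl⟩
      exact ⟨j z, rfl⟩
    · refine ContinuousLinearMap.opNorm_le_bound _ (le_trans (norm_nonneg (O.b' k)) (O.bd k)) fun z => ?_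
      have h1 := (O.b' k).le_opNorm (j z)
      rw [hj] at h1
      exact h1.trans (mul_le_mul_of_nonneg_right (O.bd k) (norm_nonneg _))
    · exact O.lim (j z) φ
  -- (2) uniform smallness of κ on constant sections
  have hmax : ∀ i, ∃ x0 : P.G i, ∀ x, ‖O.κ (P.π (P.cs i x))‖ ≤ ‖O.κ (P.π (P.cs i x0))‖ :=
    fun i => Finite.exists_max (fun x : P.G i => ‖O.κ (P.π (P.cs i x))‖)
  choose x0 hx0' using hmax
  set c : ℕ → ℝ := fun i => ‖O.κ (P.π (P.cs i (x0 i)))‖ with hc
  have hc0 : Tendsto c atTop (𝓝 0) := by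
    have := O.small (fun i => P.π (P.cs i (x0 i))) (√2) (fun S => by
      rw [← map_sum]
      exact (P.π_norm_le _).trans (hcs P x0 S))
    exact tendsto_zero_iff_norm_tendsto_zero.1 this
  set e : P.Zt →L[ℝ] P.Zt := O.A - O.κ with he
  set E : ℝ := max 1 ‖e‖ with hE
  have hE1 : 1 ≤ E := le_max_left _ _
  have heE : ‖e‖ ≤ E := le_max_right _ _
  -- limits
  obtain ⟨n, hn, hn1, hn2⟩ := hG.n0
  have hsh : Tendsto (fun i : ℕ => i + 1) atTop atTop := tendsto_add_atTop_nat 1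
  have hθ := θ_tendsto P hG
  have hLinf : Tendsto (fun i => (P.L (i + 1) : ℝ)) atTop atTop := hG.L_top.comp hsh
  have hLinv : Tendsto (fun i => 1 / (P.L (i + 1) : ℝ)) atTop (𝓝 0) :=
    tendsto_const_nhds.div_atTop hLinf
  have hLsq : Tendsto (fun i => 1 / √(P.L (i + 1) : ℝ)) atTop (𝓝 0) :=
    tendsto_const_nhds.div_atTop (Real.tendsto_sqrt_atTop.comp hLinf)
  have h4 : Tendsto (fun i => (P.L (i + 1) : ℝ) ^ 4 * √(P.h (i + 1))) atTop (𝓝 0) :=
    hG.h0.comp hsh
  have h2 : Tendsto (fun i => (P.L (i + 1) : ℝ) ^ 2 * √(P.h (i + 1))) atTop (𝓝 0) := by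
    refine squeeze_zero (fun i => by positivity) (fun i => ?_) h4
    apply mul_le_mul_of_nonneg_right _ (Real.sqrt_nonneg _)
    exact pow_le_pow_right₀ (one_le_L P _) (by norm_num)
  have h5 : Tendsto (fun i => (P.L (i + 1) : ℝ) ^ 5 * P.h (i + 1)) atTop (𝓝 0) := by
    have hsq : Tendsto (fun i => ((P.L (i + 1) : ℝ) ^ 4 * √(P.h (i + 1))) ^ 2) atTop (𝓝 0) := by
      have := h4.pow 2
      simpa using this
    refine squeeze_zero (fun i => mul_nonneg (by positivity) (P.hh0 _).le) (fun i => ?_) hsq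
    rw [mul_pow, Real.sq_sqrt (P.hh0 _).le, ← pow_mul]
    apply mul_le_mul_of_nonneg_right _ (P.hh0 _).le
    exact pow_le_pow_right₀ (one_le_L P _) (by norm_num)
  have hR : Tendsto (fun i => (P.L (i + 1) : ℝ) ^ 3 * √(P.Rl (i + 1) / P.D (i + 1))) atTop (𝓝 0) :=
    hG.R0.comp hsh
  have hg3 : Tendsto (fun i => (P.L (i + 1) : ℝ) ^ 3 * P.D (i + 1) ^ (-(P.g (i + 1) / 2))) atTop
    (𝓝 0) := hG.g0.comp hsh
  have hν : Tendsto (fun i => (P.L (i + 1) : ℝ) ^ 2 * P.nu (i + 1) E) atTop (𝓝 0) := by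
    have e1 : (fun i => (P.L (i + 1) : ℝ) ^ 2 * P.nu (i + 1) E) = fun i =>
        16 * E ^ 2 * ((P.L (i + 1) : ℝ) ^ 5 * P.h (i + 1)) +
        16 * E ^ 2 * ((P.L (i + 1) : ℝ) ^ 4 * √(P.h (i + 1))) +
        (8 * E ^ 2 * ((P.L (i + 1) : ℝ) ^ 3 * √(P.Rl (i + 1) / P.D (i + 1))) +
        8 * E ^ 2 * C0 * ((P.L (i + 1) : ℝ) ^ 3 * P.D (i + 1) ^ (-(P.g (i + 1) / 2)))) := by
      funext i
      unfold Dat.nu
      ring
    rw [e1]
    have := ((h5.const_mul (16 * E ^ 2)).add (h4.const_mul (16 * E ^ 2))).add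
      ((hR.const_mul (8 * E ^ 2)).add (hg3.const_mul (8 * E ^ 2 * C0)))
    simpa using this
  have hν0 : ∀ i, 0 ≤ P.nu (i + 1) E := by
    intro i
    have h1 := (P.hh0 (i + 1)).le
    have h2 := (Dpos P (i + 1)).le
    have h3 : (0 : ℝ) ≤ C0 := by norm_num [C0]
    have h4 : 0 ≤ P.D (i + 1) ^ (-(P.g (i + 1) / 2)) := Real.rpow_nonneg h2 _
    unfold Dat.nu
    positivity
  have hLν : Tendsto (fun i => (P.L (i + 1) : ℝ) * √(P.nu (i + 1) E)) atTop (𝓝 0) := by
    have e1 : (fun i => (P.L (i + 1) : ℝ) * √(P.nu (i + 1) E)) = fun i =>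
        √((P.L (i + 1) : ℝ) ^ 2 * P.nu (i + 1) E) := by
      funext i
      rw [Real.sqrt_mul (sq_nonneg _), Real.sqrt_sq (Lpos P _).le]
    rw [e1]
    have := (Real.continuous_sqrt.tendsto 0).comp hν
    rw [Real.sqrt_zero] at this
    exact this
  have hνs : ∀ᶠ i in atTop, P.nu (i + 1) E ≤ 1 / 16 := by
    have := hν.eventually (gt_mem_nhds (show (0 : ℝ) < 1 / 16 by norm_num))
    filter_upwards [this] with i hi
    refine le_trans ?_ hi.le
    have h1 : (1 : ℝ) ≤ (P.L (i + 1) : ℝ) ^ 2 := one_le_pow₀ (one_le_L P _)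
    nlinarith [hν0 i]
  -- (3) the first order terms
  set a : ℕ → ℝ := fun i => ∑ x : P.G (i + 1), P.kg i x (O.A (P.π (P.cs (i + 1) x))) with ha
  have hS : ∀ i, |a i / P.D (i + 1) - P.beta i (O.A.comp P.Zp.subtypeL)| ≤
      4 * ‖O.A‖ * ((P.L (i + 1) : ℝ) ^ 2 * (n i : ℝ) ^ (-(P.g (i + 1) / 2)) +
        (P.L (i + 1) : ℝ) ^ 2 * P.θ i * (n i : ℝ)) := by
    intro i
    have hD1 := Dpos P (i + 1)
    set t : ℝ := ‖O.A‖ * √(2 * (P.L (i + 1) : ℝ) + 1) with ht
    have ht0 : 0 ≤ t := by positivity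
    set T : ℕ → (P.G (i + 1) → ℝ) →ₗ[ℝ] P.Zt := fun m =>
      ((O.A.comp P.π : P.K →L[ℝ] P.Zt) : P.K →ₗ[ℝ] P.Zt).comp (P.iot (i + 1) m) with hT
    have hsum : a i = ∑ m ∈ Finset.range (P.L (i + 1) + 1), ∑ x, P.kg i x (T m (dl x)) := by
      rw [Finset.sum_comm]
      refine Finset.sum_congr rfl fun x _ => ?_
      rw [Dat.cs, map_sum, map_sum, map_sum]
      rfl
    have hlast : ∑ x, P.kg i x (T (P.L (i + 1)) (dl x)) =
        P.D (i + 1) * P.beta i (O.A.comp P.Zp.subtypeL) := by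
      unfold Dat.beta
      rw [← mul_assoc, mul_one_div_cancel hD1.ne', one_mul]
      rfl
    rw [Finset.sum_range_succ, hlast] at hsum
    have hb : ∀ m ∈ Finset.range (P.L (i + 1)), |∑ x, P.kg i x (T m (dl x))| ≤ P.D (i + 1) *
        (2 * t * (√(P.L (i + 1) : ℝ) * (n i : ℝ) ^ (-(P.g (i + 1) / 2)) + P.θ i * n i)) := by
      intro m hm
      rw [Finset.mem_range] at hm
      refine hfo P i m (n i) (T m) t hm (hn i).1 (hn i).2 ht0 fun x => ?_
      have h1 := (hkb P (i + 1)).1 m hm.le x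
      have h2 : ‖T m x‖ ≤ ‖O.A‖ * ‖P.iot (i + 1) m x‖ :=
        (O.A.le_opNorm _).trans (mul_le_mul_of_nonneg_left (P.π_norm_le _) (norm_nonneg _))
      refine h2.trans ((mul_le_mul_of_nonneg_left h1 (norm_nonneg _)).trans (le_of_eq ?_))
      rw [ht]; ring
    have hb2 : |∑ m ∈ Finset.range (P.L (i + 1)), ∑ x, P.kg i x (T m (dl x))| ≤
        (P.L (i + 1) : ℝ) * (P.D (i + 1) *
        (2 * t * (√(P.L (i + 1) : ℝ) * (n i : ℝ) ^ (-(P.g (i + 1) / 2)) + P.θ i * n i))) := by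
      refine (Finset.abs_sum_le_sum_abs _ _).trans ((Finset.sum_le_sum hb).trans (le_of_eq ?_))
      rw [Finset.sum_const, Finset.card_range, nsmul_eq_mul]
    have hquot : a i / P.D (i + 1) - P.beta i (O.A.comp P.Zp.subtypeL) =
        (∑ m ∈ Finset.range (P.L (i + 1)), ∑ x, P.kg i x (T m (dl x))) / P.D (i + 1) := by
      rw [hsum]
      field_simp
      ring
    rw [hquot, abs_div, abs_of_pos hD1, div_le_iff₀ hD1]
    refine hb2.trans ?_
    set u : ℝ := (n i : ℝ) ^ (-(P.g (i + 1) / 2)) with hu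
    have hu0 : 0 ≤ u := Real.rpow_nonneg (Nat.cast_nonneg _) _
    have hL := Lpos P (i + 1)
    have hL1 := one_le_L P (i + 1)
    set l : ℝ := (P.L (i + 1) : ℝ) with hl
    have hs1 : √(2 * l + 1) ≤ 2 * √l := by
      have h4 : (2 : ℝ) * √l = √(4 * l) := by
        rw [Real.sqrt_mul (by norm_num), show (4 : ℝ) = 2 ^ 2 by norm_num,
          Real.sqrt_sq (by norm_num)]
      rw [h4]
      exact Real.sqrt_le_sqrt (by linarith)
    have hs2 : √l * √l = l := Real.mul_self_sqrt hL.le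
    have hs3 : √l ≤ l := by
      rw [Real.sqrt_le_left hL.le]; nlinarith
    have hA := norm_nonneg O.A
    have hθn := θ_nonneg P i
    have hnn : (0 : ℝ) ≤ n i := Nat.cast_nonneg _
    have hl0 : 0 ≤ √l := Real.sqrt_nonneg _
    have key : l * (2 * t * (√l * u + P.θ i * n i)) ≤
        4 * ‖O.A‖ * (l ^ 2 * u + l ^ 2 * P.θ i * n i) := by
      have k1 : t ≤ ‖O.A‖ * (2 * √l) := by
        rw [ht]; exact mul_le_mul_of_nonneg_left hs1 hA
      have k2 : 0 ≤ l * (√l * u + P.θ i * n i) := by positivity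
      calc l * (2 * t * (√l * u + P.θ i * n i)) = 2 * (t * (l * (√l * u + P.θ i * n i))) := by ring
        _ ≤ 2 * ((‖O.A‖ * (2 * √l)) * (l * (√l * u + P.θ i * n i))) := by
            apply mul_le_mul_of_nonneg_left _ (by norm_num)
            exact mul_le_mul_of_nonneg_right k1 k2
        _ = 4 * ‖O.A‖ * (l * (√l * √l) * u + l * √l * P.θ i * n i) := by ring
        _ ≤ 4 * ‖O.A‖ * (l ^ 2 * u + l ^ 2 * P.θ i * n i) := by
            apply mul_le_mul_of_nonneg_left _ (by positivity)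
            have : l * √l * P.θ i * n i ≤ l ^ 2 * P.θ i * n i := by
              apply mul_le_mul_of_nonneg_right _ hnn
              apply mul_le_mul_of_nonneg_right _ hθn
              nlinarith
            rw [hs2]
            nlinarith
    calc l * (P.D (i + 1) * (2 * t * (√l * u + P.θ i * n i)))
        = l * (2 * t * (√l * u + P.θ i * n i)) * P.D (i + 1) := by ring
      _ ≤ _ := mul_le_mul_of_nonneg_right key hD1.le
  have haD : Tendsto (fun i => a i / P.D (i + 1)) atTop (𝓝 1) := by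
    have h1 : Tendsto (fun i => 4 * ‖O.A‖ * ((P.L (i + 1) : ℝ) ^ 2 *
        (n i : ℝ) ^ (-(P.g (i + 1) / 2)) + (P.L (i + 1) : ℝ) ^ 2 * P.θ i * (n i : ℝ))) atTop
        (𝓝 0) := by
      have := (hn1.add hn2).const_mul (4 * ‖O.A‖)
      simpa using this
    have h2 := squeeze_zero_norm (f := fun i => a i / P.D (i + 1) -
      P.beta i (O.A.comp P.Zp.subtypeL)) (fun i => by
        rw [Real.norm_eq_abs]; exact hS i) h1
    have h3 := h2.add hβ
    simpa using h3
  -- (4) the inequality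
  have hmain : ∀ᶠ i in atTop, a i / P.D (i + 1) ≤
      (2 + P.θ i) * c (i + 1) + (4 * E * (P.θ i + 1 / √(P.L (i + 1) : ℝ)) +
          4 * P.L (i + 1) ^ 2 * E * √(P.h (i + 1))) +
      (48 * E ^ 2 / P.L (i + 1) + 192 * P.L (i + 1) ^ 5 * E ^ 2 * P.h (i + 1) +
          8 * P.L (i + 1) * √(P.nu (i + 1) E)) +
      (2 * c (i + 1) + 4 * P.L (i + 1) ^ 2 * E * √(P.h (i + 1))) := by
    filter_upwards [hνs] with i hi
    have hD1 := Dpos P (i + 1)
    rw [div_le_iff₀ hD1]
    have r1 := hxl P e E heE i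
    have r2 := hrun P e E O.idem heE hE1 (i + 1) hi
    have r3 := hx0 P O.A O.κ E (c (i + 1)) heE (fun z => by rw [← hD]; exact O.AZ' z) (i + 1)
      (fun x => hx0' (i + 1) x)
    have r3' := (abs_le.1 r3).2
    have r4 : ∑ x : P.G (i + 1), P.kg i x (e (P.π (P.cs (i + 1) x))) =
        a i - ∑ x : P.G (i + 1), P.kg i x (O.κ (P.π (P.cs (i + 1) x))) := by
      rw [ha, ← Finset.sum_sub_distrib]
      refine Finset.sum_congr rfl fun x _ => ?_
      rw [← map_sub]
      rfl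
    have r5 : ∑ x : P.G (i + 1), P.kg i x (O.κ (P.π (P.cs (i + 1) x))) ≤
        P.D (i + 1) * ((2 + P.θ i) * c (i + 1)) := by
      calc _ ≤ ∑ x : P.G (i + 1), (2 + P.θ i) * c (i + 1) := by
            refine Finset.sum_le_sum fun x _ => ?_
            refine (le_abs_self _).trans (((hkapg P i x).2 _).trans ?_)
            exact mul_le_mul_of_nonneg_left (hx0' (i + 1) x) (by linarith [θ_nonneg P i])
        _ = _ := by rw [Finset.sum_const, nsmul_eq_mul, card_G]
    have he' : (P.em (O.A - O.κ) (i + 1) 0 0).trace = (P.em e (i + 1) 0 0).trace := rfl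
    rw [he'] at r3'
    rw [r4] at r1
    linarith
  have hlim : Tendsto (fun i => (2 + P.θ i) * c (i + 1) + (4 * E * (P.θ i + 1 / √(P.L (i + 1) : ℝ)) +
          4 * P.L (i + 1) ^ 2 * E * √(P.h (i + 1))) +
      (48 * E ^ 2 / P.L (i + 1) + 192 * P.L (i + 1) ^ 5 * E ^ 2 * P.h (i + 1) +
          8 * P.L (i + 1) * √(P.nu (i + 1) E)) +
      (2 * c (i + 1) + 4 * P.L (i + 1) ^ 2 * E * √(P.h (i + 1)))) atTop (𝓝 0) := by
    have hc1 : Tendsto (fun i => c (i + 1)) atTop (𝓝 0) := hc0.comp hsh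
    have t1 := (tendsto_const_nhds (x := (2 : ℝ)).add hθ).mul hc1
    have t2 := (hθ.add hLsq).const_mul (4 * E)
    have t3 := h2.const_mul (4 * E)
    have t4 := hLinv.const_mul (48 * E ^ 2)
    have t5 := h5.const_mul (192 * E ^ 2)
    have t6 := hLν.const_mul 8
    have t7 := hc1.const_mul 2
    have t := ((t1.add (t2.add t3)).add ((t4.add t5).add t6)).add (t7.add t3)
    simp only [mul_zero, add_zero] at t
    refine t.congr fun i => ?_
    ring
  have : (1 : ℝ) ≤ 0 := le_of_tendsto_of_tendsto haD hlim hmain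
  norm_num at this

end Pool.Agent.MP_e87d84
end

section
/-!
MP_e87d84_an, module FIN0: Davie's functional tends to zero on finite rank operators.
-/
set_option autoImplicit false

open Filter Topology

namespace Pool.Agent.MP_e87d84

namespace Fin0M

open Dat

open TwoM

theorem rank_one (hN : SpecNF) (hK : SpecKB) (hkg : SpecKAPG) (P : Dat) (hG : P.Good)
    (φ : P.Zp →L[ℝ] ℝ) (z : P.Zt) :
    Tendsto (fun i => (1 / P.D (i + 1)) * ∑ x : P.G (i + 1),
      φ (P.zrp (i + 1) x) * P.kg i x z) atTop (𝓝 0) := by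
  obtain ⟨f, rfl⟩ := P.π_surj z
  have hsh : Tendsto (fun i : ℕ => i + 1) atTop atTop := tendsto_add_atTop_nat 1
  have h1 : Tendsto (fun i => (P.L (i + 1) : ℝ) * P.D (i + 1) ^ (-(5 / 6) : ℝ)) atTop (𝓝 0) :=
    hG.ω0.comp hsh
  have h2 : Tendsto (fun i => √(2 * (P.L (i + 1) : ℝ) + 1) * P.θ i) atTop (𝓝 0) := by
    refine squeeze_zero (fun i => mul_nonneg (Real.sqrt_nonneg _) (θ_nonneg P i)) (fun i => ?_)
      hG.sum.tendsto_atTop_zero
    exact mul_le_mul_of_nonneg_left (by linarith [ψ_nonneg P i]) (Real.sqrt_nonneg _)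
  have h3 := ((h1.const_mul 2).add h2).const_mul (‖φ‖ * ‖f‖)
  simp only [mul_zero, add_zero] at h3
  refine squeeze_zero_norm (fun i => ?_) h3
  rw [Real.norm_eq_abs, abs_mul, abs_of_pos (one_div_pos.2 (Dpos P (i + 1)))]
  have hD := Dpos P (i + 1)
  have hL := Lpos P (i + 1)
  have hL1 := one_le_L P (i + 1)
  set l : ℝ := (P.L (i + 1) : ℝ) with hl
  have hb : ∀ x : P.G (i + 1), |φ (P.zrp (i + 1) x) * P.kg i x (P.π f)| ≤
      ‖φ‖ * √(2 * l + 1) * (|bc (f (i + 1)) (P.L (i + 1)) x| + P.θ i * ‖f‖) := by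
    intro x
    rw [abs_mul]
    apply mul_le_mul _ _ (abs_nonneg _) (by positivity)
    · have := φ.le_opNorm (P.zrp (i + 1) x)
      rw [Real.norm_eq_abs] at this
      exact this.trans (mul_le_mul_of_nonneg_left (TelM.zrp_norm P hN hK (i + 1) x)
        (norm_nonneg _))
    · have h4 := (hkg P i x).1 f
      have h5 := abs_add_le (P.kg i x (P.π f) - bc (f (i + 1)) (P.L (i + 1)) x)
        (bc (f (i + 1)) (P.L (i + 1)) x)
      rw [sub_add_cancel] at h5
      linarith
  have hsum : |∑ x : P.G (i + 1), φ (P.zrp (i + 1) x) * P.kg i x (P.π f)| ≤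
      ‖φ‖ * √(2 * l + 1) * (P.ω (i + 1) * ‖f‖ + P.D (i + 1) * (P.θ i * ‖f‖)) := by
    refine (Finset.abs_sum_le_sum_abs _ _).trans ((Finset.sum_le_sum fun x _ => hb x).trans ?_)
    rw [← Finset.mul_sum, Finset.sum_add_distrib, Finset.sum_const, nsmul_eq_mul, card_G]
    apply mul_le_mul_of_nonneg_left _ (by positivity)
    linarith [(hK P (i + 1)).2.2.2.2.1 f]
  have hω : 1 / P.D (i + 1) * (√(2 * l + 1) * P.ω (i + 1)) ≤
      2 * (l * P.D (i + 1) ^ (-(5 / 6) : ℝ)) := by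
    have e1 : 1 / P.D (i + 1) * P.D (i + 1) ^ (1 / 6 : ℝ) = P.D (i + 1) ^ (-(5 / 6) : ℝ) := by
      rw [one_div, ← Real.rpow_neg_one, ← Real.rpow_add hD]
      norm_num
    have e2 : √(2 * l + 1) * √l ≤ 2 * l := by
      rw [← Real.sqrt_mul (by positivity)]
      apply Real.sqrt_le_iff.2
      constructor
      · positivity
      · nlinarith
    have e3 : 0 ≤ P.D (i + 1) ^ (-(5 / 6) : ℝ) := Real.rpow_nonneg hD.le _
    calc 1 / P.D (i + 1) * (√(2 * l + 1) * P.ω (i + 1))
        = (1 / P.D (i + 1) * P.D (i + 1) ^ (1 / 6 : ℝ)) * (√(2 * l + 1) * √l) := by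
          rw [Dat.ω]; ring
      _ ≤ P.D (i + 1) ^ (-(5 / 6) : ℝ) * (2 * l) := by
          rw [e1]; exact mul_le_mul_of_nonneg_left e2 e3
      _ = _ := by ring
  calc 1 / P.D (i + 1) * |∑ x : P.G (i + 1), φ (P.zrp (i + 1) x) * P.kg i x (P.π f)|
      ≤ 1 / P.D (i + 1) * (‖φ‖ * √(2 * l + 1) * (P.ω (i + 1) * ‖f‖ +
        P.D (i + 1) * (P.θ i * ‖f‖))) :=
        mul_le_mul_of_nonneg_left hsum (one_div_pos.2 hD).le
    _ = ‖φ‖ * ‖f‖ * (1 / P.D (i + 1) * (√(2 * l + 1) * P.ω (i + 1)) +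
        (1 / P.D (i + 1) * P.D (i + 1)) * (√(2 * l + 1) * P.θ i)) := by ring
    _ ≤ ‖φ‖ * ‖f‖ * (2 * (l * P.D (i + 1) ^ (-(5 / 6) : ℝ)) + √(2 * l + 1) * P.θ i) := by
        rw [one_div_mul_cancel hD.ne', one_mul]
        apply mul_le_mul_of_nonneg_left _ (by positivity)
        linarith

end Fin0M

open Fin0M

theorem specFIN0 (hN : SpecNF) (hK : SpecKB) (hkg : SpecKAPG) : SpecFIN0 := by
  intro P hG T hfin
  let W := LinearMap.range (T : P.Zp →ₗ[ℝ] P.Zt)
  have hW : FiniteDimensional ℝ W := hfin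
  let b := Module.finBasis ℝ W
  let T' : P.Zp →L[ℝ] W := T.codRestrict W (fun z => ⟨z, rfl⟩)
  let φ : Fin (Module.finrank ℝ W) → (P.Zp →L[ℝ] ℝ) := fun r =>
    (LinearMap.toContinuousLinearMap (b.coord r)).comp T'
  have hT : ∀ z, T z = ∑ r, φ r z • (b r : P.Zt) := by
    intro z
    have h1 : (T' z : P.Zt) = T z := rfl
    have h2 := b.sum_repr (T' z)
    have h3 := congrArg (fun w : W => (w : P.Zt)) h2
    simp only [AddSubmonoidClass.coe_finsetSum, Submodule.coe_smul] at h3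
    rw [← h1, ← h3]
    rfl
  have hb : ∀ i, P.beta i T = ∑ r, (1 / P.D (i + 1)) * ∑ x : P.G (i + 1),
      φ r (P.zrp (i + 1) x) * P.kg i x (b r : P.Zt) := by
    intro i
    rw [← Finset.mul_sum, Finset.sum_comm]
    unfold Dat.beta
    congr 1
    refine Finset.sum_congr rfl fun x _ => ?_
    rw [hT, map_sum]
    refine Finset.sum_congr rfl fun r _ => ?_
    rw [map_smul, smul_eq_mul]
  have h := tendsto_finsetSum (Finset.univ : Finset (Fin (Module.finrank ℝ W)))
    (fun r _ => rank_one hN hK hkg P hG (φ r) (b r : P.Zt))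
  simp only [Finset.sum_const_zero] at h
  exact h.congr fun i => (hb i).symm

end Pool.Agent.MP_e87d84
end

section
/-!
MP_e87d84_an, module S1T: trace norm of a matrix whose columns are images of a family with an
upper `r`-estimate in average.
-/
set_option autoImplicit false

namespace Pool.Agent.MP_e87d84

namespace S1tM

open Finset

variable {ι : Type*} [Fintype ι] [DecidableEq ι]

lemma Av_mono {F F' : (ι → Bool) → ℝ} (h : ∀ ε, F ε ≤ F' ε) : Av F ≤ Av F' := by
  unfold Av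
  gcongr
  exact h _

lemma Av_sum {κ : Type*} (s : Finset κ) (F : κ → (ι → Bool) → ℝ) :
    Av (fun ε => ∑ k ∈ s, F k ε) = ∑ k ∈ s, Av (F k) := by
  unfold Av
  rw [Finset.sum_comm, Finset.sum_div]

lemma Av_mul (c : ℝ) (F : (ι → Bool) → ℝ) : Av (fun ε => c * F ε) = c * Av F := by
  unfold Av
  rw [← Finset.mul_sum, mul_div_assoc]

lemma Av_add (F F' : (ι → Bool) → ℝ) : Av (fun ε => F ε + F' ε) = Av F + Av F' := by
  unfold Av
  rw [Finset.sum_add_distrib, add_div]

lemma Av_const (c : ℝ) : Av (fun _ : ι → Bool => c) = c := by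
  unfold Av
  simp

lemma Av_nonneg {F : (ι → Bool) → ℝ} (h : ∀ ε, 0 ≤ F ε) : 0 ≤ Av F := by
  unfold Av
  have : 0 ≤ ∑ ε, F ε := Finset.sum_nonneg fun ε _ => h ε
  positivity

/-- product formula -/
lemma Av_prod (f : ι → Bool → ℝ) :
    Av (fun ε => ∏ i, f i (ε i)) = ∏ i, ((f i true + f i false) / 2) := by
  unfold Av
  rw [Finset.prod_div_distrib, Finset.prod_const, Finset.card_univ]
  congr 1
  have h := Finset.prod_univ_sum (fun _ : ι => (Finset.univ : Finset Bool)) f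
  simp only [Fintype.sum_bool, Fintype.piFinset_univ] at h
  exact h.symm

lemma Av_sg_sg (a b : ι) : Av (fun ε : ι → Bool => sg (ε a) * sg (ε b)) = if a = b then 1 else 0 := by
  split_ifs with h
  · subst h
    have : (fun ε : ι → Bool => sg (ε a) * sg (ε a)) = fun _ => 1 := by
      funext ε
      unfold sg
      split_ifs <;> norm_num
    rw [this, Av_const]
  · have h1 : (fun ε : ι → Bool => sg (ε a) * sg (ε b)) =
        fun ε => ∏ i, (if i = a then sg (ε i) else if i = b then sg (ε i) else 1) := by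
      funext ε
      rw [← Finset.mul_prod_erase _ _ (Finset.mem_univ a), if_pos rfl,
        ← Finset.mul_prod_erase _ _ (Finset.mem_erase.2 ⟨Ne.symm h, Finset.mem_univ b⟩),
        if_neg (Ne.symm h), if_pos rfl, Finset.prod_eq_one, mul_one]
      intro i hi
      have h2 := Finset.mem_erase.1 hi
      have h3 := Finset.mem_erase.1 h2.2
      rw [if_neg h3.1, if_neg h2.1]
    rw [h1, Av_prod fun i β => if i = a then sg β else if i = b then sg β else 1]
    apply Finset.prod_eq_zero (Finset.mem_univ a)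
    simp [sg]

lemma Av_cosh (c : ι → ℝ) : Av (fun ε => Real.cosh (∑ i, c i * sg (ε i))) ≤
    Real.exp ((∑ i, c i ^ 2) / 2) := by
  have h1 : ∀ c : ι → ℝ, Av (fun ε => Real.exp (∑ i, c i * sg (ε i))) = ∏ i, Real.cosh (c i) := by
    intro c
    have : (fun ε : ι → Bool => Real.exp (∑ i, c i * sg (ε i))) =
        fun ε => ∏ i, Real.exp (c i * sg (ε i)) := by
      funext ε
      rw [Real.exp_sum]
    rw [this, Av_prod fun i β => Real.exp (c i * sg β)]
    refine Finset.prod_congr rfl fun i _ => ?_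
    simp [sg, Real.cosh_eq]
  have h2 : (fun ε : ι → Bool => Real.cosh (∑ i, c i * sg (ε i))) = fun ε =>
      (1 / 2) * Real.exp (∑ i, c i * sg (ε i)) + (1 / 2) * Real.exp (∑ i, (-c i) * sg (ε i)) := by
    funext ε
    rw [Real.cosh_eq]
    have : ∑ i, -c i * sg (ε i) = -∑ i, c i * sg (ε i) := by
      rw [← Finset.sum_neg_distrib]
      exact Finset.sum_congr rfl fun i _ => by ring
    rw [this]
    ring
  rw [h2, Av_add, Av_mul, Av_mul, h1, h1]
  simp only [Real.cosh_neg]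
  have h3 : ∏ i, Real.cosh (c i) ≤ Real.exp ((∑ i, c i ^ 2) / 2) := by
    rw [Finset.sum_div, Real.exp_sum]
    exact Finset.prod_le_prod (fun i _ => (Real.cosh_pos _).le) fun i _ =>
      Real.cosh_le_exp_half_sq _
  linarith

/-- moments of Rademacher sums -/
lemma Av_moment (c : ι → ℝ) (hc : ∑ i, c i ^ 2 ≤ 1) {s' : ℝ} (h0 : 0 ≤ s') (h12 : s' ≤ 12) :
    Av (fun ε => |∑ i, c i * sg (ε i)| ^ s') ≤ 10 ^ 10 := by
  have h1 : ∀ x : ℝ, |x| ^ s' ≤ 1 + 958003200 * Real.cosh x := by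
    intro x
    have hc1 : 0 < Real.cosh x := Real.cosh_pos x
    rcases le_total |x| 1 with hx | hx
    · have : |x| ^ s' ≤ 1 := Real.rpow_le_one (abs_nonneg _) hx h0
      linarith
    · have h2 : |x| ^ s' ≤ |x| ^ (12 : ℝ) := Real.rpow_le_rpow_of_exponent_le hx h12
      have h3 : |x| ^ (12 : ℝ) = |x| ^ 12 := by
        rw [← Real.rpow_natCast]
        norm_num
      have h4 := Real.pow_div_factorial_le_exp |x| (abs_nonneg x) 12
      have h5 : Real.exp |x| ≤ 2 * Real.cosh x := by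
        rw [← Real.cosh_abs, Real.cosh_eq]
        have := Real.exp_pos (-|x|)
        linarith
      have h6 : ((Nat.factorial 12 : ℕ) : ℝ) = 479001600 := by
        norm_num [Nat.factorial]
      rw [h6, div_le_iff₀ (by norm_num)] at h4
      rw [h3] at h2
      linarith
  calc Av (fun ε => |∑ i, c i * sg (ε i)| ^ s')
      ≤ Av (fun ε => 1 + 958003200 * Real.cosh (∑ i, c i * sg (ε i))) := Av_mono fun ε => h1 _
    _ = 1 + 958003200 * Av (fun ε => Real.cosh (∑ i, c i * sg (ε i))) := by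
        rw [Av_add, Av_const, Av_mul]
    _ ≤ 1 + 958003200 * Real.exp 1 := by
        have h2 := Av_cosh c
        have h3 : Real.exp ((∑ i, c i ^ 2) / 2) ≤ Real.exp 1 := Real.exp_le_exp.2 (by linarith)
        linarith
    _ ≤ 10 ^ 10 := by
        have := Real.exp_one_lt_d9
        norm_num at this ⊢
        linarith

/-- Cauchy-Schwarz for averages -/
lemma Av_cs (F F' : (ι → Bool) → ℝ) :
    |Av (fun ε => F ε * F' ε)| ≤ √(Av fun ε => F ε ^ 2) * √(Av fun ε => F' ε ^ 2) := by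
  rw [← Real.sqrt_mul (Av_nonneg fun ε => sq_nonneg _)]
  apply Real.abs_le_sqrt
  have h := Finset.sum_mul_sq_le_sq_mul_sq (univ : Finset (ι → Bool)) F F'
  unfold Av
  rw [div_pow, div_mul_div_comm, ← sq]
  gcongr

end S1tM

open S1tM Finset Dat

theorem specS1T : SpecS1T := by
  intro ι _ _ H _ _ V s r v Y y hs1 hs2 hr hv hY hV hy hA O hO
  let N : Matrix ι ι ℝ := fun l a => V (y a) l
  change |(O * N).trace| ≤ _
  by_cases hι : Nonempty ι
  swap
  · rw [not_nonempty_iff] at hι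
    have : (O * N).trace = 0 := by
      simp [Matrix.trace]
    rw [this, abs_zero]
    have h1 : (0 : ℝ) ≤ (Fintype.card ι : ℝ) ^ (1 - (1 / s - 1 / r)) :=
      Real.rpow_nonneg (by positivity) _
    unfold C0
    positivity
  set D : ℝ := (Fintype.card ι : ℝ) with hD
  have hD1 : 1 ≤ D := by
    rw [hD]
    exact_mod_cast Fintype.card_pos
  have hD0 : 0 < D := by linarith
  have hspos : 0 < s := by linarith
  -- conjugate exponent
  set s' : ℝ := s / (s - 1) with hs'
  have hs0 : 0 < s - 1 := by linarith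
  have hs'pos : 0 < s' := by positivity
  have hs'12 : s' ≤ 12 := by
    rw [hs', div_le_iff₀ hs0]
    linarith
  have hs'2 : 2 ≤ s' := by
    rw [hs', le_div_iff₀ hs0]
    linarith
  have hinv : 1 / s + 1 / s' = 1 := by
    rw [hs']
    field_simp
    ring
  have hconj : s'.HolderConjugate s := by
    rw [Real.holderConjugate_iff]
    refine ⟨by linarith, ?_⟩
    have := hinv
    simp only [one_div] at this
    linarith
  -- u and w
  let u : (ι → Bool) → ι → ℝ := fun ε l => ∑ b, O b l * sg (ε b)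
  let w : (ι → Bool) → H := fun ε => ∑ a, sg (ε a) • y a
  have htr : (O * N).trace = Av (fun ε => ∑ l, u ε l * V (w ε) l) := by
    have e1 : ∀ l, Av (fun ε => u ε l * V (w ε) l) = ∑ a, O a l * V (y a) l := by
      intro l
      have e2 : (fun ε : ι → Bool => u ε l * V (w ε) l) = fun ε =>
          ∑ b, ∑ a, (O b l * V (y a) l) * (sg (ε b) * sg (ε a)) := by
        funext ε
        simp only [u, w, map_sum, map_smul, Finset.sum_apply, Pi.smul_apply, smul_eq_mul]
        rw [Finset.sum_mul_sum]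
        refine Finset.sum_congr rfl fun b _ => Finset.sum_congr rfl fun a _ => by ring
      rw [e2, Av_sum]
      refine Finset.sum_congr rfl fun b _ => ?_
      rw [Av_sum]
      simp only [Av_mul, Av_sg_sg]
      simp
    rw [Av_sum]
    simp only [e1]
    rw [Finset.sum_comm]
    simp only [Matrix.trace, Matrix.diag, Matrix.mul_apply]
    exact Finset.sum_congr rfl fun a _ => Finset.sum_congr rfl fun l _ => rfl
  have hHold : ∀ ε, |∑ l, u ε l * V (w ε) l| ≤ lpn s' (u ε) * (v * ‖w ε‖) := by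
    intro ε
    have h1 : |∑ l, u ε l * V (w ε) l| ≤ lpn s' (u ε) * lpn s (V (w ε)) := by
      have h2 := Real.inner_le_Lp_mul_Lq univ (fun l => |u ε l|) (fun l => |V (w ε) l|) hconj
      simp only [abs_abs] at h2
      refine le_trans ?_ h2
      refine (Finset.abs_sum_le_sum_abs _ _).trans ?_
      simp only [abs_mul]
      exact le_rfl
    refine h1.trans ?_
    have := lpn_nonneg s' (u ε)
    gcongr
    exact hV _
  -- second moment of lpn s' (u ε)
  have hu : ∀ l, Av (fun ε => |u ε l| ^ s') ≤ 10 ^ 10 := by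
    intro l
    apply Av_moment _ _ hs'pos.le hs'12
    have := hO (Pi.single l 1)
    simpa [Matrix.mulVec, dotProduct, Pi.single_apply] using this
  set K : ℝ := D ^ (1 / s') with hK
  have hK0 : 0 < K := Real.rpow_pos_of_pos hD0 _
  have hKs : K ^ s' = D := by
    rw [hK, ← Real.rpow_mul hD0.le, one_div_mul_cancel hs'pos.ne', Real.rpow_one]
  have hlp : ∀ ε, lpn s' (u ε) ^ 2 ≤ K ^ 2 * (1 + (∑ l, |u ε l| ^ s') / D) := by
    intro ε
    have h0 := lpn_nonneg s' (u ε)
    have h1 : lpn s' (u ε) ^ s' = ∑ l, |u ε l| ^ s' := by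
      unfold lpn
      rw [← Real.rpow_mul (sum_abs_rpow_nonneg _ _), one_div_mul_cancel hs'pos.ne', Real.rpow_one]
    have h2 : (lpn s' (u ε) / K) ^ 2 ≤ 1 + (lpn s' (u ε) / K) ^ s' := by
      have hx : 0 ≤ lpn s' (u ε) / K := by positivity
      rcases le_total (lpn s' (u ε) / K) 1 with h | h
      · have h3 : (lpn s' (u ε) / K) ^ 2 ≤ 1 := pow_le_one₀ hx h
        have h4 : 0 ≤ (lpn s' (u ε) / K) ^ s' := Real.rpow_nonneg hx _
        linarith
      · have h3 : (lpn s' (u ε) / K) ^ (2 : ℝ) ≤ (lpn s' (u ε) / K) ^ s' :=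
          Real.rpow_le_rpow_of_exponent_le h hs'2
        rw [Real.rpow_two] at h3
        linarith
    rw [Real.div_rpow h0 hK0.le, h1, hKs, div_pow, div_le_iff₀ (by positivity)] at h2
    linarith
  have hM : Av (fun ε => lpn s' (u ε) ^ 2) ≤ K ^ 2 * (1 + 10 ^ 10) := by
    refine (Av_mono hlp).trans ?_
    rw [Av_mul]
    gcongr
    rw [Av_add, Av_const]
    have e : (fun ε : ι → Bool => (∑ l, |u ε l| ^ s') / D) =
        fun ε => (1 / D) * ∑ l, |u ε l| ^ s' := by
      funext ε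
      ring
    rw [e, Av_mul, Av_sum]
    have h3 : ∑ l, Av (fun ε => |u ε l| ^ s') ≤ D * 10 ^ 10 := by
      refine (Finset.sum_le_sum fun l _ => hu l).trans ?_
      rw [Finset.sum_const, Finset.card_univ, nsmul_eq_mul]
    have h4 : 1 / D * ∑ l, Av (fun ε => |u ε l| ^ s') ≤ 1 / D * (D * 10 ^ 10) := by gcongr
    have h5 : 1 / D * (D * 10 ^ 10) = 10 ^ 10 := by field_simp
    linarith
  have hW : Av (fun ε => (v * ‖w ε‖) ^ 2) ≤ (v * (Y * D ^ (1 / r))) ^ 2 := by
    have e : (fun ε : ι → Bool => (v * ‖w ε‖) ^ 2) = fun ε => v ^ 2 * ‖w ε‖ ^ 2 := by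
      funext ε
      ring
    rw [e, Av_mul, mul_pow]
    gcongr
    refine hA.trans ?_
    have h1 : ∑ a, ‖y a‖ ^ r ≤ D * Y ^ r := by
      refine (Finset.sum_le_sum fun a _ =>
        Real.rpow_le_rpow (norm_nonneg _) (hy a) (by linarith)).trans ?_
      rw [Finset.sum_const, Finset.card_univ, nsmul_eq_mul]
    have h2 : (∑ a, ‖y a‖ ^ r) ^ (2 / r) ≤ (D * Y ^ r) ^ (2 / r) := by
      apply Real.rpow_le_rpow _ h1 (by positivity)
      exact Finset.sum_nonneg fun a _ => Real.rpow_nonneg (norm_nonneg _) _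
    refine h2.trans (le_of_eq ?_)
    rw [Real.mul_rpow hD0.le (Real.rpow_nonneg hY _), ← Real.rpow_mul hY,
      mul_div_cancel₀ _ (show r ≠ 0 by linarith), mul_pow, Real.rpow_two, ← Real.rpow_natCast (D ^ (1 / r)) 2,
      ← Real.rpow_mul hD0.le]
    rw [show 1 / r * ((2 : ℕ) : ℝ) = 2 / r by push_cast; ring]
    ring
  rw [htr]
  have hfin : |Av (fun ε => ∑ l, u ε l * V (w ε) l)| ≤
      √(Av fun ε => lpn s' (u ε) ^ 2) * √(Av fun ε => (v * ‖w ε‖) ^ 2) := by
    refine le_trans ?_ (Av_cs (fun ε => lpn s' (u ε)) (fun ε => v * ‖w ε‖))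
    have h1 : |Av (fun ε => ∑ l, u ε l * V (w ε) l)| ≤ Av (fun ε => |∑ l, u ε l * V (w ε) l|) := by
      rw [abs_le]
      constructor
      · have h2 := Av_mono (ι := ι) (F := fun ε => -|∑ l, u ε l * V (w ε) l|)
          (F' := fun ε => ∑ l, u ε l * V (w ε) l) fun ε => neg_abs_le _
        have h3 : Av (fun ε => -|∑ l, u ε l * V (w ε) l|) =
            -Av (fun ε => |∑ l, u ε l * V (w ε) l|) := by
          have := Av_mul (ι := ι) (-1) (fun ε => |∑ l, u ε l * V (w ε) l|)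
          simpa using this
        linarith
      · exact Av_mono fun ε => le_abs_self _
    exact h1.trans ((Av_mono hHold).trans (le_abs_self _))
  refine hfin.trans ?_
  have h1 : √(Av fun ε => lpn s' (u ε) ^ 2) ≤ K * 10 ^ 9 := by
    rw [Real.sqrt_le_iff]
    refine ⟨by positivity, hM.trans ?_⟩
    rw [mul_pow]
    gcongr
    norm_num
  have h2 : √(Av fun ε => (v * ‖w ε‖) ^ 2) ≤ v * (Y * D ^ (1 / r)) := by
    rw [Real.sqrt_le_iff]
    exact ⟨by positivity, hW⟩
  calc √(Av fun ε => lpn s' (u ε) ^ 2) * √(Av fun ε => (v * ‖w ε‖) ^ 2)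
      ≤ (K * 10 ^ 9) * (v * (Y * D ^ (1 / r))) := by gcongr
    _ = C0 * v * Y * (K * D ^ (1 / r)) := by
        unfold C0
        ring
    _ = C0 * v * Y * D ^ (1 - (1 / s - 1 / r)) := by
        rw [hK, ← Real.rpow_add hD0]
        congr 2
        linarith

end Pool.Agent.MP_e87d84
end

section
/-!
MP_e87d84_an, module FO : the first order lemma.
-/
set_option autoImplicit false

open Filter Topology

namespace Pool.Agent.MP_e87d84

open Dat

namespace FoM

open S1tM

/-- a vector supported on one row -/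
theorem nF_row {α β : Type} [Fintype α] [Fintype β] [DecidableEq α] {p q : ℝ} (hp : 0 < p)
    (hq : 0 < q) (a : α) (y : β → ℝ) :
    nF p q (fun g : α × β => if g.1 = a then y g.2 else 0) = lpn q y := by
  have h1 : (fun a' : α => lpn q (fun b : β => if a' = a then y b else 0)) =
      fun a' => if a' = a then lpn q y else 0 := by
    funext a'
    by_cases h : a' = a
    · simp [h]
    · simp only [if_neg h]
      exact lpn_zero hq
  unfold nF
  show lpn p (fun a' : α => lpn q (fun b : β => if a' = a then y b else 0)) = _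
  rw [h1]
  unfold lpn
  rw [Finset.sum_eq_single a]
  · show (|if a = a then (∑ i, |y i| ^ q) ^ (1 / q) else 0| ^ p) ^ (1 / p) = _
    rw [if_pos rfl, abs_of_nonneg (Real.rpow_nonneg (sum_abs_rpow_nonneg q y) _),
      ← Real.rpow_mul (Real.rpow_nonneg (sum_abs_rpow_nonneg q y) _), mul_one_div_cancel hp.ne',
      Real.rpow_one]
  · intro b _ hb
    show |if b = a then (∑ i, |y i| ^ q) ^ (1 / q) else 0| ^ p = 0
    rw [if_neg hb, abs_zero, Real.zero_rpow hp.ne']
  · intro h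
    exact absurd (Finset.mem_univ a) h

theorem sg_abs (b : Bool) : |sg b| = 1 := by
  unfold sg
  split_ifs <;> norm_num

theorem sg_mul_self (b : Bool) : sg b * sg b = 1 := by
  unfold sg
  split_ifs <;> norm_num

/-- the sign vector on the image of `β` -/
noncomputable def sv {n : ℕ} {B : Type} [DecidableEq B] (β : Fin n → B) (ε : Fin n → Bool) :
    B → ℝ := fun b => ∑ v, if β v = b then sg (ε v) else 0

theorem sv_abs {n : ℕ} {B : Type} [DecidableEq B] {β : Fin n → B} (hβ : Function.Injective β)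
    (ε : Fin n → Bool) {q : ℝ} (hq : 0 < q) (b : B) :
    |sv β ε b| ^ q = ∑ v, if β v = b then 1 else 0 := by
  unfold sv
  by_cases h : ∃ v, β v = b
  · obtain ⟨v, hv⟩ := h
    have hne : ∀ w, w ≠ v → β w ≠ b := fun w hw hwb => hw (hβ (hwb.trans hv.symm))
    rw [Finset.sum_eq_single v, Finset.sum_eq_single v]
    · rw [if_pos hv, if_pos hv, sg_abs, Real.one_rpow]
    · intro w _ hw
      rw [if_neg (hne w hw)]
    · intro h
      exact absurd (Finset.mem_univ v) h
    · intro w _ hw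
      rw [if_neg (hne w hw)]
    · intro h
      exact absurd (Finset.mem_univ v) h
  · push Not at h
    rw [Finset.sum_eq_zero fun v _ => if_neg (h v), Finset.sum_eq_zero fun v _ => if_neg (h v),
      abs_zero, Real.zero_rpow hq.ne']

theorem lpn_sv {n : ℕ} {B : Type} [DecidableEq B] [Fintype B] {β : Fin n → B}
    (hβ : Function.Injective β) (ε : Fin n → Bool) {q : ℝ} (hq : 0 < q) :
    lpn q (sv β ε) = (n : ℝ) ^ (1 / q) := by
  unfold lpn
  congr 1
  rw [Finset.sum_congr rfl fun b _ => sv_abs hβ ε hq b, Finset.sum_comm]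
  have : ∀ v : Fin n, ∑ b : B, (if β v = b then (1 : ℝ) else 0) = 1 := by
    intro v
    simp
  rw [Finset.sum_congr rfl fun v _ => this v]
  simp

/-- the sign vector in `G` -/
theorem xe_eq {n : ℕ} {A B : Type} [DecidableEq A] [DecidableEq B] (a : A) (β : Fin n → B)
    (ε : Fin n → Bool) :
    (∑ v, sg (ε v) • dl ((a, β v) : A × B) : A × B → ℝ) =
      fun g => if g.1 = a then sv β ε g.2 else 0 := by
  funext g
  rw [Finset.sum_apply]
  have h1 : ∀ v, (sg (ε v) • dl ((a, β v) : A × B) : A × B → ℝ) g =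
      if g.1 = a then (if β v = g.2 then sg (ε v) else 0) else 0 := by
    intro v
    rw [Pi.smul_apply, smul_eq_mul, dl, Pi.single_apply]
    by_cases h : g.1 = a
    · by_cases h' : β v = g.2
      · have hg : g = (a, β v) := Prod.ext h h'.symm
        rw [if_pos hg, if_pos h, if_pos h', mul_one]
      · have hg : g ≠ (a, β v) := fun hh => h' (by rw [hh])
        rw [if_neg hg, if_pos h, if_neg h', mul_zero]
    · have hg : g ≠ (a, β v) := fun hh => h (by rw [hh])
      rw [if_neg hg, if_neg h, mul_zero]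
  rw [Finset.sum_congr rfl fun v _ => h1 v]
  by_cases h : g.1 = a
  · simp only [if_pos h]
    rfl
  · simp only [if_neg h]
    simp

/-- Hölder for the constant vector -/
theorem sum_abs_le {n : ℕ} {q : ℝ} (hq : 1 < q) (x : Fin n → ℝ) :
    ∑ v, |x v| ≤ (n : ℝ) ^ (1 - 1 / q) * (∑ v, |x v| ^ q) ^ (1 / q) := by
  have hc : (q.conjExponent).HolderConjugate q := (Real.HolderConjugate.conjExponent hq).symm
  have h := Real.inner_le_Lp_mul_Lq (s := Finset.univ) (fun _ : Fin n => (1 : ℝ))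
    (fun v => |x v|) hc
  simp only [one_mul, abs_one, Real.one_rpow, abs_abs, Finset.sum_const, Finset.card_univ,
    Fintype.card_fin, nsmul_eq_mul, mul_one] at h
  have h2 : 1 / q.conjExponent = 1 - 1 / q := by
    have := hc.inv_add_inv_eq_one
    rw [one_div, one_div]
    linarith
  rwa [h2] at h

theorem sum_sub_le {n : ℕ} {B : Type} [Fintype B] {β : Fin n → B} (hβ : Function.Injective β)
    {q : ℝ} (hq : 1 < q) (y : B → ℝ) :
    ∑ v, |y (β v)| ≤ (n : ℝ) ^ (1 - 1 / q) * lpn q y := by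
  classical
  refine (sum_abs_le hq fun v => y (β v)).trans ?_
  apply mul_le_mul_of_nonneg_left _ (Real.rpow_nonneg (Nat.cast_nonneg _) _)
  unfold lpn
  apply Real.rpow_le_rpow (Finset.sum_nonneg fun _ _ => Real.rpow_nonneg (abs_nonneg _) _) _
    (by positivity)
  have h1 : ∑ v, |y (β v)| ^ q = ∑ b ∈ Finset.univ.image β, |y b| ^ q := by
    rw [Finset.sum_image fun a _ b _ h => hβ h]
  rw [h1]
  exact Finset.sum_le_sum_of_subset_of_nonneg (Finset.subset_univ _)
    fun _ _ _ => Real.rpow_nonneg (abs_nonneg _) _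

theorem lpn_row_le {α β : Type} [Fintype α] [Fintype β] {p : ℝ} (hp : 0 < p) (q : ℝ)
    (x : α × β → ℝ) (a : α) : lpn q (fun b => x (a, b)) ≤ nF p q x :=
  (le_abs_self _).trans (abs_le_lpn hp (fun a => lpn q (fun b => x (a, b))) a)

/-- the averaging identity -/
theorem av_id {n : ℕ} {Z : Type} [AddCommGroup Z] [Module ℝ Z] (k : Fin n → (Z →ₗ[ℝ] ℝ))
    (z : Fin n → Z) :
    ∑ v, k v (z v) = Av (fun ε : Fin n → Bool => ∑ v, sg (ε v) * k v (∑ w, sg (ε w) • z w)) := by
  have h1 : (fun ε : Fin n → Bool => ∑ v, sg (ε v) * k v (∑ w, sg (ε w) • z w)) =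
      fun ε => ∑ v, ∑ w, k v (z w) * (sg (ε v) * sg (ε w)) := by
    funext ε
    refine Finset.sum_congr rfl fun v _ => ?_
    rw [map_sum, Finset.mul_sum]
    refine Finset.sum_congr rfl fun w _ => ?_
    rw [map_smul, smul_eq_mul]
    ring
  rw [h1, Av_sum]
  refine Finset.sum_congr rfl fun v _ => ?_
  rw [Av_sum, Finset.sum_eq_single v]
  · rw [Av_mul, Av_sg_sg, if_pos rfl, mul_one]
  · intro w _ hw
    rw [Av_mul, Av_sg_sg, if_neg (Ne.symm hw), mul_zero]
  · intro h
    exact absurd (Finset.mem_univ v) h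

end FoM

open FoM S1tM

theorem specFO (hkapg : SpecKAPG) : SpecFO := by
  intro P i m n T t hm hn hdvd ht hT
  have hθ : 0 ≤ P.θ i := by
    have h0 : ∀ i, 0 ≤ P.ω i := fun i => by
      unfold Dat.ω Dat.D
      positivity
    exact mul_nonneg (P.hk _) (add_nonneg (h0 _) (h0 _))
  have hn1 : (1 : ℝ) ≤ n := by exact_mod_cast hn
  have hn0 : (0 : ℝ) < n := by linarith
  obtain ⟨qm, hqm⟩ : ∃ qm, qm = P.q (i + 1) m := ⟨_, rfl⟩
  obtain ⟨qL, hqL⟩ : ∃ qL, qL = P.q (i + 1) (P.L (i + 1)) := ⟨_, rfl⟩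
  have hqm1 : 11 / 10 ≤ qm := hqm ▸ P.hq (i + 1) m
  have hqL1 : 11 / 10 ≤ qL := hqL ▸ P.hq (i + 1) (P.L (i + 1))
  have hgap : qL + P.g (i + 1) ≤ qm := by
    rw [hqL, hqm]; exact P.hqg (i + 1) m (P.L (i + 1)) hm le_rfl
  have hqm2 : qm ≤ 6 / 5 := hqm ▸ (P.hqp (i + 1) m m).trans (P.hp (i + 1) m)
  have hg := P.hg (i + 1)
  obtain ⟨B, hB⟩ : ∃ B : ℝ, B = 2 * t * (√(P.L (i + 1) : ℝ) * (n : ℝ) ^ (-(P.g (i + 1) / 2)) + P.θ i * n) := ⟨_, rfl⟩
  rw [← hB]
  -- the block estimate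
  have hblock : ∀ (a : Fin (P.d (i + 1))) (β : Fin n → Fin (P.d' (i + 1))), Function.Injective β →
      |∑ v, P.kg i (a, β v) (T (dl ((a, β v) : P.G (i + 1))))| ≤ n * B := by
    intro a β hβ
    rw [av_id (fun v => P.kg i (a, β v)) (fun v => T (dl ((a, β v) : P.G (i + 1))))]
    have hbound : ∀ ε : Fin n → Bool, |∑ v, sg (ε v) * P.kg i (a, β v)
        (∑ w, sg (ε w) • T (dl ((a, β w) : P.G (i + 1))))| ≤ n * B := by
      intro ε
      set z : P.Zt := ∑ w, sg (ε w) • T (dl ((a, β w) : P.G (i + 1))) with hz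
      have hzT : z = T (∑ w, sg (ε w) • dl ((a, β w) : P.G (i + 1))) := by
        rw [hz, map_sum]
        exact Finset.sum_congr rfl fun w _ => (map_smul T _ _).symm
      have hzn : ‖z‖ ≤ t * (n : ℝ) ^ (1 / qm) := by
        rw [hzT]
        refine (hT _).trans (le_of_eq ?_)
        rw [xe_eq, nF_row (by have := one_le_p (P := P) (i + 1) m; linarith) (by rw [← hqm]; linarith) a
          (sv β ε), lpn_sv hβ ε (by rw [← hqm]; linarith), hqm]
      obtain ⟨f, hf, hfn⟩ := P.π_lift_two z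
      have hfn' : ‖f‖ ≤ 2 * t * (n : ℝ) ^ (1 / qm) := by
        refine hfn.trans ?_
        rw [mul_assoc]
        exact mul_le_mul_of_nonneg_left hzn (by norm_num)
      have h1 : |∑ v, sg (ε v) * P.kg i (a, β v) z| ≤ ∑ v, |P.kg i (a, β v) z| := by
        refine (Finset.abs_sum_le_sum_abs _ _).trans (Finset.sum_le_sum fun v _ => ?_)
        rw [abs_mul, sg_abs, one_mul]
      have h2 : ∀ v, |P.kg i (a, β v) z| ≤ |bc (f (i + 1)) (P.L (i + 1)) (a, β v)| + P.θ i * ‖f‖ := by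
        intro v
        have h3 := (hkapg P i (a, β v)).1 f
        rw [hf] at h3
        have h4 : |P.kg i (a, β v) z| ≤ |P.kg i (a, β v) z - bc (f (i + 1)) (P.L (i + 1)) (a, β v)| +
            |bc (f (i + 1)) (P.L (i + 1)) (a, β v)| := by
          have := abs_add_le (P.kg i (a, β v) z - bc (f (i + 1)) (P.L (i + 1)) (a, β v))
            (bc (f (i + 1)) (P.L (i + 1)) (a, β v))
          rwa [sub_add_cancel] at this
        linarith
      have h5 : ∑ v, |bc (f (i + 1)) (P.L (i + 1)) (a, β v)| ≤ (n : ℝ) ^ (1 - 1 / qL) * (√(P.L (i + 1) : ℝ) * ‖f‖) := by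
        refine (sum_sub_le (q := qL) hβ (by linarith)
          (fun b => bc (f (i + 1)) (P.L (i + 1)) (a, b))).trans ?_
        apply mul_le_mul_of_nonneg_left _ (Real.rpow_nonneg hn0.le _)
        refine (lpn_row_le (p := P.p (i + 1) (P.L (i + 1))) (by have := one_le_p (P := P) (i + 1) (P.L (i + 1)); linarith)
          qL (bc (f (i + 1)) (P.L (i + 1))) a).trans ?_
        rw [hqL]
        refine (nF_le_blkN (f (i + 1)) le_rfl).trans ?_
        apply mul_le_mul_of_nonneg_left _ (Real.sqrt_nonneg _)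
        rw [← norm_blk]
        exact lp.norm_apply_le_norm (by norm_num) f (i + 1)
      have h6 : |∑ v, sg (ε v) * P.kg i (a, β v) z| ≤
          (n : ℝ) ^ (1 - 1 / qL) * (√(P.L (i + 1) : ℝ) * ‖f‖) + n * (P.θ i * ‖f‖) := by
        refine h1.trans ((Finset.sum_le_sum fun v _ => h2 v).trans ?_)
        rw [Finset.sum_add_distrib, Finset.sum_const, Finset.card_univ, Fintype.card_fin,
          nsmul_eq_mul]
        linarith
      refine h6.trans ?_
      -- exponents
      have e1 : (n : ℝ) ^ (1 - 1 / qL) * (n : ℝ) ^ (1 / qm) ≤ n * (n : ℝ) ^ (-(P.g (i + 1) / 2)) := by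
        rw [← Real.rpow_add hn0]
        nth_rewrite 2 [← Real.rpow_one (n : ℝ)]
        rw [← Real.rpow_add hn0]
        apply Real.rpow_le_rpow_of_exponent_le hn1
        have h7 : 1 / qL - 1 / qm = (qm - qL) / (qL * qm) := by
          field_simp
        have h8 : P.g (i + 1) / 2 ≤ (qm - qL) / (qL * qm) := by
          rw [le_div_iff₀ (by positivity)]
          have h9 : qL * qm ≤ 2 := by nlinarith
          nlinarith
        linarith
      have e2 : (n : ℝ) ^ (1 / qm) ≤ n := by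
        nth_rewrite 2 [← Real.rpow_one (n : ℝ)]
        apply Real.rpow_le_rpow_of_exponent_le hn1
        rw [div_le_one (by linarith)]
        linarith
      calc (n : ℝ) ^ (1 - 1 / qL) * (√(P.L (i + 1) : ℝ) * ‖f‖) + n * (P.θ i * ‖f‖)
          ≤ (n : ℝ) ^ (1 - 1 / qL) * (√(P.L (i + 1) : ℝ) * (2 * t * (n : ℝ) ^ (1 / qm))) +
            n * (P.θ i * (2 * t * (n : ℝ) ^ (1 / qm))) := by
            have := Real.rpow_nonneg hn0.le (1 - 1 / qL)
            gcongr
        _ = 2 * t * √(P.L (i + 1) : ℝ) * ((n : ℝ) ^ (1 - 1 / qL) * (n : ℝ) ^ (1 / qm)) +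
            2 * t * n * P.θ i * (n : ℝ) ^ (1 / qm) := by ring
        _ ≤ 2 * t * √(P.L (i + 1) : ℝ) * (n * (n : ℝ) ^ (-(P.g (i + 1) / 2))) + 2 * t * n * P.θ i * n := by
            gcongr
        _ = n * B := by rw [hB]; ring
    rw [abs_le]
    constructor
    · have := Av_mono (F := fun _ : Fin n → Bool => -(n * B)) (F' := fun ε =>
        ∑ v, sg (ε v) * P.kg i (a, β v) (∑ w, sg (ε w) • T (dl ((a, β w) : P.G (i + 1)))))
        (fun ε => (abs_le.1 (hbound ε)).1)
      rwa [Av_const] at this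
    · have := Av_mono (F' := fun _ : Fin n → Bool => (n * B)) (F := fun ε =>
        ∑ v, sg (ε v) * P.kg i (a, β v) (∑ w, sg (ε w) • T (dl ((a, β w) : P.G (i + 1)))))
        (fun ε => (abs_le.1 (hbound ε)).2)
      rwa [Av_const] at this
  -- sum over the blocks
  obtain ⟨w, hw⟩ := hdvd
  have hw' : P.d' (i + 1) = w * n := by rw [hw, mul_comm]
  let eq : Fin w × Fin n ≃ Fin (P.d' (i + 1)) := finProdFinEquiv.trans (finCongr hw'.symm)
  have hsum : ∑ x : P.G (i + 1), P.kg i x (T (dl x)) =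
      ∑ a : Fin (P.d (i + 1)), ∑ u : Fin w, ∑ v : Fin n,
        P.kg i (a, eq (u, v)) (T (dl ((a, eq (u, v)) : P.G (i + 1)))) := by
    rw [Fintype.sum_prod_type]
    refine Finset.sum_congr rfl fun a _ => ?_
    rw [← Equiv.sum_comp eq, Fintype.sum_prod_type]
  rw [hsum]
  calc |∑ a : Fin (P.d (i + 1)), ∑ u : Fin w, ∑ v : Fin n,
        P.kg i (a, eq (u, v)) (T (dl ((a, eq (u, v)) : P.G (i + 1))))|
      ≤ ∑ a : Fin (P.d (i + 1)), ∑ u : Fin w, (n : ℝ) * B := by
        refine (Finset.abs_sum_le_sum_abs _ _).trans (Finset.sum_le_sum fun a _ => ?_)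
        refine (Finset.abs_sum_le_sum_abs _ _).trans (Finset.sum_le_sum fun u _ => ?_)
        exact hblock a (fun v => eq (u, v)) fun v v' h => by
          have := eq.injective h
          exact (Prod.ext_iff.1 this).2
    _ = P.D (i + 1) * B := by
        simp only [Finset.sum_const, Finset.card_univ, Fintype.card_fin, nsmul_eq_mul]
        unfold Dat.D
        rw [hw']
        push_cast
        ring

end Pool.Agent.MP_e87d84
end

section
/-!
MP_e87d84_an, module HS0 (text II.4): the Hilbert-Schmidt lemma.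
-/
set_option autoImplicit false

open Filter Topology

namespace Pool.Agent.MP_e87d84

namespace HS0M

theorem sg_sq (b : Bool) : sg b ^ 2 = 1 := by cases b <;> simp [sg]

theorem abs_sg (b : Bool) : |sg b| = 1 := by cases b <;> simp [sg]

theorem sg_not (b : Bool) : sg (!b) = -sg b := by cases b <;> simp [sg]

/-- the norm of a vector of signs supported on a set -/
theorem lpn_indicator {ι : Type*} [Fintype ι] {p : ℝ} (hp : 0 < p) (x : ι → ℝ) (S : Finset ι)
    (h1 : ∀ i ∈ S, |x i| = 1) (h0 : ∀ i, i ∉ S → x i = 0) :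
    lpn p x = (S.card : ℝ) ^ (1 / p) := by
  classical
  unfold lpn
  congr 1
  rw [← Finset.sum_subset (Finset.subset_univ S)]
  · rw [Finset.sum_congr rfl fun i hi => by rw [h1 i hi, Real.one_rpow]]
    simp
  · intro i _ hi
    rw [h0 i hi, abs_zero, Real.zero_rpow hp.ne']

/-- midpoint convexity of `|·|^p` in the form used for averages over signs -/
theorem conv_pair {p : ℝ} (hp : 1 ≤ p) (X y : ℝ) :
    2 * |y| ^ p ≤ |X + y| ^ p + |X - y| ^ p := by
  have h1 : |y| ≤ 1 / 2 * |X + y| + 1 / 2 * |X - y| := by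
    have := abs_sub (X + y) (X - y)
    have h2 : (X + y) - (X - y) = 2 * y := by ring
    rw [h2, abs_mul, abs_two] at this
    linarith
  have h2 : |y| ^ p ≤ (1 / 2 * |X + y| + 1 / 2 * |X - y|) ^ p :=
    Real.rpow_le_rpow (abs_nonneg _) h1 (by linarith)
  have h3 := (convexOn_rpow hp).2 (Set.mem_Ici.2 (abs_nonneg (X + y)))
    (Set.mem_Ici.2 (abs_nonneg (X - y))) (by norm_num : (0 : ℝ) ≤ 1 / 2)
    (by norm_num : (0 : ℝ) ≤ 1 / 2) (by norm_num)
  simp only [smul_eq_mul] at h3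
  linarith

/-- flip the sign at `a` -/
def flip {n : ℕ} (a : Fin n) (ε : Fin n → Bool) : Fin n → Bool := Function.update ε a (!(ε a))

theorem flip_flip {n : ℕ} (a : Fin n) (ε : Fin n → Bool) : flip a (flip a ε) = ε := by
  unfold flip
  funext b
  by_cases h : b = a
  · subst h
    simp
  · simp [Function.update_of_ne h]

theorem sum_flip {n : ℕ} (a : Fin n) (F : (Fin n → Bool) → ℝ) :
    ∑ ε, F (flip a ε) = ∑ ε, F ε :=
  Fintype.sum_bijective (flip a) (Function.Involutive.bijective (flip_flip a)) _ _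
    (fun _ => rfl)

/-- the average over signs of `|∑ ε_a c_a|^p` is at least `|c_a|^p` -/
theorem Av_ge {n : ℕ} {p : ℝ} (hp : 1 ≤ p) (c : Fin n → ℝ) (a : Fin n) :
    (2 : ℝ) ^ n * |c a| ^ p ≤ ∑ ε : Fin n → Bool, |∑ b, c b * sg (ε b)| ^ p := by
  have hsum : ∀ ε : Fin n → Bool, 2 * |c a| ^ p ≤
      |∑ b, c b * sg (ε b)| ^ p + |∑ b, c b * sg (flip a ε b)| ^ p := by
    intro ε
    have e1 : ∑ b, c b * sg (ε b) = ∑ b ∈ Finset.univ.erase a, c b * sg (ε b) +
        c a * sg (ε a) := by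
      rw [Finset.sum_erase_add _ _ (Finset.mem_univ a)]
    have e2 : ∑ b, c b * sg (flip a ε b) = ∑ b ∈ Finset.univ.erase a, c b * sg (ε b) -
        c a * sg (ε a) := by
      rw [← Finset.sum_erase_add _ _ (Finset.mem_univ a), sub_eq_add_neg]
      congr 1
      · apply Finset.sum_congr rfl
        intro b hb
        rw [flip, Function.update_of_ne (Finset.ne_of_mem_erase hb)]
      · rw [flip, Function.update_self, sg_not, mul_neg]
    have h := conv_pair hp (∑ b ∈ Finset.univ.erase a, c b * sg (ε b)) (c a * sg (ε a))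
    rw [← e1, ← e2, abs_mul, abs_sg, mul_one] at h
    exact h
  have h2 : ∑ ε : Fin n → Bool, 2 * |c a| ^ p ≤
      ∑ ε : Fin n → Bool, (|∑ b, c b * sg (ε b)| ^ p + |∑ b, c b * sg (flip a ε b)| ^ p) :=
    Finset.sum_le_sum fun ε _ => hsum ε
  rw [Finset.sum_add_distrib, sum_flip a (fun ε => |∑ b, c b * sg (ε b)| ^ p), Finset.sum_const,
    Finset.card_univ, Fintype.card_fun, Fintype.card_bool, Fintype.card_fin, nsmul_eq_mul] at h2
  push_cast at h2
  linarith

variable {n : ℕ} {Λ : Type} [Fintype Λ]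

omit [Fintype Λ] in
/-- the column `a` is the image of the unit vector -/
theorem col_eq (V : Matrix Λ (Fin n) ℝ) (a : Fin n) :
    V.mulVec (Pi.single a 1) = fun l => V l a := by
  funext l
  show ∑ x, V l x * (Pi.single a (1 : ℝ) : Fin n → ℝ) x = V l a
  rw [Finset.sum_eq_single a]
  · rw [Pi.single_eq_same, mul_one]
  · intro b _ hb
    rw [Pi.single_eq_of_ne hb, mul_zero]
  · intro h
    exact absurd (Finset.mem_univ a) h

theorem col_le {V : Matrix Λ (Fin n) ℝ} {p1 p : ℝ} (hp : 0 < p)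
    (hV : ∀ x : Fin n → ℝ, lpn p1 (V.mulVec x) ≤ lpn p x) (a : Fin n) :
    lpn p1 (fun l => V l a) ≤ 1 := by
  have h := hV (Pi.single a 1)
  rw [col_eq] at h
  refine h.trans (le_of_eq ?_)
  rw [lpn_indicator hp (Pi.single a 1) {a}]
  · simp
  · intro i hi
    rw [Finset.mem_singleton.1 hi]
    simp
  · intro i hi
    rw [Finset.mem_singleton] at hi
    simp [hi]

theorem col_pow_le {V : Matrix Λ (Fin n) ℝ} {p1 p : ℝ} (hp1 : 0 < p1) (hp : 0 < p)
    (hV : ∀ x : Fin n → ℝ, lpn p1 (V.mulVec x) ≤ lpn p x) (a : Fin n) :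
    ∑ l, |V l a| ^ p1 ≤ 1 := by
  have h := col_le hp hV a
  unfold lpn at h
  have h0 : 0 ≤ ∑ l, |V l a| ^ p1 := sum_abs_rpow_nonneg p1 (fun l => V l a)
  have h2 := Real.rpow_le_rpow (Real.rpow_nonneg h0 _) h hp1.le
  rwa [← Real.rpow_mul h0, one_div_mul_cancel hp1.ne', Real.rpow_one, Real.one_rpow] at h2

theorem entry_le {V : Matrix Λ (Fin n) ℝ} {p1 p : ℝ} (hp1 : 0 < p1) (hp : 0 < p)
    (hV : ∀ x : Fin n → ℝ, lpn p1 (V.mulVec x) ≤ lpn p x) (l : Λ) (a : Fin n) :
    |V l a| ≤ 1 :=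
  (abs_le_lpn hp1 (fun l => V l a) l).trans (col_le hp hV a)

theorem sq_split {x s : ℝ} (hs : 0 < s) (_ : s < 2) :
    x ^ 2 = |x| ^ (2 - s) * |x| ^ s := by
  rcases eq_or_ne x 0 with h | h
  · subst h
    rw [abs_zero, Real.zero_rpow hs.ne', mul_zero]
    norm_num
  · rw [← Real.rpow_add (abs_pos.2 h), sub_add_cancel, Real.rpow_two, sq_abs]

/-- columns have `l_2` norm at most 1 -/
theorem col_sq_le {V : Matrix Λ (Fin n) ℝ} {p1 p : ℝ} (hp1 : 0 < p1) (h2 : p1 < 2) (hp : 0 < p)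
    (hV : ∀ x : Fin n → ℝ, lpn p1 (V.mulVec x) ≤ lpn p x) (a : Fin n) :
    ∑ l, V l a ^ 2 ≤ 1 := by
  refine le_trans (Finset.sum_le_sum fun l _ => ?_) (col_pow_le hp1 hp hV a)
  rw [sq_split hp1 h2]
  have h := entry_le hp1 hp hV l a
  have h3 : |V l a| ^ (2 - p1) ≤ 1 := Real.rpow_le_one (abs_nonneg _) h (by linarith)
  have h4 : 0 ≤ |V l a| ^ p1 := Real.rpow_nonneg (abs_nonneg _) _
  nlinarith

/-- a good column has a large entry -/
theorem exists_large {V : Matrix Λ (Fin n) ℝ} {p1 p : ℝ} (hp1 : 0 < p1) (h2 : p1 < 2)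
    (hp : 0 < p) (hV : ∀ x : Fin n → ℝ, lpn p1 (V.mulVec x) ≤ lpn p x) {η : ℝ} (hη : 0 < η)
    (a : Fin n) (ha : η < ∑ l, V l a ^ 2) : ∃ l, η ^ (1 / (2 - p1)) ≤ |V l a| := by
  by_contra hcon
  push Not at hcon
  have h3 : ∑ l, V l a ^ 2 ≤ ∑ l, η * |V l a| ^ p1 := by
    apply Finset.sum_le_sum
    intro l _
    rw [sq_split hp1 h2]
    apply mul_le_mul_of_nonneg_right _ (Real.rpow_nonneg (abs_nonneg _) _)
    have h4 := Real.rpow_le_rpow (abs_nonneg _) (hcon l).le (by linarith : (0 : ℝ) ≤ 2 - p1)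
    rwa [← Real.rpow_mul hη.le, one_div_mul_cancel (by linarith : (2 : ℝ) - p1 ≠ 0),
      Real.rpow_one] at h4
  rw [← Finset.mul_sum] at h3
  have h4 := col_pow_le hp1 hp hV a
  nlinarith

open Classical in
/-- rows with a large entry -/
noncomputable def rows (V : Matrix Λ (Fin n) ℝ) (t : ℝ) : Finset Λ :=
  Finset.univ.filter fun l => ∃ a, t ≤ |V l a|

open Classical in
/-- large entries in a row -/
noncomputable def ents (V : Matrix Λ (Fin n) ℝ) (t : ℝ) (l : Λ) : Finset (Fin n) :=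
  Finset.univ.filter fun a => t ≤ |V l a|

theorem rows_card_le {V : Matrix Λ (Fin n) ℝ} {p1 p : ℝ} (hp1 : 1 ≤ p1) (hp : 0 < p)
    (hV : ∀ x : Fin n → ℝ, lpn p1 (V.mulVec x) ≤ lpn p x) {t : ℝ} (ht : 0 < t) :
    ((rows V t).card : ℝ) * t ^ p1 ≤ (n : ℝ) ^ (p1 / p) := by
  have hp10 : 0 < p1 := by linarith
  -- lower bound for the average
  have h1 : ∀ l ∈ rows V t, (2 : ℝ) ^ n * t ^ p1 ≤
      ∑ ε : Fin n → Bool, |∑ b, V l b * sg (ε b)| ^ p1 := by
    intro l hl
    obtain ⟨a, ha⟩ := (Finset.mem_filter.1 hl).2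
    refine le_trans ?_ (Av_ge hp1 (fun b => V l b) a)
    apply mul_le_mul_of_nonneg_left _ (by positivity)
    exact Real.rpow_le_rpow ht.le ha hp10.le
  have h2 : ((rows V t).card : ℝ) * ((2 : ℝ) ^ n * t ^ p1) ≤
      ∑ l, ∑ ε : Fin n → Bool, |∑ b, V l b * sg (ε b)| ^ p1 := by
    calc ((rows V t).card : ℝ) * ((2 : ℝ) ^ n * t ^ p1)
        = ∑ l ∈ rows V t, (2 : ℝ) ^ n * t ^ p1 := by
          rw [Finset.sum_const, nsmul_eq_mul]
      _ ≤ ∑ l ∈ rows V t, ∑ ε : Fin n → Bool, |∑ b, V l b * sg (ε b)| ^ p1 :=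
          Finset.sum_le_sum h1
      _ ≤ _ := Finset.sum_le_sum_of_subset_of_nonneg (Finset.subset_univ _)
          (fun l _ _ => Finset.sum_nonneg fun ε _ => Real.rpow_nonneg (abs_nonneg _) _)
  rw [Finset.sum_comm] at h2
  have h3 : ∀ ε : Fin n → Bool, ∑ l, |∑ b, V l b * sg (ε b)| ^ p1 ≤ (n : ℝ) ^ (p1 / p) := by
    intro ε
    have h := hV (fun b => sg (ε b))
    have hr : lpn p (fun b => sg (ε b)) = (n : ℝ) ^ (1 / p) := by
      rw [lpn_indicator hp _ Finset.univ (fun i _ => abs_sg _)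
        (fun i hi => absurd (Finset.mem_univ i) hi), Finset.card_univ, Fintype.card_fin]
    rw [hr] at h
    unfold lpn at h
    have h0 : 0 ≤ ∑ l, |V.mulVec (fun b => sg (ε b)) l| ^ p1 :=
      sum_abs_rpow_nonneg p1 (V.mulVec fun b => sg (ε b))
    have h4 := Real.rpow_le_rpow (Real.rpow_nonneg h0 _) h hp10.le
    rw [← Real.rpow_mul h0, one_div_mul_cancel hp10.ne', Real.rpow_one,
      ← Real.rpow_mul (Nat.cast_nonneg n), one_div_mul_eq_div] at h4
    exact h4
  have h5 : ∑ ε : Fin n → Bool, ∑ l, |∑ b, V l b * sg (ε b)| ^ p1 ≤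
      (2 : ℝ) ^ n * (n : ℝ) ^ (p1 / p) := by
    refine (Finset.sum_le_sum fun ε _ => h3 ε).trans (le_of_eq ?_)
    rw [Finset.sum_const, Finset.card_univ, Fintype.card_fun, Fintype.card_bool,
      Fintype.card_fin, nsmul_eq_mul]
    push_cast
    ring
  have h6 := h2.trans h5
  have h7 : (2 : ℝ) ^ n * (((rows V t).card : ℝ) * t ^ p1) ≤ (2 : ℝ) ^ n * (n : ℝ) ^ (p1 / p) := by
    linarith
  exact le_of_mul_le_mul_left h7 (by positivity)

theorem ents_card_le {V : Matrix Λ (Fin n) ℝ} {p1 p : ℝ} (hp1 : 0 < p1) (hp : 1 < p)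
    (hV : ∀ x : Fin n → ℝ, lpn p1 (V.mulVec x) ≤ lpn p x) {t : ℝ} (ht : 0 < t) (l : Λ) :
    ((ents V t l).card : ℝ) ≤ t ^ (-(p / (p - 1))) := by
  have hp0 : 0 < p := by linarith
  set S := ents V t l with hS
  rcases Nat.eq_zero_or_pos S.card with h0 | hpos
  · rw [h0, Nat.cast_zero]
    exact Real.rpow_nonneg ht.le _
  have hk : (0 : ℝ) < S.card := by exact_mod_cast hpos
  classical
  set x : Fin n → ℝ := fun a => if a ∈ S then (if 0 ≤ V l a then 1 else -1) else 0 with hx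
  have hx1 : ∀ a ∈ S, |x a| = 1 := by
    intro a ha
    rw [hx]
    simp only [ha, if_true]
    split_ifs <;> simp
  have hx0 : ∀ a, a ∉ S → x a = 0 := by
    intro a ha
    rw [hx]
    simp only [ha, if_false]
  have hxV : ∀ a, V l a * x a = if a ∈ S then |V l a| else 0 := by
    intro a
    rw [hx]
    simp only
    by_cases ha : a ∈ S
    · rw [if_pos ha, if_pos ha]
      split_ifs with h
      · rw [mul_one, abs_of_nonneg h]
      · rw [mul_neg, mul_one, abs_of_neg (not_le.1 h)]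
    · rw [if_neg ha, if_neg ha, mul_zero]
  have h1 : t * S.card ≤ V.mulVec x l := by
    have : V.mulVec x l = ∑ a ∈ S, |V l a| := by
      show ∑ a, V l a * x a = _
      rw [Finset.sum_congr rfl fun a _ => hxV a, Finset.sum_ite_mem, Finset.univ_inter]
    rw [this]
    calc t * S.card = ∑ a ∈ S, t := by rw [Finset.sum_const, nsmul_eq_mul, mul_comm]
      _ ≤ _ := Finset.sum_le_sum fun a ha => (Finset.mem_filter.1 ha).2
  have h2 : V.mulVec x l ≤ (S.card : ℝ) ^ (1 / p) := by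
    refine (le_abs_self _).trans ((abs_le_lpn hp1 (V.mulVec x) l).trans ((hV x).trans ?_))
    rw [lpn_indicator hp0 x S hx1 hx0]
  have h3 : (S.card : ℝ) ^ (1 - 1 / p) ≤ t⁻¹ := by
    rw [Real.rpow_sub hk, Real.rpow_one, div_le_iff₀ (Real.rpow_pos_of_pos hk _),
      ← div_le_iff₀' (by positivity)]
    rw [div_inv_eq_mul, mul_comm]
    linarith
  have hexp : (1 - 1 / p) * (p / (p - 1)) = 1 := by
    have : p - 1 ≠ 0 := by linarith
    field_simp
  have h4 := Real.rpow_le_rpow (Real.rpow_nonneg hk.le _) h3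
    (div_nonneg hp0.le (by linarith : (0 : ℝ) ≤ p - 1))
  rw [← Real.rpow_mul hk.le, hexp, Real.rpow_one, Real.inv_rpow ht.le,
    ← Real.rpow_neg ht.le] at h4
  exact h4

open Classical in
theorem good_card_le {V : Matrix Λ (Fin n) ℝ} {p1 p : ℝ} (hp1 : 11 / 10 ≤ p1) (hpp : p1 < p)
    (hp : p ≤ 6 / 5) (hV : ∀ x : Fin n → ℝ, lpn p1 (V.mulVec x) ≤ lpn p x) {η : ℝ}
    (hη : 0 < η) (hη1 : η ≤ 1) :
    (((Finset.univ : Finset (Fin n)).filter fun a => η < ∑ l, V l a ^ 2).card : ℝ) ≤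
      (n : ℝ) ^ (p1 / p) * (η ^ 16)⁻¹ := by
  have hp10 : 0 < p1 := by linarith
  have hp12 : p1 < 2 := by linarith
  have hp0 : 0 < p := by linarith
  set t : ℝ := η ^ (1 / (2 - p1)) with htd
  have ht : 0 < t := Real.rpow_pos_of_pos hη _
  have hsub : ((Finset.univ : Finset (Fin n)).filter fun a => η < ∑ l, V l a ^ 2) ⊆
      (rows V t).biUnion (ents V t) := by
    intro a ha
    obtain ⟨l, hl⟩ := exists_large hp10 hp12 hp0 hV hη a (Finset.mem_filter.1 ha).2
    rw [Finset.mem_biUnion]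
    exact ⟨l, Finset.mem_filter.2 ⟨Finset.mem_univ _, a, hl⟩,
      Finset.mem_filter.2 ⟨Finset.mem_univ _, hl⟩⟩
  have h1 : (((Finset.univ : Finset (Fin n)).filter fun a => η < ∑ l, V l a ^ 2).card : ℝ) ≤
      (rows V t).card * t ^ (-(p / (p - 1))) := by
    calc (((Finset.univ : Finset (Fin n)).filter fun a => η < ∑ l, V l a ^ 2).card : ℝ)
        ≤ (((rows V t).biUnion (ents V t)).card : ℝ) := by exact_mod_cast Finset.card_le_card hsub
      _ ≤ ∑ l ∈ rows V t, ((ents V t l).card : ℝ) := by exact_mod_cast Finset.card_biUnion_le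
      _ ≤ ∑ l ∈ rows V t, t ^ (-(p / (p - 1))) :=
          Finset.sum_le_sum fun l _ => ents_card_le hp10 (by linarith) hV ht l
      _ = _ := by rw [Finset.sum_const, nsmul_eq_mul]
  have h2 : ((rows V t).card : ℝ) ≤ (n : ℝ) ^ (p1 / p) * t ^ (-p1) := by
    have h := rows_card_le (by linarith) hp0 hV ht
    rw [Real.rpow_neg ht.le, ← div_eq_mul_inv, le_div_iff₀ (Real.rpow_pos_of_pos ht _)]
    exact h
  have h3 : t ^ (-p1) * t ^ (-(p / (p - 1))) ≤ (η ^ 16)⁻¹ := by
    rw [← Real.rpow_add ht, htd, ← Real.rpow_mul hη.le, ← Real.rpow_natCast η 16,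
      ← Real.rpow_neg hη.le]
    apply Real.rpow_le_rpow_of_exponent_ge hη hη1
    have hpp1 : p / (p - 1) ≤ 11 := by
      rw [div_le_iff₀ (by linarith)]
      linarith
    have hden : 0 < 2 - p1 := by linarith
    have h5 : (p1 + p / (p - 1)) / (2 - p1) ≤ 16 := by
      rw [div_le_iff₀ hden]
      linarith
    have h6 : 1 / (2 - p1) * (-p1 + -(p / (p - 1))) = -((p1 + p / (p - 1)) / (2 - p1)) := by
      ring
    rw [h6]
    push_cast
    linarith
  have hn0 : (0 : ℝ) ≤ (n : ℝ) ^ (p1 / p) := Real.rpow_nonneg (Nat.cast_nonneg n) _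
  calc _ ≤ _ := h1
    _ ≤ (n : ℝ) ^ (p1 / p) * t ^ (-p1) * t ^ (-(p / (p - 1))) :=
        mul_le_mul_of_nonneg_right h2 (Real.rpow_nonneg ht.le _)
    _ = (n : ℝ) ^ (p1 / p) * (t ^ (-p1) * t ^ (-(p / (p - 1)))) := by ring
    _ ≤ _ := mul_le_mul_of_nonneg_left h3 hn0

theorem main {V : Matrix Λ (Fin n) ℝ} {p1 p : ℝ} (hp1 : 11 / 10 ≤ p1) (hpp : p1 < p)
    (hp : p ≤ 6 / 5) (hV : ∀ x : Fin n → ℝ, lpn p1 (V.mulVec x) ≤ lpn p x) {η : ℝ}
    (hη : 0 < η) (hη1 : η ≤ 1) :
    ∑ a, ∑ l, V l a ^ 2 ≤ (n : ℝ) * (η + (n : ℝ) ^ (-(1 - p1 / p)) * (η ^ 16)⁻¹) := by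
  classical
  have hp10 : 0 < p1 := by linarith
  have hp12 : p1 < 2 := by linarith
  have hp0 : 0 < p := by linarith
  rcases Nat.eq_zero_or_pos n with hn | hn
  · subst hn
    simp
  have hn' : (0 : ℝ) < n := by exact_mod_cast hn
  have h1 : ∑ a, ∑ l, V l a ^ 2 ≤ ∑ a : Fin n, (η + if η < ∑ l, V l a ^ 2 then 1 else 0) := by
    apply Finset.sum_le_sum
    intro a _
    split_ifs with h
    · have := col_sq_le hp10 hp12 hp0 hV a
      linarith
    · linarith [not_lt.1 h]
  have h2 := good_card_le hp1 hpp hp hV hη hη1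
  rw [Finset.sum_add_distrib, Finset.sum_const, Finset.card_univ, Fintype.card_fin, nsmul_eq_mul,
    Finset.sum_boole] at h1
  have h3 : (n : ℝ) * (n : ℝ) ^ (-(1 - p1 / p)) = (n : ℝ) ^ (p1 / p) := by
    rw [← Real.rpow_one_add' hn'.le]
    · congr 1
      ring
    · have : 0 < p1 / p := by positivity
      linarith
  rw [mul_add, ← mul_assoc, h3]
  linarith

end HS0M

open HS0M in
theorem specHS0 : SpecHS0 := by
  intro n Λ _ V p1 p v hp1 hpp hp hv hV η hη hη1
  have hp10 : 0 < p1 := by linarith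
  rcases hv.eq_or_lt with h0 | hpos
  · -- `v = 0`
    have hz : ∀ l a, V l a = 0 := by
      intro l a
      have h := hV (Pi.single a 1)
      rw [← h0, zero_mul, col_eq] at h
      have h2 := (abs_le_lpn hp10 (fun l => V l a) l).trans h
      exact abs_nonpos_iff.1 h2
    rw [Finset.sum_eq_zero fun a _ => Finset.sum_eq_zero fun l _ => by rw [hz]; norm_num, ← h0]
    norm_num
  · have hV' : ∀ x : Fin n → ℝ, lpn p1 ((v⁻¹ • V).mulVec x) ≤ lpn p x := by
      intro x
      rw [Matrix.smul_mulVec, lpn_smul hp10, abs_of_pos (inv_pos.2 hpos),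
        inv_mul_le_iff₀ hpos]
      exact hV x
    have h := main hp1 hpp hp hV' hη hη1
    have h2 : ∑ a, ∑ l, (v⁻¹ • V) l a ^ 2 = (v ^ 2)⁻¹ * ∑ a, ∑ l, V l a ^ 2 := by
      rw [Finset.mul_sum]
      apply Finset.sum_congr rfl
      intro a _
      rw [Finset.mul_sum]
      apply Finset.sum_congr rfl
      intro l _
      rw [Matrix.smul_apply, smul_eq_mul, mul_pow, inv_pow]
    rw [h2, inv_mul_le_iff₀ (by positivity)] at h
    linarith

end Pool.Agent.MP_e87d84
end

section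
/-!
MP_e87d84_an, modules HSA and HSB (text II.4).
-/
set_option autoImplicit false

open Filter Topology

namespace Pool.Agent.MP_e87d84

open Dat

namespace HSABM

theorem lpn_single {ι : Type*} [Fintype ι] [DecidableEq ι] {p : ℝ} (hp : 0 < p) (b : ι) (c : ℝ) :
    lpn p (Pi.single b c : ι → ℝ) = |c| := by
  unfold lpn
  rw [Finset.sum_eq_single b]
  · rw [Pi.single_eq_same, ← Real.rpow_mul (abs_nonneg _), mul_one_div_cancel hp.ne',
      Real.rpow_one]
  · intro i _ hi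
    rw [Pi.single_eq_of_ne hi, abs_zero, Real.zero_rpow hp.ne']
  · intro h
    exact absurd (Finset.mem_univ b) h

theorem lpn_abs {ι : Type*} [Fintype ι] (p : ℝ) (x : ι → ℝ) : lpn p (fun i => |x i|) = lpn p x := by
  unfold lpn
  simp only [abs_abs]

variable {d d' : ℕ}

/-- `x` placed in the column `b` -/
def XA (x : Fin d → ℝ) (b : Fin d') : Fin d × Fin d' → ℝ :=
  fun g => (Pi.single b (x g.1) : Fin d' → ℝ) g.2

/-- `x` placed in the row `a` -/
def XB (x : Fin d' → ℝ) (a : Fin d) : Fin d × Fin d' → ℝ :=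
  fun g => (Pi.single a (x g.2) : Fin d → ℝ) g.1

theorem XA_eq (x : Fin d → ℝ) (b : Fin d') : XA x b = ∑ a, x a • dl (a, b) := by
  funext g
  obtain ⟨a', b'⟩ := g
  rw [Finset.sum_apply, Finset.sum_eq_single a']
  · show (Pi.single b (x a') : Fin d' → ℝ) b' = x a' * (Pi.single (a', b) (1 : ℝ) :
      Fin d × Fin d' → ℝ) (a', b')
    by_cases h : b' = b
    · subst h
      rw [Pi.single_eq_same, Pi.single_eq_same, mul_one]
    · rw [Pi.single_eq_of_ne h, Pi.single_eq_of_ne (fun hh => h (Prod.ext_iff.1 hh).2), mul_zero]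
  · intro a _ ha
    show x a * (Pi.single (a, b) (1 : ℝ) : Fin d × Fin d' → ℝ) (a', b') = 0
    rw [Pi.single_eq_of_ne (fun hh => ha (Prod.ext_iff.1 hh).1.symm), mul_zero]
  · intro h
    exact absurd (Finset.mem_univ a') h

theorem XB_eq (x : Fin d' → ℝ) (a : Fin d) : XB x a = ∑ b, x b • dl (a, b) := by
  funext g
  obtain ⟨a', b'⟩ := g
  rw [Finset.sum_apply, Finset.sum_eq_single b']
  · show (Pi.single a (x b') : Fin d → ℝ) a' = x b' * (Pi.single (a, b') (1 : ℝ) :
      Fin d × Fin d' → ℝ) (a', b')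
    by_cases h : a' = a
    · subst h
      rw [Pi.single_eq_same, Pi.single_eq_same, mul_one]
    · rw [Pi.single_eq_of_ne h, Pi.single_eq_of_ne (fun hh => h (Prod.ext_iff.1 hh).1), mul_zero]
  · intro b _ hb
    show x b * (Pi.single (a, b) (1 : ℝ) : Fin d × Fin d' → ℝ) (a', b') = 0
    rw [Pi.single_eq_of_ne (fun hh => hb (Prod.ext_iff.1 hh).2.symm), mul_zero]
  · intro h
    exact absurd (Finset.mem_univ b') h

theorem nF_XA {p q : ℝ} (hq : 0 < q) (x : Fin d → ℝ) (b : Fin d') :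
    nF p q (XA x b) = lpn p x := by
  rw [← lpn_abs p x]
  unfold nF
  congr 1
  funext a
  exact lpn_single hq b (x a)

theorem nF_XB {p q : ℝ} (hp : 0 < p) (hq : 0 < q) (x : Fin d' → ℝ) (a : Fin d) :
    nF p q (XB x a) = lpn q x := by
  have h : (fun a' => lpn q (fun b' => XB x a (a', b'))) =
      (Pi.single a (lpn q x) : Fin d → ℝ) := by
    funext a'
    by_cases h : a' = a
    · subst h
      rw [Pi.single_eq_same]
      congr 1
      funext b'
      show (Pi.single a' (x b') : Fin d → ℝ) a' = x b'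
      rw [Pi.single_eq_same]
    · rw [Pi.single_eq_of_ne h]
      have h0 : (fun b' => XB x a (a', b')) = 0 := by
        funext b'
        show (Pi.single a (x b') : Fin d → ℝ) a' = 0
        rw [Pi.single_eq_of_ne h]
      rw [h0, lpn_zero hq]
  unfold nF
  rw [h, lpn_single hp, abs_of_nonneg (lpn_nonneg _ _)]

end HSABM

open HSABM

theorem specHSA (h0 : SpecHS0) (hNF : SpecNF) : SpecHSA := by
  intro d d' V p q p1 q1 v hq hq1 hq1p hp1 hpp hp hv hV η hη hη1
  have key : ∀ b : Fin d', ∑ a, ∑ l, V (dl (a, b)) l ^ 2 ≤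
      (d : ℝ) * v ^ 2 * (η + (d : ℝ) ^ (-(1 - p1 / p)) * (η ^ 16)⁻¹) := by
    intro b
    refine h0 d (Fin d × Fin d') (fun l a => V (dl (a, b)) l) p1 p v hp1 hpp hp hv ?_ η hη hη1
    intro x
    have e : Matrix.mulVec (fun l a => V (dl (a, b)) l) x = V (XA x b) := by
      rw [XA_eq, map_sum]
      funext l
      rw [Finset.sum_apply]
      show ∑ a, V (dl (a, b)) l * x a = _
      apply Finset.sum_congr rfl
      intro a _
      rw [map_smul, Pi.smul_apply, smul_eq_mul, mul_comm]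
    rw [e]
    calc lpn p1 (V (XA x b)) ≤ nF p1 q1 (V (XA x b)) :=
          hNF.1 (Fin d) (Fin d') p1 q1 p1 (V (XA x b)) hq1 hq1p le_rfl
      _ ≤ v * nF p q (XA x b) := hV _
      _ = v * lpn p x := by rw [nF_XA (by linarith)]
  calc ∑ a, ∑ l, V (dl a) l ^ 2 = ∑ b : Fin d', ∑ a : Fin d, ∑ l, V (dl (a, b)) l ^ 2 := by
        rw [Fintype.sum_prod_type, Finset.sum_comm]
    _ ≤ ∑ _b : Fin d', (d : ℝ) * v ^ 2 * (η + (d : ℝ) ^ (-(1 - p1 / p)) * (η ^ 16)⁻¹) :=
        Finset.sum_le_sum fun b _ => key b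
    _ = _ := by
        rw [Finset.sum_const, Finset.card_univ, Fintype.card_fin, nsmul_eq_mul]
        ring

theorem specHSB (h0 : SpecHS0) : SpecHSB := by
  intro d d' V p q p1 q1 v hp hp1 hq1 hqq hq hv hV η hη hη1
  have key : ∀ a a1 : Fin d, ∑ b, ∑ b1, V (dl (a, b)) (a1, b1) ^ 2 ≤
      (d' : ℝ) * v ^ 2 * (η + (d' : ℝ) ^ (-(1 - q1 / q)) * (η ^ 16)⁻¹) := by
    intro a a1
    refine h0 d' (Fin d') (fun b1 b => V (dl (a, b)) (a1, b1)) q1 q v hq1 hqq hq hv ?_ η hη hη1
    intro x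
    have e : Matrix.mulVec (fun b1 b => V (dl (a, b)) (a1, b1)) x =
        fun b1 => V (XB x a) (a1, b1) := by
      rw [XB_eq, map_sum]
      funext l
      rw [Finset.sum_apply]
      show ∑ b, V (dl (a, b)) (a1, l) * x b = _
      apply Finset.sum_congr rfl
      intro b _
      rw [map_smul, Pi.smul_apply, smul_eq_mul, mul_comm]
    rw [e]
    have h1 : lpn q1 (fun b1 => V (XB x a) (a1, b1)) ≤ nF p1 q1 (V (XB x a)) := by
      refine (le_abs_self _).trans ?_
      exact abs_le_lpn (by linarith) (fun a => lpn q1 (fun b => V (XB x _) (a, b))) a1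
    calc _ ≤ nF p1 q1 (V (XB x a)) := h1
      _ ≤ v * nF p q (XB x a) := hV _
      _ = v * lpn q x := by rw [nF_XB (by linarith) (by linarith)]
  calc ∑ a, ∑ l, V (dl a) l ^ 2 =
        ∑ a : Fin d, ∑ a1 : Fin d, ∑ b : Fin d', ∑ b1 : Fin d', V (dl (a, b)) (a1, b1) ^ 2 := by
        rw [Fintype.sum_prod_type]
        apply Finset.sum_congr rfl
        intro a _
        rw [Finset.sum_comm, Fintype.sum_prod_type]
        apply Finset.sum_congr rfl
        intro a1 _
        rw [Finset.sum_comm]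
    _ ≤ ∑ _a : Fin d, ∑ _a1 : Fin d,
        (d' : ℝ) * v ^ 2 * (η + (d' : ℝ) ^ (-(1 - q1 / q)) * (η ^ 16)⁻¹) :=
        Finset.sum_le_sum fun a _ => Finset.sum_le_sum fun a1 _ => key a a1
    _ = _ := by
        rw [Finset.sum_const, Finset.sum_const, Finset.card_univ, Fintype.card_fin, nsmul_eq_mul,
          nsmul_eq_mul]
        ring

end Pool.Agent.MP_e87d84
end

section
/-!
NF: comparison of the norms `lpn` and `nF`
-/
set_option autoImplicit false

open Filter Topology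

namespace Pool.Agent.MP_e87d84

namespace NfM

variable {ι α β : Type*} [Fintype ι] [Fintype α] [Fintype β]

theorem lpn_rpow {p : ℝ} (hp : 0 < p) (x : ι → ℝ) : lpn p x ^ p = ∑ i, |x i| ^ p := by
  unfold lpn
  rw [← Real.rpow_mul (sum_abs_rpow_nonneg p x), one_div_mul_cancel hp.ne', Real.rpow_one]

/-- the `l_p` norms decrease with `p` -/
theorem lpn_anti {p s : ℝ} (hp : 0 < p) (hps : p ≤ s) (x : ι → ℝ) : lpn s x ≤ lpn p x := by
  have hs : 0 < s := hp.trans_le hps
  have hN := lpn_nonneg p x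
  have h1 : ∑ i, |x i| ^ s ≤ lpn p x ^ s := by
    calc ∑ i, |x i| ^ s ≤ ∑ i, |x i| ^ p * lpn p x ^ (s - p) := by
          refine Finset.sum_le_sum fun i _ => ?_
          rcases eq_or_lt_of_le (abs_nonneg (x i)) with h0 | h0
          · rw [← h0, Real.zero_rpow hs.ne', Real.zero_rpow hp.ne', zero_mul]
          · calc |x i| ^ s = |x i| ^ p * |x i| ^ (s - p) := by
                  rw [← Real.rpow_add h0]
                  congr 1
                  ring
              _ ≤ _ := by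
                  apply mul_le_mul_of_nonneg_left _ (Real.rpow_nonneg (abs_nonneg _) _)
                  exact Real.rpow_le_rpow (abs_nonneg _) (abs_le_lpn hp x i) (by linarith)
      _ = lpn p x ^ p * lpn p x ^ (s - p) := by
          rw [← Finset.sum_mul, lpn_rpow hp]
      _ = lpn p x ^ s := by
          rcases eq_or_lt_of_le hN with h0 | h0
          · rw [← h0, Real.zero_rpow hp.ne', Real.zero_rpow hs.ne', zero_mul]
          · rw [← Real.rpow_add h0]
            congr 1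
            ring
  calc lpn s x = (∑ i, |x i| ^ s) ^ (1 / s) := rfl
    _ ≤ (lpn p x ^ s) ^ (1 / s) :=
        Real.rpow_le_rpow (sum_abs_rpow_nonneg s x) h1 (by positivity)
    _ = lpn p x := by
        rw [← Real.rpow_mul hN, mul_one_div_cancel hs.ne', Real.rpow_one]

/-- `l_p(l_p) = l_p` -/
theorem nF_self {p : ℝ} (hp : 0 < p) (x : α × β → ℝ) : nF p p x = lpn p x := by
  unfold nF
  rw [lpn, lpn, Fintype.sum_prod_type]
  congr 1
  refine Finset.sum_congr rfl fun a _ => ?_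
  rw [abs_of_nonneg (lpn_nonneg _ _), lpn_rpow hp]

theorem lpn_le_nF {p q s : ℝ} (x : α × β → ℝ) (hq : 1 ≤ q) (hqp : q ≤ p) (hps : p ≤ s) :
    lpn s x ≤ nF p q x := by
  have hp : 0 < p := by linarith
  calc lpn s x ≤ lpn p x := lpn_anti hp hps x
    _ = nF p p x := (nF_self hp x).symm
    _ ≤ nF p q x := by
        unfold nF
        apply lpn_mono hp
        intro a
        rw [abs_of_nonneg (lpn_nonneg _ _), abs_of_nonneg (lpn_nonneg _ _)]
        exact lpn_anti (by linarith) hqp _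

/-- Hölder -/
theorem sum_le_lpn {p : ℝ} (hp : 1 ≤ p) (hp2 : p ≤ 6 / 5) (x : ι → ℝ) :
    ∑ i, |x i| ≤ (Fintype.card ι : ℝ) ^ (1 / 6 : ℝ) * lpn p x := by
  have hp0 : 0 < p := by linarith
  rcases isEmpty_or_nonempty ι with h | h
  · rw [Finset.univ_eq_empty, Finset.sum_empty]
    exact mul_nonneg (Real.rpow_nonneg (Nat.cast_nonneg _) _) (lpn_nonneg _ _)
  have hc : (1 : ℝ) ≤ Fintype.card ι := by
    have := Fintype.card_pos (α := ι)
    exact_mod_cast this
  have h1 := Real.rpow_sum_le_const_mul_sum_rpow (Finset.univ : Finset ι) x hp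
  have hS : 0 ≤ ∑ i, |x i| := Finset.sum_nonneg fun _ _ => abs_nonneg _
  rw [Finset.card_univ] at h1
  have h2 : (Fintype.card ι : ℝ) ^ (p - 1) ≤ ((Fintype.card ι : ℝ) ^ (1 / 6 : ℝ)) ^ p := by
    rw [← Real.rpow_mul (by linarith)]
    apply Real.rpow_le_rpow_of_exponent_le hc
    linarith
  have h3 : (∑ i, |x i|) ^ p ≤ ((Fintype.card ι : ℝ) ^ (1 / 6 : ℝ) * lpn p x) ^ p := by
    rw [Real.mul_rpow (Real.rpow_nonneg (by linarith) _) (lpn_nonneg _ _), lpn_rpow hp0]
    exact h1.trans (mul_le_mul_of_nonneg_right h2 (sum_abs_rpow_nonneg p x))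
  exact (Real.rpow_le_rpow_iff hS (mul_nonneg (Real.rpow_nonneg (by linarith) _)
    (lpn_nonneg _ _)) hp0).1 h3

theorem lpn_dl [DecidableEq ι] {p : ℝ} (hp : 0 < p) (i : ι) : lpn p (Pi.single i (1 : ℝ)) = 1 := by
  unfold lpn
  rw [Finset.sum_eq_single i]
  · rw [Pi.single_eq_same, abs_one, Real.one_rpow, Real.one_rpow]
  · intro j _ hj
    rw [Pi.single_eq_of_ne hj, abs_zero, Real.zero_rpow hp.ne']
  · intro h
    exact absurd (Finset.mem_univ i) h

end NfM

open NfM Dat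

theorem specNF : SpecNF := by
  refine ⟨fun α β _ _ p q s x hq hqp hps => lpn_le_nF x hq hqp hps, ?_, ?_⟩
  · intro d d' p q x hq hp hq2 hp2
    calc ∑ a, |x a| = ∑ a, ∑ b, |x (a, b)| := Fintype.sum_prod_type _
      _ ≤ ∑ a, (d' : ℝ) ^ (1 / 6 : ℝ) * lpn q (fun b => x (a, b)) := by
          refine Finset.sum_le_sum fun a _ => ?_
          have := sum_le_lpn hq hq2 (fun b => x (a, b))
          rwa [Fintype.card_fin] at this
      _ = (d' : ℝ) ^ (1 / 6 : ℝ) * ∑ a, |lpn q (fun b => x (a, b))| := by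
          rw [Finset.mul_sum]
          refine Finset.sum_congr rfl fun a _ => ?_
          rw [abs_of_nonneg (lpn_nonneg _ _)]
      _ ≤ (d' : ℝ) ^ (1 / 6 : ℝ) * ((d : ℝ) ^ (1 / 6 : ℝ) * nF p q x) := by
          apply mul_le_mul_of_nonneg_left _ (Real.rpow_nonneg (Nat.cast_nonneg _) _)
          have := sum_le_lpn hp hp2 (fun a => lpn q (fun b => x (a, b)))
          rwa [Fintype.card_fin] at this
      _ = _ := by
          rw [Real.mul_rpow (Nat.cast_nonneg _) (Nat.cast_nonneg _)]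
          ring
  · intro α β _ _ _ _ p q a hp hq
    obtain ⟨a, b⟩ := a
    unfold nF
    have h : (fun a' => lpn q (fun b' => (dl (a, b) : α × β → ℝ) (a', b'))) = Pi.single a 1 := by
      funext a'
      by_cases h1 : a' = a
      · subst h1
        rw [Pi.single_eq_same, ← lpn_dl hq b]
        congr 1
        funext b'
        unfold dl
        by_cases h2 : b' = b
        · subst h2
          rw [Pi.single_eq_same, Pi.single_eq_same]
        · rw [Pi.single_eq_of_ne h2, Pi.single_eq_of_ne]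
          intro h3
          exact h2 (Prod.ext_iff.1 h3).2
      · rw [Pi.single_eq_of_ne h1, ← lpn_zero hq (ι := β)]
        congr 1
        funext b'
        unfold dl
        rw [Pi.single_eq_of_ne, Pi.zero_apply]
        intro h3
        exact h1 (Prod.ext_iff.1 h3).1
    rw [h, lpn_dl hp]

end Pool.Agent.MP_e87d84
end

section
/-!
KB: basic estimates in `K` and `Zt`; CS: constant sections
-/
set_option autoImplicit false

open Filter Topology

namespace Pool.Agent.MP_e87d84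

open Dat

namespace KbM

variable {P : Dat}

theorem Lpos (P : Dat) (i : ℕ) : (2 : ℝ) ≤ P.L i := by
  have := P.hL i
  exact_mod_cast this

theorem lpn2_le_nF {i m : ℕ} (x : P.G i → ℝ) : lpn 2 x ≤ nF (P.p i m) (P.q i m) x :=
  NfM.lpn_le_nF x (one_le_q i m) (P.hqp i m m) (by have := P.hp i m; linarith)

theorem apply_le (f : P.K) (i : ℕ) : ‖f i‖ ≤ ‖f‖ := lp.norm_apply_le_norm (by norm_num) f i

theorem sq_le (f : P.K) (i : ℕ) : blkSq (f i) ≤ ‖f‖ ^ 2 := by
  have h1 := apply_le f i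
  have h2 : blkSq (f i) = ‖f i‖ ^ 2 := by
    rw [norm_blk, blkN, Real.sq_sqrt (blkSq_nonneg _)]
  rw [h2]
  exact pow_le_pow_left₀ (norm_nonneg _) h1 2

theorem diff_le (f : P.K) (i : ℕ) : (P.L i : ℝ) * ∑ m ∈ Finset.range (P.L i),
      ∑ x, (bc (f i) (m + 1) x - bc (f i) m x) ^ 2 ≤ ‖f‖ ^ 2 := by
  refine le_trans ?_ (sq_le f i)
  unfold blkSq
  have : 0 ≤ 1 / (P.L i : ℝ) * ∑ m ∈ Finset.range (P.L i + 1),
      nF (P.p i m) (P.q i m) (bc (f i) m) ^ 2 := by positivity
  linarith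

theorem norm_iot (i m : ℕ) (x : P.G i → ℝ) : ‖P.iot i m x‖ = blkN (P.put i m x) := by
  rw [← norm_blk]
  exact lp.norm_single (E := fun i => P.Blk i) (by norm_num) i (P.put i m x)

theorem norm_iot_le (i m : ℕ) (hm : m ≤ P.L i) (x : P.G i → ℝ) :
    ‖P.iot i m x‖ ≤ √(2 * (P.L i : ℝ) + 1) * nF (P.p i m) (P.q i m) x := by
  have hL := Lpos P i
  have hn := nF_nonneg (P.p i m) (P.q i m) x
  rw [norm_iot, blkN, ← Real.sqrt_sq hn, ← Real.sqrt_mul (by linarith)]
  apply Real.sqrt_le_sqrt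
  unfold blkSq
  have e1 : ∑ m' ∈ Finset.range (P.L i + 1), nF (P.p i m') (P.q i m') (bc (P.put i m x) m') ^ 2 =
      nF (P.p i m) (P.q i m) x ^ 2 := by
    rw [Finset.sum_eq_single m]
    · rw [bc_put, if_pos ⟨rfl, hm⟩]
    · intro m' _ hne
      rw [bc_put, if_neg (fun hh => hne hh.1), nF_zero (by linarith [one_le_p (P := P) i m'])
        (by linarith [one_le_q (P := P) i m'])]
      norm_num
    · intro hh
      exact absurd (Finset.mem_range.2 (by omega)) hh
  have e2 : ∑ m' ∈ Finset.range (P.L i), ∑ y, (bc (P.put i m x) (m' + 1) y -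
      bc (P.put i m x) m' y) ^ 2 ≤ 2 * ∑ y, x y ^ 2 := by
    have h0 : 0 ≤ ∑ y, x y ^ 2 := Finset.sum_nonneg fun _ _ => sq_nonneg _
    calc ∑ m' ∈ Finset.range (P.L i), ∑ y, (bc (P.put i m x) (m' + 1) y -
          bc (P.put i m x) m' y) ^ 2
        ≤ ∑ m' ∈ Finset.range (P.L i), ((if m' + 1 = m then ∑ y, x y ^ 2 else 0) +
          (if m' = m then ∑ y, x y ^ 2 else 0)) := by
          refine Finset.sum_le_sum fun m' _ => ?_
          rw [bc_put, bc_put]
          by_cases h1 : m' + 1 = m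
          · rw [if_pos ⟨h1, hm⟩, if_neg (fun hh => by omega), if_pos h1, if_neg (by omega)]
            simp
          · rw [if_neg (fun hh => h1 hh.1), if_neg h1]
            by_cases h2 : m' = m
            · rw [if_pos ⟨h2, hm⟩, if_pos h2]
              simp
            · rw [if_neg (fun hh => h2 hh.1), if_neg h2]
              simp
      _ = ∑ m' ∈ Finset.range (P.L i), (if m' + 1 = m then ∑ y, x y ^ 2 else 0) +
          ∑ m' ∈ Finset.range (P.L i), (if m' = m then ∑ y, x y ^ 2 else 0) :=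
          Finset.sum_add_distrib
      _ ≤ ∑ y, x y ^ 2 + ∑ y, x y ^ 2 := by
          apply add_le_add
          · rw [← Finset.sum_filter, Finset.sum_const, nsmul_eq_mul]
            have hc : ((Finset.range (P.L i)).filter (fun m' => m' + 1 = m)).card ≤ 1 := by
              rw [Finset.card_le_one]
              intro a ha b hb
              rw [Finset.mem_filter] at ha hb
              omega
            have hc' : (((Finset.range (P.L i)).filter (fun m' => m' + 1 = m)).card : ℝ) ≤ 1 := by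
              exact_mod_cast hc
            nlinarith
          · rw [← Finset.sum_filter, Finset.sum_const, nsmul_eq_mul]
            have hc : ((Finset.range (P.L i)).filter (fun m' => m' = m)).card ≤ 1 := by
              rw [Finset.card_le_one]
              intro a ha b hb
              rw [Finset.mem_filter] at ha hb
              omega
            have hc' : (((Finset.range (P.L i)).filter (fun m' => m' = m)).card : ℝ) ≤ 1 := by
              exact_mod_cast hc
            nlinarith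
      _ = _ := by ring
  have e3 : ∑ y, x y ^ 2 ≤ nF (P.p i m) (P.q i m) x ^ 2 := by
    rw [← lpn_two_sq]
    exact pow_le_pow_left₀ (lpn_nonneg _ _) (lpn2_le_nF x) 2
  rw [e1]
  have e4 : 1 / (P.L i : ℝ) * nF (P.p i m) (P.q i m) x ^ 2 ≤ nF (P.p i m) (P.q i m) x ^ 2 := by
    have : 1 / (P.L i : ℝ) ≤ 1 := by
      rw [div_le_one (by linarith)]
      linarith
    nlinarith [sq_nonneg (nF (P.p i m) (P.q i m) x)]
  have e5 : (P.L i : ℝ) * ∑ m' ∈ Finset.range (P.L i), ∑ y, (bc (P.put i m x) (m' + 1) y -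
      bc (P.put i m x) m' y) ^ 2 ≤ (P.L i : ℝ) * (2 * nF (P.p i m) (P.q i m) x ^ 2) := by
    apply mul_le_mul_of_nonneg_left _ (by linarith)
    linarith
  linarith

/-- the `l_2` norms of two positions differ by at most the norm of `f` -/
theorem pos_le (f : P.K) (i : ℕ) {k m : ℕ} (hk : k ≤ m) (hm : m ≤ P.L i) :
    lpn 2 (bc (f i) m - bc (f i) k) ≤ ‖f‖ := by
  have hL := Lpos P i
  have h1 : ∀ n, k ≤ n → n ≤ P.L i → lpn 2 (bc (f i) n - bc (f i) k) ≤
      ∑ j ∈ Finset.Ico k n, lpn 2 (bc (f i) (j + 1) - bc (f i) j) := by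
    intro n hkn
    induction n, hkn using Nat.le_induction with
    | base => simp [lpn_zero]
    | succ n hn ih =>
      intro hle
      rw [Finset.sum_Ico_succ_top hn]
      have e : bc (f i) (n + 1) - bc (f i) k =
        (bc (f i) n - bc (f i) k) + (bc (f i) (n + 1) - bc (f i) n) := by abel
      rw [e]
      exact (lpn_add_le (by norm_num) _ _).trans (add_le_add (ih (by omega)) le_rfl)
  have h2 : (∑ j ∈ Finset.Ico k m, lpn 2 (bc (f i) (j + 1) - bc (f i) j)) ^ 2 ≤ ‖f‖ ^ 2 := by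
    calc (∑ j ∈ Finset.Ico k m, lpn 2 (bc (f i) (j + 1) - bc (f i) j)) ^ 2
        ≤ ((Finset.Ico k m).card : ℝ) *
          ∑ j ∈ Finset.Ico k m, lpn 2 (bc (f i) (j + 1) - bc (f i) j) ^ 2 :=
          sq_sum_le_card_mul_sum_sq
      _ ≤ (P.L i : ℝ) * ∑ j ∈ Finset.range (P.L i),
          lpn 2 (bc (f i) (j + 1) - bc (f i) j) ^ 2 := by
          apply mul_le_mul
          · rw [Nat.card_Ico]
            exact_mod_cast (by omega : m - k ≤ P.L i)
          · apply Finset.sum_le_sum_of_subset_of_nonneg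
            · intro j hj
              rw [Finset.mem_Ico] at hj
              rw [Finset.mem_range]
              omega
            · intro _ _ _
              positivity
          · positivity
          · linarith
      _ = (P.L i : ℝ) * ∑ m ∈ Finset.range (P.L i),
          ∑ x, (bc (f i) (m + 1) x - bc (f i) m x) ^ 2 := by
          simp only [lpn_two_sq, Pi.sub_apply]
      _ ≤ ‖f‖ ^ 2 := diff_le f i
  exact (h1 m hk hm).trans (le_of_sq_le_sq h2 (norm_nonneg _))

theorem lpn_neg' {ι : Type*} [Fintype ι] (p : ℝ) (x y : ι → ℝ) : lpn p (x - y) = lpn p (y - x) := by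
  rw [← lpn_neg p (x - y), neg_sub]

theorem sob (f : P.K) (i m : ℕ) (hm : m ≤ P.L i) : lpn 2 (bc (f i) m) ≤ 2 * ‖f‖ := by
  have hL := Lpos P i
  -- some position is small
  obtain ⟨k, hk, hks⟩ : ∃ k ≤ P.L i, lpn 2 (bc (f i) k) ≤ ‖f‖ := by
    by_contra hcon
    push Not at hcon
    have h1 : ∑ m ∈ Finset.range (P.L i + 1), nF (P.p i m) (P.q i m) (bc (f i) m) ^ 2 ≤
        (P.L i : ℝ) * ‖f‖ ^ 2 := by
      have h2 := sq_le f i
      unfold blkSq at h2
      have h3 : 0 ≤ (P.L i : ℝ) *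
        ∑ m ∈ Finset.range (P.L i), ∑ x, (bc (f i) (m + 1) x - bc (f i) m x) ^ 2 := by positivity
      have h4 : 1 / (P.L i : ℝ) * ∑ m ∈ Finset.range (P.L i + 1),
        nF (P.p i m) (P.q i m) (bc (f i) m) ^ 2 ≤ ‖f‖ ^ 2 := by linarith
      rw [one_div, inv_mul_le_iff₀ (by linarith)] at h4
      exact h4
    have h2 : ∑ m ∈ Finset.range (P.L i + 1), ‖f‖ ^ 2 <
        ∑ m ∈ Finset.range (P.L i + 1), nF (P.p i m) (P.q i m) (bc (f i) m) ^ 2 := by
      apply Finset.sum_lt_sum_of_nonempty ⟨0, Finset.mem_range.2 (by omega)⟩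
      intro m hm
      rw [Finset.mem_range] at hm
      have h3 := hcon m (by omega)
      exact pow_lt_pow_left₀ (h3.trans_le (lpn2_le_nF _)) (norm_nonneg _) (by norm_num)
    rw [Finset.sum_const, Finset.card_range, nsmul_eq_mul] at h2
    push_cast at h2
    nlinarith [sq_nonneg ‖f‖]
  have e : bc (f i) m = bc (f i) k + (bc (f i) m - bc (f i) k) := by abel
  have h5 : lpn 2 (bc (f i) m - bc (f i) k) ≤ ‖f‖ := by
    rcases le_total k m with h | h
    · exact pos_le f i h hm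
    · rw [lpn_neg']
      exact pos_le f i h hk
  rw [e]
  have := lpn_add_le (p := 2) (by norm_num) (bc (f i) k) (bc (f i) m - bc (f i) k)
  linarith

theorem bc_sq_le (f : P.K) (i m : ℕ) (hm : m ≤ P.L i) :
    ∑ x, bc (f i) m x ^ 2 ≤ (2 * ‖f‖) ^ 2 := by
  rw [← lpn_two_sq]
  exact pow_le_pow_left₀ (lpn_nonneg _ _) (sob f i m hm) 2

theorem co_nF_le (z : P.Zt) (i m : ℕ) (hm : m < P.L i) :
    nF (P.p i m) (P.q i m) (P.co i m z) ≤ √(P.L i : ℝ) * ‖z‖ := by
  have hL := Lpos P i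
  have hs : 0 < √(P.L i : ℝ) := Real.sqrt_pos.2 (by linarith)
  apply le_of_forall_pos_le_add
  intro ε hε
  obtain ⟨f, rfl, hf⟩ := P.π_lift z (div_pos hε hs)
  rw [co_π _ _ hm]
  have h1 := nF_le_blkN (f i) hm.le
  rw [← norm_blk] at h1
  have h2 := apply_le f i
  calc nF (P.p i m) (P.q i m) (bc (f i) m) ≤ √(P.L i : ℝ) * ‖f i‖ := h1
    _ ≤ √(P.L i : ℝ) * (‖P.π f‖ + ε / √(P.L i : ℝ)) :=
        mul_le_mul_of_nonneg_left (by linarith) hs.le
    _ = _ := by
        rw [mul_add, mul_div_cancel₀ _ hs.ne']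

theorem co_sq_le (z : P.Zt) (i m : ℕ) (hm : m < P.L i) :
    ∑ x, P.co i m z x ^ 2 ≤ (2 * ‖z‖) ^ 2 := by
  rw [← lpn_two_sq]
  apply pow_le_pow_left₀ (lpn_nonneg _ _)
  apply le_of_forall_pos_le_add
  intro ε hε
  obtain ⟨f, rfl, hf⟩ := P.π_lift z (half_pos hε)
  rw [co_π _ _ hm]
  have := sob f i m hm.le
  linarith

end KbM

open KbM

theorem specKB (hNF : SpecNF) : SpecKB := by
  intro P i
  have hL := Lpos P i
  refine ⟨fun m hm x => norm_iot_le i m hm x, fun m hm f => bc_sq_le f i m hm, fun f => ?_,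
    fun f => diff_le f i, fun f => ?_, fun m hm z => co_nF_le z i m hm,
    fun m hm z => co_sq_le z i m hm⟩
  · rw [le_div_iff₀ (by linarith), mul_comm]
    refine le_trans ?_ (diff_le f i)
    apply mul_le_mul_of_nonneg_left _ (by linarith)
    have hL2 := P.hL i
    have h1 := Finset.single_le_sum (f := fun m => ∑ x, (bc (f i) (m + 1) x - bc (f i) m x) ^ 2)
      (s := Finset.range (P.L i)) (fun m _ => by positivity)
      (Finset.mem_range.2 (by omega : P.L i - 1 < P.L i))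
    simp only at h1
    rwa [Nat.sub_add_cancel (by omega)] at h1
  · have h1 := hNF.2.1 (P.d i) (P.d' i) (P.p i (P.L i)) (P.q i (P.L i)) (bc (f i) (P.L i))
      (one_le_q i _) (one_le_p i _) (by have := P.hqp i (P.L i) (P.L i); have := P.hp i (P.L i)
                                        linarith) (P.hp i _)
    have h2 := nF_le_blkN (f i) (m := P.L i) le_rfl
    rw [← norm_blk] at h2
    have h3 := apply_le f i
    refine h1.trans ?_
    unfold Dat.ω Dat.D
    rw [mul_assoc]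
    apply mul_le_mul_of_nonneg_left _ (by positivity)
    exact h2.trans (mul_le_mul_of_nonneg_left h3 (Real.sqrt_nonneg _))

namespace KbM

variable {P : Dat}

/-- the constant section as an element of the block -/
noncomputable def csb (P : Dat) (i : ℕ) (x : P.G i) : P.Blk i := fun _ => dl x

theorem bc_csb (i : ℕ) (x : P.G i) {m : ℕ} (hm : m ≤ P.L i) : bc (csb P i x) m = dl x := by
  unfold bc
  rw [dif_pos (by omega)]
  rfl

theorem cs_eq (i : ℕ) (x : P.G i) : P.cs i x = lp.single 2 i (csb P i x) := by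
  unfold Dat.cs
  have h : ∀ m, P.iot i m (dl x) = lp.single 2 i (P.put i m (dl x)) := fun m => rfl
  simp only [h]
  have h2 : ∑ m ∈ Finset.range (P.L i + 1), lp.single (E := fun i => P.Blk i) 2 i
      (P.put i m (dl x)) = lp.single 2 i (∑ m ∈ Finset.range (P.L i + 1), P.put i m (dl x)) := by
    have := map_sum (lp.lsingle (E := fun i => P.Blk i) (𝕜 := ℝ) 2 i)
      (fun m => P.put i m (dl x)) (Finset.range (P.L i + 1))
    exact this.symm
  rw [h2]
  congr 1
  apply blk_ext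
  intro m hm y
  have hb : bc (∑ m' ∈ Finset.range (P.L i + 1), P.put i m' (dl x)) m =
      ∑ m' ∈ Finset.range (P.L i + 1), bc (P.put i m' (dl x)) m := by
    induction Finset.range (P.L i + 1) using Finset.induction_on with
    | empty => rw [Finset.sum_empty, Finset.sum_empty, bc_zero]
    | insert a s ha ih => rw [Finset.sum_insert ha, Finset.sum_insert ha, bc_add, ih]
  rw [hb, bc_csb _ _ hm, Finset.sum_eq_single m]
  · rw [bc_put, if_pos ⟨rfl, hm⟩]
  · intro m' _ hne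
    rw [bc_put, if_neg (fun hh => hne hh.1.symm)]
  · intro hh
    exact absurd (Finset.mem_range.2 (by omega)) hh

theorem csb_sq (hNF : SpecNF) (i : ℕ) (x : P.G i) : ‖csb P i x‖ ^ 2 ≤ 2 := by
  have hL := Lpos P i
  rw [norm_blk, blkN, Real.sq_sqrt (blkSq_nonneg _)]
  unfold blkSq
  have e1 : ∑ m ∈ Finset.range (P.L i + 1), nF (P.p i m) (P.q i m) (bc (csb P i x) m) ^ 2 =
      (P.L i : ℝ) + 1 := by
    rw [Finset.sum_congr rfl (g := fun _ => (1 : ℝ))]
    · rw [Finset.sum_const, Finset.card_range, nsmul_eq_mul]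
      push_cast
      ring
    · intro m hm
      rw [Finset.mem_range] at hm
      rw [bc_csb _ _ (by omega), hNF.2.2 _ _ _ _ x (by linarith [one_le_p (P := P) i m])
        (by linarith [one_le_q (P := P) i m])]
      norm_num
  have e2 : ∑ m ∈ Finset.range (P.L i), ∑ y, (bc (csb P i x) (m + 1) y -
      bc (csb P i x) m y) ^ 2 = 0 := by
    apply Finset.sum_eq_zero
    intro m hm
    rw [Finset.mem_range] at hm
    rw [bc_csb _ _ (by omega), bc_csb _ _ (by omega)]
    simp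
  rw [e1, e2, mul_zero, add_zero, one_div, inv_mul_le_iff₀ (by linarith)]
  linarith

end KbM

theorem specCS (hNF : SpecNF) : SpecCS := by
  intro P x S
  have h1 := lp.norm_sum_single (E := fun i => P.Blk i) (p := 2) (by norm_num)
    (fun i => csb P i (x i)) S
  have h2 : ‖∑ i ∈ S, P.cs i (x i)‖ ^ 2 = ∑ i ∈ S, ‖csb P i (x i)‖ ^ 2 := by
    have e : ((2 : ENNReal).toReal) = 2 := by norm_num
    rw [e] at h1
    simp only [Real.rpow_two] at h1
    simp only [cs_eq]
    exact h1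
  have h3 : ‖∑ i ∈ S, P.cs i (x i)‖ ^ 2 ≤ 2 * S.card := by
    rw [h2]
    calc ∑ i ∈ S, ‖csb P i (x i)‖ ^ 2 ≤ ∑ i ∈ S, (2 : ℝ) :=
          Finset.sum_le_sum fun i _ => csb_sq hNF i (x i)
      _ = _ := by rw [Finset.sum_const, nsmul_eq_mul, mul_comm]
  rw [← Real.sqrt_mul (by norm_num)]
  exact Real.le_sqrt_of_sq_le h3

end Pool.Agent.MP_e87d84
end

section
/-!
HSE, XQ, DX: Hilbert-Schmidt estimates on the rung
-/
set_option autoImplicit false

open Filter Topology

namespace Pool.Agent.MP_e87d84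

open Dat

namespace HseM

variable {P : Dat}

/-- the operator `e_{mk}` -/
noncomputable def emk (P : Dat) (e : P.Zt →L[ℝ] P.Zt) (i m k : ℕ) :
    (P.G i → ℝ) →ₗ[ℝ] (P.G i → ℝ) :=
  (P.co i m).comp (((e : P.Zt →ₗ[ℝ] P.Zt).comp (P.π : P.K →ₗ[ℝ] P.Zt)).comp (P.iot i k))

theorem emk_apply (e : P.Zt →L[ℝ] P.Zt) (i m k : ℕ) (x : P.G i → ℝ) :
    emk P e i m k x = P.co i m (e (P.π (P.iot i k x))) := rfl

theorem emk_le (hKB : SpecKB) (e : P.Zt →L[ℝ] P.Zt) (E : ℝ) (he : ‖e‖ ≤ E) (i m k : ℕ)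
    (hm : m < P.L i) (hk : k ≤ P.L i) (x : P.G i → ℝ) :
    nF (P.p i m) (P.q i m) (emk P e i m k x) ≤ 4 * P.L i * E * nF (P.p i k) (P.q i k) x := by
  have hL := KbM.Lpos P i
  have hE : 0 ≤ E := (norm_nonneg _).trans he
  obtain ⟨h1, -, -, -, -, h6, -⟩ := hKB P i
  have hn := nF_nonneg (P.p i k) (P.q i k) x
  rw [emk_apply]
  calc nF (P.p i m) (P.q i m) (P.co i m (e (P.π (P.iot i k x))))
      ≤ √(P.L i : ℝ) * ‖e (P.π (P.iot i k x))‖ := h6 m hm _
    _ ≤ √(P.L i : ℝ) * (E * (√(2 * (P.L i : ℝ) + 1) * nF (P.p i k) (P.q i k) x)) := by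
        apply mul_le_mul_of_nonneg_left _ (Real.sqrt_nonneg _)
        refine (e.le_opNorm _).trans ?_
        apply mul_le_mul he _ (norm_nonneg _) hE
        exact (P.π_norm_le _).trans (h1 k hk x)
    _ = (√(P.L i : ℝ) * √(2 * (P.L i : ℝ) + 1)) * (E * nF (P.p i k) (P.q i k) x) := by ring
    _ ≤ (4 * P.L i) * (E * nF (P.p i k) (P.q i k) x) := by
        apply mul_le_mul_of_nonneg_right _ (mul_nonneg hE hn)
        rw [← Real.sqrt_mul (by linarith)]
        rw [Real.sqrt_le_left (by linarith)]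
        nlinarith
    _ = _ := by ring

theorem rpow_mono_neg {n : ℕ} (hn : 1 ≤ n) {a b : ℝ} (h : a ≤ b) :
    (n : ℝ) ^ (-b) ≤ (n : ℝ) ^ (-a) :=
  Real.rpow_le_rpow_of_exponent_le (by exact_mod_cast hn) (by linarith)

theorem expo {p1 p g : ℝ} (hg : 0 < g) (h1 : 11 / 10 ≤ p1) (h : p1 + g ≤ p) (hp : p ≤ 6 / 5) :
    g / 2 ≤ 1 - p1 / p := by
  have hp0 : 0 < p := by linarith
  rw [le_sub_iff_add_le, ← le_sub_iff_add_le', div_le_iff₀ hp0]
  nlinarith

end HseM

open HseM

theorem specHSE (hKB : SpecKB) (hA : SpecHSA) (hB : SpecHSB) : SpecHSE := by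
  intro P e E he i m k hm hk hkm
  have hL := KbM.Lpos P i
  have hE : 0 ≤ E := (norm_nonneg _).trans he
  have hv : 0 ≤ 4 * (P.L i : ℝ) * E := by positivity
  have hV := emk_le hKB e E he i m k hm hk
  have hd1 := P.hd i
  have hd1' := P.hd' i
  have hd : (1 : ℝ) ≤ P.d i := by exact_mod_cast hd1
  have hd' : (1 : ℝ) ≤ P.d' i := by exact_mod_cast hd1'
  have hsum : hs (P.em e i m k) = ∑ a, ∑ l, emk P e i m k (dl a) l ^ 2 := by
    unfold hs
    rw [Finset.sum_comm]
    rfl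
  rw [hsum]
  rcases lt_or_gt_of_ne hkm with h | h
  · -- k < m
    have hq := P.hqg i k m h (by omega)
    obtain ⟨η, hη0, hη1, hη⟩ := P.hh2 i
    have hqk : P.q i k ≤ 6 / 5 := by
      have := P.hqp i k k
      have := P.hp i k
      linarith
    have h1 := hB (P.d i) (P.d' i) (emk P e i m k) (P.p i k) (P.q i k) (P.p i m) (P.q i m)
      (4 * P.L i * E) (one_le_p i k) (one_le_p i m) (P.hq i m) (by have := P.hg i; linarith) hqk
      hv hV η hη0 hη1
    refine h1.trans ?_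
    have h2 : (P.d' i : ℝ) ^ (-(1 - P.q i m / P.q i k)) ≤ (P.d' i : ℝ) ^ (-(P.g i / 2)) :=
      rpow_mono_neg hd1' (expo (P.hg i) (P.hq i m) hq hqk)
    have h3 : (P.d i : ℝ) * (η + (P.d' i : ℝ) ^ (-(1 - P.q i m / P.q i k)) * (η ^ 16)⁻¹) ≤ P.h i := by
      refine le_trans ?_ hη
      apply mul_le_mul_of_nonneg_left _ (by linarith)
      have : (P.d' i : ℝ) ^ (-(1 - P.q i m / P.q i k)) * (η ^ 16)⁻¹ ≤
        (P.d' i : ℝ) ^ (-(P.g i / 2)) * (η ^ 16)⁻¹ :=
        mul_le_mul_of_nonneg_right h2 (by positivity)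
      linarith
    calc (P.d i : ℝ) * P.d' i * P.d i * (4 * P.L i * E) ^ 2 *
          (η + (P.d' i : ℝ) ^ (-(1 - P.q i m / P.q i k)) * (η ^ 16)⁻¹)
        = (P.d i : ℝ) * P.d' i * (4 * P.L i * E) ^ 2 *
          (P.d i * (η + (P.d' i : ℝ) ^ (-(1 - P.q i m / P.q i k)) * (η ^ 16)⁻¹)) := by ring
      _ ≤ (P.d i : ℝ) * P.d' i * (4 * P.L i * E) ^ 2 * P.h i :=
          mul_le_mul_of_nonneg_left h3 (by positivity)
      _ = _ := rfl
  · -- m < k
    have hp := P.hpg i m k h hk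
    obtain ⟨η, hη0, hη1, hη⟩ := P.hh1 i
    have hpm : 11 / 10 ≤ P.p i m := by
      have := P.hqp i m m
      have := P.hq i m
      linarith
    have h1 := hA (P.d i) (P.d' i) (emk P e i m k) (P.p i k) (P.q i k) (P.p i m) (P.q i m)
      (4 * P.L i * E) (one_le_q i k) (one_le_q i m) (P.hqp i m m) hpm
      (by have := P.hg i; linarith) (P.hp i k) hv hV η hη0 hη1
    refine h1.trans ?_
    have h2 : (P.d i : ℝ) ^ (-(1 - P.p i m / P.p i k)) ≤ (P.d i : ℝ) ^ (-(P.g i / 2)) :=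
      rpow_mono_neg hd1 (expo (P.hg i) hpm hp (P.hp i k))
    have h3 : η + (P.d i : ℝ) ^ (-(1 - P.p i m / P.p i k)) * (η ^ 16)⁻¹ ≤ P.h i := by
      refine le_trans ?_ hη
      have : (P.d i : ℝ) ^ (-(1 - P.p i m / P.p i k)) * (η ^ 16)⁻¹ ≤
        (P.d i : ℝ) ^ (-(P.g i / 2)) * (η ^ 16)⁻¹ :=
        mul_le_mul_of_nonneg_right h2 (by positivity)
      linarith
    exact mul_le_mul_of_nonneg_left h3 (by positivity)

theorem specXQ (hHSE : SpecHSE) : SpecXQ := by
  intro P e E he i m hm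
  have hL := KbM.Lpos P i
  have hE : 0 ≤ E := (norm_nonneg _).trans he
  set T := (Finset.range (P.L i + 1)).erase m with hT
  have hTc : T.card = P.L i := by
    rw [hT, Finset.card_erase_of_mem (Finset.mem_range.2 (by omega)), Finset.card_range]
    omega
  have he1 : ∀ l a, (P.xm e i m - P.em e i m m) l a = ∑ k ∈ T, P.em e i m k l a := by
    intro l a
    have h1 : P.xm e i m l a = ∑ k ∈ Finset.range (P.L i + 1), P.em e i m k l a := by
      show P.co i m (e (P.π (P.cs i a))) l = _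
      unfold Dat.cs
      rw [map_sum, map_sum, map_sum, Finset.sum_apply]
      rfl
    rw [Matrix.sub_apply, h1, ← Finset.add_sum_erase _ _ (Finset.mem_range.2 (by omega : m < P.L i + 1))]
    ring
  have h2 : hs (P.xm e i m - P.em e i m m) ≤ (P.L i : ℝ) * ∑ k ∈ T, hs (P.em e i m k) := by
    unfold hs
    calc ∑ l, ∑ a, (P.xm e i m - P.em e i m m) l a ^ 2
        ≤ ∑ l, ∑ a, (P.L i : ℝ) * ∑ k ∈ T, P.em e i m k l a ^ 2 := by
          refine Finset.sum_le_sum fun l _ => Finset.sum_le_sum fun a _ => ?_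
          rw [he1]
          have := sq_sum_le_card_mul_sum_sq (s := T) (f := fun k => P.em e i m k l a)
          rwa [hTc] at this
      _ = (P.L i : ℝ) * ∑ k ∈ T, ∑ l, ∑ a, P.em e i m k l a ^ 2 := by
          simp only [← Finset.mul_sum]
          congr 1
          rw [Finset.sum_comm' (t' := Finset.univ) (s' := fun _ => T) (by simp)]
          refine Finset.sum_congr rfl fun l _ => ?_
          rw [Finset.sum_comm]
  refine h2.trans ?_
  have h3 : ∑ k ∈ T, hs (P.em e i m k) ≤ P.L i * (P.D i * (4 * P.L i * E) ^ 2 * P.h i) := by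
    have := Finset.sum_le_card_nsmul T (fun k => hs (P.em e i m k))
      (P.D i * (4 * P.L i * E) ^ 2 * P.h i) (fun k hk => by
        rw [hT, Finset.mem_erase, Finset.mem_range] at hk
        exact hHSE P e E he i m k hm (by omega) hk.1)
    rw [hTc, nsmul_eq_mul] at this
    exact this
  calc (P.L i : ℝ) * ∑ k ∈ T, hs (P.em e i m k)
      ≤ P.L i * (P.L i * (P.D i * (4 * P.L i * E) ^ 2 * P.h i)) :=
        mul_le_mul_of_nonneg_left h3 (by linarith)
    _ = _ := by ring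

theorem specDX (hKB : SpecKB) (hCS : SpecCS) : SpecDX := by
  intro P e E he i
  have hL := KbM.Lpos P i
  have hL2 := P.hL i
  have hE : 0 ≤ E := (norm_nonneg _).trans he
  obtain ⟨-, -, -, h4, -, -, -⟩ := hKB P i
  choose f hf using fun a : P.G i => P.π_lift_two (e (P.π (P.cs i a)))
  have hcs : ∀ a : P.G i, ‖P.cs i a‖ ≤ √2 := by
    intro a
    have hx : ∀ j, Nonempty (P.G j) := fun j =>
      ⟨(⟨0, by have := P.hd j; omega⟩, ⟨0, by have := P.hd' j; omega⟩)⟩
    classical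
    have h := hCS P (fun j => if hj : j = i then hj ▸ a else (hx j).some) {i}
    simpa using h
  have hf2 : ∀ a, ‖f a‖ ^ 2 ≤ 8 * E ^ 2 := by
    intro a
    have h1 : ‖f a‖ ≤ 2 * (E * √2) := by
      refine (hf a).2.trans ?_
      apply mul_le_mul_of_nonneg_left _ (by norm_num)
      refine (e.le_opNorm _).trans ?_
      exact mul_le_mul he ((P.π_norm_le _).trans (hcs a)) (norm_nonneg _) hE
    calc ‖f a‖ ^ 2 ≤ (2 * (E * √2)) ^ 2 := pow_le_pow_left₀ (norm_nonneg _) h1 2
      _ = 4 * E ^ 2 * √2 ^ 2 := by ring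
      _ = _ := by
          rw [Real.sq_sqrt (by norm_num)]
          ring
  have hxm : ∀ m < P.L i, ∀ l a, P.xm e i m l a = bc (f a i) m l := by
    intro m hm l a
    show P.co i m (e (P.π (P.cs i a))) l = _
    rw [← (hf a).1, co_π _ _ hm]
  have h5 : ∀ m ∈ Finset.range (P.L i - 1), hs (P.xm e i (m + 1) - P.xm e i m) =
      ∑ a, ∑ l, (bc (f a i) (m + 1) l - bc (f a i) m l) ^ 2 := by
    intro m hm
    rw [Finset.mem_range] at hm
    unfold hs
    rw [Finset.sum_comm]
    refine Finset.sum_congr rfl fun a _ => Finset.sum_congr rfl fun l _ => ?_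
    rw [Matrix.sub_apply, hxm _ (by omega), hxm _ (by omega)]
  rw [Finset.sum_congr rfl h5, le_div_iff₀ (by linarith), Finset.sum_comm, mul_comm,
    Finset.mul_sum]
  have hcard : ((Finset.univ : Finset (P.G i)).card : ℝ) = P.D i := by
    rw [Finset.card_univ, Fintype.card_prod, Fintype.card_fin, Fintype.card_fin]
    unfold Dat.D
    push_cast
    rfl
  calc ∑ a, (P.L i : ℝ) * ∑ m ∈ Finset.range (P.L i - 1),
        ∑ l, (bc (f a i) (m + 1) l - bc (f a i) m l) ^ 2
      ≤ ∑ a : P.G i, 8 * E ^ 2 := by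
        refine Finset.sum_le_sum fun a _ => ?_
        refine le_trans ?_ ((h4 (f a)).trans (hf2 a))
        apply mul_le_mul_of_nonneg_left _ (by linarith)
        apply Finset.sum_le_sum_of_subset_of_nonneg
        · exact Finset.range_subset_range.2 (by omega)
        · intro _ _ _
          positivity
    _ = 8 * E ^ 2 * P.D i := by
        rw [Finset.sum_const, nsmul_eq_mul, hcard]
        ring

end Pool.Agent.MP_e87d84
end

section
/-!
MP_e87d84_an, module [KAPG], from KB.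
-/
set_option autoImplicit false

open Filter Topology

namespace Pool.Agent.MP_e87d84

open Dat

namespace KapgM

variable (P : Dat)

theorem kg_π (i : ℕ) (x : P.G (i + 1)) (f : P.K) :
    P.kg i x (P.π f) = 1 / (P.M (i + 1) : ℝ) * ∑ j, P.τ (i + 1) j x * P.ee i j f := by
  unfold Dat.kg
  rw [LinearMap.smul_apply, LinearMap.sum_apply, smul_eq_mul]
  congr 1
  refine Finset.sum_congr rfl fun j _ => ?_
  rw [LinearMap.smul_apply, ez_π, smul_eq_mul]

/-- the sum over `j`, expanded -/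
theorem sum_ee (i : ℕ) (x : P.G (i + 1)) (f : P.K) :
    ∑ j, P.τ (i + 1) j x * P.ee i j f =
      ∑ y, (∑ j, P.τ (i + 1) j x * P.τ (i + 1) j y) * bc (f (i + 1)) (P.L (i + 1)) y +
      ∑ y, (∑ j, P.σ i j y * P.τ (i + 1) j x) * bc (f i) (P.L i) y := by
  unfold Dat.ee
  simp only [mul_add, Finset.sum_add_distrib, Finset.mul_sum, Finset.sum_mul]
  congr 1
  · rw [Finset.sum_comm]
    refine Finset.sum_congr rfl fun y _ => Finset.sum_congr rfl fun j _ => ?_
    ring
  · rw [Finset.sum_comm]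
    refine Finset.sum_congr rfl fun y _ => Finset.sum_congr rfl fun j _ => ?_
    ring

theorem M_pos (i : ℕ) : (0 : ℝ) < P.M i := by
  have := P.hM i
  exact_mod_cast this

theorem kg_sub (hKB : SpecKB) (i : ℕ) (x : P.G (i + 1)) (f : P.K) :
    |P.kg i x (P.π f) - bc (f (i + 1)) (P.L (i + 1)) x| ≤ P.θ i * ‖f‖ := by
  classical
  have hM := M_pos P (i + 1)
  have h1 := (hKB P (i + 1)).2.2.2.2.1 f
  have h2 := (hKB P i).2.2.2.2.1 f
  have hd : ∑ j, P.τ (i + 1) j x * P.τ (i + 1) j x = (P.M (i + 1) : ℝ) := by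
    rw [Finset.sum_congr rfl fun j _ => show P.τ (i + 1) j x * P.τ (i + 1) j x = 1 by
      rw [← sq, P.τsq]]
    simp
  have e1 : P.kg i x (P.π f) - bc (f (i + 1)) (P.L (i + 1)) x =
      1 / (P.M (i + 1) : ℝ) *
        (∑ y ∈ Finset.univ.erase x, (∑ j, P.τ (i + 1) j x * P.τ (i + 1) j y) *
          bc (f (i + 1)) (P.L (i + 1)) y +
        ∑ y, (∑ j, P.σ i j y * P.τ (i + 1) j x) * bc (f i) (P.L i) y) := by
    rw [kg_π, sum_ee, ← Finset.add_sum_erase _ _ (Finset.mem_univ x), hd]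
    field_simp
    ring
  rw [e1, abs_mul, abs_of_pos (by positivity : (0 : ℝ) < 1 / (P.M (i + 1) : ℝ))]
  have b1 : |∑ y ∈ Finset.univ.erase x, (∑ j, P.τ (i + 1) j x * P.τ (i + 1) j y) *
      bc (f (i + 1)) (P.L (i + 1)) y| ≤
      P.k (i + 1) * P.M (i + 1) * (P.ω (i + 1) * ‖f‖) := by
    refine (Finset.abs_sum_le_sum_abs _ _).trans ?_
    refine (Finset.sum_le_sum (g := fun y => P.k (i + 1) * P.M (i + 1) *
      |bc (f (i + 1)) (P.L (i + 1)) y|) fun y hy => ?_).trans ?_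
    · rw [abs_mul]
      apply mul_le_mul_of_nonneg_right _ (abs_nonneg _)
      exact P.kτ (i + 1) x y (Finset.ne_of_mem_erase hy).symm
    · rw [← Finset.mul_sum]
      apply mul_le_mul_of_nonneg_left _ (mul_nonneg (P.hk _) hM.le)
      refine le_trans ?_ h1
      exact Finset.sum_le_sum_of_subset_of_nonneg (Finset.erase_subset _ _)
        fun _ _ _ => abs_nonneg _
  have b2 : |∑ y, (∑ j, P.σ i j y * P.τ (i + 1) j x) * bc (f i) (P.L i) y| ≤
      P.k (i + 1) * P.M (i + 1) * (P.ω i * ‖f‖) := by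
    refine (Finset.abs_sum_le_sum_abs _ _).trans ?_
    refine (Finset.sum_le_sum (g := fun y => P.k (i + 1) * P.M (i + 1) *
      |bc (f i) (P.L i) y|) fun y _ => ?_).trans ?_
    · rw [abs_mul]
      apply mul_le_mul_of_nonneg_right _ (abs_nonneg _)
      exact P.kc i y x
    · rw [← Finset.mul_sum]
      exact mul_le_mul_of_nonneg_left h2 (mul_nonneg (P.hk _) hM.le)
  calc 1 / (P.M (i + 1) : ℝ) * |_| ≤ 1 / (P.M (i + 1) : ℝ) *
        (P.k (i + 1) * P.M (i + 1) * (P.ω (i + 1) * ‖f‖) +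
          P.k (i + 1) * P.M (i + 1) * (P.ω i * ‖f‖)) := by
        apply mul_le_mul_of_nonneg_left _ (by positivity)
        exact (abs_add_le _ _).trans (add_le_add b1 b2)
    _ = P.θ i * ‖f‖ := by
        unfold Dat.θ
        field_simp

theorem ω_nonneg (i : ℕ) : 0 ≤ P.ω i := by
  unfold Dat.ω Dat.D
  positivity

theorem θ_nonneg (i : ℕ) : 0 ≤ P.θ i :=
  mul_nonneg (P.hk _) (add_nonneg (ω_nonneg P _) (ω_nonneg P _))

theorem kg_le (hKB : SpecKB) (i : ℕ) (x : P.G (i + 1)) (f : P.K) :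
    |P.kg i x (P.π f)| ≤ (2 + P.θ i) * ‖f‖ := by
  have h1 := kg_sub P hKB i x f
  have h2 := (hKB P (i + 1)).2.1 (P.L (i + 1)) le_rfl f
  have h3 : bc (f (i + 1)) (P.L (i + 1)) x ^ 2 ≤ (2 * ‖f‖) ^ 2 :=
    (Finset.single_le_sum (f := fun x => bc (f (i + 1)) (P.L (i + 1)) x ^ 2)
      (fun _ _ => sq_nonneg _) (Finset.mem_univ x)).trans h2
  have h4 : |bc (f (i + 1)) (P.L (i + 1)) x| ≤ 2 * ‖f‖ :=
    abs_le_of_sq_le_sq h3 (by positivity)
  have h5 : P.kg i x (P.π f) = (P.kg i x (P.π f) - bc (f (i + 1)) (P.L (i + 1)) x) +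
      bc (f (i + 1)) (P.L (i + 1)) x := by ring
  rw [h5]
  refine (abs_add_le _ _).trans ?_
  linarith

end KapgM

theorem specKAPG (hKB : SpecKB) : SpecKAPG := by
  intro P i x
  refine ⟨KapgM.kg_sub P hKB i x, fun z => ?_⟩
  have hθ := KapgM.θ_nonneg P i
  refine le_of_forall_pos_le_add fun ε hε => ?_
  obtain ⟨f, rfl, hf⟩ := P.π_lift z (show 0 < ε / (2 + P.θ i) by positivity)
  refine (KapgM.kg_le P hKB i x f).trans ?_
  calc (2 + P.θ i) * ‖f‖ ≤ (2 + P.θ i) * (‖P.π f‖ + ε / (2 + P.θ i)) :=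
        mul_le_mul_of_nonneg_left hf.le (by positivity)
    _ = (2 + P.θ i) * ‖P.π f‖ + ε := by
        field_simp

end Pool.Agent.MP_e87d84
end

section
/-!
MP_e87d84_an, module LL: the trace of an almost idempotent matrix moves at second order.
-/
set_option autoImplicit false

namespace Pool.Agent.MP_e87d84

namespace LlM

open Matrix Finset

set_option linter.unusedSectionVars false

variable {G : Type*} [Fintype G] [DecidableEq G]

abbrev H (G : Type*) [Fintype G] := EuclideanSpace ℝ G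

noncomputable abbrev Ap (M : Matrix G G ℝ) : H G →ₗ[ℝ] H G := Matrix.toEuclideanLin M

lemma Ap_mul (M N : Matrix G G ℝ) (x : H G) : Ap (M * N) x = Ap M (Ap N x) := by
  ext i
  simp [Ap, Matrix.toLpLin_apply, Matrix.mulVec_mulVec]

lemma Ap_sub (M N : Matrix G G ℝ) (x : H G) : Ap (M - N) x = Ap M x - Ap N x := by
  simp [Ap]

lemma inner_eq (x y : H G) : (inner ℝ x y) = ∑ i, x i * y i := by
  simp [PiLp.inner_apply, mul_comm]

lemma Ap_apply (M : Matrix G G ℝ) (x : H G) (i : G) : Ap M x i = ∑ j, M i j * x j := by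
  simp [Ap, Matrix.toLpLin_apply, Matrix.mulVec, dotProduct]

lemma inner_Ap (M : Matrix G G ℝ) (x y : H G) : (inner ℝ x (Ap M y)) = (inner ℝ (Ap Mᵀ x) y) := by
  simp only [inner_eq, Ap_apply, Finset.mul_sum, Finset.sum_mul, Matrix.transpose_apply]
  rw [Finset.sum_comm]
  refine Finset.sum_congr rfl fun i _ => Finset.sum_congr rfl fun j _ => by ring

lemma trace_eq {ι : Type*} [Fintype ι] (b : OrthonormalBasis ι ℝ (H G)) (M : Matrix G G ℝ) :
    M.trace = ∑ i, (inner ℝ (b i) (Ap M (b i))) := by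
  classical
  have h1 : LinearMap.trace ℝ (H G) (Ap M) = ∑ i, (inner ℝ (b i) (Ap M (b i))) := by
    rw [LinearMap.trace_eq_matrix_trace ℝ b.toBasis, Matrix.trace]
    refine Finset.sum_congr rfl fun i _ => ?_
    simp [LinearMap.toMatrix_apply, b.repr_apply_apply]
  have h2 : LinearMap.trace ℝ (H G) (Ap M) = ∑ i, M i i := by
    rw [LinearMap.trace_eq_matrix_trace ℝ (EuclideanSpace.basisFun G ℝ).toBasis, Matrix.trace]
    refine Finset.sum_congr rfl fun i _ => ?_
    simp [LinearMap.toMatrix_apply, Ap_apply]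
  rw [← h1, h2]
  rfl

lemma norm_sq_eq (x : H G) : ‖x‖ ^ 2 = ∑ i, x i ^ 2 := by
  rw [EuclideanSpace.norm_sq_eq]
  simp

/-- how the S1 hypothesis is used -/
lemma S1use {J : Type*} [Fintype J] {N : Matrix G G ℝ} {ν C : ℝ} (hN : S1le N ν) (hC : 0 < C)
    (x y : J → H G) (hx : Orthonormal ℝ x)
    (hy : ∀ c : J → ℝ, ‖∑ j, c j • y j‖ ^ 2 ≤ C ^ 2 * ∑ j, c j ^ 2) :
    |∑ j, (inner ℝ (x j) (Ap N (y j)))| ≤ C * ν := by
  let O : Matrix G G ℝ := C⁻¹ • ∑ j, vecMulVec (fun i => y j i) (fun i => x j i)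
  have hOx : ∀ z : G → ℝ, ∀ i, (O *ᵥ z) i = C⁻¹ * ∑ j, (∑ k, x j k * z k) * y j i := by
    intro z i
    simp only [O, Matrix.mulVec, dotProduct, Matrix.smul_apply, Matrix.sum_apply, vecMulVec_apply,
      smul_eq_mul, Finset.mul_sum, Finset.sum_mul]
    rw [Finset.sum_comm]
    refine Finset.sum_congr rfl fun j _ => Finset.sum_congr rfl fun k _ => by ring
  have hO : Contr O := by
    intro z
    have e1 : ∑ i, (O *ᵥ z) i ^ 2 = C⁻¹ ^ 2 * ‖∑ j, (∑ k, x j k * z k) • y j‖ ^ 2 := by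
      rw [norm_sq_eq, Finset.mul_sum]
      refine Finset.sum_congr rfl fun i _ => ?_
      rw [hOx]
      simp [mul_pow]
    have e2 : ∑ j, (∑ k, x j k * z k) ^ 2 ≤ ∑ i, z i ^ 2 := by
      have := hx.sum_inner_products_le (s := Finset.univ) (WithLp.toLp 2 z : H G)
      simpa [inner_eq, norm_sq_eq] using this
    rw [e1]
    calc C⁻¹ ^ 2 * ‖∑ j, (∑ k, x j k * z k) • y j‖ ^ 2
        ≤ C⁻¹ ^ 2 * (C ^ 2 * ∑ j, (∑ k, x j k * z k) ^ 2) := by gcongr; exact hy _
      _ = ∑ j, (∑ k, x j k * z k) ^ 2 := by field_simp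
      _ ≤ _ := e2
  have ht : (O * N).trace = C⁻¹ * ∑ j, (inner ℝ (x j) (Ap N (y j))) := by
    simp only [O, Matrix.smul_mul, Matrix.trace_smul, smul_eq_mul, Matrix.sum_mul, Matrix.trace_sum]
    congr 1
    refine Finset.sum_congr rfl fun j _ => ?_
    simp only [Matrix.trace, Matrix.diag, Matrix.mul_apply, vecMulVec_apply, inner_eq, Ap_apply,
      Finset.mul_sum]
    rw [Finset.sum_comm]
    refine Finset.sum_congr rfl fun i _ => Finset.sum_congr rfl fun k _ => by ring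
  have := hN O hO
  rw [ht, abs_mul, abs_of_pos (inv_pos.2 hC), inv_mul_le_iff₀ hC] at this
  linarith

lemma svd (P : Matrix G G ℝ) {ρ : ℝ} (hρ : 0 < ρ) :
    ∃ (u : OrthonormalBasis G ℝ (H G)) (I : Finset G) (T : H G →ₗ[ℝ] H G),
      (∀ x, (∀ i ∉ I, (inner ℝ (u i) x) = 0) → Ap P (T x) = x ∧ ‖T x‖ ≤ ρ⁻¹ * ‖x‖) ∧
      (∀ x, (∀ i ∈ I, (inner ℝ (u i) x) = 0) → ‖Ap Pᵀ x‖ ≤ ρ * ‖x‖) := by
  have hA : (P * Pᵀ).IsHermitian := by
    simp [Matrix.IsHermitian, Matrix.conjTranspose_eq_transpose_of_trivial]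
  let u := hA.eigenvectorBasis
  let l := hA.eigenvalues
  have hu : ∀ i, Ap (P * Pᵀ) (u i) = l i • u i := by
    intro i
    ext k
    have := congrFun (hA.mulVec_eigenvectorBasis i) k
    simpa [Ap, Matrix.toLpLin_apply] using this
  have key : ∀ x : H G, ‖Ap Pᵀ x‖ ^ 2 = ∑ i, l i * (inner ℝ (u i) x) ^ 2 := by
    intro x
    have e1 : ‖Ap Pᵀ x‖ ^ 2 = (inner ℝ x (Ap (P * Pᵀ) x)) := by
      rw [← real_inner_self_eq_norm_sq, Ap_mul, inner_Ap Pᵀ, Matrix.transpose_transpose,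
        real_inner_comm]
    rw [e1, ← u.sum_inner_mul_inner x (Ap (P * Pᵀ) x)]
    refine Finset.sum_congr rfl fun i _ => ?_
    rw [inner_Ap, show (P * Pᵀ)ᵀ = P * Pᵀ by simp, hu, inner_smul_left, real_inner_comm]
    simp
    ring
  have hxu : ∀ x : H G, ∑ i, (inner ℝ (u i) x) • u i = x := fun x => u.sum_repr' x
  have hn : ∀ x : H G, ‖x‖ ^ 2 = ∑ i, (inner ℝ (u i) x) ^ 2 := by
    intro x
    rw [← real_inner_self_eq_norm_sq, ← u.sum_inner_mul_inner x x]
    refine Finset.sum_congr rfl fun i _ => ?_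
    rw [real_inner_comm, sq]
  let I : Finset G := Finset.univ.filter fun i => ρ ^ 2 < l i
  let R : H G →ₗ[ℝ] H G := ∑ i ∈ I, (l i)⁻¹ • (innerₗ (H G) (u i)).smulRight (u i)
  have hR : ∀ x, R x = ∑ i ∈ I, ((l i)⁻¹ * (inner ℝ (u i) x)) • u i := by
    intro x
    simp [R, LinearMap.sum_apply, smul_smul]
  have hRu : ∀ x i, (inner ℝ (u i) (R x)) = if i ∈ I then (l i)⁻¹ * (inner ℝ (u i) x) else 0 := by
    intro x i
    rw [hR, inner_sum]
    simp only [inner_smul_right, orthonormal_iff_ite.1 u.orthonormal]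
    simp
  refine ⟨u, I, (Ap Pᵀ).comp R, ?_, ?_⟩
  · intro x hx
    have hx' : ∑ i ∈ I, (inner ℝ (u i) x) • u i = x := by
      conv_rhs => rw [← hxu x]
      refine Finset.sum_subset (Finset.subset_univ _) fun i _ hi => ?_
      rw [hx i hi, zero_smul]
    constructor
    · rw [LinearMap.comp_apply, ← Ap_mul, hR, map_sum]
      conv_rhs => rw [← hx']
      refine Finset.sum_congr rfl fun i hi => ?_
      have hl : ρ ^ 2 < l i := (Finset.mem_filter.1 hi).2
      have hl0 : l i ≠ 0 := (lt_trans (by positivity) hl).ne'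
      rw [map_smul, hu, smul_smul]
      congr 1
      field_simp
    · have h1 : ‖((Ap Pᵀ).comp R) x‖ ^ 2 ≤ (ρ⁻¹ * ‖x‖) ^ 2 := by
        rw [LinearMap.comp_apply, key, mul_pow, hn x, Finset.mul_sum]
        refine Finset.sum_le_sum fun i _ => ?_
        rw [hRu]
        split_ifs with hi
        · have hl : ρ ^ 2 < l i := (Finset.mem_filter.1 hi).2
          have hl0 : 0 < l i := lt_trans (by positivity) hl
          have : l i * ((l i)⁻¹ * (inner ℝ (u i) x)) ^ 2 = (l i)⁻¹ * (inner ℝ (u i) x) ^ 2 := by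
            field_simp
          rw [this]
          gcongr
          rw [inv_pow]
          gcongr
        · simp only [ne_eq, OfNat.ofNat_ne_zero, not_false_eq_true, zero_pow, mul_zero]
          positivity
      exact le_of_sq_le_sq h1 (by positivity)
  · intro x hx
    have h1 : ‖Ap Pᵀ x‖ ^ 2 ≤ (ρ * ‖x‖) ^ 2 := by
      rw [key, mul_pow, hn x, Finset.mul_sum]
      refine Finset.sum_le_sum fun i _ => ?_
      by_cases hi : i ∈ I
      · rw [hx i hi]; simp
      · have hl : l i ≤ ρ ^ 2 := by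
          by_contra hc
          exact hi (Finset.mem_filter.2 ⟨Finset.mem_univ _, lt_of_not_ge hc⟩)
        gcongr
    exact le_of_sq_le_sq h1 (by positivity)

/-- first consequence: for an orthonormal family in the range part. -/
lemma l1 {P : Matrix G G ℝ} {ν ρ : ℝ} (hρ : 0 < ρ) (hN : S1le (P * P - P) ν)
    {u : OrthonormalBasis G ℝ (H G)} {I : Finset G} {T : H G →ₗ[ℝ] H G}
    (hT : ∀ x, (∀ i ∉ I, (inner ℝ (u i) x) = 0) → Ap P (T x) = x ∧ ‖T x‖ ≤ ρ⁻¹ * ‖x‖)
    {J : Type*} [Fintype J] (x : J → H G) (hx : Orthonormal ℝ x)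
    (hxI : ∀ j, ∀ i ∉ I, (inner ℝ (u i) (x j)) = 0) :
    |∑ j, (inner ℝ (x j) (Ap P (x j))) - Fintype.card J| ≤ ρ⁻¹ * ν := by
  have h := S1use hN (inv_pos.2 hρ) x (fun j => T (x j)) hx ?_
  · have e : ∑ j, (inner ℝ (x j) (Ap (P * P - P) (T (x j)))) =
        ∑ j, (inner ℝ (x j) (Ap P (x j))) - Fintype.card J := by
      have : ∀ j, (inner ℝ (x j) (Ap (P * P - P) (T (x j)))) = (inner ℝ (x j) (Ap P (x j))) - 1 := by
        intro j
        rw [Ap_sub, Ap_mul, (hT (x j) (hxI j)).1, inner_sub_right, real_inner_self_eq_norm_sq,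
          hx.1 j]
        norm_num
      rw [Finset.sum_congr rfl fun j _ => this j, Finset.sum_sub_distrib]
      simp
    rw [e] at h
    exact h
  · intro c
    have h1 : ∑ j, c j • T (x j) = T (∑ j, c j • x j) := by
      simp [map_sum]
    have h2 := (hT (∑ j, c j • x j) (by
      intro i hi
      rw [inner_sum]
      refine Finset.sum_eq_zero fun j _ => ?_
      rw [inner_smul_right, hxI j i hi, mul_zero])).2
    have h3 : ‖∑ j, c j • x j‖ ^ 2 = ∑ j, c j ^ 2 := by
      rw [← real_inner_self_eq_norm_sq, hx.inner_sum]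
      simp [sq]
    rw [h1, ← h3, ← mul_pow]
    gcongr

lemma l2 {P : Matrix G G ℝ} {ν ρ : ℝ} (hρ : 0 < ρ) (hN : S1le (P * P - P) ν)
    {u : OrthonormalBasis G ℝ (H G)} {I : Finset G} {T : H G →ₗ[ℝ] H G}
    (hT : ∀ x, (∀ i ∉ I, (inner ℝ (u i) x) = 0) → Ap P (T x) = x ∧ ‖T x‖ ≤ ρ⁻¹ * ‖x‖)
    (hT' : ∀ x, (∀ i ∈ I, (inner ℝ (u i) x) = 0) → ‖Ap Pᵀ x‖ ≤ ρ * ‖x‖) :
    |P.trace - I.card| ≤ ρ * Fintype.card G + ρ⁻¹ * ν := by
  have h1 := l1 hρ hN hT (J := I) (fun i => u i) (u.orthonormal.comp _ Subtype.val_injective)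
    (by
      intro j i hi
      rw [orthonormal_iff_ite.1 u.orthonormal, if_neg]
      rintro rfl
      exact hi j.2)
  have h2 : |∑ i ∈ Iᶜ, (inner ℝ (u i) (Ap P (u i)))| ≤ ρ * Fintype.card G := by
    calc |∑ i ∈ Iᶜ, (inner ℝ (u i) (Ap P (u i)))| ≤ ∑ i ∈ Iᶜ, |(inner ℝ (u i) (Ap P (u i)))| :=
          Finset.abs_sum_le_sum_abs _ _
      _ ≤ ∑ i ∈ Iᶜ, ρ := by
          refine Finset.sum_le_sum fun i hi => ?_
          have h3 := hT' (u i) (by
            intro j hj
            rw [orthonormal_iff_ite.1 u.orthonormal, if_neg]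
            rintro rfl
            exact (Finset.mem_compl.1 hi) hj)
          rw [inner_Ap]
          refine (abs_real_inner_le_norm _ _).trans ?_
          rw [u.orthonormal.1 i] at h3 ⊢
          linarith
      _ ≤ ρ * Fintype.card G := by
          rw [Finset.sum_const, nsmul_eq_mul, mul_comm]
          gcongr
          exact Finset.card_le_univ _
  have h3 : P.trace - I.card = (∑ i : I, (inner ℝ (u i) (Ap P (u i))) - Fintype.card I) +
      ∑ i ∈ Iᶜ, (inner ℝ (u i) (Ap P (u i))) := by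
    rw [trace_eq u, ← Finset.sum_add_sum_compl I, Finset.sum_coe_sort I fun i => (inner ℝ (u i) (Ap P (u i)))]
    simp
    ring
  rw [h3]
  refine (abs_add_le _ _).trans ?_
  linarith

lemma HS2_eq {N : Matrix G G ℝ} {J : Type*} [Fintype J] (x : J → H G) (hx : Orthonormal ℝ x) :
    ∑ j, ‖Ap N (x j)‖ ^ 2 ≤ hs N := by
  simp only [norm_sq_eq, hs]
  rw [Finset.sum_comm]
  refine Finset.sum_le_sum fun i _ => ?_
  have := hx.sum_inner_products_le (s := Finset.univ) (WithLp.toLp 2 (N i) : H G)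
  simpa [inner_eq, norm_sq_eq, Ap_apply, mul_comm] using this

/-- dimension count -/
lemma dimcount {A B : Type*} [Fintype A] [Fintype B] (a : A → H G) (b : B → H G) :
    ∃ (k : ℕ) (x : Fin k → H G), Orthonormal ℝ x ∧ (∀ j, ∀ i, (inner ℝ (a i) (x j)) = 0) ∧
      (∀ j, ∀ i, (inner ℝ (b i) (x j)) = 0) ∧ Fintype.card G ≤ k + Fintype.card A + Fintype.card B := by
  let f : H G →ₗ[ℝ] (A ⊕ B → ℝ) := LinearMap.pi fun s => innerₗ (H G) (Sum.elim a b s)
  let W := LinearMap.ker f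
  refine ⟨Module.finrank ℝ W, fun j => (stdOrthonormalBasis ℝ W j : H G), ?_, ?_, ?_, ?_⟩
  · exact (stdOrthonormalBasis ℝ W).orthonormal.comp_linearIsometry W.subtypeₗᵢ
  · intro j i
    have := (stdOrthonormalBasis ℝ W j).2
    rw [LinearMap.mem_ker] at this
    exact congrFun this (Sum.inl i)
  · intro j i
    have := (stdOrthonormalBasis ℝ W j).2
    rw [LinearMap.mem_ker] at this
    exact congrFun this (Sum.inr i)
  · have h1 := LinearMap.finrank_range_add_finrank_ker f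
    have h2 : Module.finrank ℝ (LinearMap.range f) ≤ Fintype.card A + Fintype.card B := by
      refine (Submodule.finrank_le _).trans ?_
      simp
    have h3 : Module.finrank ℝ (H G) = Fintype.card G := by simp
    change Fintype.card G ≤ Module.finrank ℝ (LinearMap.ker f) + _ + _
    omega

theorem LL (P Q : Matrix G G ℝ) (ν ρ : ℝ) (hρ : 0 < ρ) (hρ4 : ρ ≤ 1 / 4)
    (hP : S1le (P * P - P) (ν * Fintype.card G)) (hQ : S1le (Q * Q - Q) (ν * Fintype.card G)) :
    P.trace - Q.trace ≤ 2 * hs (P - Q) + 4 * (ρ + ν / ρ) * Fintype.card G := by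
  obtain ⟨u, I, T, hT, hT'⟩ := svd P hρ
  obtain ⟨v, J, S, hS, hS'⟩ := svd Q hρ
  obtain ⟨k, x, hx, hxa, hxb, hk⟩ := dimcount (G := G) (A := (Iᶜ : Finset G)) (B := J)
    (fun i => u i) (fun i => Ap Qᵀ (v i))
  have h1 := l1 hρ hP hT x hx (fun j i hi => hxa j ⟨i, Finset.mem_compl.2 hi⟩)
  have h2 : ∀ j, (inner ℝ (x j) (Ap Q (x j))) ≤ ρ := by
    intro j
    have h3 := hS' (Ap Q (x j)) (by
      intro i hi
      rw [inner_Ap]
      exact hxb j ⟨i, hi⟩)
    have h4 : ‖Ap Q (x j)‖ ^ 2 ≤ ρ * ‖Ap Q (x j)‖ := by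
      rw [← real_inner_self_eq_norm_sq, ← Matrix.transpose_transpose Q, ← inner_Ap,
        Matrix.transpose_transpose Q]
      refine (real_inner_le_norm _ _).trans ?_
      rw [hx.1 j]
      linarith
    have h5 : ‖Ap Q (x j)‖ ≤ ρ := by
      by_contra hc
      push Not at hc
      nlinarith [norm_nonneg (Ap Q (x j))]
    refine (real_inner_le_norm _ _).trans ?_
    rw [hx.1 j]
    linarith
  have h3 : ∑ j, (inner ℝ (x j) (Ap (P - Q) (x j))) ≤ k / 4 + hs (P - Q) := by
    calc ∑ j, (inner ℝ (x j) (Ap (P - Q) (x j))) ≤ ∑ j, (1 / 4 + ‖Ap (P - Q) (x j)‖ ^ 2) := by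
          refine Finset.sum_le_sum fun j _ => ?_
          refine (real_inner_le_norm _ _).trans ?_
          rw [hx.1 j]
          nlinarith [sq_nonneg (‖Ap (P - Q) (x j)‖ - 1 / 2)]
      _ ≤ k / 4 + hs (P - Q) := by
          rw [Finset.sum_add_distrib]
          have := HS2_eq (N := P - Q) x hx
          simp only [Finset.sum_const, Finset.card_univ, Fintype.card_fin, nsmul_eq_mul]
          linarith
  have h4 : ∑ j, (inner ℝ (x j) (Ap P (x j))) = ∑ j, (inner ℝ (x j) (Ap (P - Q) (x j))) + ∑ j, (inner ℝ (x j) (Ap Q (x j))) := by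
    rw [← Finset.sum_add_distrib]
    refine Finset.sum_congr rfl fun j _ => ?_
    rw [Ap_sub, inner_sub_right]
    ring
  have h5 : ∑ j, (inner ℝ (x j) (Ap Q (x j))) ≤ k * ρ := by
    calc ∑ j, (inner ℝ (x j) (Ap Q (x j))) ≤ ∑ _j : Fin k, ρ := Finset.sum_le_sum fun j _ => h2 j
      _ = k * ρ := by simp
  have h6 := l2 hρ hP hT hT'
  have h7 := l2 hρ hQ hS hS'
  have hk' : (I.card : ℝ) ≤ k + J.card := by
    have e1 : Fintype.card (Iᶜ : Finset G) = Fintype.card G - I.card := by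
      rw [Fintype.card_coe, Finset.card_compl]
    have e2 : I.card ≤ Fintype.card G := Finset.card_le_univ _
    have e3 : Fintype.card J = J.card := Fintype.card_coe J
    have : I.card ≤ k + J.card := by omega
    exact_mod_cast this
  have h8 := (abs_le.1 h1).1
  rw [Fintype.card_fin] at h8
  have h9 := (abs_le.1 h6).2
  have h10 := (abs_le.1 h7).1
  have h11 : (k : ℝ) * ρ ≤ k * (1 / 4) := by gcongr
  have e : ρ⁻¹ * (ν * Fintype.card G) = ν / ρ * Fintype.card G := by
    field_simp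
  rw [e] at h8 h9 h10
  nlinarith

end LlM

theorem specLL : SpecLL := by
  intro ι _ _ A B ν ρ _ hρ hρ4 hA hB
  exact LlM.LL A B ν ρ hρ hρ4 hA hB

end Pool.Agent.MP_e87d84
end

section
/-!
MP_e87d84_an, module RUN: along a rung the trace of the diagonal blocks moves at second order.
-/
set_option autoImplicit false

namespace Pool.Agent.MP_e87d84

open Dat Finset

namespace RunM

lemma hs_three {κ : Type*} [Fintype κ] (A B C D' : Matrix κ κ ℝ) :
    hs (A - D') ≤ 3 * (hs (B - C) + hs (B - A) + hs (C - D')) := by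
  unfold hs
  rw [← Finset.sum_add_distrib, ← Finset.sum_add_distrib, Finset.mul_sum]
  refine Finset.sum_le_sum fun l _ => ?_
  rw [← Finset.sum_add_distrib, ← Finset.sum_add_distrib, Finset.mul_sum]
  refine Finset.sum_le_sum fun a _ => ?_
  simp only [Matrix.sub_apply]
  have h1 := sq_nonneg ((B l a - C l a) + (B l a - A l a))
  have h2 := sq_nonneg ((B l a - C l a) - (C l a - D' l a))
  have h3 := sq_nonneg ((B l a - A l a) + (C l a - D' l a))
  nlinarith

lemma card_G (P : Dat) (i : ℕ) : (Fintype.card (P.G i) : ℝ) = P.D i := by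
  simp [Dat.D]

lemma D_pos (P : Dat) (i : ℕ) : 0 < P.D i := by
  have h1 := P.hd i
  have h2 := P.hd' i
  unfold Dat.D
  positivity

lemma nu_pos (P : Dat) (i : ℕ) {E : ℝ} (hE : 1 ≤ E) : 0 < P.nu i E := by
  have hL : (0 : ℝ) < P.L i := by have := P.hL i; positivity
  have hh := P.hh0 i
  have hD := D_pos P i
  have hE0 : 0 < E := by linarith
  have h1 : 0 ≤ P.D i ^ (-(P.g i / 2)) := Real.rpow_nonneg hD.le _
  unfold Dat.nu C0
  positivity

end RunM

open RunM

theorem specRUN (hSQ : SpecSQ) (hXQ : SpecXQ) (hDX : SpecDX) : SpecRUN := by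
  intro P e E he heE hE i hnu
  have hL2 : 2 ≤ P.L i := P.hL i
  have hL : (0 : ℝ) < P.L i := by positivity
  have hD := D_pos P i
  have hnp := nu_pos P i hE
  set ν := P.nu i E with hν
  have hρ : 0 < √ν := Real.sqrt_pos.2 hnp
  have hρ4 : √ν ≤ 1 / 4 := by
    rw [Real.sqrt_le_iff]
    constructor
    · norm_num
    · linarith
  have hνρ : ν / √ν = √ν := by
    rw [div_eq_iff hρ.ne', Real.mul_self_sqrt hnp.le]
  have step : ∀ m ∈ range (P.L i - 1),
      (P.em e i (m + 1) (m + 1)).trace - (P.em e i m m).trace ≤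
        6 * hs (P.xm e i (m + 1) - P.xm e i m) +
          (12 * (P.D i * (4 * P.L i ^ 2 * E) ^ 2 * P.h i) + 8 * √ν * P.D i) := by
    intro m hm
    have hm' := Finset.mem_range.1 hm
    have h1 := specLL (P.G i) (P.em e i (m + 1) (m + 1)) (P.em e i m m) ν √ν hnp.le hρ hρ4
      (by rw [card_G]; exact hSQ P e E he heE hE i (m + 1) (by omega))
      (by rw [card_G]; exact hSQ P e E he heE hE i m (by omega))
    rw [hνρ, card_G] at h1
    have h2 := hXQ P e E heE i (m + 1) (by omega)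
    have h3 := hXQ P e E heE i m (by omega)
    have h4 := hs_three (P.em e i (m + 1) (m + 1)) (P.xm e i (m + 1)) (P.xm e i m) (P.em e i m m)
    linarith
  have tel : (P.em e i (P.L i - 1) (P.L i - 1)).trace - (P.em e i 0 0).trace =
      ∑ m ∈ range (P.L i - 1), ((P.em e i (m + 1) (m + 1)).trace - (P.em e i m m).trace) :=
    (Finset.sum_range_sub (fun m => (P.em e i m m).trace) (P.L i - 1)).symm
  have hsum := Finset.sum_le_sum step
  rw [← tel, Finset.sum_add_distrib, ← Finset.mul_sum, Finset.sum_const, Finset.card_range,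
    nsmul_eq_mul] at hsum
  have hdx := hDX P e E heE i
  have hcast : ((P.L i - 1 : ℕ) : ℝ) ≤ P.L i := by
    exact_mod_cast Nat.sub_le _ _
  have hh := P.hh0 i
  have hc : ((P.L i - 1 : ℕ) : ℝ) *
      (12 * (P.D i * (4 * P.L i ^ 2 * E) ^ 2 * P.h i) + 8 * √ν * P.D i) ≤
      P.L i * (12 * (P.D i * (4 * P.L i ^ 2 * E) ^ 2 * P.h i) + 8 * √ν * P.D i) := by
    gcongr
  refine hsum.trans ?_
  have e1 : P.D i * (48 * E ^ 2 / P.L i + 192 * P.L i ^ 5 * E ^ 2 * P.h i + 8 * P.L i * √ν) =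
      6 * (8 * E ^ 2 * P.D i / P.L i) +
      P.L i * (12 * (P.D i * (4 * P.L i ^ 2 * E) ^ 2 * P.h i) + 8 * √ν * P.D i) := by
    field_simp
    ring
  rw [e1]
  linarith

end Pool.Agent.MP_e87d84
end

section
/-!
MP_e87d84_an, modules S1P, S1R: two bounds for the trace norm (in dual form).
-/
set_option autoImplicit false

namespace Pool.Agent.MP_e87d84

namespace S1M

open Matrix Finset LlM

set_option linter.unusedSectionVars false

variable {G : Type*} [Fintype G] [DecidableEq G]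

lemma trace_mul_le (A B : Matrix G G ℝ) : |(A * B).trace| ≤ √(hs A) * √(hs B) := by
  have e : (A * B).trace = ∑ z ∈ (univ : Finset G) ×ˢ (univ : Finset G), A z.1 z.2 * B z.2 z.1 := by
    rw [Finset.sum_product, Matrix.trace]
    simp [Matrix.mul_apply]
  have eA : hs A = ∑ z ∈ (univ : Finset G) ×ˢ (univ : Finset G), A z.1 z.2 ^ 2 := by
    rw [Finset.sum_product, hs]
  have eB : hs B = ∑ z ∈ (univ : Finset G) ×ˢ (univ : Finset G), B z.2 z.1 ^ 2 := by
    rw [Finset.sum_product_right, hs]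
  have h := Finset.sum_mul_sq_le_sq_mul_sq ((univ : Finset G) ×ˢ (univ : Finset G))
    (fun z => A z.1 z.2) (fun z => B z.2 z.1)
  rw [← Real.sqrt_mul (by rw [eA]; positivity), eA, eB, e]
  exact Real.abs_le_sqrt h

lemma hs_contr {O : Matrix G G ℝ} (hO : Contr O) (U : Matrix G G ℝ) : hs (O * U) ≤ hs U := by
  unfold hs
  rw [Finset.sum_comm]
  conv_rhs => rw [Finset.sum_comm]
  refine Finset.sum_le_sum fun a _ => ?_
  have := hO (fun l => U l a)
  simpa [Matrix.mulVec, dotProduct, Matrix.mul_apply] using this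

lemma norm_contr {O : Matrix G G ℝ} (hO : Contr O) (x : LlM.H G) : ‖Ap O x‖ ≤ ‖x‖ := by
  have := hO (fun i => x i)
  have h2 : ‖Ap O x‖ ^ 2 ≤ ‖x‖ ^ 2 := by
    rw [norm_sq_eq, norm_sq_eq]
    simpa [Matrix.mulVec, dotProduct, Ap_apply] using this
  exact le_of_sq_le_sq h2 (norm_nonneg _)

end S1M

open S1M LlM

theorem specS1P : SpecS1P := by
  intro ι _ _ U V O hO
  rw [← Matrix.mul_assoc]
  refine (trace_mul_le _ _).trans ?_
  gcongr
  exact hs_contr hO U

theorem specS1R : SpecS1R := by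
  intro ι _ _ N R hR O hO
  classical
  have hA : (N.transpose * N).IsHermitian := by
    simp [Matrix.IsHermitian, Matrix.conjTranspose_eq_transpose_of_trivial]
  let u := hA.eigenvectorBasis
  let l := hA.eigenvalues
  let I : Finset ι := Finset.univ.filter fun i => l i ≠ 0
  have hcard : (I.card : ℝ) ≤ R := by
    refine le_trans ?_ hR
    have := hA.rank_eq_card_non_zero_eigs
    rw [Matrix.rank_transpose_mul_self] at this
    rw [this, Fintype.card_subtype]
  have hu : ∀ i, Ap (N.transpose * N) (u i) = l i • u i := by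
    intro i
    ext k
    have := congrFun (hA.mulVec_eigenvectorBasis i) k
    simpa [Ap, Matrix.toLpLin_apply] using this
  have h0 : ∀ i ∉ I, Ap N (u i) = 0 := by
    intro i hi
    have hl : l i = 0 := by
      by_contra hc
      exact hi (Finset.mem_filter.2 ⟨Finset.mem_univ _, hc⟩)
    have h1 : ‖Ap N (u i)‖ ^ 2 = 0 := by
      rw [← real_inner_self_eq_norm_sq]
      have := inner_Ap N.transpose (u i) (Ap N (u i))
      rw [Matrix.transpose_transpose, ← Ap_mul, hu, hl, zero_smul, inner_zero_right] at this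
      exact this.symm
    exact norm_eq_zero.1 (pow_eq_zero_iff (two_ne_zero) |>.1 h1)
  have h1 : (O * N).trace = ∑ i ∈ I, inner ℝ (u i) (Ap O (Ap N (u i))) := by
    rw [trace_eq u]
    symm
    refine (Finset.sum_subset (Finset.subset_univ _) fun i _ hi => ?_).trans
      (Finset.sum_congr rfl fun i _ => by rw [Ap_mul])
    rw [h0 i hi, map_zero, inner_zero_right]
  have h2 : |(O * N).trace| ≤ ∑ i ∈ I, ‖Ap N (u i)‖ := by
    rw [h1]
    refine (Finset.abs_sum_le_sum_abs _ _).trans (Finset.sum_le_sum fun i _ => ?_)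
    refine (abs_real_inner_le_norm _ _).trans ?_
    rw [u.orthonormal.1 i, one_mul]
    exact norm_contr hO _
  have h3 : ∑ i ∈ I, ‖Ap N (u i)‖ ≤ √(I.card : ℝ) * √(∑ i ∈ I, ‖Ap N (u i)‖ ^ 2) := by
    rw [← Real.sqrt_mul (by positivity)]
    apply Real.le_sqrt_of_sq_le
    exact sq_sum_le_card_mul_sum_sq
  have h4 : ∑ i ∈ I, ‖Ap N (u i)‖ ^ 2 ≤ hs N := by
    refine le_trans ?_ (HS2_eq (N := N) (fun i => u i) u.orthonormal)
    exact Finset.sum_le_sum_of_subset_of_nonneg (Finset.subset_univ _) fun i _ _ => by positivity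
  refine h2.trans (h3.trans ?_)
  gcongr

end Pool.Agent.MP_e87d84
end
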