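import Pool.Agent.Lib.MP_e87d84_an.DefsC

/-!
MP_e87d84_an, Part II: the Specs.  Text: /team-store/MP_e87d84_an_PROOF.md, sections II.0 - II.9.
-/

set_option autoImplicit false

open Filter Topology

namespace Pool.Agent.MP_e87d84

open Dat

/-! ### finite dimensional lemmas (no `Dat`) -/

/-- [NF] (120 lines) comparison of norms: `l_s ≤ l_p(l_q)` for `q ≤ p ≤ s`; `l_1 ≤ (dd')^(1/6)
l_p(l_q)` for `p, q ≤ 6/5` (Hölder twice); unit vectors have norm 1 -/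
def SpecNF : Prop :=
  (∀ (α β : Type) [Fintype α] [Fintype β] (p q s : ℝ) (x : α × β → ℝ),
    1 ≤ q → q ≤ p → p ≤ s → lpn s x ≤ nF p q x) ∧
  (∀ (d d' : ℕ) (p q : ℝ) (x : Fin d × Fin d' → ℝ), 1 ≤ q → 1 ≤ p → q ≤ 6 / 5 → p ≤ 6 / 5 →
    ∑ a, |x a| ≤ ((d : ℝ) * d') ^ (1 / 6 : ℝ) * nF p q x) ∧
  (∀ (α β : Type) [Fintype α] [Fintype β] [DecidableEq α] [DecidableEq β] (p q : ℝ)
    (a : α × β), 0 < p → 0 < q → nF p q (dl a) = 1)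

/-- [HS0] (250 lines) text II.4: the key lemma.  Proof (`v = 1`; if `v = 0` then `V = 0`): columns
have `l_2`-norm `≤ l_{p1}`-norm `≤ 1`.  Call a column `a` good if `∑_l V_la² > η`.  As
`∑_l V_la² ≤ (max_l |V_la|)^(2-p1) ∑_l |V_la|^p1 ≤ (max_l |V_la|)^(2-p1)`, a good column has an
entry of modulus `≥ t := η^(1/(2-p1))`.  Let `R` be the set of rows having an entry of modulus
`≥ t`.  For all signs `∑_l |∑_a ε_a V_la|^p1 ≤ n^(p1/p)`; the average over the signs of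
`|∑_a ε_a V_la|^p1` is `≥ max_a |V_la|^p1` (flip the sign at `a`): `|R| t^p1 ≤ n^(p1/p)`.
A row has at most `t^(-p')` entries of modulus `≥ t` (`t k ≤ k^(1/p)`; `p' = p/(p-1)`).  So the
number of good columns is `≤ n^(p1/p) t^(-p1-p') ≤ n^(p1/p) η^(-16)`. -/
def SpecHS0 : Prop :=
  ∀ (n : ℕ) (Λ : Type) [Fintype Λ] (V : Matrix Λ (Fin n) ℝ) (p1 p v : ℝ),
    11 / 10 ≤ p1 → p1 < p → p ≤ 6 / 5 → 0 ≤ v →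
    (∀ x : Fin n → ℝ, lpn p1 (V.mulVec x) ≤ v * lpn p x) →
    ∀ η : ℝ, 0 < η → η ≤ 1 →
      ∑ a, ∑ l, V l a ^ 2 ≤ (n : ℝ) * v ^ 2 * (η + (n : ℝ) ^ (-(1 - p1 / p)) * (η ^ 16)⁻¹)

/-- [HSA] (100 lines) from HS0 and NF: for each `b` the vectors `δ_(a,b)`, `a ∈ Fin d`, span
`l_p^d` isometrically; the target norm is `≥` the `l_{p1}`-norm -/
def SpecHSA : Prop :=
  ∀ (d d' : ℕ) (V : (Fin d × Fin d' → ℝ) →ₗ[ℝ] (Fin d × Fin d' → ℝ)) (p q p1 q1 v : ℝ),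
    1 ≤ q → 1 ≤ q1 → q1 ≤ p1 → 11 / 10 ≤ p1 → p1 < p → p ≤ 6 / 5 → 0 ≤ v →
    (∀ x, nF p1 q1 (V x) ≤ v * nF p q x) →
    ∀ η : ℝ, 0 < η → η ≤ 1 →
      ∑ a, ∑ l, V (dl a) l ^ 2 ≤
        (d : ℝ) * d' * v ^ 2 * (η + (d : ℝ) ^ (-(1 - p1 / p)) * (η ^ 16)⁻¹)

/-- [HSB] (100 lines) from HS0: for each `a` and each `a1` the block `(a1, b1), (a, b)` of `V` is an
operator `l_q^d' → l_{q1}^d'` of norm `≤ v` -/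
def SpecHSB : Prop :=
  ∀ (d d' : ℕ) (V : (Fin d × Fin d' → ℝ) →ₗ[ℝ] (Fin d × Fin d' → ℝ)) (p q p1 q1 v : ℝ),
    1 ≤ p → 1 ≤ p1 → 11 / 10 ≤ q1 → q1 < q → q ≤ 6 / 5 → 0 ≤ v →
    (∀ x, nF p1 q1 (V x) ≤ v * nF p q x) →
    ∀ η : ℝ, 0 < η → η ≤ 1 →
      ∑ a, ∑ l, V (dl a) l ^ 2 ≤
        (d : ℝ) * d' * d * v ^ 2 * (η + (d' : ℝ) ^ (-(1 - q1 / q)) * (η ^ 16)⁻¹)

/-- [S1P] (60 lines) `|tr (O U V)| ≤ ‖O U‖_HS ‖V‖_HS ≤ ‖U‖_HS ‖V‖_HS` -/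
def SpecS1P : Prop :=
  ∀ (ι : Type) [Fintype ι] [DecidableEq ι] (U V : Matrix ι ι ℝ),
    S1le (U * V) (√(hs U) * √(hs V))

/-- [S1R] (120 lines) `N = N Π` with `Π` the orthogonal projection onto `(ker N)^⊥`, of rank
`≤ R`: `|tr (O N Π)| ≤ ‖O N‖_HS ‖Π‖_HS` (or: orthonormal basis of `(ker N)^⊥`) -/
def SpecS1R : Prop :=
  ∀ (ι : Type) [Fintype ι] [DecidableEq ι] (N : Matrix ι ι ℝ) (R : ℝ),
    (N.rank : ℝ) ≤ R → S1le N (√R * √(hs N))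

/-- [S1T] (250 lines) text II.5.  `tr (O N) = Av ⟨O^T ε, V (∑ ε_a y_a)⟩`. -/
def SpecS1T : Prop :=
  ∀ (ι : Type) [Fintype ι] [DecidableEq ι] (H : Type) [NormedAddCommGroup H] [NormedSpace ℝ H]
    (V : H →ₗ[ℝ] (ι → ℝ)) (s r v Y : ℝ) (y : ι → H),
    11 / 10 ≤ s → s ≤ 6 / 5 → 1 ≤ r → 0 ≤ v → 0 ≤ Y →
    (∀ z, lpn s (V z) ≤ v * ‖z‖) → (∀ a, ‖y a‖ ≤ Y) →
    Av (fun ε : ι → Bool => ‖∑ a, sg (ε a) • y a‖ ^ 2) ≤ (∑ a, ‖y a‖ ^ r) ^ (2 / r) →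
    S1le (fun l a => V (y a) l) (C0 * v * Y * (Fintype.card ι : ℝ) ^ (1 - (1 / s - 1 / r)))

/-- [LL] (300 lines) text II.6: the trace of an almost idempotent matrix moves at second order -/
def SpecLL : Prop :=
  ∀ (ι : Type) [Fintype ι] [DecidableEq ι] (A B : Matrix ι ι ℝ) (ν ρ : ℝ),
    0 ≤ ν → 0 < ρ → ρ ≤ 1 / 4 →
    S1le (A * A - A) (ν * Fintype.card ι) → S1le (B * B - B) (ν * Fintype.card ι) →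
    A.trace - B.trace ≤ 2 * hs (A - B) + 4 * (ρ + ν / ρ) * Fintype.card ι

/-- [RAND] (150 lines) text II.9.  (`∑_ψ ∑_i 2 cosh (l S_i(ψ)) = |X|^|Y| · 2 |I| cosh(l)^|Y|`,
`cosh l ≤ exp (l²/2)`, `l = |Y|^(-1/2)`.) -/
def SpecRAND : Prop :=
  ∀ (Y X I : Type) [Fintype Y] [Fintype X] [Fintype I] [Nonempty X] [Nonempty I]
    (v : I → Y → ℝ) (χ : I → X → ℝ),
    (∀ i y, v i y ^ 2 = 1) → (∀ i x, χ i x ^ 2 = 1) → (∀ i, ∑ x, χ i x = 0) →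
    ∃ ψ : Y → X, ∀ i, |∑ y, v i y * χ i (ψ y)| ≤
      √(Fintype.card Y : ℝ) * (Real.log (2 * Fintype.card I) + 1)

/-- [DAV] (350 lines) text II.9: the sign matrices, from RAND.  `M i = 2^(c i)`,
`d i * d' i = 2^(2 c i)`, `k i = (3 c i + 4) / √(2^(c i))`. -/
def SpecDAV : Prop :=
  ∀ (c d d' : ℕ → ℕ), (∀ i, 1 ≤ c i) → (∀ i, c (i + 1) = 2 * c i - 1) →
    (∀ i, d i * d' i = 2 ^ (2 * c i)) →
    ∃ (τ : (i : ℕ) → Fin (2 ^ c i) → Fin (d i) × Fin (d' i) → ℝ)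
      (σ : (i : ℕ) → Fin (2 ^ c (i + 1)) → Fin (d i) × Fin (d' i) → ℝ),
      (∀ i j x, τ i j x ^ 2 = 1) ∧ (∀ i j x, σ i j x ^ 2 = 1) ∧
      (∀ i j j', j ≠ j' → ∑ x, τ i j x * τ i j' x = 0) ∧
      (∀ i j j', j ≠ j' → ∑ x, σ i j x * σ i j' x = 0) ∧
      (∀ i j j', ∑ x, τ i j x * σ i j' x = 0) ∧
      (∀ i x y, x ≠ y → |∑ j, τ i j x * τ i j y| ≤
        (3 * c i + 4) / √(2 ^ c i : ℝ) * (2 ^ c i : ℝ)) ∧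
      (∀ i x y, x ≠ y → |∑ j, σ i j x * σ i j y| ≤
        (3 * c i + 4) / √(2 ^ c i : ℝ) * (2 ^ c (i + 1) : ℝ)) ∧
      (∀ i x y, |∑ j, σ i j x * τ (i + 1) j y| ≤
        (3 * c (i + 1) + 4) / √(2 ^ c (i + 1) : ℝ) * (2 ^ c (i + 1) : ℝ))

/-- [PARAM] (400 lines) text II.8: existence of good parameters, from DAV (`M i = 2^(c i)`,
`c i = 2^i + 1`, `L i = i + 2`, `d i = 2^(a i)`, ...) -/
def SpecPARAM : Prop := ∃ P : Dat, P.Good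

/-! ### the spaces `K` and `Zt` -/

/-- [KB] (250 lines) basic estimates in `K` and `Zt` (text II.0), from NF.
`nF_le_blkN`, `abs_bc_le`, `restr_norm_le`, `decomp` are already in the Defs. -/
def SpecKB : Prop :=
  ∀ (P : Dat) (i : ℕ),
    (∀ m ≤ P.L i, ∀ x, ‖P.iot i m x‖ ≤ √(2 * (P.L i : ℝ) + 1) * nF (P.p i m) (P.q i m) x) ∧
    (∀ m ≤ P.L i, ∀ f : P.K, ∑ x, bc (f i) m x ^ 2 ≤ (2 * ‖f‖) ^ 2) ∧
    (∀ f : P.K, ∑ x, (bc (f i) (P.L i) x - bc (f i) (P.L i - 1) x) ^ 2 ≤ ‖f‖ ^ 2 / P.L i) ∧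
    (∀ f : P.K, (P.L i : ℝ) * ∑ m ∈ Finset.range (P.L i),
      ∑ x, (bc (f i) (m + 1) x - bc (f i) m x) ^ 2 ≤ ‖f‖ ^ 2) ∧
    (∀ f : P.K, ∑ x, |bc (f i) (P.L i) x| ≤ P.ω i * ‖f‖) ∧
    (∀ m < P.L i, ∀ z : P.Zt, nF (P.p i m) (P.q i m) (P.co i m z) ≤ √(P.L i : ℝ) * ‖z‖) ∧
    (∀ m < P.L i, ∀ z : P.Zt, ∑ x, P.co i m z x ^ 2 ≤ (2 * ‖z‖) ^ 2)

/-- [CS] (80 lines) constant sections of different levels are orthogonal in the `l_2`-sum -/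
def SpecCS : Prop :=
  ∀ (P : Dat) (x : (i : ℕ) → P.G i) (S : Finset ℕ),
    ‖∑ i ∈ S, P.cs i (x i)‖ ≤ √2 * √(S.card : ℝ)

/-- [TY] (250 lines) text II.5: type `r` of the sum of the levels `> i` -/
def SpecTY : Prop :=
  ∀ (P : Dat) (i : ℕ) (ι : Type) [Fintype ι] [DecidableEq ι] (y : ι → P.K) (r : ℝ),
    1 ≤ r → (∀ j m, i < j → r ≤ P.q j m) → (∀ a, ∀ j ≤ i, (y a) j = 0) →
    Av (fun ε : ι → Bool => ‖∑ a, sg (ε a) • y a‖ ^ 2) ≤ (∑ a, ‖y a‖ ^ r) ^ (2 / r)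

/-- [ZDM] (400 lines) text II.0: `Zt` is a `ZD` (from WLP) -/
def SpecZDM : Prop := ∀ P : Dat, ∃ D : ZD P.Zt, D.Z' = P.Zp

/-! ### Davie part -/

/-- [KAPG] (150 lines) text II.2 -/
def SpecKAPG : Prop :=
  ∀ (P : Dat) (i : ℕ) (x : P.G (i + 1)),
    (∀ f : P.K, |P.kg i x (P.π f) - bc (f (i + 1)) (P.L (i + 1)) x| ≤ P.θ i * ‖f‖) ∧
    (∀ z : P.Zt, |P.kg i x z| ≤ (2 + P.θ i) * ‖z‖)

/-- [TEL] (250 lines) text II.2: telescoping -/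
def SpecTEL : Prop :=
  ∀ (P : Dat) (i : ℕ) (T : P.Zp →L[ℝ] P.Zt),
    |P.beta (i + 1) T - P.beta i T| ≤
      ‖T‖ * √(2 * (P.L (i + 1) : ℝ) + 1) * (P.θ i + P.ψ i)

/-- [FIN0] (120 lines) text II.2 -/
def SpecFIN0 : Prop :=
  ∀ (P : Dat), P.Good → ∀ T : P.Zp →L[ℝ] P.Zt,
    FiniteDimensional ℝ (LinearMap.range (T : P.Zp →ₗ[ℝ] P.Zt)) →
    Tendsto (fun i => P.beta i T) atTop (𝓝 0)

/-- [BETA] (150 lines) text II.2, from KAPG, TEL, FIN0 (KB for `‖zr‖`) -/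
def SpecBETA : Prop :=
  ∀ (P : Dat), P.Good → ∀ (A : P.Zt →L[ℝ] P.Zt) (b' : ℕ → P.Zp →L[ℝ] P.Zt) (𝓕 : Ultrafilter ℕ)
    (C : ℝ),
    (∀ k, FiniteDimensional ℝ (LinearMap.range (b' k : P.Zp →ₗ[ℝ] P.Zt))) →
    (∀ k, ‖b' k‖ ≤ C) →
    (∀ (z : P.Zp) (φ : P.Zt →L[ℝ] ℝ), Tendsto (fun k => φ (b' k z)) 𝓕 (𝓝 (φ ((z : P.Zt) - A z)))) →
    Tendsto (fun i => P.beta i (A.comp P.Zp.subtypeL)) atTop (𝓝 1)

/-- [FO] (250 lines) text II.3: first order lemma -/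
def SpecFO : Prop :=
  ∀ (P : Dat) (i m n : ℕ) (T : (P.G (i + 1) → ℝ) →ₗ[ℝ] P.Zt) (t : ℝ),
    m < P.L (i + 1) → 0 < n → n ∣ P.d' (i + 1) → 0 ≤ t →
    (∀ x, ‖T x‖ ≤ t * nF (P.p (i + 1) m) (P.q (i + 1) m) x) →
    |∑ x, P.kg i x (T (dl x))| ≤ P.D (i + 1) *
      (2 * t * (√(P.L (i + 1) : ℝ) * (n : ℝ) ^ (-(P.g (i + 1) / 2)) + P.θ i * n))

/-! ### the rung -/

/-- [HSE] (120 lines) text II.7, from HSA, HSB, KB -/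
def SpecHSE : Prop :=
  ∀ (P : Dat) (e : P.Zt →L[ℝ] P.Zt) (E : ℝ), ‖e‖ ≤ E → ∀ i m k, m < P.L i → k ≤ P.L i → k ≠ m →
    hs (P.em e i m k) ≤ P.D i * (4 * P.L i * E) ^ 2 * P.h i

/-- [XQ] (80 lines) text II.7, from HSE (`X_m - Q_m` is the sum of the `e_{mk}`, `k ≠ m`) -/
def SpecXQ : Prop :=
  ∀ (P : Dat) (e : P.Zt →L[ℝ] P.Zt) (E : ℝ), ‖e‖ ≤ E → ∀ i m, m < P.L i →
    hs (P.xm e i m - P.em e i m m) ≤ P.D i * (4 * P.L i ^ 2 * E) ^ 2 * P.h i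

/-- [DX] (80 lines) text II.7, from KB, CS -/
def SpecDX : Prop :=
  ∀ (P : Dat) (e : P.Zt →L[ℝ] P.Zt) (E : ℝ), ‖e‖ ≤ E → ∀ i,
    ∑ m ∈ Finset.range (P.L i - 1), hs (P.xm e i (m + 1) - P.xm e i m) ≤
      8 * E ^ 2 * P.D i / P.L i

/-- [SQ] (350 lines) text II.7, from HSE, KB, S1P, S1R, S1T, TY: `Q_m` is almost idempotent -/
def SpecSQ : Prop :=
  ∀ (P : Dat) (e : P.Zt →L[ℝ] P.Zt) (E : ℝ), (∀ z, e (e z) = e z) → ‖e‖ ≤ E → 1 ≤ E →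
    ∀ i m, m < P.L i →
      S1le (P.em e i m m * P.em e i m m - P.em e i m m) (P.nu i E * P.D i)

/-- [RUN] (150 lines) text II.7, from LL, SQ, XQ, DX (`ρ = √ν`) -/
def SpecRUN : Prop :=
  ∀ (P : Dat) (e : P.Zt →L[ℝ] P.Zt) (E : ℝ), (∀ z, e (e z) = e z) → ‖e‖ ≤ E → 1 ≤ E →
    ∀ i, P.nu i E ≤ 1 / 16 →
      (P.em e i (P.L i - 1) (P.L i - 1)).trace - (P.em e i 0 0).trace ≤
        P.D i * (48 * E ^ 2 / P.L i + 192 * P.L i ^ 5 * E ^ 2 * P.h i +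
          8 * P.L i * √(P.nu i E))

/-- [X0] (80 lines) text II.7: left end, from XQ, KB -/
def SpecX0 : Prop :=
  ∀ (P : Dat) (A κ : P.Zt →L[ℝ] P.Zt) (E c : ℝ), ‖A - κ‖ ≤ E → (∀ z, A z ∈ P.Zp) → ∀ i,
    (∀ x : P.G i, ‖κ (P.π (P.cs i x))‖ ≤ c) →
    |(P.em (A - κ) i 0 0).trace| ≤ P.D i * (2 * c + 4 * P.L i ^ 2 * E * √(P.h i))

/-- [XL] (150 lines) text II.7: right end, from XQ, KB, CS, KAPG -/
def SpecXL : Prop :=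
  ∀ (P : Dat) (e : P.Zt →L[ℝ] P.Zt) (E : ℝ), ‖e‖ ≤ E → ∀ i,
    ∑ x : P.G (i + 1), P.kg i x (e (P.π (P.cs (i + 1) x))) ≤
      (P.em e (i + 1) (P.L (i + 1) - 1) (P.L (i + 1) - 1)).trace +
        P.D (i + 1) * (4 * E * (P.θ i + 1 / √(P.L (i + 1) : ℝ)) +
          4 * P.L (i + 1) ^ 2 * E * √(P.h (i + 1)))

/-- [TOP] (200 lines) text II.7 (end): contradiction, from BETA, FO, RUN, X0, XL, KAPG, CS -/
def SpecII : Prop :=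
  ∀ (P : Dat), P.Good → ∀ D : ZD P.Zt, D.Z' = P.Zp → ¬ Nonempty (Obs P.Zt D)

end Pool.Agent.MP_e87d84
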